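import Pool.Agent.Lib_helper4.CW.Ker

/-!
Constant words, all letters at once: data types.
-/

namespace Pool.Agent.LibH4.CX

/-- record of a letter and a first state -/
structure Rc where
  /-- modulus -/
  n : ℕ
  /-- letter -/
  a : ℕ
  /-- first coordinate of the first state -/
  x1 : ℕ
  /-- second coordinate of the first state -/
  x2 : ℕ
  /-- period -/
  pi : ℕ
  /-- orbit -/
  orb : ℕ

/-- data of a relation -/
structure RN where
  /-- modulus of the values -/
  l : ℕ
  /-- first character -/
  t1 : ℕ
  /-- second character -/
  t2 : ℕ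
  /-- third character -/
  t3 : ℕ
  /-- length of the third component -/
  len3 : ℕ
  /-- width of a row -/
  w : ℕ
  /-- base of the rows -/
  V : ℕ
  /-- rows -/
  RX : ℕ
  /-- rows -/
  RY : ℕ
  /-- width of a field -/
  F : ℕ
  /-- mask of a slot -/
  ms : ℕ
  /-- width of a digit -/
  w2 : ℕ
  /-- mask of a field -/
  mF : ℕ

/-- states -/
inductive Tr where
  /-- nothing -/
  | nil
  /-- a state and further states -/
  | st (n K : ℕ) (t : Tr)

/-- states of three records -/
structure E3 where
  /-- record modulo `13` -/
  r13 : Rc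
  /-- record modulo `7` -/
  r7 : Rc
  /-- record modulo `5` -/
  r5 : Rc
  /-- states -/
  s : Tr

/-- states of five records -/
structure E5 where
  /-- record modulo `13` -/
  r13 : Rc
  /-- record modulo `7` -/
  r7 : Rc
  /-- record modulo `5` -/
  r5 : Rc
  /-- record modulo `8` -/
  r8 : Rc
  /-- record modulo `4` -/
  r4 : Rc
  /-- states -/
  s : Tr

/-- states of seven records -/
structure E7 where
  /-- record modulo `17` -/
  r17 : Rc
  /-- record modulo `13` -/
  r13 : Rc
  /-- record modulo `7` -/
  r7 : Rc
  /-- record modulo `5` -/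
  r5 : Rc
  /-- record modulo `8` -/
  r8 : Rc
  /-- record modulo `4` -/
  r4 : Rc
  /-- record modulo `11` -/
  r11 : Rc
  /-- states -/
  s : Tr

end Pool.Agent.LibH4.CX
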