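import Pool.Agent.Lib_helper4.CX.Bas
import Pool.Agent.Lib_helper4.CX.RecO

/-!
Constant words, all letters at once: results of the first stage, odd parity.
-/

namespace Pool.Agent.LibH4.CX

/-- entries -/
def EA0 : List E3 := []

/-- entries -/
def EA1 : List E3 := []

/-- entries -/
def EA2 : List E3 := [⟨r13o_2, r7o_1, r5o_0, (.st (nat_lit 1) (nat_lit 2) (.st (nat_lit 0) (nat_lit 2) .nil))⟩,
  ⟨r13o_2, r7o_1, r5o_2, (.st (nat_lit 129) (nat_lit 130) (.st (nat_lit 0) (nat_lit 130) .nil))⟩,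
  ⟨r13o_2, r7o_1, r5o_3, (.st (nat_lit 65) (nat_lit 130) (.st (nat_lit 64) (nat_lit 130) .nil))⟩,
  ⟨r13o_2, r7o_1, r5o_4, (.st (nat_lit 25) (nat_lit 26) (.st (nat_lit 0) (nat_lit 26) .nil))⟩,
  ⟨r13o_2, r7o_1, r5o_5, (.st (nat_lit 39) (nat_lit 78) (.st (nat_lit 38) (nat_lit 78) .nil))⟩,
  ⟨r13o_2, r7o_1, r5o_6, (.st (nat_lit 77) (nat_lit 78) (.st (nat_lit 0) (nat_lit 78) .nil))⟩,
  ⟨r13o_2, r7o_1, r5o_7, (.st (nat_lit 13) (nat_lit 26) (.st (nat_lit 12) (nat_lit 26) .nil))⟩,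
  ⟨r13o_2, r7o_1, r5o_8, (.st (nat_lit 129) (nat_lit 130) (.st (nat_lit 0) (nat_lit 130) .nil))⟩,
  ⟨r13o_2, r7o_1, r5o_9, (.st (nat_lit 65) (nat_lit 130) (.st (nat_lit 64) (nat_lit 130) .nil))⟩,
  ⟨r13o_2, r7o_5, r5o_0, (.st (nat_lit 103) (nat_lit 104) (.st (nat_lit 51) (nat_lit 104) (.st (nat_lit 52) (nat_lit 104) (.st (nat_lit 0) (nat_lit 104) .nil))))⟩,
  ⟨r13o_2, r7o_5, r5o_2, (.st (nat_lit 519) (nat_lit 520) (.st (nat_lit 259) (nat_lit 520) (.st (nat_lit 260) (nat_lit 520) (.st (nat_lit 0) (nat_lit 520) .nil))))⟩,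
  ⟨r13o_2, r7o_5, r5o_4, (.st (nat_lit 103) (nat_lit 104) (.st (nat_lit 51) (nat_lit 104) (.st (nat_lit 52) (nat_lit 104) (.st (nat_lit 0) (nat_lit 104) .nil))))⟩,
  ⟨r13o_2, r7o_5, r5o_6, (.st (nat_lit 311) (nat_lit 312) (.st (nat_lit 155) (nat_lit 312) (.st (nat_lit 156) (nat_lit 312) (.st (nat_lit 0) (nat_lit 312) .nil))))⟩,
  ⟨r13o_2, r7o_5, r5o_8, (.st (nat_lit 519) (nat_lit 520) (.st (nat_lit 259) (nat_lit 520) (.st (nat_lit 260) (nat_lit 520) (.st (nat_lit 0) (nat_lit 520) .nil))))⟩,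
  ⟨r13o_2, r7o_8, r5o_0, (.st (nat_lit 39) (nat_lit 78) (.st (nat_lit 38) (nat_lit 78) .nil))⟩,
  ⟨r13o_2, r7o_8, r5o_3, (.st (nat_lit 195) (nat_lit 390) (.st (nat_lit 194) (nat_lit 390) .nil))⟩,
  ⟨r13o_2, r7o_8, r5o_5, (.st (nat_lit 39) (nat_lit 78) (.st (nat_lit 38) (nat_lit 78) .nil))⟩,
  ⟨r13o_2, r7o_8, r5o_7, (.st (nat_lit 39) (nat_lit 78) (.st (nat_lit 38) (nat_lit 78) .nil))⟩,
  ⟨r13o_2, r7o_8, r5o_9, (.st (nat_lit 195) (nat_lit 390) (.st (nat_lit 194) (nat_lit 390) .nil))⟩,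
  ⟨r13o_2, r7o_9, r5o_0, (.st (nat_lit 77) (nat_lit 78) (.st (nat_lit 0) (nat_lit 78) .nil))⟩,
  ⟨r13o_2, r7o_9, r5o_2, (.st (nat_lit 389) (nat_lit 390) (.st (nat_lit 0) (nat_lit 390) .nil))⟩,
  ⟨r13o_2, r7o_9, r5o_4, (.st (nat_lit 77) (nat_lit 78) (.st (nat_lit 0) (nat_lit 78) .nil))⟩,
  ⟨r13o_2, r7o_9, r5o_6, (.st (nat_lit 77) (nat_lit 78) (.st (nat_lit 0) (nat_lit 78) .nil))⟩,
  ⟨r13o_2, r7o_9, r5o_8, (.st (nat_lit 389) (nat_lit 390) (.st (nat_lit 0) (nat_lit 390) .nil))⟩,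
  ⟨r13o_2, r7o_13, r5o_0, (.st (nat_lit 25) (nat_lit 26) (.st (nat_lit 0) (nat_lit 26) .nil))⟩,
  ⟨r13o_2, r7o_13, r5o_2, (.st (nat_lit 129) (nat_lit 130) (.st (nat_lit 0) (nat_lit 130) .nil))⟩,
  ⟨r13o_2, r7o_13, r5o_4, (.st (nat_lit 25) (nat_lit 26) (.st (nat_lit 0) (nat_lit 26) .nil))⟩,
  ⟨r13o_2, r7o_13, r5o_6, (.st (nat_lit 77) (nat_lit 78) (.st (nat_lit 0) (nat_lit 78) .nil))⟩,
  ⟨r13o_2, r7o_13, r5o_8, (.st (nat_lit 129) (nat_lit 130) (.st (nat_lit 0) (nat_lit 130) .nil))⟩,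
  ⟨r13o_2, r7o_16, r5o_0, (.st (nat_lit 51) (nat_lit 104) (.st (nat_lit 52) (nat_lit 104) .nil))⟩,
  ⟨r13o_2, r7o_16, r5o_2, (.st (nat_lit 259) (nat_lit 520) (.st (nat_lit 260) (nat_lit 520) .nil))⟩,
  ⟨r13o_2, r7o_16, r5o_4, (.st (nat_lit 51) (nat_lit 104) (.st (nat_lit 52) (nat_lit 104) .nil))⟩,
  ⟨r13o_2, r7o_16, r5o_6, (.st (nat_lit 155) (nat_lit 312) (.st (nat_lit 156) (nat_lit 312) .nil))⟩,
  ⟨r13o_2, r7o_16, r5o_8, (.st (nat_lit 259) (nat_lit 520) (.st (nat_lit 260) (nat_lit 520) .nil))⟩,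
  ⟨r13o_2, r7o_17, r5o_0, (.st (nat_lit 103) (nat_lit 104) (.st (nat_lit 0) (nat_lit 104) .nil))⟩,
  ⟨r13o_2, r7o_17, r5o_2, (.st (nat_lit 519) (nat_lit 520) (.st (nat_lit 0) (nat_lit 520) .nil))⟩,
  ⟨r13o_2, r7o_17, r5o_4, (.st (nat_lit 103) (nat_lit 104) (.st (nat_lit 0) (nat_lit 104) .nil))⟩,
  ⟨r13o_2, r7o_17, r5o_6, (.st (nat_lit 311) (nat_lit 312) (.st (nat_lit 0) (nat_lit 312) .nil))⟩,
  ⟨r13o_2, r7o_17, r5o_8, (.st (nat_lit 519) (nat_lit 520) (.st (nat_lit 0) (nat_lit 520) .nil))⟩,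
  ⟨r13o_2, r7o_18, r5o_0, (.st (nat_lit 13) (nat_lit 26) (.st (nat_lit 12) (nat_lit 26) .nil))⟩,
  ⟨r13o_2, r7o_18, r5o_3, (.st (nat_lit 65) (nat_lit 130) (.st (nat_lit 64) (nat_lit 130) .nil))⟩,
  ⟨r13o_2, r7o_18, r5o_5, (.st (nat_lit 39) (nat_lit 78) (.st (nat_lit 38) (nat_lit 78) .nil))⟩,
  ⟨r13o_2, r7o_18, r5o_7, (.st (nat_lit 13) (nat_lit 26) (.st (nat_lit 12) (nat_lit 26) .nil))⟩,
  ⟨r13o_2, r7o_18, r5o_9, (.st (nat_lit 65) (nat_lit 130) (.st (nat_lit 64) (nat_lit 130) .nil))⟩,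
  ⟨r13o_2, r7o_20, r5o_0, (.st (nat_lit 39) (nat_lit 78) (.st (nat_lit 38) (nat_lit 78) .nil))⟩,
  ⟨r13o_2, r7o_20, r5o_3, (.st (nat_lit 195) (nat_lit 390) (.st (nat_lit 194) (nat_lit 390) .nil))⟩,
  ⟨r13o_2, r7o_20, r5o_5, (.st (nat_lit 39) (nat_lit 78) (.st (nat_lit 38) (nat_lit 78) .nil))⟩,
  ⟨r13o_2, r7o_20, r5o_7, (.st (nat_lit 39) (nat_lit 78) (.st (nat_lit 38) (nat_lit 78) .nil))⟩,
  ⟨r13o_2, r7o_20, r5o_9, (.st (nat_lit 195) (nat_lit 390) (.st (nat_lit 194) (nat_lit 390) .nil))⟩,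
  ⟨r13o_2, r7o_21, r5o_0, (.st (nat_lit 77) (nat_lit 78) (.st (nat_lit 0) (nat_lit 78) .nil))⟩,
  ⟨r13o_2, r7o_21, r5o_2, (.st (nat_lit 389) (nat_lit 390) (.st (nat_lit 0) (nat_lit 390) .nil))⟩,
  ⟨r13o_2, r7o_21, r5o_4, (.st (nat_lit 77) (nat_lit 78) (.st (nat_lit 0) (nat_lit 78) .nil))⟩,
  ⟨r13o_2, r7o_21, r5o_6, (.st (nat_lit 77) (nat_lit 78) (.st (nat_lit 0) (nat_lit 78) .nil))⟩,
  ⟨r13o_2, r7o_21, r5o_8, (.st (nat_lit 389) (nat_lit 390) (.st (nat_lit 0) (nat_lit 390) .nil))⟩,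
  ⟨r13o_2, r7o_24, r5o_0, (.st (nat_lit 51) (nat_lit 104) (.st (nat_lit 52) (nat_lit 104) .nil))⟩,
  ⟨r13o_2, r7o_24, r5o_2, (.st (nat_lit 259) (nat_lit 520) (.st (nat_lit 260) (nat_lit 520) .nil))⟩,
  ⟨r13o_2, r7o_24, r5o_4, (.st (nat_lit 51) (nat_lit 104) (.st (nat_lit 52) (nat_lit 104) .nil))⟩,
  ⟨r13o_2, r7o_24, r5o_6, (.st (nat_lit 155) (nat_lit 312) (.st (nat_lit 156) (nat_lit 312) .nil))⟩,
  ⟨r13o_2, r7o_24, r5o_8, (.st (nat_lit 259) (nat_lit 520) (.st (nat_lit 260) (nat_lit 520) .nil))⟩,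
  ⟨r13o_2, r7o_25, r5o_0, (.st (nat_lit 103) (nat_lit 104) (.st (nat_lit 0) (nat_lit 104) .nil))⟩,
  ⟨r13o_2, r7o_25, r5o_2, (.st (nat_lit 519) (nat_lit 520) (.st (nat_lit 0) (nat_lit 520) .nil))⟩,
  ⟨r13o_2, r7o_25, r5o_4, (.st (nat_lit 103) (nat_lit 104) (.st (nat_lit 0) (nat_lit 104) .nil))⟩,
  ⟨r13o_2, r7o_25, r5o_6, (.st (nat_lit 311) (nat_lit 312) (.st (nat_lit 0) (nat_lit 312) .nil))⟩,
  ⟨r13o_2, r7o_25, r5o_8, (.st (nat_lit 519) (nat_lit 520) (.st (nat_lit 0) (nat_lit 520) .nil))⟩]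

/-- entries -/
def EA3 : List E3 := [⟨r13o_3, r7o_2, r5o_1, (.st (nat_lit 1) (nat_lit 2) (.st (nat_lit 0) (nat_lit 2) .nil))⟩,
  ⟨r13o_3, r7o_2, r5o_2, (.st (nat_lit 65) (nat_lit 130) (.st (nat_lit 64) (nat_lit 130) .nil))⟩,
  ⟨r13o_3, r7o_2, r5o_3, (.st (nat_lit 129) (nat_lit 130) (.st (nat_lit 0) (nat_lit 130) .nil))⟩,
  ⟨r13o_3, r7o_2, r5o_4, (.st (nat_lit 13) (nat_lit 26) (.st (nat_lit 12) (nat_lit 26) .nil))⟩,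
  ⟨r13o_3, r7o_2, r5o_5, (.st (nat_lit 77) (nat_lit 78) (.st (nat_lit 0) (nat_lit 78) .nil))⟩,
  ⟨r13o_3, r7o_2, r5o_6, (.st (nat_lit 39) (nat_lit 78) (.st (nat_lit 38) (nat_lit 78) .nil))⟩,
  ⟨r13o_3, r7o_2, r5o_7, (.st (nat_lit 25) (nat_lit 26) (.st (nat_lit 0) (nat_lit 26) .nil))⟩,
  ⟨r13o_3, r7o_2, r5o_8, (.st (nat_lit 65) (nat_lit 130) (.st (nat_lit 64) (nat_lit 130) .nil))⟩,
  ⟨r13o_3, r7o_2, r5o_9, (.st (nat_lit 129) (nat_lit 130) (.st (nat_lit 0) (nat_lit 130) .nil))⟩,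
  ⟨r13o_3, r7o_6, r5o_1, (.st (nat_lit 103) (nat_lit 104) (.st (nat_lit 0) (nat_lit 104) .nil))⟩,
  ⟨r13o_3, r7o_6, r5o_3, (.st (nat_lit 519) (nat_lit 520) (.st (nat_lit 0) (nat_lit 520) .nil))⟩,
  ⟨r13o_3, r7o_6, r5o_5, (.st (nat_lit 311) (nat_lit 312) (.st (nat_lit 0) (nat_lit 312) .nil))⟩,
  ⟨r13o_3, r7o_6, r5o_7, (.st (nat_lit 103) (nat_lit 104) (.st (nat_lit 0) (nat_lit 104) .nil))⟩,
  ⟨r13o_3, r7o_6, r5o_9, (.st (nat_lit 519) (nat_lit 520) (.st (nat_lit 0) (nat_lit 520) .nil))⟩,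
  ⟨r13o_3, r7o_7, r5o_1, (.st (nat_lit 51) (nat_lit 104) (.st (nat_lit 52) (nat_lit 104) .nil))⟩,
  ⟨r13o_3, r7o_7, r5o_3, (.st (nat_lit 259) (nat_lit 520) (.st (nat_lit 260) (nat_lit 520) .nil))⟩,
  ⟨r13o_3, r7o_7, r5o_5, (.st (nat_lit 155) (nat_lit 312) (.st (nat_lit 156) (nat_lit 312) .nil))⟩,
  ⟨r13o_3, r7o_7, r5o_7, (.st (nat_lit 51) (nat_lit 104) (.st (nat_lit 52) (nat_lit 104) .nil))⟩,
  ⟨r13o_3, r7o_7, r5o_9, (.st (nat_lit 259) (nat_lit 520) (.st (nat_lit 260) (nat_lit 520) .nil))⟩,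
  ⟨r13o_3, r7o_10, r5o_1, (.st (nat_lit 77) (nat_lit 78) (.st (nat_lit 0) (nat_lit 78) .nil))⟩,
  ⟨r13o_3, r7o_10, r5o_3, (.st (nat_lit 389) (nat_lit 390) (.st (nat_lit 0) (nat_lit 390) .nil))⟩,
  ⟨r13o_3, r7o_10, r5o_5, (.st (nat_lit 77) (nat_lit 78) (.st (nat_lit 0) (nat_lit 78) .nil))⟩,
  ⟨r13o_3, r7o_10, r5o_7, (.st (nat_lit 77) (nat_lit 78) (.st (nat_lit 0) (nat_lit 78) .nil))⟩,
  ⟨r13o_3, r7o_10, r5o_9, (.st (nat_lit 389) (nat_lit 390) (.st (nat_lit 0) (nat_lit 390) .nil))⟩,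
  ⟨r13o_3, r7o_11, r5o_1, (.st (nat_lit 39) (nat_lit 78) (.st (nat_lit 38) (nat_lit 78) .nil))⟩,
  ⟨r13o_3, r7o_11, r5o_2, (.st (nat_lit 195) (nat_lit 390) (.st (nat_lit 194) (nat_lit 390) .nil))⟩,
  ⟨r13o_3, r7o_11, r5o_4, (.st (nat_lit 39) (nat_lit 78) (.st (nat_lit 38) (nat_lit 78) .nil))⟩,
  ⟨r13o_3, r7o_11, r5o_6, (.st (nat_lit 39) (nat_lit 78) (.st (nat_lit 38) (nat_lit 78) .nil))⟩,
  ⟨r13o_3, r7o_11, r5o_8, (.st (nat_lit 195) (nat_lit 390) (.st (nat_lit 194) (nat_lit 390) .nil))⟩,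
  ⟨r13o_3, r7o_13, r5o_1, (.st (nat_lit 13) (nat_lit 26) (.st (nat_lit 12) (nat_lit 26) .nil))⟩,
  ⟨r13o_3, r7o_13, r5o_2, (.st (nat_lit 65) (nat_lit 130) (.st (nat_lit 64) (nat_lit 130) .nil))⟩,
  ⟨r13o_3, r7o_13, r5o_4, (.st (nat_lit 13) (nat_lit 26) (.st (nat_lit 12) (nat_lit 26) .nil))⟩,
  ⟨r13o_3, r7o_13, r5o_6, (.st (nat_lit 39) (nat_lit 78) (.st (nat_lit 38) (nat_lit 78) .nil))⟩,
  ⟨r13o_3, r7o_13, r5o_8, (.st (nat_lit 65) (nat_lit 130) (.st (nat_lit 64) (nat_lit 130) .nil))⟩,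
  ⟨r13o_3, r7o_14, r5o_1, (.st (nat_lit 103) (nat_lit 104) (.st (nat_lit 0) (nat_lit 104) .nil))⟩,
  ⟨r13o_3, r7o_14, r5o_3, (.st (nat_lit 519) (nat_lit 520) (.st (nat_lit 0) (nat_lit 520) .nil))⟩,
  ⟨r13o_3, r7o_14, r5o_5, (.st (nat_lit 311) (nat_lit 312) (.st (nat_lit 0) (nat_lit 312) .nil))⟩,
  ⟨r13o_3, r7o_14, r5o_7, (.st (nat_lit 103) (nat_lit 104) (.st (nat_lit 0) (nat_lit 104) .nil))⟩,
  ⟨r13o_3, r7o_14, r5o_9, (.st (nat_lit 519) (nat_lit 520) (.st (nat_lit 0) (nat_lit 520) .nil))⟩,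
  ⟨r13o_3, r7o_15, r5o_1, (.st (nat_lit 51) (nat_lit 104) (.st (nat_lit 52) (nat_lit 104) .nil))⟩,
  ⟨r13o_3, r7o_15, r5o_3, (.st (nat_lit 259) (nat_lit 520) (.st (nat_lit 260) (nat_lit 520) .nil))⟩,
  ⟨r13o_3, r7o_15, r5o_5, (.st (nat_lit 155) (nat_lit 312) (.st (nat_lit 156) (nat_lit 312) .nil))⟩,
  ⟨r13o_3, r7o_15, r5o_7, (.st (nat_lit 51) (nat_lit 104) (.st (nat_lit 52) (nat_lit 104) .nil))⟩,
  ⟨r13o_3, r7o_15, r5o_9, (.st (nat_lit 259) (nat_lit 520) (.st (nat_lit 260) (nat_lit 520) .nil))⟩,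
  ⟨r13o_3, r7o_18, r5o_1, (.st (nat_lit 25) (nat_lit 26) (.st (nat_lit 0) (nat_lit 26) .nil))⟩,
  ⟨r13o_3, r7o_18, r5o_3, (.st (nat_lit 129) (nat_lit 130) (.st (nat_lit 0) (nat_lit 130) .nil))⟩,
  ⟨r13o_3, r7o_18, r5o_5, (.st (nat_lit 77) (nat_lit 78) (.st (nat_lit 0) (nat_lit 78) .nil))⟩,
  ⟨r13o_3, r7o_18, r5o_7, (.st (nat_lit 25) (nat_lit 26) (.st (nat_lit 0) (nat_lit 26) .nil))⟩,
  ⟨r13o_3, r7o_18, r5o_9, (.st (nat_lit 129) (nat_lit 130) (.st (nat_lit 0) (nat_lit 130) .nil))⟩,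
  ⟨r13o_3, r7o_22, r5o_1, (.st (nat_lit 77) (nat_lit 78) (.st (nat_lit 0) (nat_lit 78) .nil))⟩,
  ⟨r13o_3, r7o_22, r5o_3, (.st (nat_lit 389) (nat_lit 390) (.st (nat_lit 0) (nat_lit 390) .nil))⟩,
  ⟨r13o_3, r7o_22, r5o_5, (.st (nat_lit 77) (nat_lit 78) (.st (nat_lit 0) (nat_lit 78) .nil))⟩,
  ⟨r13o_3, r7o_22, r5o_7, (.st (nat_lit 77) (nat_lit 78) (.st (nat_lit 0) (nat_lit 78) .nil))⟩,
  ⟨r13o_3, r7o_22, r5o_9, (.st (nat_lit 389) (nat_lit 390) (.st (nat_lit 0) (nat_lit 390) .nil))⟩,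
  ⟨r13o_3, r7o_23, r5o_1, (.st (nat_lit 39) (nat_lit 78) (.st (nat_lit 38) (nat_lit 78) .nil))⟩,
  ⟨r13o_3, r7o_23, r5o_2, (.st (nat_lit 195) (nat_lit 390) (.st (nat_lit 194) (nat_lit 390) .nil))⟩,
  ⟨r13o_3, r7o_23, r5o_4, (.st (nat_lit 39) (nat_lit 78) (.st (nat_lit 38) (nat_lit 78) .nil))⟩,
  ⟨r13o_3, r7o_23, r5o_6, (.st (nat_lit 39) (nat_lit 78) (.st (nat_lit 38) (nat_lit 78) .nil))⟩,
  ⟨r13o_3, r7o_23, r5o_8, (.st (nat_lit 195) (nat_lit 390) (.st (nat_lit 194) (nat_lit 390) .nil))⟩,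
  ⟨r13o_3, r7o_26, r5o_1, (.st (nat_lit 103) (nat_lit 104) (.st (nat_lit 51) (nat_lit 104) (.st (nat_lit 52) (nat_lit 104) (.st (nat_lit 0) (nat_lit 104) .nil))))⟩,
  ⟨r13o_3, r7o_26, r5o_3, (.st (nat_lit 519) (nat_lit 520) (.st (nat_lit 259) (nat_lit 520) (.st (nat_lit 260) (nat_lit 520) (.st (nat_lit 0) (nat_lit 520) .nil))))⟩,
  ⟨r13o_3, r7o_26, r5o_5, (.st (nat_lit 311) (nat_lit 312) (.st (nat_lit 155) (nat_lit 312) (.st (nat_lit 156) (nat_lit 312) (.st (nat_lit 0) (nat_lit 312) .nil))))⟩,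
  ⟨r13o_3, r7o_26, r5o_7, (.st (nat_lit 103) (nat_lit 104) (.st (nat_lit 51) (nat_lit 104) (.st (nat_lit 52) (nat_lit 104) (.st (nat_lit 0) (nat_lit 104) .nil))))⟩,
  ⟨r13o_3, r7o_26, r5o_9, (.st (nat_lit 519) (nat_lit 520) (.st (nat_lit 259) (nat_lit 520) (.st (nat_lit 260) (nat_lit 520) (.st (nat_lit 0) (nat_lit 520) .nil))))⟩]

/-- entries -/
def EA4 : List E3 := []

/-- entries -/
def EA5 : List E3 := []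

/-- entries -/
def EA6 : List E3 := [⟨r13o_6, r7o_4, r5o_2, (.st (nat_lit 2) (nat_lit 5) .nil)⟩,
  ⟨r13o_6, r7o_4, r5o_3, (.st (nat_lit 2) (nat_lit 5) .nil)⟩]

/-- entries -/
def EA7 : List E3 := [⟨r13o_7, r7o_4, r5o_2, (.st (nat_lit 17) (nat_lit 35) .nil)⟩,
  ⟨r13o_7, r7o_4, r5o_3, (.st (nat_lit 17) (nat_lit 35) .nil)⟩]

/-- entries -/
def EA8 : List E3 := [⟨r13o_8, r7o_1, r5o_0, (.st (nat_lit 181) (nat_lit 182) (.st (nat_lit 0) (nat_lit 182) .nil))⟩,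
  ⟨r13o_8, r7o_1, r5o_2, (.st (nat_lit 909) (nat_lit 910) (.st (nat_lit 0) (nat_lit 910) .nil))⟩,
  ⟨r13o_8, r7o_1, r5o_4, (.st (nat_lit 181) (nat_lit 182) (.st (nat_lit 0) (nat_lit 182) .nil))⟩,
  ⟨r13o_8, r7o_1, r5o_6, (.st (nat_lit 545) (nat_lit 546) (.st (nat_lit 0) (nat_lit 546) .nil))⟩,
  ⟨r13o_8, r7o_1, r5o_8, (.st (nat_lit 909) (nat_lit 910) (.st (nat_lit 0) (nat_lit 910) .nil))⟩,
  ⟨r13o_8, r7o_2, r5o_1, (.st (nat_lit 90) (nat_lit 182) (.st (nat_lit 91) (nat_lit 182) .nil))⟩,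
  ⟨r13o_8, r7o_2, r5o_2, (.st (nat_lit 454) (nat_lit 910) (.st (nat_lit 455) (nat_lit 910) .nil))⟩,
  ⟨r13o_8, r7o_2, r5o_4, (.st (nat_lit 90) (nat_lit 182) (.st (nat_lit 91) (nat_lit 182) .nil))⟩,
  ⟨r13o_8, r7o_2, r5o_6, (.st (nat_lit 272) (nat_lit 546) (.st (nat_lit 273) (nat_lit 546) .nil))⟩,
  ⟨r13o_8, r7o_2, r5o_8, (.st (nat_lit 454) (nat_lit 910) (.st (nat_lit 455) (nat_lit 910) .nil))⟩,
  ⟨r13o_8, r7o_4, r5o_2, (.st (nat_lit 17) (nat_lit 35) .nil)⟩,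
  ⟨r13o_8, r7o_4, r5o_3, (.st (nat_lit 17) (nat_lit 35) .nil)⟩,
  ⟨r13o_8, r7o_5, r5o_0, (.st (nat_lit 727) (nat_lit 728) (.st (nat_lit 363) (nat_lit 728) (.st (nat_lit 364) (nat_lit 728) (.st (nat_lit 0) (nat_lit 728) .nil))))⟩,
  ⟨r13o_8, r7o_5, r5o_2, (.st (nat_lit 279) (nat_lit 280) (.st (nat_lit 139) (nat_lit 280) (.st (nat_lit 140) (nat_lit 280) (.st (nat_lit 0) (nat_lit 280) .nil))))⟩,
  ⟨r13o_8, r7o_5, r5o_4, (.st (nat_lit 727) (nat_lit 728) (.st (nat_lit 363) (nat_lit 728) (.st (nat_lit 364) (nat_lit 728) (.st (nat_lit 0) (nat_lit 728) .nil))))⟩,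
  ⟨r13o_8, r7o_5, r5o_6, (.st (nat_lit 2183) (nat_lit 2184) (.st (nat_lit 1091) (nat_lit 2184) (.st (nat_lit 1092) (nat_lit 2184) (.st (nat_lit 0) (nat_lit 2184) .nil))))⟩,
  ⟨r13o_8, r7o_5, r5o_8, (.st (nat_lit 3639) (nat_lit 3640) (.st (nat_lit 1819) (nat_lit 3640) (.st (nat_lit 1820) (nat_lit 3640) (.st (nat_lit 0) (nat_lit 3640) .nil))))⟩,
  ⟨r13o_8, r7o_9, r5o_0, (.st (nat_lit 545) (nat_lit 546) (.st (nat_lit 0) (nat_lit 546) .nil))⟩,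
  ⟨r13o_8, r7o_9, r5o_2, (.st (nat_lit 2729) (nat_lit 2730) (.st (nat_lit 0) (nat_lit 2730) .nil))⟩,
  ⟨r13o_8, r7o_9, r5o_4, (.st (nat_lit 545) (nat_lit 546) (.st (nat_lit 0) (nat_lit 546) .nil))⟩,
  ⟨r13o_8, r7o_9, r5o_6, (.st (nat_lit 545) (nat_lit 546) (.st (nat_lit 0) (nat_lit 546) .nil))⟩,
  ⟨r13o_8, r7o_9, r5o_8, (.st (nat_lit 2729) (nat_lit 2730) (.st (nat_lit 0) (nat_lit 2730) .nil))⟩,
  ⟨r13o_8, r7o_11, r5o_1, (.st (nat_lit 272) (nat_lit 546) (.st (nat_lit 273) (nat_lit 546) .nil))⟩,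
  ⟨r13o_8, r7o_11, r5o_2, (.st (nat_lit 1364) (nat_lit 2730) (.st (nat_lit 1365) (nat_lit 2730) .nil))⟩,
  ⟨r13o_8, r7o_11, r5o_4, (.st (nat_lit 272) (nat_lit 546) (.st (nat_lit 273) (nat_lit 546) .nil))⟩,
  ⟨r13o_8, r7o_11, r5o_6, (.st (nat_lit 272) (nat_lit 546) (.st (nat_lit 273) (nat_lit 546) .nil))⟩,
  ⟨r13o_8, r7o_11, r5o_8, (.st (nat_lit 1364) (nat_lit 2730) (.st (nat_lit 1365) (nat_lit 2730) .nil))⟩,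
  ⟨r13o_8, r7o_13, r5o_0, (.st (nat_lit 181) (nat_lit 182) (.st (nat_lit 0) (nat_lit 182) .nil))⟩,
  ⟨r13o_8, r7o_13, r5o_1, (.st (nat_lit 90) (nat_lit 182) (.st (nat_lit 91) (nat_lit 182) .nil))⟩,
  ⟨r13o_8, r7o_13, r5o_2, (.st (nat_lit 454) (nat_lit 455) (.st (nat_lit 0) (nat_lit 455) .nil))⟩,
  ⟨r13o_8, r7o_13, r5o_4, (.st (nat_lit 90) (nat_lit 91) (.st (nat_lit 0) (nat_lit 91) .nil))⟩,
  ⟨r13o_8, r7o_13, r5o_6, (.st (nat_lit 272) (nat_lit 273) (.st (nat_lit 0) (nat_lit 273) .nil))⟩,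
  ⟨r13o_8, r7o_13, r5o_8, (.st (nat_lit 454) (nat_lit 455) (.st (nat_lit 0) (nat_lit 455) .nil))⟩,
  ⟨r13o_8, r7o_16, r5o_0, (.st (nat_lit 363) (nat_lit 728) (.st (nat_lit 364) (nat_lit 728) .nil))⟩,
  ⟨r13o_8, r7o_16, r5o_2, (.st (nat_lit 1819) (nat_lit 3640) (.st (nat_lit 1820) (nat_lit 3640) .nil))⟩,
  ⟨r13o_8, r7o_16, r5o_4, (.st (nat_lit 363) (nat_lit 728) (.st (nat_lit 364) (nat_lit 728) .nil))⟩,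
  ⟨r13o_8, r7o_16, r5o_6, (.st (nat_lit 1091) (nat_lit 2184) (.st (nat_lit 1092) (nat_lit 2184) .nil))⟩,
  ⟨r13o_8, r7o_16, r5o_8, (.st (nat_lit 1819) (nat_lit 3640) (.st (nat_lit 1820) (nat_lit 3640) .nil))⟩,
  ⟨r13o_8, r7o_17, r5o_0, (.st (nat_lit 727) (nat_lit 728) (.st (nat_lit 0) (nat_lit 728) .nil))⟩,
  ⟨r13o_8, r7o_17, r5o_2, (.st (nat_lit 3639) (nat_lit 3640) (.st (nat_lit 0) (nat_lit 3640) .nil))⟩,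
  ⟨r13o_8, r7o_17, r5o_4, (.st (nat_lit 727) (nat_lit 728) (.st (nat_lit 0) (nat_lit 728) .nil))⟩,
  ⟨r13o_8, r7o_17, r5o_6, (.st (nat_lit 2183) (nat_lit 2184) (.st (nat_lit 0) (nat_lit 2184) .nil))⟩,
  ⟨r13o_8, r7o_17, r5o_8, (.st (nat_lit 3639) (nat_lit 3640) (.st (nat_lit 0) (nat_lit 3640) .nil))⟩,
  ⟨r13o_8, r7o_21, r5o_0, (.st (nat_lit 545) (nat_lit 546) (.st (nat_lit 0) (nat_lit 546) .nil))⟩,
  ⟨r13o_8, r7o_21, r5o_2, (.st (nat_lit 2729) (nat_lit 2730) (.st (nat_lit 0) (nat_lit 2730) .nil))⟩,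
  ⟨r13o_8, r7o_21, r5o_4, (.st (nat_lit 545) (nat_lit 546) (.st (nat_lit 0) (nat_lit 546) .nil))⟩,
  ⟨r13o_8, r7o_21, r5o_6, (.st (nat_lit 545) (nat_lit 546) (.st (nat_lit 0) (nat_lit 546) .nil))⟩,
  ⟨r13o_8, r7o_21, r5o_8, (.st (nat_lit 2729) (nat_lit 2730) (.st (nat_lit 0) (nat_lit 2730) .nil))⟩,
  ⟨r13o_8, r7o_23, r5o_1, (.st (nat_lit 272) (nat_lit 546) (.st (nat_lit 273) (nat_lit 546) .nil))⟩,
  ⟨r13o_8, r7o_23, r5o_2, (.st (nat_lit 1364) (nat_lit 2730) (.st (nat_lit 1365) (nat_lit 2730) .nil))⟩,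
  ⟨r13o_8, r7o_23, r5o_4, (.st (nat_lit 272) (nat_lit 546) (.st (nat_lit 273) (nat_lit 546) .nil))⟩,
  ⟨r13o_8, r7o_23, r5o_6, (.st (nat_lit 272) (nat_lit 546) (.st (nat_lit 273) (nat_lit 546) .nil))⟩,
  ⟨r13o_8, r7o_23, r5o_8, (.st (nat_lit 1364) (nat_lit 2730) (.st (nat_lit 1365) (nat_lit 2730) .nil))⟩,
  ⟨r13o_8, r7o_24, r5o_0, (.st (nat_lit 363) (nat_lit 728) (.st (nat_lit 364) (nat_lit 728) .nil))⟩,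
  ⟨r13o_8, r7o_24, r5o_2, (.st (nat_lit 1819) (nat_lit 3640) (.st (nat_lit 1820) (nat_lit 3640) .nil))⟩,
  ⟨r13o_8, r7o_24, r5o_4, (.st (nat_lit 363) (nat_lit 728) (.st (nat_lit 364) (nat_lit 728) .nil))⟩,
  ⟨r13o_8, r7o_24, r5o_6, (.st (nat_lit 1091) (nat_lit 2184) (.st (nat_lit 1092) (nat_lit 2184) .nil))⟩,
  ⟨r13o_8, r7o_24, r5o_8, (.st (nat_lit 1819) (nat_lit 3640) (.st (nat_lit 1820) (nat_lit 3640) .nil))⟩,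
  ⟨r13o_8, r7o_25, r5o_0, (.st (nat_lit 727) (nat_lit 728) (.st (nat_lit 0) (nat_lit 728) .nil))⟩,
  ⟨r13o_8, r7o_25, r5o_2, (.st (nat_lit 3639) (nat_lit 3640) (.st (nat_lit 0) (nat_lit 3640) .nil))⟩,
  ⟨r13o_8, r7o_25, r5o_4, (.st (nat_lit 727) (nat_lit 728) (.st (nat_lit 0) (nat_lit 728) .nil))⟩,
  ⟨r13o_8, r7o_25, r5o_6, (.st (nat_lit 2183) (nat_lit 2184) (.st (nat_lit 0) (nat_lit 2184) .nil))⟩,
  ⟨r13o_8, r7o_25, r5o_8, (.st (nat_lit 3639) (nat_lit 3640) (.st (nat_lit 0) (nat_lit 3640) .nil))⟩]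

/-- entries -/
def EA9 : List E3 := [⟨r13o_9, r7o_1, r5o_0, (.st (nat_lit 90) (nat_lit 182) (.st (nat_lit 91) (nat_lit 182) .nil))⟩,
  ⟨r13o_9, r7o_1, r5o_3, (.st (nat_lit 454) (nat_lit 910) (.st (nat_lit 455) (nat_lit 910) .nil))⟩,
  ⟨r13o_9, r7o_1, r5o_5, (.st (nat_lit 272) (nat_lit 546) (.st (nat_lit 273) (nat_lit 546) .nil))⟩,
  ⟨r13o_9, r7o_1, r5o_7, (.st (nat_lit 90) (nat_lit 182) (.st (nat_lit 91) (nat_lit 182) .nil))⟩,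
  ⟨r13o_9, r7o_1, r5o_9, (.st (nat_lit 454) (nat_lit 910) (.st (nat_lit 455) (nat_lit 910) .nil))⟩,
  ⟨r13o_9, r7o_2, r5o_1, (.st (nat_lit 181) (nat_lit 182) (.st (nat_lit 0) (nat_lit 182) .nil))⟩,
  ⟨r13o_9, r7o_2, r5o_3, (.st (nat_lit 909) (nat_lit 910) (.st (nat_lit 0) (nat_lit 910) .nil))⟩,
  ⟨r13o_9, r7o_2, r5o_5, (.st (nat_lit 545) (nat_lit 546) (.st (nat_lit 0) (nat_lit 546) .nil))⟩,
  ⟨r13o_9, r7o_2, r5o_7, (.st (nat_lit 181) (nat_lit 182) (.st (nat_lit 0) (nat_lit 182) .nil))⟩,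
  ⟨r13o_9, r7o_2, r5o_9, (.st (nat_lit 909) (nat_lit 910) (.st (nat_lit 0) (nat_lit 910) .nil))⟩,
  ⟨r13o_9, r7o_4, r5o_2, (.st (nat_lit 17) (nat_lit 35) .nil)⟩,
  ⟨r13o_9, r7o_4, r5o_3, (.st (nat_lit 17) (nat_lit 35) .nil)⟩,
  ⟨r13o_9, r7o_4, r5o_4, (.st (nat_lit 3) (nat_lit 7) .nil)⟩,
  ⟨r13o_9, r7o_4, r5o_5, (.st (nat_lit 10) (nat_lit 21) .nil)⟩,
  ⟨r13o_9, r7o_4, r5o_6, (.st (nat_lit 10) (nat_lit 21) .nil)⟩,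
  ⟨r13o_9, r7o_4, r5o_7, (.st (nat_lit 3) (nat_lit 7) .nil)⟩,
  ⟨r13o_9, r7o_4, r5o_8, (.st (nat_lit 17) (nat_lit 35) .nil)⟩,
  ⟨r13o_9, r7o_4, r5o_9, (.st (nat_lit 17) (nat_lit 35) .nil)⟩,
  ⟨r13o_9, r7o_6, r5o_1, (.st (nat_lit 55) (nat_lit 56) (.st (nat_lit 0) (nat_lit 56) .nil))⟩,
  ⟨r13o_9, r7o_6, r5o_3, (.st (nat_lit 279) (nat_lit 280) (.st (nat_lit 0) (nat_lit 280) .nil))⟩,
  ⟨r13o_9, r7o_6, r5o_5, (.st (nat_lit 167) (nat_lit 168) (.st (nat_lit 0) (nat_lit 168) .nil))⟩,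
  ⟨r13o_9, r7o_6, r5o_7, (.st (nat_lit 55) (nat_lit 56) (.st (nat_lit 0) (nat_lit 56) .nil))⟩,
  ⟨r13o_9, r7o_6, r5o_9, (.st (nat_lit 279) (nat_lit 280) (.st (nat_lit 0) (nat_lit 280) .nil))⟩,
  ⟨r13o_9, r7o_7, r5o_1, (.st (nat_lit 27) (nat_lit 56) (.st (nat_lit 28) (nat_lit 56) .nil))⟩,
  ⟨r13o_9, r7o_7, r5o_3, (.st (nat_lit 139) (nat_lit 280) (.st (nat_lit 140) (nat_lit 280) .nil))⟩,
  ⟨r13o_9, r7o_7, r5o_5, (.st (nat_lit 83) (nat_lit 168) (.st (nat_lit 84) (nat_lit 168) .nil))⟩,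
  ⟨r13o_9, r7o_7, r5o_7, (.st (nat_lit 27) (nat_lit 56) (.st (nat_lit 28) (nat_lit 56) .nil))⟩,
  ⟨r13o_9, r7o_7, r5o_9, (.st (nat_lit 139) (nat_lit 280) (.st (nat_lit 140) (nat_lit 280) .nil))⟩,
  ⟨r13o_9, r7o_8, r5o_0, (.st (nat_lit 272) (nat_lit 546) (.st (nat_lit 273) (nat_lit 546) .nil))⟩,
  ⟨r13o_9, r7o_8, r5o_3, (.st (nat_lit 1364) (nat_lit 2730) (.st (nat_lit 1365) (nat_lit 2730) .nil))⟩,
  ⟨r13o_9, r7o_8, r5o_5, (.st (nat_lit 272) (nat_lit 546) (.st (nat_lit 273) (nat_lit 546) .nil))⟩,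
  ⟨r13o_9, r7o_8, r5o_7, (.st (nat_lit 272) (nat_lit 546) (.st (nat_lit 273) (nat_lit 546) .nil))⟩,
  ⟨r13o_9, r7o_8, r5o_9, (.st (nat_lit 1364) (nat_lit 2730) (.st (nat_lit 1365) (nat_lit 2730) .nil))⟩,
  ⟨r13o_9, r7o_10, r5o_1, (.st (nat_lit 545) (nat_lit 546) (.st (nat_lit 0) (nat_lit 546) .nil))⟩,
  ⟨r13o_9, r7o_10, r5o_3, (.st (nat_lit 2729) (nat_lit 2730) (.st (nat_lit 0) (nat_lit 2730) .nil))⟩,
  ⟨r13o_9, r7o_10, r5o_5, (.st (nat_lit 545) (nat_lit 546) (.st (nat_lit 0) (nat_lit 546) .nil))⟩,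
  ⟨r13o_9, r7o_10, r5o_7, (.st (nat_lit 545) (nat_lit 546) (.st (nat_lit 0) (nat_lit 546) .nil))⟩,
  ⟨r13o_9, r7o_10, r5o_9, (.st (nat_lit 2729) (nat_lit 2730) (.st (nat_lit 0) (nat_lit 2730) .nil))⟩,
  ⟨r13o_9, r7o_14, r5o_1, (.st (nat_lit 727) (nat_lit 728) (.st (nat_lit 0) (nat_lit 728) .nil))⟩,
  ⟨r13o_9, r7o_14, r5o_3, (.st (nat_lit 3639) (nat_lit 3640) (.st (nat_lit 0) (nat_lit 3640) .nil))⟩,
  ⟨r13o_9, r7o_14, r5o_5, (.st (nat_lit 2183) (nat_lit 2184) (.st (nat_lit 0) (nat_lit 2184) .nil))⟩,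
  ⟨r13o_9, r7o_14, r5o_7, (.st (nat_lit 727) (nat_lit 728) (.st (nat_lit 0) (nat_lit 728) .nil))⟩,
  ⟨r13o_9, r7o_14, r5o_9, (.st (nat_lit 3639) (nat_lit 3640) (.st (nat_lit 0) (nat_lit 3640) .nil))⟩,
  ⟨r13o_9, r7o_15, r5o_1, (.st (nat_lit 363) (nat_lit 728) (.st (nat_lit 364) (nat_lit 728) .nil))⟩,
  ⟨r13o_9, r7o_15, r5o_3, (.st (nat_lit 1819) (nat_lit 3640) (.st (nat_lit 1820) (nat_lit 3640) .nil))⟩,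
  ⟨r13o_9, r7o_15, r5o_5, (.st (nat_lit 1091) (nat_lit 2184) (.st (nat_lit 1092) (nat_lit 2184) .nil))⟩,
  ⟨r13o_9, r7o_15, r5o_7, (.st (nat_lit 363) (nat_lit 728) (.st (nat_lit 364) (nat_lit 728) .nil))⟩,
  ⟨r13o_9, r7o_15, r5o_9, (.st (nat_lit 1819) (nat_lit 3640) (.st (nat_lit 1820) (nat_lit 3640) .nil))⟩,
  ⟨r13o_9, r7o_18, r5o_0, (.st (nat_lit 90) (nat_lit 182) (.st (nat_lit 91) (nat_lit 182) .nil))⟩,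
  ⟨r13o_9, r7o_18, r5o_1, (.st (nat_lit 181) (nat_lit 182) (.st (nat_lit 0) (nat_lit 182) .nil))⟩,
  ⟨r13o_9, r7o_18, r5o_3, (.st (nat_lit 454) (nat_lit 455) (.st (nat_lit 0) (nat_lit 455) .nil))⟩,
  ⟨r13o_9, r7o_18, r5o_5, (.st (nat_lit 272) (nat_lit 273) (.st (nat_lit 0) (nat_lit 273) .nil))⟩,
  ⟨r13o_9, r7o_18, r5o_7, (.st (nat_lit 90) (nat_lit 91) (.st (nat_lit 0) (nat_lit 91) .nil))⟩,
  ⟨r13o_9, r7o_18, r5o_9, (.st (nat_lit 454) (nat_lit 455) (.st (nat_lit 0) (nat_lit 455) .nil))⟩,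
  ⟨r13o_9, r7o_20, r5o_0, (.st (nat_lit 272) (nat_lit 546) (.st (nat_lit 273) (nat_lit 546) .nil))⟩,
  ⟨r13o_9, r7o_20, r5o_3, (.st (nat_lit 1364) (nat_lit 2730) (.st (nat_lit 1365) (nat_lit 2730) .nil))⟩,
  ⟨r13o_9, r7o_20, r5o_5, (.st (nat_lit 272) (nat_lit 546) (.st (nat_lit 273) (nat_lit 546) .nil))⟩,
  ⟨r13o_9, r7o_20, r5o_7, (.st (nat_lit 272) (nat_lit 546) (.st (nat_lit 273) (nat_lit 546) .nil))⟩,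
  ⟨r13o_9, r7o_20, r5o_9, (.st (nat_lit 1364) (nat_lit 2730) (.st (nat_lit 1365) (nat_lit 2730) .nil))⟩,
  ⟨r13o_9, r7o_22, r5o_1, (.st (nat_lit 545) (nat_lit 546) (.st (nat_lit 0) (nat_lit 546) .nil))⟩,
  ⟨r13o_9, r7o_22, r5o_3, (.st (nat_lit 2729) (nat_lit 2730) (.st (nat_lit 0) (nat_lit 2730) .nil))⟩,
  ⟨r13o_9, r7o_22, r5o_5, (.st (nat_lit 545) (nat_lit 546) (.st (nat_lit 0) (nat_lit 546) .nil))⟩,
  ⟨r13o_9, r7o_22, r5o_7, (.st (nat_lit 545) (nat_lit 546) (.st (nat_lit 0) (nat_lit 546) .nil))⟩,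
  ⟨r13o_9, r7o_22, r5o_9, (.st (nat_lit 2729) (nat_lit 2730) (.st (nat_lit 0) (nat_lit 2730) .nil))⟩,
  ⟨r13o_9, r7o_26, r5o_1, (.st (nat_lit 55) (nat_lit 56) (.st (nat_lit 27) (nat_lit 56) (.st (nat_lit 28) (nat_lit 56) (.st (nat_lit 0) (nat_lit 56) .nil))))⟩,
  ⟨r13o_9, r7o_26, r5o_3, (.st (nat_lit 279) (nat_lit 280) (.st (nat_lit 139) (nat_lit 280) (.st (nat_lit 140) (nat_lit 280) (.st (nat_lit 0) (nat_lit 280) .nil))))⟩,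
  ⟨r13o_9, r7o_26, r5o_5, (.st (nat_lit 167) (nat_lit 168) (.st (nat_lit 83) (nat_lit 168) (.st (nat_lit 84) (nat_lit 168) (.st (nat_lit 0) (nat_lit 168) .nil))))⟩,
  ⟨r13o_9, r7o_26, r5o_7, (.st (nat_lit 55) (nat_lit 56) (.st (nat_lit 27) (nat_lit 56) (.st (nat_lit 28) (nat_lit 56) (.st (nat_lit 0) (nat_lit 56) .nil))))⟩,
  ⟨r13o_9, r7o_26, r5o_9, (.st (nat_lit 279) (nat_lit 280) (.st (nat_lit 139) (nat_lit 280) (.st (nat_lit 140) (nat_lit 280) (.st (nat_lit 0) (nat_lit 280) .nil))))⟩]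

/-- entries -/
def EA10 : List E3 := [⟨r13o_10, r7o_4, r5o_2, (.st (nat_lit 17) (nat_lit 35) .nil)⟩,
  ⟨r13o_10, r7o_4, r5o_3, (.st (nat_lit 17) (nat_lit 35) .nil)⟩,
  ⟨r13o_10, r7o_6, r5o_2, (.st (nat_lit 137) (nat_lit 280) (.st (nat_lit 142) (nat_lit 280) .nil))⟩,
  ⟨r13o_10, r7o_6, r5o_3, (.st (nat_lit 143) (nat_lit 280) (.st (nat_lit 136) (nat_lit 280) .nil))⟩,
  ⟨r13o_10, r7o_7, r5o_2, (.st (nat_lit 277) (nat_lit 280) (.st (nat_lit 2) (nat_lit 280) .nil))⟩,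
  ⟨r13o_10, r7o_7, r5o_3, (.st (nat_lit 276) (nat_lit 280) (.st (nat_lit 3) (nat_lit 280) .nil))⟩]

/-- entries -/
def EA11 : List E3 := [⟨r13o_11, r7o_4, r5o_2, (.st (nat_lit 17) (nat_lit 35) .nil)⟩,
  ⟨r13o_11, r7o_4, r5o_3, (.st (nat_lit 17) (nat_lit 35) .nil)⟩]

/-- entries -/
def EA12 : List E3 := [⟨r13o_12, r7o_8, r5o_4, (.st (nat_lit 40) (nat_lit 42) (.st (nat_lit 1) (nat_lit 42) .nil))⟩,
  ⟨r13o_12, r7o_8, r5o_5, (.st (nat_lit 544) (nat_lit 546) (.st (nat_lit 1) (nat_lit 546) .nil))⟩,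
  ⟨r13o_12, r7o_10, r5o_4, (.st (nat_lit 19) (nat_lit 42) (.st (nat_lit 22) (nat_lit 42) .nil))⟩,
  ⟨r13o_12, r7o_10, r5o_5, (.st (nat_lit 271) (nat_lit 546) (.st (nat_lit 274) (nat_lit 546) .nil))⟩,
  ⟨r13o_12, r7o_13, r5o_8, (.st (nat_lit 17) (nat_lit 35) .nil)⟩,
  ⟨r13o_12, r7o_13, r5o_9, (.st (nat_lit 17) (nat_lit 35) .nil)⟩]

/-- entries -/
def EA13 : List E3 := [⟨r13o_13, r7o_13, r5o_8, (.st (nat_lit 2) (nat_lit 5) .nil)⟩,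
  ⟨r13o_13, r7o_13, r5o_9, (.st (nat_lit 2) (nat_lit 5) .nil)⟩]

/-- entries -/
def EA14 : List E3 := [⟨r13o_14, r7o_1, r5o_0, (.st (nat_lit 181) (nat_lit 182) (.st (nat_lit 0) (nat_lit 182) .nil))⟩,
  ⟨r13o_14, r7o_1, r5o_2, (.st (nat_lit 909) (nat_lit 910) (.st (nat_lit 0) (nat_lit 910) .nil))⟩,
  ⟨r13o_14, r7o_1, r5o_4, (.st (nat_lit 181) (nat_lit 182) (.st (nat_lit 0) (nat_lit 182) .nil))⟩,
  ⟨r13o_14, r7o_1, r5o_6, (.st (nat_lit 545) (nat_lit 546) (.st (nat_lit 0) (nat_lit 546) .nil))⟩,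
  ⟨r13o_14, r7o_1, r5o_8, (.st (nat_lit 909) (nat_lit 910) (.st (nat_lit 0) (nat_lit 910) .nil))⟩,
  ⟨r13o_14, r7o_2, r5o_1, (.st (nat_lit 90) (nat_lit 182) (.st (nat_lit 91) (nat_lit 182) .nil))⟩,
  ⟨r13o_14, r7o_2, r5o_2, (.st (nat_lit 454) (nat_lit 910) (.st (nat_lit 455) (nat_lit 910) .nil))⟩,
  ⟨r13o_14, r7o_2, r5o_4, (.st (nat_lit 90) (nat_lit 182) (.st (nat_lit 91) (nat_lit 182) .nil))⟩,
  ⟨r13o_14, r7o_2, r5o_6, (.st (nat_lit 272) (nat_lit 546) (.st (nat_lit 273) (nat_lit 546) .nil))⟩,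
  ⟨r13o_14, r7o_2, r5o_8, (.st (nat_lit 454) (nat_lit 910) (.st (nat_lit 455) (nat_lit 910) .nil))⟩,
  ⟨r13o_14, r7o_4, r5o_9, (.st (nat_lit 447) (nat_lit 455) (.st (nat_lit 7) (nat_lit 455) .nil))⟩,
  ⟨r13o_14, r7o_5, r5o_0, (.st (nat_lit 55) (nat_lit 56) (.st (nat_lit 27) (nat_lit 56) (.st (nat_lit 28) (nat_lit 56) (.st (nat_lit 0) (nat_lit 56) .nil))))⟩,
  ⟨r13o_14, r7o_5, r5o_2, (.st (nat_lit 3639) (nat_lit 3640) (.st (nat_lit 1819) (nat_lit 3640) (.st (nat_lit 1820) (nat_lit 3640) (.st (nat_lit 0) (nat_lit 3640) .nil))))⟩,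
  ⟨r13o_14, r7o_5, r5o_4, (.st (nat_lit 55) (nat_lit 56) (.st (nat_lit 27) (nat_lit 56) (.st (nat_lit 28) (nat_lit 56) (.st (nat_lit 0) (nat_lit 56) .nil))))⟩,
  ⟨r13o_14, r7o_5, r5o_6, (.st (nat_lit 167) (nat_lit 168) (.st (nat_lit 83) (nat_lit 168) (.st (nat_lit 84) (nat_lit 168) (.st (nat_lit 0) (nat_lit 168) .nil))))⟩,
  ⟨r13o_14, r7o_5, r5o_8, (.st (nat_lit 3639) (nat_lit 3640) (.st (nat_lit 1819) (nat_lit 3640) (.st (nat_lit 1820) (nat_lit 3640) (.st (nat_lit 0) (nat_lit 3640) .nil))))⟩,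
  ⟨r13o_14, r7o_9, r5o_0, (.st (nat_lit 545) (nat_lit 546) (.st (nat_lit 0) (nat_lit 546) .nil))⟩,
  ⟨r13o_14, r7o_9, r5o_2, (.st (nat_lit 2729) (nat_lit 2730) (.st (nat_lit 0) (nat_lit 2730) .nil))⟩,
  ⟨r13o_14, r7o_9, r5o_4, (.st (nat_lit 41) (nat_lit 42) (.st (nat_lit 0) (nat_lit 42) .nil))⟩,
  ⟨r13o_14, r7o_9, r5o_6, (.st (nat_lit 545) (nat_lit 546) (.st (nat_lit 0) (nat_lit 546) .nil))⟩,
  ⟨r13o_14, r7o_9, r5o_8, (.st (nat_lit 2729) (nat_lit 2730) (.st (nat_lit 0) (nat_lit 2730) .nil))⟩,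
  ⟨r13o_14, r7o_11, r5o_1, (.st (nat_lit 272) (nat_lit 546) (.st (nat_lit 273) (nat_lit 546) .nil))⟩,
  ⟨r13o_14, r7o_11, r5o_2, (.st (nat_lit 1364) (nat_lit 2730) (.st (nat_lit 1365) (nat_lit 2730) .nil))⟩,
  ⟨r13o_14, r7o_11, r5o_4, (.st (nat_lit 20) (nat_lit 42) (.st (nat_lit 21) (nat_lit 42) .nil))⟩,
  ⟨r13o_14, r7o_11, r5o_6, (.st (nat_lit 272) (nat_lit 546) (.st (nat_lit 273) (nat_lit 546) .nil))⟩,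
  ⟨r13o_14, r7o_11, r5o_8, (.st (nat_lit 1364) (nat_lit 2730) (.st (nat_lit 1365) (nat_lit 2730) .nil))⟩,
  ⟨r13o_14, r7o_13, r5o_0, (.st (nat_lit 181) (nat_lit 182) (.st (nat_lit 0) (nat_lit 182) .nil))⟩,
  ⟨r13o_14, r7o_13, r5o_1, (.st (nat_lit 90) (nat_lit 182) (.st (nat_lit 91) (nat_lit 182) .nil))⟩,
  ⟨r13o_14, r7o_13, r5o_2, (.st (nat_lit 454) (nat_lit 455) (.st (nat_lit 0) (nat_lit 455) .nil))⟩,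
  ⟨r13o_14, r7o_13, r5o_4, (.st (nat_lit 90) (nat_lit 91) (.st (nat_lit 0) (nat_lit 91) .nil))⟩,
  ⟨r13o_14, r7o_13, r5o_6, (.st (nat_lit 272) (nat_lit 273) (.st (nat_lit 0) (nat_lit 273) .nil))⟩,
  ⟨r13o_14, r7o_13, r5o_8, (.st (nat_lit 34) (nat_lit 35) (.st (nat_lit 17) (nat_lit 35) (.st (nat_lit 0) (nat_lit 35) .nil)))⟩,
  ⟨r13o_14, r7o_13, r5o_9, (.st (nat_lit 17) (nat_lit 35) .nil)⟩,
  ⟨r13o_14, r7o_16, r5o_0, (.st (nat_lit 363) (nat_lit 728) (.st (nat_lit 364) (nat_lit 728) .nil))⟩,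
  ⟨r13o_14, r7o_16, r5o_2, (.st (nat_lit 1819) (nat_lit 3640) (.st (nat_lit 1820) (nat_lit 3640) .nil))⟩,
  ⟨r13o_14, r7o_16, r5o_4, (.st (nat_lit 363) (nat_lit 728) (.st (nat_lit 364) (nat_lit 728) .nil))⟩,
  ⟨r13o_14, r7o_16, r5o_6, (.st (nat_lit 1091) (nat_lit 2184) (.st (nat_lit 1092) (nat_lit 2184) .nil))⟩,
  ⟨r13o_14, r7o_16, r5o_8, (.st (nat_lit 1819) (nat_lit 3640) (.st (nat_lit 1820) (nat_lit 3640) .nil))⟩,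
  ⟨r13o_14, r7o_17, r5o_0, (.st (nat_lit 727) (nat_lit 728) (.st (nat_lit 0) (nat_lit 728) .nil))⟩,
  ⟨r13o_14, r7o_17, r5o_2, (.st (nat_lit 3639) (nat_lit 3640) (.st (nat_lit 0) (nat_lit 3640) .nil))⟩,
  ⟨r13o_14, r7o_17, r5o_4, (.st (nat_lit 727) (nat_lit 728) (.st (nat_lit 0) (nat_lit 728) .nil))⟩,
  ⟨r13o_14, r7o_17, r5o_6, (.st (nat_lit 2183) (nat_lit 2184) (.st (nat_lit 0) (nat_lit 2184) .nil))⟩,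
  ⟨r13o_14, r7o_17, r5o_8, (.st (nat_lit 3639) (nat_lit 3640) (.st (nat_lit 0) (nat_lit 3640) .nil))⟩,
  ⟨r13o_14, r7o_21, r5o_0, (.st (nat_lit 545) (nat_lit 546) (.st (nat_lit 0) (nat_lit 546) .nil))⟩,
  ⟨r13o_14, r7o_21, r5o_2, (.st (nat_lit 2729) (nat_lit 2730) (.st (nat_lit 2728) (nat_lit 2730) (.st (nat_lit 1) (nat_lit 2730) (.st (nat_lit 0) (nat_lit 2730) .nil))))⟩,
  ⟨r13o_14, r7o_21, r5o_4, (.st (nat_lit 545) (nat_lit 546) (.st (nat_lit 0) (nat_lit 546) .nil))⟩,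
  ⟨r13o_14, r7o_21, r5o_6, (.st (nat_lit 545) (nat_lit 546) (.st (nat_lit 362) (nat_lit 546) (.st (nat_lit 183) (nat_lit 546) (.st (nat_lit 0) (nat_lit 546) .nil))))⟩,
  ⟨r13o_14, r7o_21, r5o_8, (.st (nat_lit 2729) (nat_lit 2730) (.st (nat_lit 0) (nat_lit 2730) .nil))⟩,
  ⟨r13o_14, r7o_23, r5o_1, (.st (nat_lit 272) (nat_lit 546) (.st (nat_lit 273) (nat_lit 546) .nil))⟩,
  ⟨r13o_14, r7o_23, r5o_2, (.st (nat_lit 1364) (nat_lit 2730) (.st (nat_lit 1363) (nat_lit 2730) (.st (nat_lit 1366) (nat_lit 2730) (.st (nat_lit 1365) (nat_lit 2730) .nil))))⟩,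
  ⟨r13o_14, r7o_23, r5o_4, (.st (nat_lit 272) (nat_lit 546) (.st (nat_lit 273) (nat_lit 546) .nil))⟩,
  ⟨r13o_14, r7o_23, r5o_6, (.st (nat_lit 272) (nat_lit 546) (.st (nat_lit 89) (nat_lit 546) (.st (nat_lit 456) (nat_lit 546) (.st (nat_lit 273) (nat_lit 546) .nil))))⟩,
  ⟨r13o_14, r7o_23, r5o_8, (.st (nat_lit 1364) (nat_lit 2730) (.st (nat_lit 1365) (nat_lit 2730) .nil))⟩,
  ⟨r13o_14, r7o_24, r5o_0, (.st (nat_lit 363) (nat_lit 728) (.st (nat_lit 364) (nat_lit 728) .nil))⟩,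
  ⟨r13o_14, r7o_24, r5o_2, (.st (nat_lit 1819) (nat_lit 3640) (.st (nat_lit 1820) (nat_lit 3640) .nil))⟩,
  ⟨r13o_14, r7o_24, r5o_4, (.st (nat_lit 363) (nat_lit 728) (.st (nat_lit 364) (nat_lit 728) .nil))⟩,
  ⟨r13o_14, r7o_24, r5o_6, (.st (nat_lit 1091) (nat_lit 2184) (.st (nat_lit 1092) (nat_lit 2184) .nil))⟩,
  ⟨r13o_14, r7o_24, r5o_8, (.st (nat_lit 1819) (nat_lit 3640) (.st (nat_lit 1820) (nat_lit 3640) .nil))⟩,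
  ⟨r13o_14, r7o_25, r5o_0, (.st (nat_lit 727) (nat_lit 728) (.st (nat_lit 0) (nat_lit 728) .nil))⟩,
  ⟨r13o_14, r7o_25, r5o_2, (.st (nat_lit 3639) (nat_lit 3640) (.st (nat_lit 0) (nat_lit 3640) .nil))⟩,
  ⟨r13o_14, r7o_25, r5o_4, (.st (nat_lit 727) (nat_lit 728) (.st (nat_lit 0) (nat_lit 728) .nil))⟩,
  ⟨r13o_14, r7o_25, r5o_6, (.st (nat_lit 2183) (nat_lit 2184) (.st (nat_lit 0) (nat_lit 2184) .nil))⟩,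
  ⟨r13o_14, r7o_25, r5o_8, (.st (nat_lit 3639) (nat_lit 3640) (.st (nat_lit 0) (nat_lit 3640) .nil))⟩]

/-- entries -/
def EA15 : List E3 := [⟨r13o_15, r7o_1, r5o_0, (.st (nat_lit 90) (nat_lit 182) (.st (nat_lit 91) (nat_lit 182) .nil))⟩,
  ⟨r13o_15, r7o_1, r5o_3, (.st (nat_lit 454) (nat_lit 910) (.st (nat_lit 455) (nat_lit 910) .nil))⟩,
  ⟨r13o_15, r7o_1, r5o_5, (.st (nat_lit 272) (nat_lit 546) (.st (nat_lit 273) (nat_lit 546) .nil))⟩,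
  ⟨r13o_15, r7o_1, r5o_7, (.st (nat_lit 90) (nat_lit 182) (.st (nat_lit 91) (nat_lit 182) .nil))⟩,
  ⟨r13o_15, r7o_1, r5o_9, (.st (nat_lit 454) (nat_lit 910) (.st (nat_lit 455) (nat_lit 910) .nil))⟩,
  ⟨r13o_15, r7o_2, r5o_1, (.st (nat_lit 181) (nat_lit 182) (.st (nat_lit 0) (nat_lit 182) .nil))⟩,
  ⟨r13o_15, r7o_2, r5o_3, (.st (nat_lit 909) (nat_lit 910) (.st (nat_lit 0) (nat_lit 910) .nil))⟩,
  ⟨r13o_15, r7o_2, r5o_5, (.st (nat_lit 545) (nat_lit 546) (.st (nat_lit 0) (nat_lit 546) .nil))⟩,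
  ⟨r13o_15, r7o_2, r5o_7, (.st (nat_lit 181) (nat_lit 182) (.st (nat_lit 0) (nat_lit 182) .nil))⟩,
  ⟨r13o_15, r7o_2, r5o_9, (.st (nat_lit 909) (nat_lit 910) (.st (nat_lit 0) (nat_lit 910) .nil))⟩,
  ⟨r13o_15, r7o_6, r5o_1, (.st (nat_lit 727) (nat_lit 728) (.st (nat_lit 0) (nat_lit 728) .nil))⟩,
  ⟨r13o_15, r7o_6, r5o_3, (.st (nat_lit 3639) (nat_lit 3640) (.st (nat_lit 0) (nat_lit 3640) .nil))⟩,
  ⟨r13o_15, r7o_6, r5o_5, (.st (nat_lit 2183) (nat_lit 2184) (.st (nat_lit 0) (nat_lit 2184) .nil))⟩,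
  ⟨r13o_15, r7o_6, r5o_7, (.st (nat_lit 727) (nat_lit 728) (.st (nat_lit 0) (nat_lit 728) .nil))⟩,
  ⟨r13o_15, r7o_6, r5o_9, (.st (nat_lit 3639) (nat_lit 3640) (.st (nat_lit 0) (nat_lit 3640) .nil))⟩,
  ⟨r13o_15, r7o_7, r5o_1, (.st (nat_lit 363) (nat_lit 728) (.st (nat_lit 364) (nat_lit 728) .nil))⟩,
  ⟨r13o_15, r7o_7, r5o_3, (.st (nat_lit 1819) (nat_lit 3640) (.st (nat_lit 1820) (nat_lit 3640) .nil))⟩,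
  ⟨r13o_15, r7o_7, r5o_5, (.st (nat_lit 1091) (nat_lit 2184) (.st (nat_lit 1092) (nat_lit 2184) .nil))⟩,
  ⟨r13o_15, r7o_7, r5o_7, (.st (nat_lit 363) (nat_lit 728) (.st (nat_lit 364) (nat_lit 728) .nil))⟩,
  ⟨r13o_15, r7o_7, r5o_9, (.st (nat_lit 1819) (nat_lit 3640) (.st (nat_lit 1820) (nat_lit 3640) .nil))⟩,
  ⟨r13o_15, r7o_8, r5o_0, (.st (nat_lit 272) (nat_lit 546) (.st (nat_lit 273) (nat_lit 546) .nil))⟩,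
  ⟨r13o_15, r7o_8, r5o_3, (.st (nat_lit 1364) (nat_lit 2730) (.st (nat_lit 1365) (nat_lit 2730) .nil))⟩,
  ⟨r13o_15, r7o_8, r5o_5, (.st (nat_lit 272) (nat_lit 546) (.st (nat_lit 273) (nat_lit 546) .nil))⟩,
  ⟨r13o_15, r7o_8, r5o_7, (.st (nat_lit 272) (nat_lit 546) (.st (nat_lit 273) (nat_lit 546) .nil))⟩,
  ⟨r13o_15, r7o_8, r5o_9, (.st (nat_lit 1364) (nat_lit 2730) (.st (nat_lit 1365) (nat_lit 2730) .nil))⟩,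
  ⟨r13o_15, r7o_10, r5o_1, (.st (nat_lit 545) (nat_lit 546) (.st (nat_lit 0) (nat_lit 546) .nil))⟩,
  ⟨r13o_15, r7o_10, r5o_3, (.st (nat_lit 2729) (nat_lit 2730) (.st (nat_lit 0) (nat_lit 2730) .nil))⟩,
  ⟨r13o_15, r7o_10, r5o_5, (.st (nat_lit 545) (nat_lit 546) (.st (nat_lit 0) (nat_lit 546) .nil))⟩,
  ⟨r13o_15, r7o_10, r5o_7, (.st (nat_lit 545) (nat_lit 546) (.st (nat_lit 0) (nat_lit 546) .nil))⟩,
  ⟨r13o_15, r7o_10, r5o_9, (.st (nat_lit 2729) (nat_lit 2730) (.st (nat_lit 0) (nat_lit 2730) .nil))⟩,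
  ⟨r13o_15, r7o_13, r5o_8, (.st (nat_lit 17) (nat_lit 35) .nil)⟩,
  ⟨r13o_15, r7o_13, r5o_9, (.st (nat_lit 17) (nat_lit 35) .nil)⟩,
  ⟨r13o_15, r7o_14, r5o_1, (.st (nat_lit 727) (nat_lit 728) (.st (nat_lit 0) (nat_lit 728) .nil))⟩,
  ⟨r13o_15, r7o_14, r5o_3, (.st (nat_lit 3639) (nat_lit 3640) (.st (nat_lit 0) (nat_lit 3640) .nil))⟩,
  ⟨r13o_15, r7o_14, r5o_5, (.st (nat_lit 2183) (nat_lit 2184) (.st (nat_lit 0) (nat_lit 2184) .nil))⟩,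
  ⟨r13o_15, r7o_14, r5o_7, (.st (nat_lit 727) (nat_lit 728) (.st (nat_lit 0) (nat_lit 728) .nil))⟩,
  ⟨r13o_15, r7o_14, r5o_9, (.st (nat_lit 279) (nat_lit 280) (.st (nat_lit 0) (nat_lit 280) .nil))⟩,
  ⟨r13o_15, r7o_15, r5o_1, (.st (nat_lit 363) (nat_lit 728) (.st (nat_lit 364) (nat_lit 728) .nil))⟩,
  ⟨r13o_15, r7o_15, r5o_3, (.st (nat_lit 1819) (nat_lit 3640) (.st (nat_lit 1820) (nat_lit 3640) .nil))⟩,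
  ⟨r13o_15, r7o_15, r5o_5, (.st (nat_lit 1091) (nat_lit 2184) (.st (nat_lit 1092) (nat_lit 2184) .nil))⟩,
  ⟨r13o_15, r7o_15, r5o_7, (.st (nat_lit 363) (nat_lit 728) (.st (nat_lit 364) (nat_lit 728) .nil))⟩,
  ⟨r13o_15, r7o_15, r5o_9, (.st (nat_lit 139) (nat_lit 280) (.st (nat_lit 140) (nat_lit 280) .nil))⟩,
  ⟨r13o_15, r7o_18, r5o_0, (.st (nat_lit 90) (nat_lit 182) (.st (nat_lit 91) (nat_lit 182) .nil))⟩,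
  ⟨r13o_15, r7o_18, r5o_1, (.st (nat_lit 181) (nat_lit 182) (.st (nat_lit 0) (nat_lit 182) .nil))⟩,
  ⟨r13o_15, r7o_18, r5o_3, (.st (nat_lit 454) (nat_lit 455) (.st (nat_lit 0) (nat_lit 455) .nil))⟩,
  ⟨r13o_15, r7o_18, r5o_5, (.st (nat_lit 272) (nat_lit 273) (.st (nat_lit 0) (nat_lit 273) .nil))⟩,
  ⟨r13o_15, r7o_18, r5o_7, (.st (nat_lit 90) (nat_lit 91) (.st (nat_lit 0) (nat_lit 91) .nil))⟩,
  ⟨r13o_15, r7o_18, r5o_9, (.st (nat_lit 454) (nat_lit 455) (.st (nat_lit 0) (nat_lit 455) .nil))⟩,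
  ⟨r13o_15, r7o_20, r5o_0, (.st (nat_lit 272) (nat_lit 546) (.st (nat_lit 273) (nat_lit 546) .nil))⟩,
  ⟨r13o_15, r7o_20, r5o_3, (.st (nat_lit 1364) (nat_lit 2730) (.st (nat_lit 1365) (nat_lit 2730) .nil))⟩,
  ⟨r13o_15, r7o_20, r5o_5, (.st (nat_lit 272) (nat_lit 546) (.st (nat_lit 273) (nat_lit 546) .nil))⟩,
  ⟨r13o_15, r7o_20, r5o_7, (.st (nat_lit 272) (nat_lit 546) (.st (nat_lit 273) (nat_lit 546) .nil))⟩,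
  ⟨r13o_15, r7o_20, r5o_9, (.st (nat_lit 1364) (nat_lit 2730) (.st (nat_lit 1365) (nat_lit 2730) .nil))⟩,
  ⟨r13o_15, r7o_22, r5o_1, (.st (nat_lit 545) (nat_lit 546) (.st (nat_lit 0) (nat_lit 546) .nil))⟩,
  ⟨r13o_15, r7o_22, r5o_3, (.st (nat_lit 2729) (nat_lit 2730) (.st (nat_lit 0) (nat_lit 2730) .nil))⟩,
  ⟨r13o_15, r7o_22, r5o_5, (.st (nat_lit 545) (nat_lit 546) (.st (nat_lit 0) (nat_lit 546) .nil))⟩,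
  ⟨r13o_15, r7o_22, r5o_7, (.st (nat_lit 545) (nat_lit 546) (.st (nat_lit 0) (nat_lit 546) .nil))⟩,
  ⟨r13o_15, r7o_22, r5o_9, (.st (nat_lit 2729) (nat_lit 2730) (.st (nat_lit 0) (nat_lit 2730) .nil))⟩,
  ⟨r13o_15, r7o_26, r5o_1, (.st (nat_lit 727) (nat_lit 728) (.st (nat_lit 363) (nat_lit 728) (.st (nat_lit 364) (nat_lit 728) (.st (nat_lit 0) (nat_lit 728) .nil))))⟩,
  ⟨r13o_15, r7o_26, r5o_3, (.st (nat_lit 3639) (nat_lit 3640) (.st (nat_lit 1819) (nat_lit 3640) (.st (nat_lit 1820) (nat_lit 3640) (.st (nat_lit 0) (nat_lit 3640) .nil))))⟩,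
  ⟨r13o_15, r7o_26, r5o_5, (.st (nat_lit 2183) (nat_lit 2184) (.st (nat_lit 1091) (nat_lit 2184) (.st (nat_lit 1092) (nat_lit 2184) (.st (nat_lit 0) (nat_lit 2184) .nil))))⟩,
  ⟨r13o_15, r7o_26, r5o_7, (.st (nat_lit 727) (nat_lit 728) (.st (nat_lit 363) (nat_lit 728) (.st (nat_lit 364) (nat_lit 728) (.st (nat_lit 0) (nat_lit 728) .nil))))⟩,
  ⟨r13o_15, r7o_26, r5o_9, (.st (nat_lit 3639) (nat_lit 3640) (.st (nat_lit 1819) (nat_lit 3640) (.st (nat_lit 1820) (nat_lit 3640) (.st (nat_lit 0) (nat_lit 3640) .nil))))⟩]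

/-- entries -/
def EA16 : List E3 := [⟨r13o_16, r7o_9, r5o_4, (.st (nat_lit 19) (nat_lit 42) (.st (nat_lit 22) (nat_lit 42) .nil))⟩,
  ⟨r13o_16, r7o_11, r5o_4, (.st (nat_lit 40) (nat_lit 42) (.st (nat_lit 1) (nat_lit 42) .nil))⟩,
  ⟨r13o_16, r7o_13, r5o_2, (.st (nat_lit 17) (nat_lit 35) .nil)⟩,
  ⟨r13o_16, r7o_13, r5o_3, (.st (nat_lit 17) (nat_lit 35) .nil)⟩,
  ⟨r13o_16, r7o_13, r5o_4, (.st (nat_lit 3) (nat_lit 7) .nil)⟩,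
  ⟨r13o_16, r7o_13, r5o_5, (.st (nat_lit 10) (nat_lit 21) .nil)⟩,
  ⟨r13o_16, r7o_13, r5o_6, (.st (nat_lit 10) (nat_lit 21) .nil)⟩,
  ⟨r13o_16, r7o_13, r5o_7, (.st (nat_lit 3) (nat_lit 7) .nil)⟩,
  ⟨r13o_16, r7o_13, r5o_8, (.st (nat_lit 17) (nat_lit 35) .nil)⟩,
  ⟨r13o_16, r7o_13, r5o_9, (.st (nat_lit 17) (nat_lit 35) .nil)⟩]

/-- entries -/
def EA17 : List E3 := [⟨r13o_17, r7o_13, r5o_8, (.st (nat_lit 17) (nat_lit 35) .nil)⟩,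
  ⟨r13o_17, r7o_13, r5o_9, (.st (nat_lit 17) (nat_lit 35) .nil)⟩]

/-- entries -/
def EA18 : List E3 := []

/-- entries -/
def EA19 : List E3 := []

/-- entries -/
def EA20 : List E3 := [⟨r13o_20, r7o_1, r5o_0, (.st (nat_lit 25) (nat_lit 26) (.st (nat_lit 0) (nat_lit 26) .nil))⟩,
  ⟨r13o_20, r7o_1, r5o_2, (.st (nat_lit 129) (nat_lit 130) (.st (nat_lit 0) (nat_lit 130) .nil))⟩,
  ⟨r13o_20, r7o_1, r5o_4, (.st (nat_lit 25) (nat_lit 26) (.st (nat_lit 0) (nat_lit 26) .nil))⟩,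
  ⟨r13o_20, r7o_1, r5o_6, (.st (nat_lit 77) (nat_lit 78) (.st (nat_lit 0) (nat_lit 78) .nil))⟩,
  ⟨r13o_20, r7o_1, r5o_8, (.st (nat_lit 129) (nat_lit 130) (.st (nat_lit 0) (nat_lit 130) .nil))⟩,
  ⟨r13o_20, r7o_2, r5o_1, (.st (nat_lit 12) (nat_lit 26) (.st (nat_lit 13) (nat_lit 26) .nil))⟩,
  ⟨r13o_20, r7o_2, r5o_2, (.st (nat_lit 64) (nat_lit 130) (.st (nat_lit 65) (nat_lit 130) .nil))⟩,
  ⟨r13o_20, r7o_2, r5o_4, (.st (nat_lit 12) (nat_lit 26) (.st (nat_lit 13) (nat_lit 26) .nil))⟩,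
  ⟨r13o_20, r7o_2, r5o_6, (.st (nat_lit 38) (nat_lit 78) (.st (nat_lit 39) (nat_lit 78) .nil))⟩,
  ⟨r13o_20, r7o_2, r5o_8, (.st (nat_lit 64) (nat_lit 130) (.st (nat_lit 65) (nat_lit 130) .nil))⟩,
  ⟨r13o_20, r7o_5, r5o_0, (.st (nat_lit 103) (nat_lit 104) (.st (nat_lit 51) (nat_lit 104) (.st (nat_lit 52) (nat_lit 104) (.st (nat_lit 0) (nat_lit 104) .nil))))⟩,
  ⟨r13o_20, r7o_5, r5o_2, (.st (nat_lit 519) (nat_lit 520) (.st (nat_lit 259) (nat_lit 520) (.st (nat_lit 260) (nat_lit 520) (.st (nat_lit 0) (nat_lit 520) .nil))))⟩,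
  ⟨r13o_20, r7o_5, r5o_4, (.st (nat_lit 103) (nat_lit 104) (.st (nat_lit 51) (nat_lit 104) (.st (nat_lit 52) (nat_lit 104) (.st (nat_lit 0) (nat_lit 104) .nil))))⟩,
  ⟨r13o_20, r7o_5, r5o_6, (.st (nat_lit 311) (nat_lit 312) (.st (nat_lit 155) (nat_lit 312) (.st (nat_lit 156) (nat_lit 312) (.st (nat_lit 0) (nat_lit 312) .nil))))⟩,
  ⟨r13o_20, r7o_5, r5o_8, (.st (nat_lit 519) (nat_lit 520) (.st (nat_lit 259) (nat_lit 520) (.st (nat_lit 260) (nat_lit 520) (.st (nat_lit 0) (nat_lit 520) .nil))))⟩,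
  ⟨r13o_20, r7o_9, r5o_0, (.st (nat_lit 77) (nat_lit 78) (.st (nat_lit 0) (nat_lit 78) .nil))⟩,
  ⟨r13o_20, r7o_9, r5o_2, (.st (nat_lit 389) (nat_lit 390) (.st (nat_lit 0) (nat_lit 390) .nil))⟩,
  ⟨r13o_20, r7o_9, r5o_4, (.st (nat_lit 77) (nat_lit 78) (.st (nat_lit 0) (nat_lit 78) .nil))⟩,
  ⟨r13o_20, r7o_9, r5o_6, (.st (nat_lit 77) (nat_lit 78) (.st (nat_lit 0) (nat_lit 78) .nil))⟩,
  ⟨r13o_20, r7o_9, r5o_8, (.st (nat_lit 389) (nat_lit 390) (.st (nat_lit 0) (nat_lit 390) .nil))⟩,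
  ⟨r13o_20, r7o_11, r5o_1, (.st (nat_lit 38) (nat_lit 78) (.st (nat_lit 39) (nat_lit 78) .nil))⟩,
  ⟨r13o_20, r7o_11, r5o_2, (.st (nat_lit 194) (nat_lit 390) (.st (nat_lit 195) (nat_lit 390) .nil))⟩,
  ⟨r13o_20, r7o_11, r5o_4, (.st (nat_lit 38) (nat_lit 78) (.st (nat_lit 39) (nat_lit 78) .nil))⟩,
  ⟨r13o_20, r7o_11, r5o_6, (.st (nat_lit 38) (nat_lit 78) (.st (nat_lit 39) (nat_lit 78) .nil))⟩,
  ⟨r13o_20, r7o_11, r5o_8, (.st (nat_lit 194) (nat_lit 390) (.st (nat_lit 195) (nat_lit 390) .nil))⟩,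
  ⟨r13o_20, r7o_13, r5o_0, (.st (nat_lit 25) (nat_lit 26) (.st (nat_lit 0) (nat_lit 26) .nil))⟩,
  ⟨r13o_20, r7o_13, r5o_1, (.st (nat_lit 12) (nat_lit 26) (.st (nat_lit 13) (nat_lit 26) .nil))⟩,
  ⟨r13o_20, r7o_13, r5o_2, (.st (nat_lit 64) (nat_lit 65) (.st (nat_lit 0) (nat_lit 65) .nil))⟩,
  ⟨r13o_20, r7o_13, r5o_4, (.st (nat_lit 12) (nat_lit 13) (.st (nat_lit 0) (nat_lit 13) .nil))⟩,
  ⟨r13o_20, r7o_13, r5o_6, (.st (nat_lit 38) (nat_lit 39) (.st (nat_lit 0) (nat_lit 39) .nil))⟩,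
  ⟨r13o_20, r7o_13, r5o_8, (.st (nat_lit 64) (nat_lit 65) (.st (nat_lit 0) (nat_lit 65) .nil))⟩,
  ⟨r13o_20, r7o_16, r5o_0, (.st (nat_lit 51) (nat_lit 104) (.st (nat_lit 52) (nat_lit 104) .nil))⟩,
  ⟨r13o_20, r7o_16, r5o_2, (.st (nat_lit 259) (nat_lit 520) (.st (nat_lit 260) (nat_lit 520) .nil))⟩,
  ⟨r13o_20, r7o_16, r5o_4, (.st (nat_lit 51) (nat_lit 104) (.st (nat_lit 52) (nat_lit 104) .nil))⟩,
  ⟨r13o_20, r7o_16, r5o_6, (.st (nat_lit 155) (nat_lit 312) (.st (nat_lit 156) (nat_lit 312) .nil))⟩,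
  ⟨r13o_20, r7o_16, r5o_8, (.st (nat_lit 259) (nat_lit 520) (.st (nat_lit 260) (nat_lit 520) .nil))⟩,
  ⟨r13o_20, r7o_17, r5o_0, (.st (nat_lit 103) (nat_lit 104) (.st (nat_lit 0) (nat_lit 104) .nil))⟩,
  ⟨r13o_20, r7o_17, r5o_2, (.st (nat_lit 519) (nat_lit 520) (.st (nat_lit 0) (nat_lit 520) .nil))⟩,
  ⟨r13o_20, r7o_17, r5o_4, (.st (nat_lit 103) (nat_lit 104) (.st (nat_lit 0) (nat_lit 104) .nil))⟩,
  ⟨r13o_20, r7o_17, r5o_6, (.st (nat_lit 311) (nat_lit 312) (.st (nat_lit 0) (nat_lit 312) .nil))⟩,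
  ⟨r13o_20, r7o_17, r5o_8, (.st (nat_lit 519) (nat_lit 520) (.st (nat_lit 0) (nat_lit 520) .nil))⟩,
  ⟨r13o_20, r7o_21, r5o_0, (.st (nat_lit 77) (nat_lit 78) (.st (nat_lit 0) (nat_lit 78) .nil))⟩,
  ⟨r13o_20, r7o_21, r5o_2, (.st (nat_lit 389) (nat_lit 390) (.st (nat_lit 0) (nat_lit 390) .nil))⟩,
  ⟨r13o_20, r7o_21, r5o_4, (.st (nat_lit 77) (nat_lit 78) (.st (nat_lit 0) (nat_lit 78) .nil))⟩,
  ⟨r13o_20, r7o_21, r5o_6, (.st (nat_lit 77) (nat_lit 78) (.st (nat_lit 0) (nat_lit 78) .nil))⟩,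
  ⟨r13o_20, r7o_21, r5o_8, (.st (nat_lit 389) (nat_lit 390) (.st (nat_lit 0) (nat_lit 390) .nil))⟩,
  ⟨r13o_20, r7o_23, r5o_1, (.st (nat_lit 38) (nat_lit 78) (.st (nat_lit 39) (nat_lit 78) .nil))⟩,
  ⟨r13o_20, r7o_23, r5o_2, (.st (nat_lit 194) (nat_lit 390) (.st (nat_lit 195) (nat_lit 390) .nil))⟩,
  ⟨r13o_20, r7o_23, r5o_4, (.st (nat_lit 38) (nat_lit 78) (.st (nat_lit 39) (nat_lit 78) .nil))⟩,
  ⟨r13o_20, r7o_23, r5o_6, (.st (nat_lit 38) (nat_lit 78) (.st (nat_lit 39) (nat_lit 78) .nil))⟩,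
  ⟨r13o_20, r7o_23, r5o_8, (.st (nat_lit 194) (nat_lit 390) (.st (nat_lit 195) (nat_lit 390) .nil))⟩,
  ⟨r13o_20, r7o_24, r5o_0, (.st (nat_lit 51) (nat_lit 104) (.st (nat_lit 52) (nat_lit 104) .nil))⟩,
  ⟨r13o_20, r7o_24, r5o_2, (.st (nat_lit 259) (nat_lit 520) (.st (nat_lit 260) (nat_lit 520) .nil))⟩,
  ⟨r13o_20, r7o_24, r5o_4, (.st (nat_lit 51) (nat_lit 104) (.st (nat_lit 52) (nat_lit 104) .nil))⟩,
  ⟨r13o_20, r7o_24, r5o_6, (.st (nat_lit 155) (nat_lit 312) (.st (nat_lit 156) (nat_lit 312) .nil))⟩,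
  ⟨r13o_20, r7o_24, r5o_8, (.st (nat_lit 259) (nat_lit 520) (.st (nat_lit 260) (nat_lit 520) .nil))⟩,
  ⟨r13o_20, r7o_25, r5o_0, (.st (nat_lit 103) (nat_lit 104) (.st (nat_lit 0) (nat_lit 104) .nil))⟩,
  ⟨r13o_20, r7o_25, r5o_2, (.st (nat_lit 519) (nat_lit 520) (.st (nat_lit 0) (nat_lit 520) .nil))⟩,
  ⟨r13o_20, r7o_25, r5o_4, (.st (nat_lit 103) (nat_lit 104) (.st (nat_lit 0) (nat_lit 104) .nil))⟩,
  ⟨r13o_20, r7o_25, r5o_6, (.st (nat_lit 311) (nat_lit 312) (.st (nat_lit 0) (nat_lit 312) .nil))⟩,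
  ⟨r13o_20, r7o_25, r5o_8, (.st (nat_lit 519) (nat_lit 520) (.st (nat_lit 0) (nat_lit 520) .nil))⟩]

/-- entries -/
def EA21 : List E3 := [⟨r13o_21, r7o_1, r5o_0, (.st (nat_lit 12) (nat_lit 26) (.st (nat_lit 13) (nat_lit 26) .nil))⟩,
  ⟨r13o_21, r7o_1, r5o_3, (.st (nat_lit 64) (nat_lit 130) (.st (nat_lit 65) (nat_lit 130) .nil))⟩,
  ⟨r13o_21, r7o_1, r5o_5, (.st (nat_lit 38) (nat_lit 78) (.st (nat_lit 39) (nat_lit 78) .nil))⟩,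
  ⟨r13o_21, r7o_1, r5o_7, (.st (nat_lit 12) (nat_lit 26) (.st (nat_lit 13) (nat_lit 26) .nil))⟩,
  ⟨r13o_21, r7o_1, r5o_9, (.st (nat_lit 64) (nat_lit 130) (.st (nat_lit 65) (nat_lit 130) .nil))⟩,
  ⟨r13o_21, r7o_2, r5o_1, (.st (nat_lit 25) (nat_lit 26) (.st (nat_lit 0) (nat_lit 26) .nil))⟩,
  ⟨r13o_21, r7o_2, r5o_3, (.st (nat_lit 129) (nat_lit 130) (.st (nat_lit 0) (nat_lit 130) .nil))⟩,
  ⟨r13o_21, r7o_2, r5o_5, (.st (nat_lit 77) (nat_lit 78) (.st (nat_lit 0) (nat_lit 78) .nil))⟩,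
  ⟨r13o_21, r7o_2, r5o_7, (.st (nat_lit 25) (nat_lit 26) (.st (nat_lit 0) (nat_lit 26) .nil))⟩,
  ⟨r13o_21, r7o_2, r5o_9, (.st (nat_lit 129) (nat_lit 130) (.st (nat_lit 0) (nat_lit 130) .nil))⟩,
  ⟨r13o_21, r7o_6, r5o_1, (.st (nat_lit 103) (nat_lit 104) (.st (nat_lit 0) (nat_lit 104) .nil))⟩,
  ⟨r13o_21, r7o_6, r5o_3, (.st (nat_lit 519) (nat_lit 520) (.st (nat_lit 0) (nat_lit 520) .nil))⟩,
  ⟨r13o_21, r7o_6, r5o_5, (.st (nat_lit 311) (nat_lit 312) (.st (nat_lit 0) (nat_lit 312) .nil))⟩,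
  ⟨r13o_21, r7o_6, r5o_7, (.st (nat_lit 103) (nat_lit 104) (.st (nat_lit 0) (nat_lit 104) .nil))⟩,
  ⟨r13o_21, r7o_6, r5o_9, (.st (nat_lit 519) (nat_lit 520) (.st (nat_lit 0) (nat_lit 520) .nil))⟩,
  ⟨r13o_21, r7o_7, r5o_1, (.st (nat_lit 51) (nat_lit 104) (.st (nat_lit 52) (nat_lit 104) .nil))⟩,
  ⟨r13o_21, r7o_7, r5o_3, (.st (nat_lit 259) (nat_lit 520) (.st (nat_lit 260) (nat_lit 520) .nil))⟩,
  ⟨r13o_21, r7o_7, r5o_5, (.st (nat_lit 155) (nat_lit 312) (.st (nat_lit 156) (nat_lit 312) .nil))⟩,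
  ⟨r13o_21, r7o_7, r5o_7, (.st (nat_lit 51) (nat_lit 104) (.st (nat_lit 52) (nat_lit 104) .nil))⟩,
  ⟨r13o_21, r7o_7, r5o_9, (.st (nat_lit 259) (nat_lit 520) (.st (nat_lit 260) (nat_lit 520) .nil))⟩,
  ⟨r13o_21, r7o_8, r5o_0, (.st (nat_lit 38) (nat_lit 78) (.st (nat_lit 39) (nat_lit 78) .nil))⟩,
  ⟨r13o_21, r7o_8, r5o_3, (.st (nat_lit 194) (nat_lit 390) (.st (nat_lit 195) (nat_lit 390) .nil))⟩,
  ⟨r13o_21, r7o_8, r5o_5, (.st (nat_lit 38) (nat_lit 78) (.st (nat_lit 39) (nat_lit 78) .nil))⟩,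
  ⟨r13o_21, r7o_8, r5o_7, (.st (nat_lit 38) (nat_lit 78) (.st (nat_lit 39) (nat_lit 78) .nil))⟩,
  ⟨r13o_21, r7o_8, r5o_9, (.st (nat_lit 194) (nat_lit 390) (.st (nat_lit 195) (nat_lit 390) .nil))⟩,
  ⟨r13o_21, r7o_10, r5o_1, (.st (nat_lit 77) (nat_lit 78) (.st (nat_lit 0) (nat_lit 78) .nil))⟩,
  ⟨r13o_21, r7o_10, r5o_3, (.st (nat_lit 389) (nat_lit 390) (.st (nat_lit 0) (nat_lit 390) .nil))⟩,
  ⟨r13o_21, r7o_10, r5o_5, (.st (nat_lit 77) (nat_lit 78) (.st (nat_lit 0) (nat_lit 78) .nil))⟩,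
  ⟨r13o_21, r7o_10, r5o_7, (.st (nat_lit 77) (nat_lit 78) (.st (nat_lit 0) (nat_lit 78) .nil))⟩,
  ⟨r13o_21, r7o_10, r5o_9, (.st (nat_lit 389) (nat_lit 390) (.st (nat_lit 0) (nat_lit 390) .nil))⟩,
  ⟨r13o_21, r7o_14, r5o_1, (.st (nat_lit 103) (nat_lit 104) (.st (nat_lit 0) (nat_lit 104) .nil))⟩,
  ⟨r13o_21, r7o_14, r5o_3, (.st (nat_lit 519) (nat_lit 520) (.st (nat_lit 0) (nat_lit 520) .nil))⟩,
  ⟨r13o_21, r7o_14, r5o_5, (.st (nat_lit 311) (nat_lit 312) (.st (nat_lit 0) (nat_lit 312) .nil))⟩,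
  ⟨r13o_21, r7o_14, r5o_7, (.st (nat_lit 103) (nat_lit 104) (.st (nat_lit 0) (nat_lit 104) .nil))⟩,
  ⟨r13o_21, r7o_14, r5o_9, (.st (nat_lit 519) (nat_lit 520) (.st (nat_lit 0) (nat_lit 520) .nil))⟩,
  ⟨r13o_21, r7o_15, r5o_1, (.st (nat_lit 51) (nat_lit 104) (.st (nat_lit 52) (nat_lit 104) .nil))⟩,
  ⟨r13o_21, r7o_15, r5o_3, (.st (nat_lit 259) (nat_lit 520) (.st (nat_lit 260) (nat_lit 520) .nil))⟩,
  ⟨r13o_21, r7o_15, r5o_5, (.st (nat_lit 155) (nat_lit 312) (.st (nat_lit 156) (nat_lit 312) .nil))⟩,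
  ⟨r13o_21, r7o_15, r5o_7, (.st (nat_lit 51) (nat_lit 104) (.st (nat_lit 52) (nat_lit 104) .nil))⟩,
  ⟨r13o_21, r7o_15, r5o_9, (.st (nat_lit 259) (nat_lit 520) (.st (nat_lit 260) (nat_lit 520) .nil))⟩,
  ⟨r13o_21, r7o_18, r5o_0, (.st (nat_lit 12) (nat_lit 26) (.st (nat_lit 13) (nat_lit 26) .nil))⟩,
  ⟨r13o_21, r7o_18, r5o_1, (.st (nat_lit 25) (nat_lit 26) (.st (nat_lit 0) (nat_lit 26) .nil))⟩,
  ⟨r13o_21, r7o_18, r5o_3, (.st (nat_lit 64) (nat_lit 65) (.st (nat_lit 0) (nat_lit 65) .nil))⟩,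
  ⟨r13o_21, r7o_18, r5o_5, (.st (nat_lit 38) (nat_lit 39) (.st (nat_lit 0) (nat_lit 39) .nil))⟩,
  ⟨r13o_21, r7o_18, r5o_7, (.st (nat_lit 12) (nat_lit 13) (.st (nat_lit 0) (nat_lit 13) .nil))⟩,
  ⟨r13o_21, r7o_18, r5o_9, (.st (nat_lit 64) (nat_lit 65) (.st (nat_lit 0) (nat_lit 65) .nil))⟩,
  ⟨r13o_21, r7o_20, r5o_0, (.st (nat_lit 38) (nat_lit 78) (.st (nat_lit 39) (nat_lit 78) .nil))⟩,
  ⟨r13o_21, r7o_20, r5o_3, (.st (nat_lit 194) (nat_lit 390) (.st (nat_lit 195) (nat_lit 390) .nil))⟩,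
  ⟨r13o_21, r7o_20, r5o_5, (.st (nat_lit 38) (nat_lit 78) (.st (nat_lit 39) (nat_lit 78) .nil))⟩,
  ⟨r13o_21, r7o_20, r5o_7, (.st (nat_lit 38) (nat_lit 78) (.st (nat_lit 39) (nat_lit 78) .nil))⟩,
  ⟨r13o_21, r7o_20, r5o_9, (.st (nat_lit 194) (nat_lit 390) (.st (nat_lit 195) (nat_lit 390) .nil))⟩,
  ⟨r13o_21, r7o_22, r5o_1, (.st (nat_lit 77) (nat_lit 78) (.st (nat_lit 0) (nat_lit 78) .nil))⟩,
  ⟨r13o_21, r7o_22, r5o_3, (.st (nat_lit 389) (nat_lit 390) (.st (nat_lit 0) (nat_lit 390) .nil))⟩,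
  ⟨r13o_21, r7o_22, r5o_5, (.st (nat_lit 77) (nat_lit 78) (.st (nat_lit 0) (nat_lit 78) .nil))⟩,
  ⟨r13o_21, r7o_22, r5o_7, (.st (nat_lit 77) (nat_lit 78) (.st (nat_lit 0) (nat_lit 78) .nil))⟩,
  ⟨r13o_21, r7o_22, r5o_9, (.st (nat_lit 389) (nat_lit 390) (.st (nat_lit 0) (nat_lit 390) .nil))⟩,
  ⟨r13o_21, r7o_26, r5o_1, (.st (nat_lit 103) (nat_lit 104) (.st (nat_lit 51) (nat_lit 104) (.st (nat_lit 52) (nat_lit 104) (.st (nat_lit 0) (nat_lit 104) .nil))))⟩,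
  ⟨r13o_21, r7o_26, r5o_3, (.st (nat_lit 519) (nat_lit 520) (.st (nat_lit 259) (nat_lit 520) (.st (nat_lit 260) (nat_lit 520) (.st (nat_lit 0) (nat_lit 520) .nil))))⟩,
  ⟨r13o_21, r7o_26, r5o_5, (.st (nat_lit 311) (nat_lit 312) (.st (nat_lit 155) (nat_lit 312) (.st (nat_lit 156) (nat_lit 312) (.st (nat_lit 0) (nat_lit 312) .nil))))⟩,
  ⟨r13o_21, r7o_26, r5o_7, (.st (nat_lit 103) (nat_lit 104) (.st (nat_lit 51) (nat_lit 104) (.st (nat_lit 52) (nat_lit 104) (.st (nat_lit 0) (nat_lit 104) .nil))))⟩,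
  ⟨r13o_21, r7o_26, r5o_9, (.st (nat_lit 519) (nat_lit 520) (.st (nat_lit 259) (nat_lit 520) (.st (nat_lit 260) (nat_lit 520) (.st (nat_lit 0) (nat_lit 520) .nil))))⟩]

/-- entries -/
def EA22 : List E3 := []

/-- entries -/
def EA23 : List E3 := []

/-- entries -/
def EA24 : List E3 := [⟨r13o_24, r7o_13, r5o_4, (.st (nat_lit 3) (nat_lit 7) .nil)⟩,
  ⟨r13o_24, r7o_18, r5o_8, (.st (nat_lit 17) (nat_lit 35) .nil)⟩,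
  ⟨r13o_24, r7o_18, r5o_9, (.st (nat_lit 17) (nat_lit 35) .nil)⟩]

/-- entries -/
def EA25 : List E3 := [⟨r13o_25, r7o_9, r5o_8, (.st (nat_lit 1180) (nat_lit 2730) (.st (nat_lit 1549) (nat_lit 2730) .nil))⟩,
  ⟨r13o_25, r7o_11, r5o_8, (.st (nat_lit 2545) (nat_lit 2730) (.st (nat_lit 184) (nat_lit 2730) .nil))⟩,
  ⟨r13o_25, r7o_13, r5o_4, (.st (nat_lit 3) (nat_lit 7) .nil)⟩,
  ⟨r13o_25, r7o_18, r5o_8, (.st (nat_lit 17) (nat_lit 35) .nil)⟩,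
  ⟨r13o_25, r7o_18, r5o_9, (.st (nat_lit 17) (nat_lit 35) .nil)⟩]

/-- entries -/
def EA26 : List E3 := [⟨r13o_26, r7o_1, r5o_0, (.st (nat_lit 25) (nat_lit 26) (.st (nat_lit 0) (nat_lit 26) .nil))⟩,
  ⟨r13o_26, r7o_1, r5o_2, (.st (nat_lit 129) (nat_lit 130) (.st (nat_lit 0) (nat_lit 130) .nil))⟩,
  ⟨r13o_26, r7o_1, r5o_4, (.st (nat_lit 25) (nat_lit 26) (.st (nat_lit 0) (nat_lit 26) .nil))⟩,
  ⟨r13o_26, r7o_1, r5o_6, (.st (nat_lit 77) (nat_lit 78) (.st (nat_lit 0) (nat_lit 78) .nil))⟩,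
  ⟨r13o_26, r7o_1, r5o_8, (.st (nat_lit 129) (nat_lit 130) (.st (nat_lit 0) (nat_lit 130) .nil))⟩,
  ⟨r13o_26, r7o_2, r5o_1, (.st (nat_lit 13) (nat_lit 26) (.st (nat_lit 12) (nat_lit 26) .nil))⟩,
  ⟨r13o_26, r7o_2, r5o_2, (.st (nat_lit 65) (nat_lit 130) (.st (nat_lit 64) (nat_lit 130) .nil))⟩,
  ⟨r13o_26, r7o_2, r5o_4, (.st (nat_lit 13) (nat_lit 26) (.st (nat_lit 12) (nat_lit 26) .nil))⟩,
  ⟨r13o_26, r7o_2, r5o_6, (.st (nat_lit 39) (nat_lit 78) (.st (nat_lit 38) (nat_lit 78) .nil))⟩,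
  ⟨r13o_26, r7o_2, r5o_8, (.st (nat_lit 65) (nat_lit 130) (.st (nat_lit 64) (nat_lit 130) .nil))⟩,
  ⟨r13o_26, r7o_5, r5o_0, (.st (nat_lit 103) (nat_lit 104) (.st (nat_lit 52) (nat_lit 104) (.st (nat_lit 51) (nat_lit 104) (.st (nat_lit 0) (nat_lit 104) .nil))))⟩,
  ⟨r13o_26, r7o_5, r5o_2, (.st (nat_lit 519) (nat_lit 520) (.st (nat_lit 260) (nat_lit 520) (.st (nat_lit 259) (nat_lit 520) (.st (nat_lit 0) (nat_lit 520) .nil))))⟩,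
  ⟨r13o_26, r7o_5, r5o_4, (.st (nat_lit 103) (nat_lit 104) (.st (nat_lit 52) (nat_lit 104) (.st (nat_lit 51) (nat_lit 104) (.st (nat_lit 0) (nat_lit 104) .nil))))⟩,
  ⟨r13o_26, r7o_5, r5o_6, (.st (nat_lit 311) (nat_lit 312) (.st (nat_lit 156) (nat_lit 312) (.st (nat_lit 155) (nat_lit 312) (.st (nat_lit 0) (nat_lit 312) .nil))))⟩,
  ⟨r13o_26, r7o_5, r5o_8, (.st (nat_lit 519) (nat_lit 520) (.st (nat_lit 260) (nat_lit 520) (.st (nat_lit 259) (nat_lit 520) (.st (nat_lit 0) (nat_lit 520) .nil))))⟩,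
  ⟨r13o_26, r7o_9, r5o_0, (.st (nat_lit 77) (nat_lit 78) (.st (nat_lit 0) (nat_lit 78) .nil))⟩,
  ⟨r13o_26, r7o_9, r5o_2, (.st (nat_lit 389) (nat_lit 390) (.st (nat_lit 0) (nat_lit 390) .nil))⟩,
  ⟨r13o_26, r7o_9, r5o_4, (.st (nat_lit 77) (nat_lit 78) (.st (nat_lit 0) (nat_lit 78) .nil))⟩,
  ⟨r13o_26, r7o_9, r5o_6, (.st (nat_lit 77) (nat_lit 78) (.st (nat_lit 0) (nat_lit 78) .nil))⟩,
  ⟨r13o_26, r7o_9, r5o_8, (.st (nat_lit 389) (nat_lit 390) (.st (nat_lit 0) (nat_lit 390) .nil))⟩,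
  ⟨r13o_26, r7o_11, r5o_1, (.st (nat_lit 39) (nat_lit 78) (.st (nat_lit 38) (nat_lit 78) .nil))⟩,
  ⟨r13o_26, r7o_11, r5o_2, (.st (nat_lit 195) (nat_lit 390) (.st (nat_lit 194) (nat_lit 390) .nil))⟩,
  ⟨r13o_26, r7o_11, r5o_4, (.st (nat_lit 39) (nat_lit 78) (.st (nat_lit 38) (nat_lit 78) .nil))⟩,
  ⟨r13o_26, r7o_11, r5o_6, (.st (nat_lit 39) (nat_lit 78) (.st (nat_lit 38) (nat_lit 78) .nil))⟩,
  ⟨r13o_26, r7o_11, r5o_8, (.st (nat_lit 195) (nat_lit 390) (.st (nat_lit 194) (nat_lit 390) .nil))⟩,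
  ⟨r13o_26, r7o_13, r5o_0, (.st (nat_lit 25) (nat_lit 26) (.st (nat_lit 0) (nat_lit 26) .nil))⟩,
  ⟨r13o_26, r7o_13, r5o_1, (.st (nat_lit 13) (nat_lit 26) (.st (nat_lit 12) (nat_lit 26) .nil))⟩,
  ⟨r13o_26, r7o_13, r5o_2, (.st (nat_lit 64) (nat_lit 65) (.st (nat_lit 0) (nat_lit 65) .nil))⟩,
  ⟨r13o_26, r7o_13, r5o_4, (.st (nat_lit 0) (nat_lit 1) .nil)⟩,
  ⟨r13o_26, r7o_13, r5o_6, (.st (nat_lit 38) (nat_lit 39) (.st (nat_lit 0) (nat_lit 39) .nil))⟩,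
  ⟨r13o_26, r7o_13, r5o_8, (.st (nat_lit 64) (nat_lit 65) (.st (nat_lit 0) (nat_lit 65) .nil))⟩,
  ⟨r13o_26, r7o_16, r5o_0, (.st (nat_lit 52) (nat_lit 104) (.st (nat_lit 51) (nat_lit 104) .nil))⟩,
  ⟨r13o_26, r7o_16, r5o_2, (.st (nat_lit 260) (nat_lit 520) (.st (nat_lit 259) (nat_lit 520) .nil))⟩,
  ⟨r13o_26, r7o_16, r5o_4, (.st (nat_lit 52) (nat_lit 104) (.st (nat_lit 51) (nat_lit 104) .nil))⟩,
  ⟨r13o_26, r7o_16, r5o_6, (.st (nat_lit 156) (nat_lit 312) (.st (nat_lit 155) (nat_lit 312) .nil))⟩,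
  ⟨r13o_26, r7o_16, r5o_8, (.st (nat_lit 20) (nat_lit 40) (.st (nat_lit 19) (nat_lit 40) .nil))⟩,
  ⟨r13o_26, r7o_17, r5o_0, (.st (nat_lit 103) (nat_lit 104) (.st (nat_lit 0) (nat_lit 104) .nil))⟩,
  ⟨r13o_26, r7o_17, r5o_2, (.st (nat_lit 519) (nat_lit 520) (.st (nat_lit 0) (nat_lit 520) .nil))⟩,
  ⟨r13o_26, r7o_17, r5o_4, (.st (nat_lit 103) (nat_lit 104) (.st (nat_lit 0) (nat_lit 104) .nil))⟩,
  ⟨r13o_26, r7o_17, r5o_6, (.st (nat_lit 311) (nat_lit 312) (.st (nat_lit 0) (nat_lit 312) .nil))⟩,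
  ⟨r13o_26, r7o_17, r5o_8, (.st (nat_lit 39) (nat_lit 40) (.st (nat_lit 0) (nat_lit 40) .nil))⟩,
  ⟨r13o_26, r7o_18, r5o_8, (.st (nat_lit 2) (nat_lit 5) .nil)⟩,
  ⟨r13o_26, r7o_18, r5o_9, (.st (nat_lit 2) (nat_lit 5) .nil)⟩,
  ⟨r13o_26, r7o_21, r5o_0, (.st (nat_lit 77) (nat_lit 78) (.st (nat_lit 0) (nat_lit 78) .nil))⟩,
  ⟨r13o_26, r7o_21, r5o_2, (.st (nat_lit 389) (nat_lit 390) (.st (nat_lit 0) (nat_lit 390) .nil))⟩,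
  ⟨r13o_26, r7o_21, r5o_4, (.st (nat_lit 77) (nat_lit 78) (.st (nat_lit 0) (nat_lit 78) .nil))⟩,
  ⟨r13o_26, r7o_21, r5o_6, (.st (nat_lit 77) (nat_lit 78) (.st (nat_lit 0) (nat_lit 78) .nil))⟩,
  ⟨r13o_26, r7o_21, r5o_8, (.st (nat_lit 389) (nat_lit 390) (.st (nat_lit 0) (nat_lit 390) .nil))⟩,
  ⟨r13o_26, r7o_23, r5o_1, (.st (nat_lit 39) (nat_lit 78) (.st (nat_lit 38) (nat_lit 78) .nil))⟩,
  ⟨r13o_26, r7o_23, r5o_2, (.st (nat_lit 195) (nat_lit 390) (.st (nat_lit 194) (nat_lit 390) .nil))⟩,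
  ⟨r13o_26, r7o_23, r5o_4, (.st (nat_lit 39) (nat_lit 78) (.st (nat_lit 38) (nat_lit 78) .nil))⟩,
  ⟨r13o_26, r7o_23, r5o_6, (.st (nat_lit 39) (nat_lit 78) (.st (nat_lit 38) (nat_lit 78) .nil))⟩,
  ⟨r13o_26, r7o_23, r5o_8, (.st (nat_lit 195) (nat_lit 390) (.st (nat_lit 194) (nat_lit 390) .nil))⟩,
  ⟨r13o_26, r7o_24, r5o_0, (.st (nat_lit 52) (nat_lit 104) (.st (nat_lit 51) (nat_lit 104) .nil))⟩,
  ⟨r13o_26, r7o_24, r5o_2, (.st (nat_lit 260) (nat_lit 520) (.st (nat_lit 259) (nat_lit 520) .nil))⟩,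
  ⟨r13o_26, r7o_24, r5o_4, (.st (nat_lit 52) (nat_lit 104) (.st (nat_lit 51) (nat_lit 104) .nil))⟩,
  ⟨r13o_26, r7o_24, r5o_6, (.st (nat_lit 156) (nat_lit 312) (.st (nat_lit 155) (nat_lit 312) .nil))⟩,
  ⟨r13o_26, r7o_24, r5o_8, (.st (nat_lit 260) (nat_lit 520) (.st (nat_lit 259) (nat_lit 520) .nil))⟩,
  ⟨r13o_26, r7o_25, r5o_0, (.st (nat_lit 103) (nat_lit 104) (.st (nat_lit 0) (nat_lit 104) .nil))⟩,
  ⟨r13o_26, r7o_25, r5o_2, (.st (nat_lit 519) (nat_lit 520) (.st (nat_lit 0) (nat_lit 520) .nil))⟩,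
  ⟨r13o_26, r7o_25, r5o_4, (.st (nat_lit 103) (nat_lit 104) (.st (nat_lit 0) (nat_lit 104) .nil))⟩,
  ⟨r13o_26, r7o_25, r5o_6, (.st (nat_lit 311) (nat_lit 312) (.st (nat_lit 0) (nat_lit 312) .nil))⟩,
  ⟨r13o_26, r7o_25, r5o_8, (.st (nat_lit 519) (nat_lit 520) (.st (nat_lit 0) (nat_lit 520) .nil))⟩]

/-- entries -/
def EA27 : List E3 := [⟨r13o_27, r7o_1, r5o_0, (.st (nat_lit 90) (nat_lit 182) (.st (nat_lit 91) (nat_lit 182) .nil))⟩,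
  ⟨r13o_27, r7o_1, r5o_3, (.st (nat_lit 454) (nat_lit 910) (.st (nat_lit 455) (nat_lit 910) .nil))⟩,
  ⟨r13o_27, r7o_1, r5o_5, (.st (nat_lit 272) (nat_lit 546) (.st (nat_lit 273) (nat_lit 546) .nil))⟩,
  ⟨r13o_27, r7o_1, r5o_7, (.st (nat_lit 90) (nat_lit 182) (.st (nat_lit 91) (nat_lit 182) .nil))⟩,
  ⟨r13o_27, r7o_1, r5o_9, (.st (nat_lit 454) (nat_lit 910) (.st (nat_lit 455) (nat_lit 910) .nil))⟩,
  ⟨r13o_27, r7o_2, r5o_1, (.st (nat_lit 181) (nat_lit 182) (.st (nat_lit 0) (nat_lit 182) .nil))⟩,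
  ⟨r13o_27, r7o_2, r5o_3, (.st (nat_lit 909) (nat_lit 910) (.st (nat_lit 0) (nat_lit 910) .nil))⟩,
  ⟨r13o_27, r7o_2, r5o_5, (.st (nat_lit 545) (nat_lit 546) (.st (nat_lit 0) (nat_lit 546) .nil))⟩,
  ⟨r13o_27, r7o_2, r5o_7, (.st (nat_lit 181) (nat_lit 182) (.st (nat_lit 0) (nat_lit 182) .nil))⟩,
  ⟨r13o_27, r7o_2, r5o_9, (.st (nat_lit 909) (nat_lit 910) (.st (nat_lit 0) (nat_lit 910) .nil))⟩,
  ⟨r13o_27, r7o_6, r5o_1, (.st (nat_lit 727) (nat_lit 728) (.st (nat_lit 0) (nat_lit 728) .nil))⟩,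
  ⟨r13o_27, r7o_6, r5o_3, (.st (nat_lit 3639) (nat_lit 3640) (.st (nat_lit 0) (nat_lit 3640) .nil))⟩,
  ⟨r13o_27, r7o_6, r5o_5, (.st (nat_lit 2183) (nat_lit 2184) (.st (nat_lit 0) (nat_lit 2184) .nil))⟩,
  ⟨r13o_27, r7o_6, r5o_7, (.st (nat_lit 727) (nat_lit 728) (.st (nat_lit 0) (nat_lit 728) .nil))⟩,
  ⟨r13o_27, r7o_6, r5o_9, (.st (nat_lit 3639) (nat_lit 3640) (.st (nat_lit 0) (nat_lit 3640) .nil))⟩,
  ⟨r13o_27, r7o_7, r5o_1, (.st (nat_lit 363) (nat_lit 728) (.st (nat_lit 364) (nat_lit 728) .nil))⟩,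
  ⟨r13o_27, r7o_7, r5o_3, (.st (nat_lit 1819) (nat_lit 3640) (.st (nat_lit 1820) (nat_lit 3640) .nil))⟩,
  ⟨r13o_27, r7o_7, r5o_5, (.st (nat_lit 1091) (nat_lit 2184) (.st (nat_lit 1092) (nat_lit 2184) .nil))⟩,
  ⟨r13o_27, r7o_7, r5o_7, (.st (nat_lit 363) (nat_lit 728) (.st (nat_lit 364) (nat_lit 728) .nil))⟩,
  ⟨r13o_27, r7o_7, r5o_9, (.st (nat_lit 1819) (nat_lit 3640) (.st (nat_lit 1820) (nat_lit 3640) .nil))⟩,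
  ⟨r13o_27, r7o_8, r5o_0, (.st (nat_lit 272) (nat_lit 546) (.st (nat_lit 273) (nat_lit 546) .nil))⟩,
  ⟨r13o_27, r7o_8, r5o_3, (.st (nat_lit 1364) (nat_lit 2730) (.st (nat_lit 1365) (nat_lit 2730) .nil))⟩,
  ⟨r13o_27, r7o_8, r5o_5, (.st (nat_lit 272) (nat_lit 546) (.st (nat_lit 273) (nat_lit 546) .nil))⟩,
  ⟨r13o_27, r7o_8, r5o_7, (.st (nat_lit 272) (nat_lit 546) (.st (nat_lit 273) (nat_lit 546) .nil))⟩,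
  ⟨r13o_27, r7o_8, r5o_9, (.st (nat_lit 1364) (nat_lit 2730) (.st (nat_lit 1365) (nat_lit 2730) .nil))⟩,
  ⟨r13o_27, r7o_10, r5o_1, (.st (nat_lit 545) (nat_lit 546) (.st (nat_lit 0) (nat_lit 546) .nil))⟩,
  ⟨r13o_27, r7o_10, r5o_3, (.st (nat_lit 2729) (nat_lit 2730) (.st (nat_lit 0) (nat_lit 2730) .nil))⟩,
  ⟨r13o_27, r7o_10, r5o_5, (.st (nat_lit 545) (nat_lit 546) (.st (nat_lit 0) (nat_lit 546) .nil))⟩,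
  ⟨r13o_27, r7o_10, r5o_7, (.st (nat_lit 545) (nat_lit 546) (.st (nat_lit 0) (nat_lit 546) .nil))⟩,
  ⟨r13o_27, r7o_10, r5o_9, (.st (nat_lit 2729) (nat_lit 2730) (.st (nat_lit 0) (nat_lit 2730) .nil))⟩,
  ⟨r13o_27, r7o_13, r5o_4, (.st (nat_lit 3) (nat_lit 7) .nil)⟩,
  ⟨r13o_27, r7o_14, r5o_1, (.st (nat_lit 727) (nat_lit 728) (.st (nat_lit 0) (nat_lit 728) .nil))⟩,
  ⟨r13o_27, r7o_14, r5o_3, (.st (nat_lit 3639) (nat_lit 3640) (.st (nat_lit 0) (nat_lit 3640) .nil))⟩,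
  ⟨r13o_27, r7o_14, r5o_5, (.st (nat_lit 2183) (nat_lit 2184) (.st (nat_lit 0) (nat_lit 2184) .nil))⟩,
  ⟨r13o_27, r7o_14, r5o_7, (.st (nat_lit 727) (nat_lit 728) (.st (nat_lit 0) (nat_lit 728) .nil))⟩,
  ⟨r13o_27, r7o_14, r5o_9, (.st (nat_lit 3639) (nat_lit 3640) (.st (nat_lit 0) (nat_lit 3640) .nil))⟩,
  ⟨r13o_27, r7o_15, r5o_1, (.st (nat_lit 363) (nat_lit 728) (.st (nat_lit 364) (nat_lit 728) .nil))⟩,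
  ⟨r13o_27, r7o_15, r5o_3, (.st (nat_lit 1819) (nat_lit 3640) (.st (nat_lit 1820) (nat_lit 3640) .nil))⟩,
  ⟨r13o_27, r7o_15, r5o_5, (.st (nat_lit 1091) (nat_lit 2184) (.st (nat_lit 1092) (nat_lit 2184) .nil))⟩,
  ⟨r13o_27, r7o_15, r5o_7, (.st (nat_lit 363) (nat_lit 728) (.st (nat_lit 364) (nat_lit 728) .nil))⟩,
  ⟨r13o_27, r7o_15, r5o_9, (.st (nat_lit 1819) (nat_lit 3640) (.st (nat_lit 1820) (nat_lit 3640) .nil))⟩,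
  ⟨r13o_27, r7o_18, r5o_0, (.st (nat_lit 90) (nat_lit 182) (.st (nat_lit 91) (nat_lit 182) .nil))⟩,
  ⟨r13o_27, r7o_18, r5o_1, (.st (nat_lit 181) (nat_lit 182) (.st (nat_lit 0) (nat_lit 182) .nil))⟩,
  ⟨r13o_27, r7o_18, r5o_3, (.st (nat_lit 454) (nat_lit 455) (.st (nat_lit 0) (nat_lit 455) .nil))⟩,
  ⟨r13o_27, r7o_18, r5o_5, (.st (nat_lit 272) (nat_lit 273) (.st (nat_lit 0) (nat_lit 273) .nil))⟩,
  ⟨r13o_27, r7o_18, r5o_7, (.st (nat_lit 90) (nat_lit 91) (.st (nat_lit 0) (nat_lit 91) .nil))⟩,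
  ⟨r13o_27, r7o_18, r5o_8, (.st (nat_lit 17) (nat_lit 35) .nil)⟩,
  ⟨r13o_27, r7o_18, r5o_9, (.st (nat_lit 34) (nat_lit 35) (.st (nat_lit 17) (nat_lit 35) (.st (nat_lit 0) (nat_lit 35) .nil)))⟩,
  ⟨r13o_27, r7o_20, r5o_0, (.st (nat_lit 272) (nat_lit 546) (.st (nat_lit 273) (nat_lit 546) .nil))⟩,
  ⟨r13o_27, r7o_20, r5o_3, (.st (nat_lit 1364) (nat_lit 2730) (.st (nat_lit 1365) (nat_lit 2730) .nil))⟩,
  ⟨r13o_27, r7o_20, r5o_5, (.st (nat_lit 272) (nat_lit 546) (.st (nat_lit 273) (nat_lit 546) .nil))⟩,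
  ⟨r13o_27, r7o_20, r5o_7, (.st (nat_lit 272) (nat_lit 546) (.st (nat_lit 273) (nat_lit 546) .nil))⟩,
  ⟨r13o_27, r7o_20, r5o_9, (.st (nat_lit 1364) (nat_lit 2730) (.st (nat_lit 1365) (nat_lit 2730) .nil))⟩,
  ⟨r13o_27, r7o_22, r5o_1, (.st (nat_lit 545) (nat_lit 546) (.st (nat_lit 0) (nat_lit 546) .nil))⟩,
  ⟨r13o_27, r7o_22, r5o_3, (.st (nat_lit 2729) (nat_lit 2730) (.st (nat_lit 0) (nat_lit 2730) .nil))⟩,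
  ⟨r13o_27, r7o_22, r5o_5, (.st (nat_lit 545) (nat_lit 546) (.st (nat_lit 0) (nat_lit 546) .nil))⟩,
  ⟨r13o_27, r7o_22, r5o_7, (.st (nat_lit 545) (nat_lit 546) (.st (nat_lit 0) (nat_lit 546) .nil))⟩,
  ⟨r13o_27, r7o_22, r5o_9, (.st (nat_lit 2729) (nat_lit 2730) (.st (nat_lit 0) (nat_lit 2730) .nil))⟩,
  ⟨r13o_27, r7o_26, r5o_1, (.st (nat_lit 727) (nat_lit 728) (.st (nat_lit 363) (nat_lit 728) (.st (nat_lit 364) (nat_lit 728) (.st (nat_lit 0) (nat_lit 728) .nil))))⟩,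
  ⟨r13o_27, r7o_26, r5o_3, (.st (nat_lit 3639) (nat_lit 3640) (.st (nat_lit 1819) (nat_lit 3640) (.st (nat_lit 1820) (nat_lit 3640) (.st (nat_lit 0) (nat_lit 3640) .nil))))⟩,
  ⟨r13o_27, r7o_26, r5o_5, (.st (nat_lit 2183) (nat_lit 2184) (.st (nat_lit 1091) (nat_lit 2184) (.st (nat_lit 1092) (nat_lit 2184) (.st (nat_lit 0) (nat_lit 2184) .nil))))⟩,
  ⟨r13o_27, r7o_26, r5o_7, (.st (nat_lit 727) (nat_lit 728) (.st (nat_lit 363) (nat_lit 728) (.st (nat_lit 364) (nat_lit 728) (.st (nat_lit 0) (nat_lit 728) .nil))))⟩,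
  ⟨r13o_27, r7o_26, r5o_9, (.st (nat_lit 3639) (nat_lit 3640) (.st (nat_lit 1819) (nat_lit 3640) (.st (nat_lit 1820) (nat_lit 3640) (.st (nat_lit 0) (nat_lit 3640) .nil))))⟩]

/-- entries -/
def EA28 : List E3 := [⟨r13o_28, r7o_13, r5o_4, (.st (nat_lit 3) (nat_lit 7) .nil)⟩,
  ⟨r13o_28, r7o_18, r5o_8, (.st (nat_lit 17) (nat_lit 35) .nil)⟩,
  ⟨r13o_28, r7o_18, r5o_9, (.st (nat_lit 17) (nat_lit 35) .nil)⟩]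

/-- entries -/
def EA29 : List E3 := [⟨r13o_29, r7o_13, r5o_2, (.st (nat_lit 17) (nat_lit 35) .nil)⟩,
  ⟨r13o_29, r7o_13, r5o_3, (.st (nat_lit 17) (nat_lit 35) .nil)⟩,
  ⟨r13o_29, r7o_13, r5o_4, (.st (nat_lit 3) (nat_lit 7) .nil)⟩,
  ⟨r13o_29, r7o_13, r5o_5, (.st (nat_lit 10) (nat_lit 21) .nil)⟩,
  ⟨r13o_29, r7o_13, r5o_6, (.st (nat_lit 10) (nat_lit 21) .nil)⟩,
  ⟨r13o_29, r7o_13, r5o_7, (.st (nat_lit 3) (nat_lit 7) .nil)⟩,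
  ⟨r13o_29, r7o_13, r5o_8, (.st (nat_lit 17) (nat_lit 35) .nil)⟩,
  ⟨r13o_29, r7o_13, r5o_9, (.st (nat_lit 17) (nat_lit 35) .nil)⟩,
  ⟨r13o_29, r7o_18, r5o_2, (.st (nat_lit 17) (nat_lit 35) .nil)⟩,
  ⟨r13o_29, r7o_18, r5o_3, (.st (nat_lit 17) (nat_lit 35) .nil)⟩,
  ⟨r13o_29, r7o_18, r5o_4, (.st (nat_lit 3) (nat_lit 7) .nil)⟩,
  ⟨r13o_29, r7o_18, r5o_5, (.st (nat_lit 10) (nat_lit 21) .nil)⟩,
  ⟨r13o_29, r7o_18, r5o_6, (.st (nat_lit 10) (nat_lit 21) .nil)⟩,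
  ⟨r13o_29, r7o_18, r5o_7, (.st (nat_lit 3) (nat_lit 7) .nil)⟩,
  ⟨r13o_29, r7o_18, r5o_8, (.st (nat_lit 17) (nat_lit 35) .nil)⟩,
  ⟨r13o_29, r7o_18, r5o_9, (.st (nat_lit 17) (nat_lit 35) .nil)⟩]

/-- entries -/
def EA30 : List E3 := []

/-- entries -/
def EA31 : List E3 := []

/-- entries -/
def EA32 : List E3 := [⟨r13o_32, r7o_1, r5o_0, (.st (nat_lit 77) (nat_lit 78) (.st (nat_lit 0) (nat_lit 78) .nil))⟩,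
  ⟨r13o_32, r7o_1, r5o_2, (.st (nat_lit 389) (nat_lit 390) (.st (nat_lit 0) (nat_lit 390) .nil))⟩,
  ⟨r13o_32, r7o_1, r5o_4, (.st (nat_lit 77) (nat_lit 78) (.st (nat_lit 0) (nat_lit 78) .nil))⟩,
  ⟨r13o_32, r7o_1, r5o_6, (.st (nat_lit 77) (nat_lit 78) (.st (nat_lit 0) (nat_lit 78) .nil))⟩,
  ⟨r13o_32, r7o_1, r5o_8, (.st (nat_lit 389) (nat_lit 390) (.st (nat_lit 0) (nat_lit 390) .nil))⟩,
  ⟨r13o_32, r7o_2, r5o_1, (.st (nat_lit 38) (nat_lit 78) (.st (nat_lit 39) (nat_lit 78) .nil))⟩,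
  ⟨r13o_32, r7o_2, r5o_2, (.st (nat_lit 194) (nat_lit 390) (.st (nat_lit 195) (nat_lit 390) .nil))⟩,
  ⟨r13o_32, r7o_2, r5o_4, (.st (nat_lit 38) (nat_lit 78) (.st (nat_lit 39) (nat_lit 78) .nil))⟩,
  ⟨r13o_32, r7o_2, r5o_6, (.st (nat_lit 38) (nat_lit 78) (.st (nat_lit 39) (nat_lit 78) .nil))⟩,
  ⟨r13o_32, r7o_2, r5o_8, (.st (nat_lit 194) (nat_lit 390) (.st (nat_lit 195) (nat_lit 390) .nil))⟩,
  ⟨r13o_32, r7o_5, r5o_0, (.st (nat_lit 311) (nat_lit 312) (.st (nat_lit 155) (nat_lit 312) (.st (nat_lit 156) (nat_lit 312) (.st (nat_lit 0) (nat_lit 312) .nil))))⟩,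
  ⟨r13o_32, r7o_5, r5o_2, (.st (nat_lit 1559) (nat_lit 1560) (.st (nat_lit 779) (nat_lit 1560) (.st (nat_lit 780) (nat_lit 1560) (.st (nat_lit 0) (nat_lit 1560) .nil))))⟩,
  ⟨r13o_32, r7o_5, r5o_4, (.st (nat_lit 311) (nat_lit 312) (.st (nat_lit 155) (nat_lit 312) (.st (nat_lit 156) (nat_lit 312) (.st (nat_lit 0) (nat_lit 312) .nil))))⟩,
  ⟨r13o_32, r7o_5, r5o_6, (.st (nat_lit 311) (nat_lit 312) (.st (nat_lit 155) (nat_lit 312) (.st (nat_lit 156) (nat_lit 312) (.st (nat_lit 0) (nat_lit 312) .nil))))⟩,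
  ⟨r13o_32, r7o_5, r5o_8, (.st (nat_lit 1559) (nat_lit 1560) (.st (nat_lit 779) (nat_lit 1560) (.st (nat_lit 780) (nat_lit 1560) (.st (nat_lit 0) (nat_lit 1560) .nil))))⟩,
  ⟨r13o_32, r7o_9, r5o_0, (.st (nat_lit 77) (nat_lit 78) (.st (nat_lit 0) (nat_lit 78) .nil))⟩,
  ⟨r13o_32, r7o_9, r5o_2, (.st (nat_lit 389) (nat_lit 390) (.st (nat_lit 0) (nat_lit 390) .nil))⟩,
  ⟨r13o_32, r7o_9, r5o_4, (.st (nat_lit 77) (nat_lit 78) (.st (nat_lit 0) (nat_lit 78) .nil))⟩,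
  ⟨r13o_32, r7o_9, r5o_6, (.st (nat_lit 77) (nat_lit 78) (.st (nat_lit 0) (nat_lit 78) .nil))⟩,
  ⟨r13o_32, r7o_9, r5o_8, (.st (nat_lit 389) (nat_lit 390) (.st (nat_lit 0) (nat_lit 390) .nil))⟩,
  ⟨r13o_32, r7o_11, r5o_1, (.st (nat_lit 38) (nat_lit 78) (.st (nat_lit 39) (nat_lit 78) .nil))⟩,
  ⟨r13o_32, r7o_11, r5o_2, (.st (nat_lit 194) (nat_lit 390) (.st (nat_lit 195) (nat_lit 390) .nil))⟩,
  ⟨r13o_32, r7o_11, r5o_4, (.st (nat_lit 38) (nat_lit 78) (.st (nat_lit 39) (nat_lit 78) .nil))⟩,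
  ⟨r13o_32, r7o_11, r5o_6, (.st (nat_lit 38) (nat_lit 78) (.st (nat_lit 39) (nat_lit 78) .nil))⟩,
  ⟨r13o_32, r7o_11, r5o_8, (.st (nat_lit 194) (nat_lit 390) (.st (nat_lit 195) (nat_lit 390) .nil))⟩,
  ⟨r13o_32, r7o_13, r5o_0, (.st (nat_lit 77) (nat_lit 78) (.st (nat_lit 0) (nat_lit 78) .nil))⟩,
  ⟨r13o_32, r7o_13, r5o_1, (.st (nat_lit 38) (nat_lit 78) (.st (nat_lit 39) (nat_lit 78) .nil))⟩,
  ⟨r13o_32, r7o_13, r5o_2, (.st (nat_lit 194) (nat_lit 195) (.st (nat_lit 0) (nat_lit 195) .nil))⟩,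
  ⟨r13o_32, r7o_13, r5o_4, (.st (nat_lit 38) (nat_lit 39) (.st (nat_lit 0) (nat_lit 39) .nil))⟩,
  ⟨r13o_32, r7o_13, r5o_6, (.st (nat_lit 38) (nat_lit 39) (.st (nat_lit 0) (nat_lit 39) .nil))⟩,
  ⟨r13o_32, r7o_13, r5o_8, (.st (nat_lit 194) (nat_lit 195) (.st (nat_lit 0) (nat_lit 195) .nil))⟩,
  ⟨r13o_32, r7o_16, r5o_0, (.st (nat_lit 155) (nat_lit 312) (.st (nat_lit 156) (nat_lit 312) .nil))⟩,
  ⟨r13o_32, r7o_16, r5o_2, (.st (nat_lit 779) (nat_lit 1560) (.st (nat_lit 780) (nat_lit 1560) .nil))⟩,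
  ⟨r13o_32, r7o_16, r5o_4, (.st (nat_lit 155) (nat_lit 312) (.st (nat_lit 156) (nat_lit 312) .nil))⟩,
  ⟨r13o_32, r7o_16, r5o_6, (.st (nat_lit 155) (nat_lit 312) (.st (nat_lit 156) (nat_lit 312) .nil))⟩,
  ⟨r13o_32, r7o_16, r5o_8, (.st (nat_lit 779) (nat_lit 1560) (.st (nat_lit 780) (nat_lit 1560) .nil))⟩,
  ⟨r13o_32, r7o_17, r5o_0, (.st (nat_lit 311) (nat_lit 312) (.st (nat_lit 0) (nat_lit 312) .nil))⟩,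
  ⟨r13o_32, r7o_17, r5o_2, (.st (nat_lit 1559) (nat_lit 1560) (.st (nat_lit 0) (nat_lit 1560) .nil))⟩,
  ⟨r13o_32, r7o_17, r5o_4, (.st (nat_lit 311) (nat_lit 312) (.st (nat_lit 0) (nat_lit 312) .nil))⟩,
  ⟨r13o_32, r7o_17, r5o_6, (.st (nat_lit 311) (nat_lit 312) (.st (nat_lit 0) (nat_lit 312) .nil))⟩,
  ⟨r13o_32, r7o_17, r5o_8, (.st (nat_lit 1559) (nat_lit 1560) (.st (nat_lit 0) (nat_lit 1560) .nil))⟩,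
  ⟨r13o_32, r7o_21, r5o_0, (.st (nat_lit 77) (nat_lit 78) (.st (nat_lit 0) (nat_lit 78) .nil))⟩,
  ⟨r13o_32, r7o_21, r5o_2, (.st (nat_lit 389) (nat_lit 390) (.st (nat_lit 0) (nat_lit 390) .nil))⟩,
  ⟨r13o_32, r7o_21, r5o_4, (.st (nat_lit 77) (nat_lit 78) (.st (nat_lit 0) (nat_lit 78) .nil))⟩,
  ⟨r13o_32, r7o_21, r5o_6, (.st (nat_lit 77) (nat_lit 78) (.st (nat_lit 0) (nat_lit 78) .nil))⟩,
  ⟨r13o_32, r7o_21, r5o_8, (.st (nat_lit 389) (nat_lit 390) (.st (nat_lit 0) (nat_lit 390) .nil))⟩,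
  ⟨r13o_32, r7o_23, r5o_1, (.st (nat_lit 38) (nat_lit 78) (.st (nat_lit 39) (nat_lit 78) .nil))⟩,
  ⟨r13o_32, r7o_23, r5o_2, (.st (nat_lit 194) (nat_lit 390) (.st (nat_lit 195) (nat_lit 390) .nil))⟩,
  ⟨r13o_32, r7o_23, r5o_4, (.st (nat_lit 38) (nat_lit 78) (.st (nat_lit 39) (nat_lit 78) .nil))⟩,
  ⟨r13o_32, r7o_23, r5o_6, (.st (nat_lit 38) (nat_lit 78) (.st (nat_lit 39) (nat_lit 78) .nil))⟩,
  ⟨r13o_32, r7o_23, r5o_8, (.st (nat_lit 194) (nat_lit 390) (.st (nat_lit 195) (nat_lit 390) .nil))⟩,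
  ⟨r13o_32, r7o_24, r5o_0, (.st (nat_lit 155) (nat_lit 312) (.st (nat_lit 156) (nat_lit 312) .nil))⟩,
  ⟨r13o_32, r7o_24, r5o_2, (.st (nat_lit 779) (nat_lit 1560) (.st (nat_lit 780) (nat_lit 1560) .nil))⟩,
  ⟨r13o_32, r7o_24, r5o_4, (.st (nat_lit 155) (nat_lit 312) (.st (nat_lit 156) (nat_lit 312) .nil))⟩,
  ⟨r13o_32, r7o_24, r5o_6, (.st (nat_lit 155) (nat_lit 312) (.st (nat_lit 156) (nat_lit 312) .nil))⟩,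
  ⟨r13o_32, r7o_24, r5o_8, (.st (nat_lit 779) (nat_lit 1560) (.st (nat_lit 780) (nat_lit 1560) .nil))⟩,
  ⟨r13o_32, r7o_25, r5o_0, (.st (nat_lit 311) (nat_lit 312) (.st (nat_lit 0) (nat_lit 312) .nil))⟩,
  ⟨r13o_32, r7o_25, r5o_2, (.st (nat_lit 1559) (nat_lit 1560) (.st (nat_lit 0) (nat_lit 1560) .nil))⟩,
  ⟨r13o_32, r7o_25, r5o_4, (.st (nat_lit 311) (nat_lit 312) (.st (nat_lit 0) (nat_lit 312) .nil))⟩,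
  ⟨r13o_32, r7o_25, r5o_6, (.st (nat_lit 311) (nat_lit 312) (.st (nat_lit 0) (nat_lit 312) .nil))⟩,
  ⟨r13o_32, r7o_25, r5o_8, (.st (nat_lit 1559) (nat_lit 1560) (.st (nat_lit 0) (nat_lit 1560) .nil))⟩]

/-- entries -/
def EA33 : List E3 := [⟨r13o_33, r7o_1, r5o_0, (.st (nat_lit 38) (nat_lit 78) (.st (nat_lit 39) (nat_lit 78) .nil))⟩,
  ⟨r13o_33, r7o_1, r5o_3, (.st (nat_lit 194) (nat_lit 390) (.st (nat_lit 195) (nat_lit 390) .nil))⟩,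
  ⟨r13o_33, r7o_1, r5o_5, (.st (nat_lit 38) (nat_lit 78) (.st (nat_lit 39) (nat_lit 78) .nil))⟩,
  ⟨r13o_33, r7o_1, r5o_7, (.st (nat_lit 38) (nat_lit 78) (.st (nat_lit 39) (nat_lit 78) .nil))⟩,
  ⟨r13o_33, r7o_1, r5o_9, (.st (nat_lit 194) (nat_lit 390) (.st (nat_lit 195) (nat_lit 390) .nil))⟩,
  ⟨r13o_33, r7o_2, r5o_1, (.st (nat_lit 77) (nat_lit 78) (.st (nat_lit 0) (nat_lit 78) .nil))⟩,
  ⟨r13o_33, r7o_2, r5o_3, (.st (nat_lit 389) (nat_lit 390) (.st (nat_lit 0) (nat_lit 390) .nil))⟩,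
  ⟨r13o_33, r7o_2, r5o_5, (.st (nat_lit 77) (nat_lit 78) (.st (nat_lit 0) (nat_lit 78) .nil))⟩,
  ⟨r13o_33, r7o_2, r5o_7, (.st (nat_lit 77) (nat_lit 78) (.st (nat_lit 0) (nat_lit 78) .nil))⟩,
  ⟨r13o_33, r7o_2, r5o_9, (.st (nat_lit 389) (nat_lit 390) (.st (nat_lit 0) (nat_lit 390) .nil))⟩,
  ⟨r13o_33, r7o_6, r5o_1, (.st (nat_lit 311) (nat_lit 312) (.st (nat_lit 0) (nat_lit 312) .nil))⟩,
  ⟨r13o_33, r7o_6, r5o_3, (.st (nat_lit 1559) (nat_lit 1560) (.st (nat_lit 0) (nat_lit 1560) .nil))⟩,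
  ⟨r13o_33, r7o_6, r5o_5, (.st (nat_lit 311) (nat_lit 312) (.st (nat_lit 0) (nat_lit 312) .nil))⟩,
  ⟨r13o_33, r7o_6, r5o_7, (.st (nat_lit 311) (nat_lit 312) (.st (nat_lit 0) (nat_lit 312) .nil))⟩,
  ⟨r13o_33, r7o_6, r5o_9, (.st (nat_lit 1559) (nat_lit 1560) (.st (nat_lit 0) (nat_lit 1560) .nil))⟩,
  ⟨r13o_33, r7o_7, r5o_1, (.st (nat_lit 155) (nat_lit 312) (.st (nat_lit 156) (nat_lit 312) .nil))⟩,
  ⟨r13o_33, r7o_7, r5o_3, (.st (nat_lit 779) (nat_lit 1560) (.st (nat_lit 780) (nat_lit 1560) .nil))⟩,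
  ⟨r13o_33, r7o_7, r5o_5, (.st (nat_lit 155) (nat_lit 312) (.st (nat_lit 156) (nat_lit 312) .nil))⟩,
  ⟨r13o_33, r7o_7, r5o_7, (.st (nat_lit 155) (nat_lit 312) (.st (nat_lit 156) (nat_lit 312) .nil))⟩,
  ⟨r13o_33, r7o_7, r5o_9, (.st (nat_lit 779) (nat_lit 1560) (.st (nat_lit 780) (nat_lit 1560) .nil))⟩,
  ⟨r13o_33, r7o_8, r5o_0, (.st (nat_lit 38) (nat_lit 78) (.st (nat_lit 39) (nat_lit 78) .nil))⟩,
  ⟨r13o_33, r7o_8, r5o_3, (.st (nat_lit 194) (nat_lit 390) (.st (nat_lit 195) (nat_lit 390) .nil))⟩,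
  ⟨r13o_33, r7o_8, r5o_5, (.st (nat_lit 38) (nat_lit 78) (.st (nat_lit 39) (nat_lit 78) .nil))⟩,
  ⟨r13o_33, r7o_8, r5o_7, (.st (nat_lit 38) (nat_lit 78) (.st (nat_lit 39) (nat_lit 78) .nil))⟩,
  ⟨r13o_33, r7o_8, r5o_9, (.st (nat_lit 194) (nat_lit 390) (.st (nat_lit 195) (nat_lit 390) .nil))⟩,
  ⟨r13o_33, r7o_10, r5o_1, (.st (nat_lit 77) (nat_lit 78) (.st (nat_lit 0) (nat_lit 78) .nil))⟩,
  ⟨r13o_33, r7o_10, r5o_3, (.st (nat_lit 389) (nat_lit 390) (.st (nat_lit 0) (nat_lit 390) .nil))⟩,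
  ⟨r13o_33, r7o_10, r5o_5, (.st (nat_lit 77) (nat_lit 78) (.st (nat_lit 0) (nat_lit 78) .nil))⟩,
  ⟨r13o_33, r7o_10, r5o_7, (.st (nat_lit 77) (nat_lit 78) (.st (nat_lit 0) (nat_lit 78) .nil))⟩,
  ⟨r13o_33, r7o_10, r5o_9, (.st (nat_lit 389) (nat_lit 390) (.st (nat_lit 0) (nat_lit 390) .nil))⟩,
  ⟨r13o_33, r7o_14, r5o_1, (.st (nat_lit 311) (nat_lit 312) (.st (nat_lit 0) (nat_lit 312) .nil))⟩,
  ⟨r13o_33, r7o_14, r5o_3, (.st (nat_lit 1559) (nat_lit 1560) (.st (nat_lit 0) (nat_lit 1560) .nil))⟩,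
  ⟨r13o_33, r7o_14, r5o_5, (.st (nat_lit 311) (nat_lit 312) (.st (nat_lit 0) (nat_lit 312) .nil))⟩,
  ⟨r13o_33, r7o_14, r5o_7, (.st (nat_lit 311) (nat_lit 312) (.st (nat_lit 0) (nat_lit 312) .nil))⟩,
  ⟨r13o_33, r7o_14, r5o_9, (.st (nat_lit 1559) (nat_lit 1560) (.st (nat_lit 0) (nat_lit 1560) .nil))⟩,
  ⟨r13o_33, r7o_15, r5o_1, (.st (nat_lit 155) (nat_lit 312) (.st (nat_lit 156) (nat_lit 312) .nil))⟩,
  ⟨r13o_33, r7o_15, r5o_3, (.st (nat_lit 779) (nat_lit 1560) (.st (nat_lit 780) (nat_lit 1560) .nil))⟩,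
  ⟨r13o_33, r7o_15, r5o_5, (.st (nat_lit 155) (nat_lit 312) (.st (nat_lit 156) (nat_lit 312) .nil))⟩,
  ⟨r13o_33, r7o_15, r5o_7, (.st (nat_lit 155) (nat_lit 312) (.st (nat_lit 156) (nat_lit 312) .nil))⟩,
  ⟨r13o_33, r7o_15, r5o_9, (.st (nat_lit 779) (nat_lit 1560) (.st (nat_lit 780) (nat_lit 1560) .nil))⟩,
  ⟨r13o_33, r7o_18, r5o_0, (.st (nat_lit 38) (nat_lit 78) (.st (nat_lit 39) (nat_lit 78) .nil))⟩,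
  ⟨r13o_33, r7o_18, r5o_1, (.st (nat_lit 77) (nat_lit 78) (.st (nat_lit 0) (nat_lit 78) .nil))⟩,
  ⟨r13o_33, r7o_18, r5o_3, (.st (nat_lit 194) (nat_lit 195) (.st (nat_lit 0) (nat_lit 195) .nil))⟩,
  ⟨r13o_33, r7o_18, r5o_5, (.st (nat_lit 38) (nat_lit 39) (.st (nat_lit 0) (nat_lit 39) .nil))⟩,
  ⟨r13o_33, r7o_18, r5o_7, (.st (nat_lit 38) (nat_lit 39) (.st (nat_lit 0) (nat_lit 39) .nil))⟩,
  ⟨r13o_33, r7o_18, r5o_9, (.st (nat_lit 194) (nat_lit 195) (.st (nat_lit 0) (nat_lit 195) .nil))⟩,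
  ⟨r13o_33, r7o_20, r5o_0, (.st (nat_lit 38) (nat_lit 78) (.st (nat_lit 39) (nat_lit 78) .nil))⟩,
  ⟨r13o_33, r7o_20, r5o_3, (.st (nat_lit 194) (nat_lit 390) (.st (nat_lit 195) (nat_lit 390) .nil))⟩,
  ⟨r13o_33, r7o_20, r5o_5, (.st (nat_lit 38) (nat_lit 78) (.st (nat_lit 39) (nat_lit 78) .nil))⟩,
  ⟨r13o_33, r7o_20, r5o_7, (.st (nat_lit 38) (nat_lit 78) (.st (nat_lit 39) (nat_lit 78) .nil))⟩,
  ⟨r13o_33, r7o_20, r5o_9, (.st (nat_lit 194) (nat_lit 390) (.st (nat_lit 195) (nat_lit 390) .nil))⟩,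
  ⟨r13o_33, r7o_22, r5o_1, (.st (nat_lit 77) (nat_lit 78) (.st (nat_lit 0) (nat_lit 78) .nil))⟩,
  ⟨r13o_33, r7o_22, r5o_3, (.st (nat_lit 389) (nat_lit 390) (.st (nat_lit 0) (nat_lit 390) .nil))⟩,
  ⟨r13o_33, r7o_22, r5o_5, (.st (nat_lit 77) (nat_lit 78) (.st (nat_lit 0) (nat_lit 78) .nil))⟩,
  ⟨r13o_33, r7o_22, r5o_7, (.st (nat_lit 77) (nat_lit 78) (.st (nat_lit 0) (nat_lit 78) .nil))⟩,
  ⟨r13o_33, r7o_22, r5o_9, (.st (nat_lit 389) (nat_lit 390) (.st (nat_lit 0) (nat_lit 390) .nil))⟩,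
  ⟨r13o_33, r7o_26, r5o_1, (.st (nat_lit 311) (nat_lit 312) (.st (nat_lit 155) (nat_lit 312) (.st (nat_lit 156) (nat_lit 312) (.st (nat_lit 0) (nat_lit 312) .nil))))⟩,
  ⟨r13o_33, r7o_26, r5o_3, (.st (nat_lit 1559) (nat_lit 1560) (.st (nat_lit 779) (nat_lit 1560) (.st (nat_lit 780) (nat_lit 1560) (.st (nat_lit 0) (nat_lit 1560) .nil))))⟩,
  ⟨r13o_33, r7o_26, r5o_5, (.st (nat_lit 23) (nat_lit 24) (.st (nat_lit 11) (nat_lit 24) (.st (nat_lit 12) (nat_lit 24) (.st (nat_lit 0) (nat_lit 24) .nil))))⟩,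
  ⟨r13o_33, r7o_26, r5o_7, (.st (nat_lit 311) (nat_lit 312) (.st (nat_lit 155) (nat_lit 312) (.st (nat_lit 156) (nat_lit 312) (.st (nat_lit 0) (nat_lit 312) .nil))))⟩,
  ⟨r13o_33, r7o_26, r5o_9, (.st (nat_lit 1559) (nat_lit 1560) (.st (nat_lit 779) (nat_lit 1560) (.st (nat_lit 780) (nat_lit 1560) (.st (nat_lit 0) (nat_lit 1560) .nil))))⟩]

/-- entries -/
def EA34 : List E3 := [⟨r13o_34, r7o_24, r5o_3, (.st (nat_lit 784) (nat_lit 1560) (.st (nat_lit 775) (nat_lit 1560) .nil))⟩,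
  ⟨r13o_34, r7o_25, r5o_3, (.st (nat_lit 1555) (nat_lit 1560) (.st (nat_lit 4) (nat_lit 1560) .nil))⟩]

/-- entries -/
def EA35 : List E3 := []

/-- entries -/
def EA36 : List E3 := [⟨r13o_36, r7o_1, r5o_0, (.st (nat_lit 39) (nat_lit 78) (.st (nat_lit 38) (nat_lit 78) .nil))⟩,
  ⟨r13o_36, r7o_1, r5o_3, (.st (nat_lit 195) (nat_lit 390) (.st (nat_lit 194) (nat_lit 390) .nil))⟩,
  ⟨r13o_36, r7o_1, r5o_5, (.st (nat_lit 39) (nat_lit 78) (.st (nat_lit 38) (nat_lit 78) .nil))⟩,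
  ⟨r13o_36, r7o_1, r5o_7, (.st (nat_lit 39) (nat_lit 78) (.st (nat_lit 38) (nat_lit 78) .nil))⟩,
  ⟨r13o_36, r7o_1, r5o_9, (.st (nat_lit 195) (nat_lit 390) (.st (nat_lit 194) (nat_lit 390) .nil))⟩,
  ⟨r13o_36, r7o_8, r5o_0, (.st (nat_lit 39) (nat_lit 78) (.st (nat_lit 38) (nat_lit 78) .nil))⟩,
  ⟨r13o_36, r7o_8, r5o_3, (.st (nat_lit 195) (nat_lit 390) (.st (nat_lit 194) (nat_lit 390) .nil))⟩,
  ⟨r13o_36, r7o_8, r5o_5, (.st (nat_lit 39) (nat_lit 78) (.st (nat_lit 38) (nat_lit 78) .nil))⟩,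
  ⟨r13o_36, r7o_8, r5o_7, (.st (nat_lit 39) (nat_lit 78) (.st (nat_lit 38) (nat_lit 78) .nil))⟩,
  ⟨r13o_36, r7o_8, r5o_9, (.st (nat_lit 195) (nat_lit 390) (.st (nat_lit 194) (nat_lit 390) .nil))⟩,
  ⟨r13o_36, r7o_18, r5o_0, (.st (nat_lit 39) (nat_lit 78) (.st (nat_lit 38) (nat_lit 78) .nil))⟩,
  ⟨r13o_36, r7o_18, r5o_3, (.st (nat_lit 195) (nat_lit 390) (.st (nat_lit 194) (nat_lit 390) .nil))⟩,
  ⟨r13o_36, r7o_18, r5o_5, (.st (nat_lit 39) (nat_lit 78) (.st (nat_lit 38) (nat_lit 78) .nil))⟩,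
  ⟨r13o_36, r7o_18, r5o_7, (.st (nat_lit 39) (nat_lit 78) (.st (nat_lit 38) (nat_lit 78) .nil))⟩,
  ⟨r13o_36, r7o_18, r5o_9, (.st (nat_lit 195) (nat_lit 390) (.st (nat_lit 194) (nat_lit 390) .nil))⟩,
  ⟨r13o_36, r7o_20, r5o_0, (.st (nat_lit 39) (nat_lit 78) (.st (nat_lit 38) (nat_lit 78) .nil))⟩,
  ⟨r13o_36, r7o_20, r5o_3, (.st (nat_lit 195) (nat_lit 390) (.st (nat_lit 194) (nat_lit 390) .nil))⟩,
  ⟨r13o_36, r7o_20, r5o_5, (.st (nat_lit 39) (nat_lit 78) (.st (nat_lit 38) (nat_lit 78) .nil))⟩,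
  ⟨r13o_36, r7o_20, r5o_7, (.st (nat_lit 39) (nat_lit 78) (.st (nat_lit 38) (nat_lit 78) .nil))⟩,
  ⟨r13o_36, r7o_20, r5o_9, (.st (nat_lit 195) (nat_lit 390) (.st (nat_lit 194) (nat_lit 390) .nil))⟩]

/-- entries -/
def EA37 : List E3 := []

/-- entries -/
def EA38 : List E3 := [⟨r13o_38, r7o_1, r5o_0, (.st (nat_lit 77) (nat_lit 78) (.st (nat_lit 0) (nat_lit 78) .nil))⟩,
  ⟨r13o_38, r7o_1, r5o_2, (.st (nat_lit 389) (nat_lit 390) (.st (nat_lit 0) (nat_lit 390) .nil))⟩,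
  ⟨r13o_38, r7o_1, r5o_4, (.st (nat_lit 77) (nat_lit 78) (.st (nat_lit 0) (nat_lit 78) .nil))⟩,
  ⟨r13o_38, r7o_1, r5o_6, (.st (nat_lit 77) (nat_lit 78) (.st (nat_lit 0) (nat_lit 78) .nil))⟩,
  ⟨r13o_38, r7o_1, r5o_8, (.st (nat_lit 389) (nat_lit 390) (.st (nat_lit 0) (nat_lit 390) .nil))⟩,
  ⟨r13o_38, r7o_5, r5o_0, (.st (nat_lit 311) (nat_lit 312) (.st (nat_lit 155) (nat_lit 312) (.st (nat_lit 156) (nat_lit 312) (.st (nat_lit 0) (nat_lit 312) .nil))))⟩,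
  ⟨r13o_38, r7o_5, r5o_2, (.st (nat_lit 119) (nat_lit 120) (.st (nat_lit 59) (nat_lit 120) (.st (nat_lit 60) (nat_lit 120) (.st (nat_lit 0) (nat_lit 120) .nil))))⟩,
  ⟨r13o_38, r7o_5, r5o_4, (.st (nat_lit 311) (nat_lit 312) (.st (nat_lit 155) (nat_lit 312) (.st (nat_lit 156) (nat_lit 312) (.st (nat_lit 0) (nat_lit 312) .nil))))⟩,
  ⟨r13o_38, r7o_5, r5o_6, (.st (nat_lit 311) (nat_lit 312) (.st (nat_lit 155) (nat_lit 312) (.st (nat_lit 156) (nat_lit 312) (.st (nat_lit 0) (nat_lit 312) .nil))))⟩,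
  ⟨r13o_38, r7o_5, r5o_8, (.st (nat_lit 1559) (nat_lit 1560) (.st (nat_lit 779) (nat_lit 1560) (.st (nat_lit 780) (nat_lit 1560) (.st (nat_lit 0) (nat_lit 1560) .nil))))⟩,
  ⟨r13o_38, r7o_9, r5o_0, (.st (nat_lit 77) (nat_lit 78) (.st (nat_lit 0) (nat_lit 78) .nil))⟩,
  ⟨r13o_38, r7o_9, r5o_2, (.st (nat_lit 389) (nat_lit 390) (.st (nat_lit 0) (nat_lit 390) .nil))⟩,
  ⟨r13o_38, r7o_9, r5o_4, (.st (nat_lit 77) (nat_lit 78) (.st (nat_lit 0) (nat_lit 78) .nil))⟩,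
  ⟨r13o_38, r7o_9, r5o_6, (.st (nat_lit 77) (nat_lit 78) (.st (nat_lit 0) (nat_lit 78) .nil))⟩,
  ⟨r13o_38, r7o_9, r5o_8, (.st (nat_lit 389) (nat_lit 390) (.st (nat_lit 0) (nat_lit 390) .nil))⟩,
  ⟨r13o_38, r7o_13, r5o_0, (.st (nat_lit 77) (nat_lit 78) (.st (nat_lit 0) (nat_lit 78) .nil))⟩,
  ⟨r13o_38, r7o_13, r5o_2, (.st (nat_lit 389) (nat_lit 390) (.st (nat_lit 0) (nat_lit 390) .nil))⟩,
  ⟨r13o_38, r7o_13, r5o_4, (.st (nat_lit 77) (nat_lit 78) (.st (nat_lit 0) (nat_lit 78) .nil))⟩,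
  ⟨r13o_38, r7o_13, r5o_6, (.st (nat_lit 77) (nat_lit 78) (.st (nat_lit 0) (nat_lit 78) .nil))⟩,
  ⟨r13o_38, r7o_13, r5o_8, (.st (nat_lit 389) (nat_lit 390) (.st (nat_lit 0) (nat_lit 390) .nil))⟩,
  ⟨r13o_38, r7o_16, r5o_0, (.st (nat_lit 155) (nat_lit 312) (.st (nat_lit 156) (nat_lit 312) .nil))⟩,
  ⟨r13o_38, r7o_16, r5o_2, (.st (nat_lit 779) (nat_lit 1560) (.st (nat_lit 780) (nat_lit 1560) .nil))⟩,
  ⟨r13o_38, r7o_16, r5o_4, (.st (nat_lit 155) (nat_lit 312) (.st (nat_lit 156) (nat_lit 312) .nil))⟩,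
  ⟨r13o_38, r7o_16, r5o_6, (.st (nat_lit 155) (nat_lit 312) (.st (nat_lit 156) (nat_lit 312) .nil))⟩,
  ⟨r13o_38, r7o_16, r5o_8, (.st (nat_lit 779) (nat_lit 1560) (.st (nat_lit 780) (nat_lit 1560) .nil))⟩,
  ⟨r13o_38, r7o_17, r5o_0, (.st (nat_lit 311) (nat_lit 312) (.st (nat_lit 0) (nat_lit 312) .nil))⟩,
  ⟨r13o_38, r7o_17, r5o_2, (.st (nat_lit 1559) (nat_lit 1560) (.st (nat_lit 0) (nat_lit 1560) .nil))⟩,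
  ⟨r13o_38, r7o_17, r5o_4, (.st (nat_lit 311) (nat_lit 312) (.st (nat_lit 0) (nat_lit 312) .nil))⟩,
  ⟨r13o_38, r7o_17, r5o_6, (.st (nat_lit 311) (nat_lit 312) (.st (nat_lit 0) (nat_lit 312) .nil))⟩,
  ⟨r13o_38, r7o_17, r5o_8, (.st (nat_lit 1559) (nat_lit 1560) (.st (nat_lit 0) (nat_lit 1560) .nil))⟩,
  ⟨r13o_38, r7o_21, r5o_0, (.st (nat_lit 77) (nat_lit 78) (.st (nat_lit 0) (nat_lit 78) .nil))⟩,
  ⟨r13o_38, r7o_21, r5o_2, (.st (nat_lit 389) (nat_lit 390) (.st (nat_lit 0) (nat_lit 390) .nil))⟩,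
  ⟨r13o_38, r7o_21, r5o_4, (.st (nat_lit 77) (nat_lit 78) (.st (nat_lit 0) (nat_lit 78) .nil))⟩,
  ⟨r13o_38, r7o_21, r5o_6, (.st (nat_lit 77) (nat_lit 78) (.st (nat_lit 0) (nat_lit 78) .nil))⟩,
  ⟨r13o_38, r7o_21, r5o_8, (.st (nat_lit 389) (nat_lit 390) (.st (nat_lit 0) (nat_lit 390) .nil))⟩,
  ⟨r13o_38, r7o_24, r5o_0, (.st (nat_lit 155) (nat_lit 312) (.st (nat_lit 156) (nat_lit 312) .nil))⟩,
  ⟨r13o_38, r7o_24, r5o_2, (.st (nat_lit 779) (nat_lit 1560) (.st (nat_lit 780) (nat_lit 1560) .nil))⟩,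
  ⟨r13o_38, r7o_24, r5o_4, (.st (nat_lit 155) (nat_lit 312) (.st (nat_lit 156) (nat_lit 312) .nil))⟩,
  ⟨r13o_38, r7o_24, r5o_6, (.st (nat_lit 155) (nat_lit 312) (.st (nat_lit 156) (nat_lit 312) .nil))⟩,
  ⟨r13o_38, r7o_24, r5o_8, (.st (nat_lit 779) (nat_lit 1560) (.st (nat_lit 780) (nat_lit 1560) .nil))⟩,
  ⟨r13o_38, r7o_25, r5o_0, (.st (nat_lit 311) (nat_lit 312) (.st (nat_lit 0) (nat_lit 312) .nil))⟩,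
  ⟨r13o_38, r7o_25, r5o_2, (.st (nat_lit 1559) (nat_lit 1560) (.st (nat_lit 0) (nat_lit 1560) .nil))⟩,
  ⟨r13o_38, r7o_25, r5o_4, (.st (nat_lit 311) (nat_lit 312) (.st (nat_lit 0) (nat_lit 312) .nil))⟩,
  ⟨r13o_38, r7o_25, r5o_6, (.st (nat_lit 311) (nat_lit 312) (.st (nat_lit 0) (nat_lit 312) .nil))⟩,
  ⟨r13o_38, r7o_25, r5o_8, (.st (nat_lit 1559) (nat_lit 1560) (.st (nat_lit 0) (nat_lit 1560) .nil))⟩]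

/-- entries -/
def EA39 : List E3 := [⟨r13o_39, r7o_2, r5o_1, (.st (nat_lit 77) (nat_lit 78) (.st (nat_lit 0) (nat_lit 78) .nil))⟩,
  ⟨r13o_39, r7o_2, r5o_3, (.st (nat_lit 389) (nat_lit 390) (.st (nat_lit 0) (nat_lit 390) .nil))⟩,
  ⟨r13o_39, r7o_2, r5o_5, (.st (nat_lit 77) (nat_lit 78) (.st (nat_lit 0) (nat_lit 78) .nil))⟩,
  ⟨r13o_39, r7o_2, r5o_7, (.st (nat_lit 77) (nat_lit 78) (.st (nat_lit 0) (nat_lit 78) .nil))⟩,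
  ⟨r13o_39, r7o_2, r5o_9, (.st (nat_lit 389) (nat_lit 390) (.st (nat_lit 0) (nat_lit 390) .nil))⟩,
  ⟨r13o_39, r7o_6, r5o_1, (.st (nat_lit 311) (nat_lit 312) (.st (nat_lit 0) (nat_lit 312) .nil))⟩,
  ⟨r13o_39, r7o_6, r5o_3, (.st (nat_lit 1559) (nat_lit 1560) (.st (nat_lit 0) (nat_lit 1560) .nil))⟩,
  ⟨r13o_39, r7o_6, r5o_5, (.st (nat_lit 311) (nat_lit 312) (.st (nat_lit 0) (nat_lit 312) .nil))⟩,
  ⟨r13o_39, r7o_6, r5o_7, (.st (nat_lit 311) (nat_lit 312) (.st (nat_lit 0) (nat_lit 312) .nil))⟩,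
  ⟨r13o_39, r7o_6, r5o_9, (.st (nat_lit 1559) (nat_lit 1560) (.st (nat_lit 0) (nat_lit 1560) .nil))⟩,
  ⟨r13o_39, r7o_7, r5o_1, (.st (nat_lit 155) (nat_lit 312) (.st (nat_lit 156) (nat_lit 312) .nil))⟩,
  ⟨r13o_39, r7o_7, r5o_3, (.st (nat_lit 779) (nat_lit 1560) (.st (nat_lit 780) (nat_lit 1560) .nil))⟩,
  ⟨r13o_39, r7o_7, r5o_5, (.st (nat_lit 155) (nat_lit 312) (.st (nat_lit 156) (nat_lit 312) .nil))⟩,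
  ⟨r13o_39, r7o_7, r5o_7, (.st (nat_lit 155) (nat_lit 312) (.st (nat_lit 156) (nat_lit 312) .nil))⟩,
  ⟨r13o_39, r7o_7, r5o_9, (.st (nat_lit 779) (nat_lit 1560) (.st (nat_lit 780) (nat_lit 1560) .nil))⟩,
  ⟨r13o_39, r7o_10, r5o_1, (.st (nat_lit 77) (nat_lit 78) (.st (nat_lit 0) (nat_lit 78) .nil))⟩,
  ⟨r13o_39, r7o_10, r5o_3, (.st (nat_lit 389) (nat_lit 390) (.st (nat_lit 0) (nat_lit 390) .nil))⟩,
  ⟨r13o_39, r7o_10, r5o_5, (.st (nat_lit 77) (nat_lit 78) (.st (nat_lit 0) (nat_lit 78) .nil))⟩,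
  ⟨r13o_39, r7o_10, r5o_7, (.st (nat_lit 77) (nat_lit 78) (.st (nat_lit 0) (nat_lit 78) .nil))⟩,
  ⟨r13o_39, r7o_10, r5o_9, (.st (nat_lit 389) (nat_lit 390) (.st (nat_lit 0) (nat_lit 390) .nil))⟩,
  ⟨r13o_39, r7o_14, r5o_1, (.st (nat_lit 311) (nat_lit 312) (.st (nat_lit 0) (nat_lit 312) .nil))⟩,
  ⟨r13o_39, r7o_14, r5o_3, (.st (nat_lit 1559) (nat_lit 1560) (.st (nat_lit 0) (nat_lit 1560) .nil))⟩,
  ⟨r13o_39, r7o_14, r5o_5, (.st (nat_lit 311) (nat_lit 312) (.st (nat_lit 0) (nat_lit 312) .nil))⟩,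
  ⟨r13o_39, r7o_14, r5o_7, (.st (nat_lit 311) (nat_lit 312) (.st (nat_lit 0) (nat_lit 312) .nil))⟩,
  ⟨r13o_39, r7o_14, r5o_9, (.st (nat_lit 1559) (nat_lit 1560) (.st (nat_lit 0) (nat_lit 1560) .nil))⟩,
  ⟨r13o_39, r7o_15, r5o_1, (.st (nat_lit 155) (nat_lit 312) (.st (nat_lit 156) (nat_lit 312) .nil))⟩,
  ⟨r13o_39, r7o_15, r5o_3, (.st (nat_lit 779) (nat_lit 1560) (.st (nat_lit 780) (nat_lit 1560) .nil))⟩,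
  ⟨r13o_39, r7o_15, r5o_5, (.st (nat_lit 155) (nat_lit 312) (.st (nat_lit 156) (nat_lit 312) .nil))⟩,
  ⟨r13o_39, r7o_15, r5o_7, (.st (nat_lit 155) (nat_lit 312) (.st (nat_lit 156) (nat_lit 312) .nil))⟩,
  ⟨r13o_39, r7o_15, r5o_9, (.st (nat_lit 779) (nat_lit 1560) (.st (nat_lit 780) (nat_lit 1560) .nil))⟩,
  ⟨r13o_39, r7o_18, r5o_1, (.st (nat_lit 77) (nat_lit 78) (.st (nat_lit 0) (nat_lit 78) .nil))⟩,
  ⟨r13o_39, r7o_18, r5o_3, (.st (nat_lit 389) (nat_lit 390) (.st (nat_lit 0) (nat_lit 390) .nil))⟩,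
  ⟨r13o_39, r7o_18, r5o_5, (.st (nat_lit 77) (nat_lit 78) (.st (nat_lit 0) (nat_lit 78) .nil))⟩,
  ⟨r13o_39, r7o_18, r5o_7, (.st (nat_lit 77) (nat_lit 78) (.st (nat_lit 0) (nat_lit 78) .nil))⟩,
  ⟨r13o_39, r7o_18, r5o_9, (.st (nat_lit 389) (nat_lit 390) (.st (nat_lit 0) (nat_lit 390) .nil))⟩,
  ⟨r13o_39, r7o_22, r5o_1, (.st (nat_lit 77) (nat_lit 78) (.st (nat_lit 0) (nat_lit 78) .nil))⟩,
  ⟨r13o_39, r7o_22, r5o_3, (.st (nat_lit 389) (nat_lit 390) (.st (nat_lit 0) (nat_lit 390) .nil))⟩,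
  ⟨r13o_39, r7o_22, r5o_5, (.st (nat_lit 77) (nat_lit 78) (.st (nat_lit 0) (nat_lit 78) .nil))⟩,
  ⟨r13o_39, r7o_22, r5o_7, (.st (nat_lit 77) (nat_lit 78) (.st (nat_lit 0) (nat_lit 78) .nil))⟩,
  ⟨r13o_39, r7o_22, r5o_9, (.st (nat_lit 389) (nat_lit 390) (.st (nat_lit 0) (nat_lit 390) .nil))⟩,
  ⟨r13o_39, r7o_26, r5o_1, (.st (nat_lit 311) (nat_lit 312) (.st (nat_lit 155) (nat_lit 312) (.st (nat_lit 156) (nat_lit 312) (.st (nat_lit 0) (nat_lit 312) .nil))))⟩,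
  ⟨r13o_39, r7o_26, r5o_3, (.st (nat_lit 1559) (nat_lit 1560) (.st (nat_lit 779) (nat_lit 1560) (.st (nat_lit 780) (nat_lit 1560) (.st (nat_lit 0) (nat_lit 1560) .nil))))⟩,
  ⟨r13o_39, r7o_26, r5o_5, (.st (nat_lit 311) (nat_lit 312) (.st (nat_lit 155) (nat_lit 312) (.st (nat_lit 156) (nat_lit 312) (.st (nat_lit 0) (nat_lit 312) .nil))))⟩,
  ⟨r13o_39, r7o_26, r5o_7, (.st (nat_lit 311) (nat_lit 312) (.st (nat_lit 155) (nat_lit 312) (.st (nat_lit 156) (nat_lit 312) (.st (nat_lit 0) (nat_lit 312) .nil))))⟩,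
  ⟨r13o_39, r7o_26, r5o_9, (.st (nat_lit 1559) (nat_lit 1560) (.st (nat_lit 779) (nat_lit 1560) (.st (nat_lit 780) (nat_lit 1560) (.st (nat_lit 0) (nat_lit 1560) .nil))))⟩]

/-- entries -/
def EA40 : List E3 := [⟨r13o_40, r7o_2, r5o_1, (.st (nat_lit 39) (nat_lit 78) (.st (nat_lit 38) (nat_lit 78) .nil))⟩,
  ⟨r13o_40, r7o_2, r5o_2, (.st (nat_lit 195) (nat_lit 390) (.st (nat_lit 194) (nat_lit 390) .nil))⟩,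
  ⟨r13o_40, r7o_2, r5o_4, (.st (nat_lit 39) (nat_lit 78) (.st (nat_lit 38) (nat_lit 78) .nil))⟩,
  ⟨r13o_40, r7o_2, r5o_6, (.st (nat_lit 39) (nat_lit 78) (.st (nat_lit 38) (nat_lit 78) .nil))⟩,
  ⟨r13o_40, r7o_2, r5o_8, (.st (nat_lit 195) (nat_lit 390) (.st (nat_lit 194) (nat_lit 390) .nil))⟩,
  ⟨r13o_40, r7o_11, r5o_1, (.st (nat_lit 39) (nat_lit 78) (.st (nat_lit 38) (nat_lit 78) .nil))⟩,
  ⟨r13o_40, r7o_11, r5o_2, (.st (nat_lit 195) (nat_lit 390) (.st (nat_lit 194) (nat_lit 390) .nil))⟩,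
  ⟨r13o_40, r7o_11, r5o_4, (.st (nat_lit 39) (nat_lit 78) (.st (nat_lit 38) (nat_lit 78) .nil))⟩,
  ⟨r13o_40, r7o_11, r5o_6, (.st (nat_lit 39) (nat_lit 78) (.st (nat_lit 38) (nat_lit 78) .nil))⟩,
  ⟨r13o_40, r7o_11, r5o_8, (.st (nat_lit 195) (nat_lit 390) (.st (nat_lit 194) (nat_lit 390) .nil))⟩,
  ⟨r13o_40, r7o_13, r5o_1, (.st (nat_lit 39) (nat_lit 78) (.st (nat_lit 38) (nat_lit 78) .nil))⟩,
  ⟨r13o_40, r7o_13, r5o_2, (.st (nat_lit 195) (nat_lit 390) (.st (nat_lit 194) (nat_lit 390) .nil))⟩,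
  ⟨r13o_40, r7o_13, r5o_4, (.st (nat_lit 39) (nat_lit 78) (.st (nat_lit 38) (nat_lit 78) .nil))⟩,
  ⟨r13o_40, r7o_13, r5o_6, (.st (nat_lit 39) (nat_lit 78) (.st (nat_lit 38) (nat_lit 78) .nil))⟩,
  ⟨r13o_40, r7o_13, r5o_8, (.st (nat_lit 195) (nat_lit 390) (.st (nat_lit 194) (nat_lit 390) .nil))⟩,
  ⟨r13o_40, r7o_23, r5o_1, (.st (nat_lit 39) (nat_lit 78) (.st (nat_lit 38) (nat_lit 78) .nil))⟩,
  ⟨r13o_40, r7o_23, r5o_2, (.st (nat_lit 195) (nat_lit 390) (.st (nat_lit 194) (nat_lit 390) .nil))⟩,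
  ⟨r13o_40, r7o_23, r5o_4, (.st (nat_lit 39) (nat_lit 78) (.st (nat_lit 38) (nat_lit 78) .nil))⟩,
  ⟨r13o_40, r7o_23, r5o_6, (.st (nat_lit 39) (nat_lit 78) (.st (nat_lit 38) (nat_lit 78) .nil))⟩,
  ⟨r13o_40, r7o_23, r5o_8, (.st (nat_lit 195) (nat_lit 390) (.st (nat_lit 194) (nat_lit 390) .nil))⟩]

/-- entries -/
def EA41 : List E3 := []

/-- entries -/
def EA42 : List E3 := []

/-- entries -/
def EA43 : List E3 := [⟨r13o_43, r7o_1, r5o_0, (.st (nat_lit 39) (nat_lit 78) (.st (nat_lit 38) (nat_lit 78) .nil))⟩,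
  ⟨r13o_43, r7o_1, r5o_3, (.st (nat_lit 195) (nat_lit 390) (.st (nat_lit 194) (nat_lit 390) .nil))⟩,
  ⟨r13o_43, r7o_1, r5o_5, (.st (nat_lit 39) (nat_lit 78) (.st (nat_lit 38) (nat_lit 78) .nil))⟩,
  ⟨r13o_43, r7o_1, r5o_7, (.st (nat_lit 39) (nat_lit 78) (.st (nat_lit 38) (nat_lit 78) .nil))⟩,
  ⟨r13o_43, r7o_1, r5o_9, (.st (nat_lit 195) (nat_lit 390) (.st (nat_lit 194) (nat_lit 390) .nil))⟩,
  ⟨r13o_43, r7o_8, r5o_0, (.st (nat_lit 39) (nat_lit 78) (.st (nat_lit 38) (nat_lit 78) .nil))⟩,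
  ⟨r13o_43, r7o_8, r5o_3, (.st (nat_lit 195) (nat_lit 390) (.st (nat_lit 194) (nat_lit 390) .nil))⟩,
  ⟨r13o_43, r7o_8, r5o_5, (.st (nat_lit 39) (nat_lit 78) (.st (nat_lit 38) (nat_lit 78) .nil))⟩,
  ⟨r13o_43, r7o_8, r5o_7, (.st (nat_lit 39) (nat_lit 78) (.st (nat_lit 38) (nat_lit 78) .nil))⟩,
  ⟨r13o_43, r7o_8, r5o_9, (.st (nat_lit 195) (nat_lit 390) (.st (nat_lit 194) (nat_lit 390) .nil))⟩,
  ⟨r13o_43, r7o_18, r5o_0, (.st (nat_lit 39) (nat_lit 78) (.st (nat_lit 38) (nat_lit 78) .nil))⟩,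
  ⟨r13o_43, r7o_18, r5o_3, (.st (nat_lit 195) (nat_lit 390) (.st (nat_lit 194) (nat_lit 390) .nil))⟩,
  ⟨r13o_43, r7o_18, r5o_5, (.st (nat_lit 39) (nat_lit 78) (.st (nat_lit 38) (nat_lit 78) .nil))⟩,
  ⟨r13o_43, r7o_18, r5o_7, (.st (nat_lit 39) (nat_lit 78) (.st (nat_lit 38) (nat_lit 78) .nil))⟩,
  ⟨r13o_43, r7o_18, r5o_9, (.st (nat_lit 195) (nat_lit 390) (.st (nat_lit 194) (nat_lit 390) .nil))⟩,
  ⟨r13o_43, r7o_20, r5o_0, (.st (nat_lit 39) (nat_lit 78) (.st (nat_lit 38) (nat_lit 78) .nil))⟩,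
  ⟨r13o_43, r7o_20, r5o_3, (.st (nat_lit 195) (nat_lit 390) (.st (nat_lit 194) (nat_lit 390) .nil))⟩,
  ⟨r13o_43, r7o_20, r5o_5, (.st (nat_lit 39) (nat_lit 78) (.st (nat_lit 38) (nat_lit 78) .nil))⟩,
  ⟨r13o_43, r7o_20, r5o_7, (.st (nat_lit 39) (nat_lit 78) (.st (nat_lit 38) (nat_lit 78) .nil))⟩,
  ⟨r13o_43, r7o_20, r5o_9, (.st (nat_lit 195) (nat_lit 390) (.st (nat_lit 194) (nat_lit 390) .nil))⟩]

/-- entries -/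
def EA44 : List E3 := [⟨r13o_44, r7o_1, r5o_0, (.st (nat_lit 77) (nat_lit 78) (.st (nat_lit 0) (nat_lit 78) .nil))⟩,
  ⟨r13o_44, r7o_1, r5o_2, (.st (nat_lit 389) (nat_lit 390) (.st (nat_lit 0) (nat_lit 390) .nil))⟩,
  ⟨r13o_44, r7o_1, r5o_4, (.st (nat_lit 77) (nat_lit 78) (.st (nat_lit 0) (nat_lit 78) .nil))⟩,
  ⟨r13o_44, r7o_1, r5o_6, (.st (nat_lit 77) (nat_lit 78) (.st (nat_lit 0) (nat_lit 78) .nil))⟩,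
  ⟨r13o_44, r7o_1, r5o_8, (.st (nat_lit 389) (nat_lit 390) (.st (nat_lit 0) (nat_lit 390) .nil))⟩,
  ⟨r13o_44, r7o_5, r5o_0, (.st (nat_lit 311) (nat_lit 312) (.st (nat_lit 155) (nat_lit 312) (.st (nat_lit 156) (nat_lit 312) (.st (nat_lit 0) (nat_lit 312) .nil))))⟩,
  ⟨r13o_44, r7o_5, r5o_2, (.st (nat_lit 1559) (nat_lit 1560) (.st (nat_lit 779) (nat_lit 1560) (.st (nat_lit 780) (nat_lit 1560) (.st (nat_lit 0) (nat_lit 1560) .nil))))⟩,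
  ⟨r13o_44, r7o_5, r5o_4, (.st (nat_lit 311) (nat_lit 312) (.st (nat_lit 155) (nat_lit 312) (.st (nat_lit 156) (nat_lit 312) (.st (nat_lit 0) (nat_lit 312) .nil))))⟩,
  ⟨r13o_44, r7o_5, r5o_6, (.st (nat_lit 311) (nat_lit 312) (.st (nat_lit 155) (nat_lit 312) (.st (nat_lit 156) (nat_lit 312) (.st (nat_lit 0) (nat_lit 312) .nil))))⟩,
  ⟨r13o_44, r7o_5, r5o_8, (.st (nat_lit 1559) (nat_lit 1560) (.st (nat_lit 779) (nat_lit 1560) (.st (nat_lit 780) (nat_lit 1560) (.st (nat_lit 0) (nat_lit 1560) .nil))))⟩,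
  ⟨r13o_44, r7o_9, r5o_0, (.st (nat_lit 77) (nat_lit 78) (.st (nat_lit 0) (nat_lit 78) .nil))⟩,
  ⟨r13o_44, r7o_9, r5o_2, (.st (nat_lit 389) (nat_lit 390) (.st (nat_lit 0) (nat_lit 390) .nil))⟩,
  ⟨r13o_44, r7o_9, r5o_4, (.st (nat_lit 77) (nat_lit 78) (.st (nat_lit 0) (nat_lit 78) .nil))⟩,
  ⟨r13o_44, r7o_9, r5o_6, (.st (nat_lit 77) (nat_lit 78) (.st (nat_lit 0) (nat_lit 78) .nil))⟩,
  ⟨r13o_44, r7o_9, r5o_8, (.st (nat_lit 389) (nat_lit 390) (.st (nat_lit 0) (nat_lit 390) .nil))⟩,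
  ⟨r13o_44, r7o_13, r5o_0, (.st (nat_lit 77) (nat_lit 78) (.st (nat_lit 0) (nat_lit 78) .nil))⟩,
  ⟨r13o_44, r7o_13, r5o_2, (.st (nat_lit 389) (nat_lit 390) (.st (nat_lit 0) (nat_lit 390) .nil))⟩,
  ⟨r13o_44, r7o_13, r5o_4, (.st (nat_lit 77) (nat_lit 78) (.st (nat_lit 0) (nat_lit 78) .nil))⟩,
  ⟨r13o_44, r7o_13, r5o_6, (.st (nat_lit 77) (nat_lit 78) (.st (nat_lit 0) (nat_lit 78) .nil))⟩,
  ⟨r13o_44, r7o_13, r5o_8, (.st (nat_lit 389) (nat_lit 390) (.st (nat_lit 0) (nat_lit 390) .nil))⟩,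
  ⟨r13o_44, r7o_16, r5o_0, (.st (nat_lit 155) (nat_lit 312) (.st (nat_lit 156) (nat_lit 312) .nil))⟩,
  ⟨r13o_44, r7o_16, r5o_2, (.st (nat_lit 779) (nat_lit 1560) (.st (nat_lit 780) (nat_lit 1560) .nil))⟩,
  ⟨r13o_44, r7o_16, r5o_4, (.st (nat_lit 155) (nat_lit 312) (.st (nat_lit 156) (nat_lit 312) .nil))⟩,
  ⟨r13o_44, r7o_16, r5o_6, (.st (nat_lit 155) (nat_lit 312) (.st (nat_lit 156) (nat_lit 312) .nil))⟩,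
  ⟨r13o_44, r7o_16, r5o_8, (.st (nat_lit 779) (nat_lit 1560) (.st (nat_lit 780) (nat_lit 1560) .nil))⟩,
  ⟨r13o_44, r7o_17, r5o_0, (.st (nat_lit 311) (nat_lit 312) (.st (nat_lit 0) (nat_lit 312) .nil))⟩,
  ⟨r13o_44, r7o_17, r5o_2, (.st (nat_lit 1559) (nat_lit 1560) (.st (nat_lit 0) (nat_lit 1560) .nil))⟩,
  ⟨r13o_44, r7o_17, r5o_4, (.st (nat_lit 311) (nat_lit 312) (.st (nat_lit 0) (nat_lit 312) .nil))⟩,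
  ⟨r13o_44, r7o_17, r5o_6, (.st (nat_lit 311) (nat_lit 312) (.st (nat_lit 0) (nat_lit 312) .nil))⟩,
  ⟨r13o_44, r7o_17, r5o_8, (.st (nat_lit 1559) (nat_lit 1560) (.st (nat_lit 0) (nat_lit 1560) .nil))⟩,
  ⟨r13o_44, r7o_21, r5o_0, (.st (nat_lit 77) (nat_lit 78) (.st (nat_lit 0) (nat_lit 78) .nil))⟩,
  ⟨r13o_44, r7o_21, r5o_2, (.st (nat_lit 389) (nat_lit 390) (.st (nat_lit 0) (nat_lit 390) .nil))⟩,
  ⟨r13o_44, r7o_21, r5o_4, (.st (nat_lit 77) (nat_lit 78) (.st (nat_lit 0) (nat_lit 78) .nil))⟩,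
  ⟨r13o_44, r7o_21, r5o_6, (.st (nat_lit 77) (nat_lit 78) (.st (nat_lit 0) (nat_lit 78) .nil))⟩,
  ⟨r13o_44, r7o_21, r5o_8, (.st (nat_lit 389) (nat_lit 390) (.st (nat_lit 0) (nat_lit 390) .nil))⟩,
  ⟨r13o_44, r7o_24, r5o_0, (.st (nat_lit 155) (nat_lit 312) (.st (nat_lit 156) (nat_lit 312) .nil))⟩,
  ⟨r13o_44, r7o_24, r5o_2, (.st (nat_lit 779) (nat_lit 1560) (.st (nat_lit 780) (nat_lit 1560) .nil))⟩,
  ⟨r13o_44, r7o_24, r5o_4, (.st (nat_lit 155) (nat_lit 312) (.st (nat_lit 156) (nat_lit 312) .nil))⟩,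
  ⟨r13o_44, r7o_24, r5o_6, (.st (nat_lit 155) (nat_lit 312) (.st (nat_lit 156) (nat_lit 312) .nil))⟩,
  ⟨r13o_44, r7o_24, r5o_8, (.st (nat_lit 779) (nat_lit 1560) (.st (nat_lit 780) (nat_lit 1560) .nil))⟩,
  ⟨r13o_44, r7o_25, r5o_0, (.st (nat_lit 311) (nat_lit 312) (.st (nat_lit 0) (nat_lit 312) .nil))⟩,
  ⟨r13o_44, r7o_25, r5o_2, (.st (nat_lit 1559) (nat_lit 1560) (.st (nat_lit 0) (nat_lit 1560) .nil))⟩,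
  ⟨r13o_44, r7o_25, r5o_4, (.st (nat_lit 311) (nat_lit 312) (.st (nat_lit 0) (nat_lit 312) .nil))⟩,
  ⟨r13o_44, r7o_25, r5o_6, (.st (nat_lit 311) (nat_lit 312) (.st (nat_lit 0) (nat_lit 312) .nil))⟩,
  ⟨r13o_44, r7o_25, r5o_8, (.st (nat_lit 1559) (nat_lit 1560) (.st (nat_lit 0) (nat_lit 1560) .nil))⟩]

/-- entries -/
def EA45 : List E3 := [⟨r13o_45, r7o_2, r5o_1, (.st (nat_lit 77) (nat_lit 78) (.st (nat_lit 0) (nat_lit 78) .nil))⟩,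
  ⟨r13o_45, r7o_2, r5o_3, (.st (nat_lit 389) (nat_lit 390) (.st (nat_lit 0) (nat_lit 390) .nil))⟩,
  ⟨r13o_45, r7o_2, r5o_5, (.st (nat_lit 77) (nat_lit 78) (.st (nat_lit 0) (nat_lit 78) .nil))⟩,
  ⟨r13o_45, r7o_2, r5o_7, (.st (nat_lit 77) (nat_lit 78) (.st (nat_lit 0) (nat_lit 78) .nil))⟩,
  ⟨r13o_45, r7o_2, r5o_9, (.st (nat_lit 389) (nat_lit 390) (.st (nat_lit 0) (nat_lit 390) .nil))⟩,
  ⟨r13o_45, r7o_6, r5o_1, (.st (nat_lit 311) (nat_lit 312) (.st (nat_lit 0) (nat_lit 312) .nil))⟩,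
  ⟨r13o_45, r7o_6, r5o_3, (.st (nat_lit 1559) (nat_lit 1560) (.st (nat_lit 0) (nat_lit 1560) .nil))⟩,
  ⟨r13o_45, r7o_6, r5o_5, (.st (nat_lit 311) (nat_lit 312) (.st (nat_lit 0) (nat_lit 312) .nil))⟩,
  ⟨r13o_45, r7o_6, r5o_7, (.st (nat_lit 311) (nat_lit 312) (.st (nat_lit 0) (nat_lit 312) .nil))⟩,
  ⟨r13o_45, r7o_6, r5o_9, (.st (nat_lit 1559) (nat_lit 1560) (.st (nat_lit 0) (nat_lit 1560) .nil))⟩,
  ⟨r13o_45, r7o_7, r5o_1, (.st (nat_lit 155) (nat_lit 312) (.st (nat_lit 156) (nat_lit 312) .nil))⟩,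
  ⟨r13o_45, r7o_7, r5o_3, (.st (nat_lit 779) (nat_lit 1560) (.st (nat_lit 780) (nat_lit 1560) .nil))⟩,
  ⟨r13o_45, r7o_7, r5o_5, (.st (nat_lit 155) (nat_lit 312) (.st (nat_lit 156) (nat_lit 312) .nil))⟩,
  ⟨r13o_45, r7o_7, r5o_7, (.st (nat_lit 155) (nat_lit 312) (.st (nat_lit 156) (nat_lit 312) .nil))⟩,
  ⟨r13o_45, r7o_7, r5o_9, (.st (nat_lit 779) (nat_lit 1560) (.st (nat_lit 780) (nat_lit 1560) .nil))⟩,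
  ⟨r13o_45, r7o_10, r5o_1, (.st (nat_lit 77) (nat_lit 78) (.st (nat_lit 0) (nat_lit 78) .nil))⟩,
  ⟨r13o_45, r7o_10, r5o_3, (.st (nat_lit 389) (nat_lit 390) (.st (nat_lit 0) (nat_lit 390) .nil))⟩,
  ⟨r13o_45, r7o_10, r5o_5, (.st (nat_lit 77) (nat_lit 78) (.st (nat_lit 0) (nat_lit 78) .nil))⟩,
  ⟨r13o_45, r7o_10, r5o_7, (.st (nat_lit 77) (nat_lit 78) (.st (nat_lit 0) (nat_lit 78) .nil))⟩,
  ⟨r13o_45, r7o_10, r5o_9, (.st (nat_lit 389) (nat_lit 390) (.st (nat_lit 0) (nat_lit 390) .nil))⟩,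
  ⟨r13o_45, r7o_14, r5o_1, (.st (nat_lit 311) (nat_lit 312) (.st (nat_lit 0) (nat_lit 312) .nil))⟩,
  ⟨r13o_45, r7o_14, r5o_3, (.st (nat_lit 1559) (nat_lit 1560) (.st (nat_lit 0) (nat_lit 1560) .nil))⟩,
  ⟨r13o_45, r7o_14, r5o_5, (.st (nat_lit 311) (nat_lit 312) (.st (nat_lit 0) (nat_lit 312) .nil))⟩,
  ⟨r13o_45, r7o_14, r5o_7, (.st (nat_lit 311) (nat_lit 312) (.st (nat_lit 0) (nat_lit 312) .nil))⟩,
  ⟨r13o_45, r7o_14, r5o_9, (.st (nat_lit 1559) (nat_lit 1560) (.st (nat_lit 0) (nat_lit 1560) .nil))⟩,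
  ⟨r13o_45, r7o_15, r5o_1, (.st (nat_lit 155) (nat_lit 312) (.st (nat_lit 156) (nat_lit 312) .nil))⟩,
  ⟨r13o_45, r7o_15, r5o_3, (.st (nat_lit 779) (nat_lit 1560) (.st (nat_lit 780) (nat_lit 1560) .nil))⟩,
  ⟨r13o_45, r7o_15, r5o_5, (.st (nat_lit 155) (nat_lit 312) (.st (nat_lit 156) (nat_lit 312) .nil))⟩,
  ⟨r13o_45, r7o_15, r5o_7, (.st (nat_lit 155) (nat_lit 312) (.st (nat_lit 156) (nat_lit 312) .nil))⟩,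
  ⟨r13o_45, r7o_15, r5o_9, (.st (nat_lit 779) (nat_lit 1560) (.st (nat_lit 780) (nat_lit 1560) .nil))⟩,
  ⟨r13o_45, r7o_18, r5o_1, (.st (nat_lit 77) (nat_lit 78) (.st (nat_lit 0) (nat_lit 78) .nil))⟩,
  ⟨r13o_45, r7o_18, r5o_3, (.st (nat_lit 389) (nat_lit 390) (.st (nat_lit 0) (nat_lit 390) .nil))⟩,
  ⟨r13o_45, r7o_18, r5o_5, (.st (nat_lit 77) (nat_lit 78) (.st (nat_lit 0) (nat_lit 78) .nil))⟩,
  ⟨r13o_45, r7o_18, r5o_7, (.st (nat_lit 77) (nat_lit 78) (.st (nat_lit 0) (nat_lit 78) .nil))⟩,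
  ⟨r13o_45, r7o_18, r5o_9, (.st (nat_lit 389) (nat_lit 390) (.st (nat_lit 0) (nat_lit 390) .nil))⟩,
  ⟨r13o_45, r7o_22, r5o_1, (.st (nat_lit 77) (nat_lit 78) (.st (nat_lit 0) (nat_lit 78) .nil))⟩,
  ⟨r13o_45, r7o_22, r5o_3, (.st (nat_lit 389) (nat_lit 390) (.st (nat_lit 0) (nat_lit 390) .nil))⟩,
  ⟨r13o_45, r7o_22, r5o_5, (.st (nat_lit 77) (nat_lit 78) (.st (nat_lit 0) (nat_lit 78) .nil))⟩,
  ⟨r13o_45, r7o_22, r5o_7, (.st (nat_lit 77) (nat_lit 78) (.st (nat_lit 0) (nat_lit 78) .nil))⟩,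
  ⟨r13o_45, r7o_22, r5o_9, (.st (nat_lit 389) (nat_lit 390) (.st (nat_lit 0) (nat_lit 390) .nil))⟩,
  ⟨r13o_45, r7o_26, r5o_1, (.st (nat_lit 311) (nat_lit 312) (.st (nat_lit 155) (nat_lit 312) (.st (nat_lit 156) (nat_lit 312) (.st (nat_lit 0) (nat_lit 312) .nil))))⟩,
  ⟨r13o_45, r7o_26, r5o_3, (.st (nat_lit 1559) (nat_lit 1560) (.st (nat_lit 779) (nat_lit 1560) (.st (nat_lit 780) (nat_lit 1560) (.st (nat_lit 0) (nat_lit 1560) .nil))))⟩,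
  ⟨r13o_45, r7o_26, r5o_5, (.st (nat_lit 311) (nat_lit 312) (.st (nat_lit 155) (nat_lit 312) (.st (nat_lit 156) (nat_lit 312) (.st (nat_lit 0) (nat_lit 312) .nil))))⟩,
  ⟨r13o_45, r7o_26, r5o_7, (.st (nat_lit 311) (nat_lit 312) (.st (nat_lit 155) (nat_lit 312) (.st (nat_lit 156) (nat_lit 312) (.st (nat_lit 0) (nat_lit 312) .nil))))⟩,
  ⟨r13o_45, r7o_26, r5o_9, (.st (nat_lit 119) (nat_lit 120) (.st (nat_lit 59) (nat_lit 120) (.st (nat_lit 60) (nat_lit 120) (.st (nat_lit 0) (nat_lit 120) .nil))))⟩]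

/-- entries -/
def EA46 : List E3 := []

/-- entries -/
def EA47 : List E3 := [⟨r13o_47, r7o_2, r5o_1, (.st (nat_lit 39) (nat_lit 78) (.st (nat_lit 38) (nat_lit 78) .nil))⟩,
  ⟨r13o_47, r7o_2, r5o_2, (.st (nat_lit 195) (nat_lit 390) (.st (nat_lit 194) (nat_lit 390) .nil))⟩,
  ⟨r13o_47, r7o_2, r5o_4, (.st (nat_lit 39) (nat_lit 78) (.st (nat_lit 38) (nat_lit 78) .nil))⟩,
  ⟨r13o_47, r7o_2, r5o_6, (.st (nat_lit 39) (nat_lit 78) (.st (nat_lit 38) (nat_lit 78) .nil))⟩,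
  ⟨r13o_47, r7o_2, r5o_8, (.st (nat_lit 195) (nat_lit 390) (.st (nat_lit 194) (nat_lit 390) .nil))⟩,
  ⟨r13o_47, r7o_11, r5o_1, (.st (nat_lit 39) (nat_lit 78) (.st (nat_lit 38) (nat_lit 78) .nil))⟩,
  ⟨r13o_47, r7o_11, r5o_2, (.st (nat_lit 195) (nat_lit 390) (.st (nat_lit 194) (nat_lit 390) .nil))⟩,
  ⟨r13o_47, r7o_11, r5o_4, (.st (nat_lit 39) (nat_lit 78) (.st (nat_lit 38) (nat_lit 78) .nil))⟩,
  ⟨r13o_47, r7o_11, r5o_6, (.st (nat_lit 39) (nat_lit 78) (.st (nat_lit 38) (nat_lit 78) .nil))⟩,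
  ⟨r13o_47, r7o_11, r5o_8, (.st (nat_lit 195) (nat_lit 390) (.st (nat_lit 194) (nat_lit 390) .nil))⟩,
  ⟨r13o_47, r7o_13, r5o_1, (.st (nat_lit 39) (nat_lit 78) (.st (nat_lit 38) (nat_lit 78) .nil))⟩,
  ⟨r13o_47, r7o_13, r5o_2, (.st (nat_lit 195) (nat_lit 390) (.st (nat_lit 194) (nat_lit 390) .nil))⟩,
  ⟨r13o_47, r7o_13, r5o_4, (.st (nat_lit 39) (nat_lit 78) (.st (nat_lit 38) (nat_lit 78) .nil))⟩,
  ⟨r13o_47, r7o_13, r5o_6, (.st (nat_lit 39) (nat_lit 78) (.st (nat_lit 38) (nat_lit 78) .nil))⟩,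
  ⟨r13o_47, r7o_13, r5o_8, (.st (nat_lit 195) (nat_lit 390) (.st (nat_lit 194) (nat_lit 390) .nil))⟩,
  ⟨r13o_47, r7o_23, r5o_1, (.st (nat_lit 39) (nat_lit 78) (.st (nat_lit 38) (nat_lit 78) .nil))⟩,
  ⟨r13o_47, r7o_23, r5o_2, (.st (nat_lit 195) (nat_lit 390) (.st (nat_lit 194) (nat_lit 390) .nil))⟩,
  ⟨r13o_47, r7o_23, r5o_4, (.st (nat_lit 39) (nat_lit 78) (.st (nat_lit 38) (nat_lit 78) .nil))⟩,
  ⟨r13o_47, r7o_23, r5o_6, (.st (nat_lit 39) (nat_lit 78) (.st (nat_lit 38) (nat_lit 78) .nil))⟩,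
  ⟨r13o_47, r7o_23, r5o_8, (.st (nat_lit 195) (nat_lit 390) (.st (nat_lit 194) (nat_lit 390) .nil))⟩]

/-- entries -/
def EA48 : List E3 := []

/-- entries -/
def EA49 : List E3 := [⟨r13o_49, r7o_6, r5o_8, (.st (nat_lit 1555) (nat_lit 1560) (.st (nat_lit 4) (nat_lit 1560) .nil))⟩,
  ⟨r13o_49, r7o_7, r5o_8, (.st (nat_lit 784) (nat_lit 1560) (.st (nat_lit 775) (nat_lit 1560) .nil))⟩]

/-- entries -/
def EA50 : List E3 := [⟨r13o_50, r7o_1, r5o_0, (.st (nat_lit 77) (nat_lit 78) (.st (nat_lit 0) (nat_lit 78) .nil))⟩,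
  ⟨r13o_50, r7o_1, r5o_2, (.st (nat_lit 389) (nat_lit 390) (.st (nat_lit 0) (nat_lit 390) .nil))⟩,
  ⟨r13o_50, r7o_1, r5o_4, (.st (nat_lit 77) (nat_lit 78) (.st (nat_lit 0) (nat_lit 78) .nil))⟩,
  ⟨r13o_50, r7o_1, r5o_6, (.st (nat_lit 77) (nat_lit 78) (.st (nat_lit 0) (nat_lit 78) .nil))⟩,
  ⟨r13o_50, r7o_1, r5o_8, (.st (nat_lit 389) (nat_lit 390) (.st (nat_lit 0) (nat_lit 390) .nil))⟩,
  ⟨r13o_50, r7o_2, r5o_1, (.st (nat_lit 38) (nat_lit 78) (.st (nat_lit 39) (nat_lit 78) .nil))⟩,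
  ⟨r13o_50, r7o_2, r5o_2, (.st (nat_lit 194) (nat_lit 390) (.st (nat_lit 195) (nat_lit 390) .nil))⟩,
  ⟨r13o_50, r7o_2, r5o_4, (.st (nat_lit 38) (nat_lit 78) (.st (nat_lit 39) (nat_lit 78) .nil))⟩,
  ⟨r13o_50, r7o_2, r5o_6, (.st (nat_lit 38) (nat_lit 78) (.st (nat_lit 39) (nat_lit 78) .nil))⟩,
  ⟨r13o_50, r7o_2, r5o_8, (.st (nat_lit 194) (nat_lit 390) (.st (nat_lit 195) (nat_lit 390) .nil))⟩,
  ⟨r13o_50, r7o_5, r5o_0, (.st (nat_lit 311) (nat_lit 312) (.st (nat_lit 155) (nat_lit 312) (.st (nat_lit 156) (nat_lit 312) (.st (nat_lit 0) (nat_lit 312) .nil))))⟩,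
  ⟨r13o_50, r7o_5, r5o_2, (.st (nat_lit 1559) (nat_lit 1560) (.st (nat_lit 779) (nat_lit 1560) (.st (nat_lit 780) (nat_lit 1560) (.st (nat_lit 0) (nat_lit 1560) .nil))))⟩,
  ⟨r13o_50, r7o_5, r5o_4, (.st (nat_lit 311) (nat_lit 312) (.st (nat_lit 155) (nat_lit 312) (.st (nat_lit 156) (nat_lit 312) (.st (nat_lit 0) (nat_lit 312) .nil))))⟩,
  ⟨r13o_50, r7o_5, r5o_6, (.st (nat_lit 23) (nat_lit 24) (.st (nat_lit 11) (nat_lit 24) (.st (nat_lit 12) (nat_lit 24) (.st (nat_lit 0) (nat_lit 24) .nil))))⟩,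
  ⟨r13o_50, r7o_5, r5o_8, (.st (nat_lit 1559) (nat_lit 1560) (.st (nat_lit 779) (nat_lit 1560) (.st (nat_lit 780) (nat_lit 1560) (.st (nat_lit 0) (nat_lit 1560) .nil))))⟩,
  ⟨r13o_50, r7o_9, r5o_0, (.st (nat_lit 77) (nat_lit 78) (.st (nat_lit 0) (nat_lit 78) .nil))⟩,
  ⟨r13o_50, r7o_9, r5o_2, (.st (nat_lit 389) (nat_lit 390) (.st (nat_lit 0) (nat_lit 390) .nil))⟩,
  ⟨r13o_50, r7o_9, r5o_4, (.st (nat_lit 77) (nat_lit 78) (.st (nat_lit 0) (nat_lit 78) .nil))⟩,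
  ⟨r13o_50, r7o_9, r5o_6, (.st (nat_lit 77) (nat_lit 78) (.st (nat_lit 0) (nat_lit 78) .nil))⟩,
  ⟨r13o_50, r7o_9, r5o_8, (.st (nat_lit 389) (nat_lit 390) (.st (nat_lit 0) (nat_lit 390) .nil))⟩,
  ⟨r13o_50, r7o_11, r5o_1, (.st (nat_lit 38) (nat_lit 78) (.st (nat_lit 39) (nat_lit 78) .nil))⟩,
  ⟨r13o_50, r7o_11, r5o_2, (.st (nat_lit 194) (nat_lit 390) (.st (nat_lit 195) (nat_lit 390) .nil))⟩,
  ⟨r13o_50, r7o_11, r5o_4, (.st (nat_lit 38) (nat_lit 78) (.st (nat_lit 39) (nat_lit 78) .nil))⟩,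
  ⟨r13o_50, r7o_11, r5o_6, (.st (nat_lit 38) (nat_lit 78) (.st (nat_lit 39) (nat_lit 78) .nil))⟩,
  ⟨r13o_50, r7o_11, r5o_8, (.st (nat_lit 194) (nat_lit 390) (.st (nat_lit 195) (nat_lit 390) .nil))⟩,
  ⟨r13o_50, r7o_13, r5o_0, (.st (nat_lit 77) (nat_lit 78) (.st (nat_lit 0) (nat_lit 78) .nil))⟩,
  ⟨r13o_50, r7o_13, r5o_1, (.st (nat_lit 38) (nat_lit 78) (.st (nat_lit 39) (nat_lit 78) .nil))⟩,
  ⟨r13o_50, r7o_13, r5o_2, (.st (nat_lit 194) (nat_lit 195) (.st (nat_lit 0) (nat_lit 195) .nil))⟩,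
  ⟨r13o_50, r7o_13, r5o_4, (.st (nat_lit 38) (nat_lit 39) (.st (nat_lit 0) (nat_lit 39) .nil))⟩,
  ⟨r13o_50, r7o_13, r5o_6, (.st (nat_lit 38) (nat_lit 39) (.st (nat_lit 0) (nat_lit 39) .nil))⟩,
  ⟨r13o_50, r7o_13, r5o_8, (.st (nat_lit 194) (nat_lit 195) (.st (nat_lit 0) (nat_lit 195) .nil))⟩,
  ⟨r13o_50, r7o_16, r5o_0, (.st (nat_lit 155) (nat_lit 312) (.st (nat_lit 156) (nat_lit 312) .nil))⟩,
  ⟨r13o_50, r7o_16, r5o_2, (.st (nat_lit 779) (nat_lit 1560) (.st (nat_lit 780) (nat_lit 1560) .nil))⟩,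
  ⟨r13o_50, r7o_16, r5o_4, (.st (nat_lit 155) (nat_lit 312) (.st (nat_lit 156) (nat_lit 312) .nil))⟩,
  ⟨r13o_50, r7o_16, r5o_6, (.st (nat_lit 155) (nat_lit 312) (.st (nat_lit 156) (nat_lit 312) .nil))⟩,
  ⟨r13o_50, r7o_16, r5o_8, (.st (nat_lit 779) (nat_lit 1560) (.st (nat_lit 780) (nat_lit 1560) .nil))⟩,
  ⟨r13o_50, r7o_17, r5o_0, (.st (nat_lit 311) (nat_lit 312) (.st (nat_lit 0) (nat_lit 312) .nil))⟩,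
  ⟨r13o_50, r7o_17, r5o_2, (.st (nat_lit 1559) (nat_lit 1560) (.st (nat_lit 0) (nat_lit 1560) .nil))⟩,
  ⟨r13o_50, r7o_17, r5o_4, (.st (nat_lit 311) (nat_lit 312) (.st (nat_lit 0) (nat_lit 312) .nil))⟩,
  ⟨r13o_50, r7o_17, r5o_6, (.st (nat_lit 311) (nat_lit 312) (.st (nat_lit 0) (nat_lit 312) .nil))⟩,
  ⟨r13o_50, r7o_17, r5o_8, (.st (nat_lit 1559) (nat_lit 1560) (.st (nat_lit 0) (nat_lit 1560) .nil))⟩,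
  ⟨r13o_50, r7o_21, r5o_0, (.st (nat_lit 77) (nat_lit 78) (.st (nat_lit 0) (nat_lit 78) .nil))⟩,
  ⟨r13o_50, r7o_21, r5o_2, (.st (nat_lit 389) (nat_lit 390) (.st (nat_lit 0) (nat_lit 390) .nil))⟩,
  ⟨r13o_50, r7o_21, r5o_4, (.st (nat_lit 77) (nat_lit 78) (.st (nat_lit 0) (nat_lit 78) .nil))⟩,
  ⟨r13o_50, r7o_21, r5o_6, (.st (nat_lit 77) (nat_lit 78) (.st (nat_lit 0) (nat_lit 78) .nil))⟩,
  ⟨r13o_50, r7o_21, r5o_8, (.st (nat_lit 389) (nat_lit 390) (.st (nat_lit 0) (nat_lit 390) .nil))⟩,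
  ⟨r13o_50, r7o_23, r5o_1, (.st (nat_lit 38) (nat_lit 78) (.st (nat_lit 39) (nat_lit 78) .nil))⟩,
  ⟨r13o_50, r7o_23, r5o_2, (.st (nat_lit 194) (nat_lit 390) (.st (nat_lit 195) (nat_lit 390) .nil))⟩,
  ⟨r13o_50, r7o_23, r5o_4, (.st (nat_lit 38) (nat_lit 78) (.st (nat_lit 39) (nat_lit 78) .nil))⟩,
  ⟨r13o_50, r7o_23, r5o_6, (.st (nat_lit 38) (nat_lit 78) (.st (nat_lit 39) (nat_lit 78) .nil))⟩,
  ⟨r13o_50, r7o_23, r5o_8, (.st (nat_lit 194) (nat_lit 390) (.st (nat_lit 195) (nat_lit 390) .nil))⟩,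
  ⟨r13o_50, r7o_24, r5o_0, (.st (nat_lit 155) (nat_lit 312) (.st (nat_lit 156) (nat_lit 312) .nil))⟩,
  ⟨r13o_50, r7o_24, r5o_2, (.st (nat_lit 779) (nat_lit 1560) (.st (nat_lit 780) (nat_lit 1560) .nil))⟩,
  ⟨r13o_50, r7o_24, r5o_4, (.st (nat_lit 155) (nat_lit 312) (.st (nat_lit 156) (nat_lit 312) .nil))⟩,
  ⟨r13o_50, r7o_24, r5o_6, (.st (nat_lit 155) (nat_lit 312) (.st (nat_lit 156) (nat_lit 312) .nil))⟩,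
  ⟨r13o_50, r7o_24, r5o_8, (.st (nat_lit 779) (nat_lit 1560) (.st (nat_lit 780) (nat_lit 1560) .nil))⟩,
  ⟨r13o_50, r7o_25, r5o_0, (.st (nat_lit 311) (nat_lit 312) (.st (nat_lit 0) (nat_lit 312) .nil))⟩,
  ⟨r13o_50, r7o_25, r5o_2, (.st (nat_lit 1559) (nat_lit 1560) (.st (nat_lit 0) (nat_lit 1560) .nil))⟩,
  ⟨r13o_50, r7o_25, r5o_4, (.st (nat_lit 311) (nat_lit 312) (.st (nat_lit 0) (nat_lit 312) .nil))⟩,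
  ⟨r13o_50, r7o_25, r5o_6, (.st (nat_lit 311) (nat_lit 312) (.st (nat_lit 0) (nat_lit 312) .nil))⟩,
  ⟨r13o_50, r7o_25, r5o_8, (.st (nat_lit 1559) (nat_lit 1560) (.st (nat_lit 0) (nat_lit 1560) .nil))⟩]

/-- entries -/
def EA51 : List E3 := [⟨r13o_51, r7o_1, r5o_0, (.st (nat_lit 38) (nat_lit 78) (.st (nat_lit 39) (nat_lit 78) .nil))⟩,
  ⟨r13o_51, r7o_1, r5o_3, (.st (nat_lit 194) (nat_lit 390) (.st (nat_lit 195) (nat_lit 390) .nil))⟩,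
  ⟨r13o_51, r7o_1, r5o_5, (.st (nat_lit 38) (nat_lit 78) (.st (nat_lit 39) (nat_lit 78) .nil))⟩,
  ⟨r13o_51, r7o_1, r5o_7, (.st (nat_lit 38) (nat_lit 78) (.st (nat_lit 39) (nat_lit 78) .nil))⟩,
  ⟨r13o_51, r7o_1, r5o_9, (.st (nat_lit 194) (nat_lit 390) (.st (nat_lit 195) (nat_lit 390) .nil))⟩,
  ⟨r13o_51, r7o_2, r5o_1, (.st (nat_lit 77) (nat_lit 78) (.st (nat_lit 0) (nat_lit 78) .nil))⟩,
  ⟨r13o_51, r7o_2, r5o_3, (.st (nat_lit 389) (nat_lit 390) (.st (nat_lit 0) (nat_lit 390) .nil))⟩,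
  ⟨r13o_51, r7o_2, r5o_5, (.st (nat_lit 77) (nat_lit 78) (.st (nat_lit 0) (nat_lit 78) .nil))⟩,
  ⟨r13o_51, r7o_2, r5o_7, (.st (nat_lit 77) (nat_lit 78) (.st (nat_lit 0) (nat_lit 78) .nil))⟩,
  ⟨r13o_51, r7o_2, r5o_9, (.st (nat_lit 389) (nat_lit 390) (.st (nat_lit 0) (nat_lit 390) .nil))⟩,
  ⟨r13o_51, r7o_6, r5o_1, (.st (nat_lit 311) (nat_lit 312) (.st (nat_lit 0) (nat_lit 312) .nil))⟩,
  ⟨r13o_51, r7o_6, r5o_3, (.st (nat_lit 1559) (nat_lit 1560) (.st (nat_lit 0) (nat_lit 1560) .nil))⟩,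
  ⟨r13o_51, r7o_6, r5o_5, (.st (nat_lit 311) (nat_lit 312) (.st (nat_lit 0) (nat_lit 312) .nil))⟩,
  ⟨r13o_51, r7o_6, r5o_7, (.st (nat_lit 311) (nat_lit 312) (.st (nat_lit 0) (nat_lit 312) .nil))⟩,
  ⟨r13o_51, r7o_6, r5o_9, (.st (nat_lit 1559) (nat_lit 1560) (.st (nat_lit 0) (nat_lit 1560) .nil))⟩,
  ⟨r13o_51, r7o_7, r5o_1, (.st (nat_lit 155) (nat_lit 312) (.st (nat_lit 156) (nat_lit 312) .nil))⟩,
  ⟨r13o_51, r7o_7, r5o_3, (.st (nat_lit 779) (nat_lit 1560) (.st (nat_lit 780) (nat_lit 1560) .nil))⟩,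
  ⟨r13o_51, r7o_7, r5o_5, (.st (nat_lit 155) (nat_lit 312) (.st (nat_lit 156) (nat_lit 312) .nil))⟩,
  ⟨r13o_51, r7o_7, r5o_7, (.st (nat_lit 155) (nat_lit 312) (.st (nat_lit 156) (nat_lit 312) .nil))⟩,
  ⟨r13o_51, r7o_7, r5o_9, (.st (nat_lit 779) (nat_lit 1560) (.st (nat_lit 780) (nat_lit 1560) .nil))⟩,
  ⟨r13o_51, r7o_8, r5o_0, (.st (nat_lit 38) (nat_lit 78) (.st (nat_lit 39) (nat_lit 78) .nil))⟩,
  ⟨r13o_51, r7o_8, r5o_3, (.st (nat_lit 194) (nat_lit 390) (.st (nat_lit 195) (nat_lit 390) .nil))⟩,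
  ⟨r13o_51, r7o_8, r5o_5, (.st (nat_lit 38) (nat_lit 78) (.st (nat_lit 39) (nat_lit 78) .nil))⟩,
  ⟨r13o_51, r7o_8, r5o_7, (.st (nat_lit 38) (nat_lit 78) (.st (nat_lit 39) (nat_lit 78) .nil))⟩,
  ⟨r13o_51, r7o_8, r5o_9, (.st (nat_lit 194) (nat_lit 390) (.st (nat_lit 195) (nat_lit 390) .nil))⟩,
  ⟨r13o_51, r7o_10, r5o_1, (.st (nat_lit 77) (nat_lit 78) (.st (nat_lit 0) (nat_lit 78) .nil))⟩,
  ⟨r13o_51, r7o_10, r5o_3, (.st (nat_lit 389) (nat_lit 390) (.st (nat_lit 0) (nat_lit 390) .nil))⟩,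
  ⟨r13o_51, r7o_10, r5o_5, (.st (nat_lit 77) (nat_lit 78) (.st (nat_lit 0) (nat_lit 78) .nil))⟩,
  ⟨r13o_51, r7o_10, r5o_7, (.st (nat_lit 77) (nat_lit 78) (.st (nat_lit 0) (nat_lit 78) .nil))⟩,
  ⟨r13o_51, r7o_10, r5o_9, (.st (nat_lit 389) (nat_lit 390) (.st (nat_lit 0) (nat_lit 390) .nil))⟩,
  ⟨r13o_51, r7o_14, r5o_1, (.st (nat_lit 311) (nat_lit 312) (.st (nat_lit 0) (nat_lit 312) .nil))⟩,
  ⟨r13o_51, r7o_14, r5o_3, (.st (nat_lit 1559) (nat_lit 1560) (.st (nat_lit 0) (nat_lit 1560) .nil))⟩,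
  ⟨r13o_51, r7o_14, r5o_5, (.st (nat_lit 311) (nat_lit 312) (.st (nat_lit 0) (nat_lit 312) .nil))⟩,
  ⟨r13o_51, r7o_14, r5o_7, (.st (nat_lit 311) (nat_lit 312) (.st (nat_lit 0) (nat_lit 312) .nil))⟩,
  ⟨r13o_51, r7o_14, r5o_9, (.st (nat_lit 1559) (nat_lit 1560) (.st (nat_lit 0) (nat_lit 1560) .nil))⟩,
  ⟨r13o_51, r7o_15, r5o_1, (.st (nat_lit 155) (nat_lit 312) (.st (nat_lit 156) (nat_lit 312) .nil))⟩,
  ⟨r13o_51, r7o_15, r5o_3, (.st (nat_lit 779) (nat_lit 1560) (.st (nat_lit 780) (nat_lit 1560) .nil))⟩,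
  ⟨r13o_51, r7o_15, r5o_5, (.st (nat_lit 155) (nat_lit 312) (.st (nat_lit 156) (nat_lit 312) .nil))⟩,
  ⟨r13o_51, r7o_15, r5o_7, (.st (nat_lit 155) (nat_lit 312) (.st (nat_lit 156) (nat_lit 312) .nil))⟩,
  ⟨r13o_51, r7o_15, r5o_9, (.st (nat_lit 779) (nat_lit 1560) (.st (nat_lit 780) (nat_lit 1560) .nil))⟩,
  ⟨r13o_51, r7o_18, r5o_0, (.st (nat_lit 38) (nat_lit 78) (.st (nat_lit 39) (nat_lit 78) .nil))⟩,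
  ⟨r13o_51, r7o_18, r5o_1, (.st (nat_lit 77) (nat_lit 78) (.st (nat_lit 0) (nat_lit 78) .nil))⟩,
  ⟨r13o_51, r7o_18, r5o_3, (.st (nat_lit 194) (nat_lit 195) (.st (nat_lit 0) (nat_lit 195) .nil))⟩,
  ⟨r13o_51, r7o_18, r5o_5, (.st (nat_lit 38) (nat_lit 39) (.st (nat_lit 0) (nat_lit 39) .nil))⟩,
  ⟨r13o_51, r7o_18, r5o_7, (.st (nat_lit 38) (nat_lit 39) (.st (nat_lit 0) (nat_lit 39) .nil))⟩,
  ⟨r13o_51, r7o_18, r5o_9, (.st (nat_lit 194) (nat_lit 195) (.st (nat_lit 0) (nat_lit 195) .nil))⟩,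
  ⟨r13o_51, r7o_20, r5o_0, (.st (nat_lit 38) (nat_lit 78) (.st (nat_lit 39) (nat_lit 78) .nil))⟩,
  ⟨r13o_51, r7o_20, r5o_3, (.st (nat_lit 194) (nat_lit 390) (.st (nat_lit 195) (nat_lit 390) .nil))⟩,
  ⟨r13o_51, r7o_20, r5o_5, (.st (nat_lit 38) (nat_lit 78) (.st (nat_lit 39) (nat_lit 78) .nil))⟩,
  ⟨r13o_51, r7o_20, r5o_7, (.st (nat_lit 38) (nat_lit 78) (.st (nat_lit 39) (nat_lit 78) .nil))⟩,
  ⟨r13o_51, r7o_20, r5o_9, (.st (nat_lit 194) (nat_lit 390) (.st (nat_lit 195) (nat_lit 390) .nil))⟩,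
  ⟨r13o_51, r7o_22, r5o_1, (.st (nat_lit 77) (nat_lit 78) (.st (nat_lit 0) (nat_lit 78) .nil))⟩,
  ⟨r13o_51, r7o_22, r5o_3, (.st (nat_lit 389) (nat_lit 390) (.st (nat_lit 0) (nat_lit 390) .nil))⟩,
  ⟨r13o_51, r7o_22, r5o_5, (.st (nat_lit 77) (nat_lit 78) (.st (nat_lit 0) (nat_lit 78) .nil))⟩,
  ⟨r13o_51, r7o_22, r5o_7, (.st (nat_lit 77) (nat_lit 78) (.st (nat_lit 0) (nat_lit 78) .nil))⟩,
  ⟨r13o_51, r7o_22, r5o_9, (.st (nat_lit 389) (nat_lit 390) (.st (nat_lit 0) (nat_lit 390) .nil))⟩,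
  ⟨r13o_51, r7o_26, r5o_1, (.st (nat_lit 311) (nat_lit 312) (.st (nat_lit 155) (nat_lit 312) (.st (nat_lit 156) (nat_lit 312) (.st (nat_lit 0) (nat_lit 312) .nil))))⟩,
  ⟨r13o_51, r7o_26, r5o_3, (.st (nat_lit 1559) (nat_lit 1560) (.st (nat_lit 779) (nat_lit 1560) (.st (nat_lit 780) (nat_lit 1560) (.st (nat_lit 0) (nat_lit 1560) .nil))))⟩,
  ⟨r13o_51, r7o_26, r5o_5, (.st (nat_lit 311) (nat_lit 312) (.st (nat_lit 155) (nat_lit 312) (.st (nat_lit 156) (nat_lit 312) (.st (nat_lit 0) (nat_lit 312) .nil))))⟩,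
  ⟨r13o_51, r7o_26, r5o_7, (.st (nat_lit 311) (nat_lit 312) (.st (nat_lit 155) (nat_lit 312) (.st (nat_lit 156) (nat_lit 312) (.st (nat_lit 0) (nat_lit 312) .nil))))⟩,
  ⟨r13o_51, r7o_26, r5o_9, (.st (nat_lit 1559) (nat_lit 1560) (.st (nat_lit 779) (nat_lit 1560) (.st (nat_lit 780) (nat_lit 1560) (.st (nat_lit 0) (nat_lit 1560) .nil))))⟩]

/-- entries -/
def EA52 : List E3 := []

/-- entries -/
def EA53 : List E3 := []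

/-- entries -/
def EA54 : List E3 := [⟨r13o_54, r7o_13, r5o_2, (.st (nat_lit 17) (nat_lit 35) .nil)⟩,
  ⟨r13o_54, r7o_13, r5o_3, (.st (nat_lit 17) (nat_lit 35) .nil)⟩,
  ⟨r13o_54, r7o_13, r5o_4, (.st (nat_lit 3) (nat_lit 7) .nil)⟩,
  ⟨r13o_54, r7o_13, r5o_5, (.st (nat_lit 10) (nat_lit 21) .nil)⟩,
  ⟨r13o_54, r7o_13, r5o_6, (.st (nat_lit 10) (nat_lit 21) .nil)⟩,
  ⟨r13o_54, r7o_13, r5o_7, (.st (nat_lit 3) (nat_lit 7) .nil)⟩,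
  ⟨r13o_54, r7o_13, r5o_8, (.st (nat_lit 17) (nat_lit 35) .nil)⟩,
  ⟨r13o_54, r7o_13, r5o_9, (.st (nat_lit 17) (nat_lit 35) .nil)⟩,
  ⟨r13o_54, r7o_18, r5o_2, (.st (nat_lit 17) (nat_lit 35) .nil)⟩,
  ⟨r13o_54, r7o_18, r5o_3, (.st (nat_lit 17) (nat_lit 35) .nil)⟩,
  ⟨r13o_54, r7o_18, r5o_4, (.st (nat_lit 3) (nat_lit 7) .nil)⟩,
  ⟨r13o_54, r7o_18, r5o_5, (.st (nat_lit 10) (nat_lit 21) .nil)⟩,
  ⟨r13o_54, r7o_18, r5o_6, (.st (nat_lit 10) (nat_lit 21) .nil)⟩,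
  ⟨r13o_54, r7o_18, r5o_7, (.st (nat_lit 3) (nat_lit 7) .nil)⟩,
  ⟨r13o_54, r7o_18, r5o_8, (.st (nat_lit 17) (nat_lit 35) .nil)⟩,
  ⟨r13o_54, r7o_18, r5o_9, (.st (nat_lit 17) (nat_lit 35) .nil)⟩]

/-- entries -/
def EA55 : List E3 := [⟨r13o_55, r7o_13, r5o_2, (.st (nat_lit 17) (nat_lit 35) .nil)⟩,
  ⟨r13o_55, r7o_13, r5o_3, (.st (nat_lit 17) (nat_lit 35) .nil)⟩,
  ⟨r13o_55, r7o_18, r5o_7, (.st (nat_lit 3) (nat_lit 7) .nil)⟩]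

/-- entries -/
def EA56 : List E3 := [⟨r13o_56, r7o_1, r5o_0, (.st (nat_lit 181) (nat_lit 182) (.st (nat_lit 0) (nat_lit 182) .nil))⟩,
  ⟨r13o_56, r7o_1, r5o_2, (.st (nat_lit 909) (nat_lit 910) (.st (nat_lit 0) (nat_lit 910) .nil))⟩,
  ⟨r13o_56, r7o_1, r5o_4, (.st (nat_lit 181) (nat_lit 182) (.st (nat_lit 0) (nat_lit 182) .nil))⟩,
  ⟨r13o_56, r7o_1, r5o_6, (.st (nat_lit 545) (nat_lit 546) (.st (nat_lit 0) (nat_lit 546) .nil))⟩,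
  ⟨r13o_56, r7o_1, r5o_8, (.st (nat_lit 909) (nat_lit 910) (.st (nat_lit 0) (nat_lit 910) .nil))⟩,
  ⟨r13o_56, r7o_2, r5o_1, (.st (nat_lit 90) (nat_lit 182) (.st (nat_lit 91) (nat_lit 182) .nil))⟩,
  ⟨r13o_56, r7o_2, r5o_2, (.st (nat_lit 454) (nat_lit 910) (.st (nat_lit 455) (nat_lit 910) .nil))⟩,
  ⟨r13o_56, r7o_2, r5o_4, (.st (nat_lit 90) (nat_lit 182) (.st (nat_lit 91) (nat_lit 182) .nil))⟩,
  ⟨r13o_56, r7o_2, r5o_6, (.st (nat_lit 272) (nat_lit 546) (.st (nat_lit 273) (nat_lit 546) .nil))⟩,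
  ⟨r13o_56, r7o_2, r5o_8, (.st (nat_lit 454) (nat_lit 910) (.st (nat_lit 455) (nat_lit 910) .nil))⟩,
  ⟨r13o_56, r7o_5, r5o_0, (.st (nat_lit 727) (nat_lit 728) (.st (nat_lit 363) (nat_lit 728) (.st (nat_lit 364) (nat_lit 728) (.st (nat_lit 0) (nat_lit 728) .nil))))⟩,
  ⟨r13o_56, r7o_5, r5o_2, (.st (nat_lit 3639) (nat_lit 3640) (.st (nat_lit 1819) (nat_lit 3640) (.st (nat_lit 1820) (nat_lit 3640) (.st (nat_lit 0) (nat_lit 3640) .nil))))⟩,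
  ⟨r13o_56, r7o_5, r5o_4, (.st (nat_lit 727) (nat_lit 728) (.st (nat_lit 363) (nat_lit 728) (.st (nat_lit 364) (nat_lit 728) (.st (nat_lit 0) (nat_lit 728) .nil))))⟩,
  ⟨r13o_56, r7o_5, r5o_6, (.st (nat_lit 2183) (nat_lit 2184) (.st (nat_lit 1091) (nat_lit 2184) (.st (nat_lit 1092) (nat_lit 2184) (.st (nat_lit 0) (nat_lit 2184) .nil))))⟩,
  ⟨r13o_56, r7o_5, r5o_8, (.st (nat_lit 3639) (nat_lit 3640) (.st (nat_lit 1819) (nat_lit 3640) (.st (nat_lit 1820) (nat_lit 3640) (.st (nat_lit 0) (nat_lit 3640) .nil))))⟩,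
  ⟨r13o_56, r7o_9, r5o_0, (.st (nat_lit 545) (nat_lit 546) (.st (nat_lit 0) (nat_lit 546) .nil))⟩,
  ⟨r13o_56, r7o_9, r5o_2, (.st (nat_lit 2729) (nat_lit 2730) (.st (nat_lit 0) (nat_lit 2730) .nil))⟩,
  ⟨r13o_56, r7o_9, r5o_4, (.st (nat_lit 545) (nat_lit 546) (.st (nat_lit 0) (nat_lit 546) .nil))⟩,
  ⟨r13o_56, r7o_9, r5o_6, (.st (nat_lit 545) (nat_lit 546) (.st (nat_lit 0) (nat_lit 546) .nil))⟩,
  ⟨r13o_56, r7o_9, r5o_8, (.st (nat_lit 2729) (nat_lit 2730) (.st (nat_lit 0) (nat_lit 2730) .nil))⟩,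
  ⟨r13o_56, r7o_11, r5o_1, (.st (nat_lit 272) (nat_lit 546) (.st (nat_lit 273) (nat_lit 546) .nil))⟩,
  ⟨r13o_56, r7o_11, r5o_2, (.st (nat_lit 1364) (nat_lit 2730) (.st (nat_lit 1365) (nat_lit 2730) .nil))⟩,
  ⟨r13o_56, r7o_11, r5o_4, (.st (nat_lit 272) (nat_lit 546) (.st (nat_lit 273) (nat_lit 546) .nil))⟩,
  ⟨r13o_56, r7o_11, r5o_6, (.st (nat_lit 272) (nat_lit 546) (.st (nat_lit 273) (nat_lit 546) .nil))⟩,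
  ⟨r13o_56, r7o_11, r5o_8, (.st (nat_lit 1364) (nat_lit 2730) (.st (nat_lit 1365) (nat_lit 2730) .nil))⟩,
  ⟨r13o_56, r7o_13, r5o_0, (.st (nat_lit 181) (nat_lit 182) (.st (nat_lit 0) (nat_lit 182) .nil))⟩,
  ⟨r13o_56, r7o_13, r5o_1, (.st (nat_lit 90) (nat_lit 182) (.st (nat_lit 91) (nat_lit 182) .nil))⟩,
  ⟨r13o_56, r7o_13, r5o_2, (.st (nat_lit 34) (nat_lit 35) (.st (nat_lit 17) (nat_lit 35) (.st (nat_lit 0) (nat_lit 35) .nil)))⟩,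
  ⟨r13o_56, r7o_13, r5o_3, (.st (nat_lit 17) (nat_lit 35) .nil)⟩,
  ⟨r13o_56, r7o_13, r5o_4, (.st (nat_lit 90) (nat_lit 91) (.st (nat_lit 0) (nat_lit 91) .nil))⟩,
  ⟨r13o_56, r7o_13, r5o_6, (.st (nat_lit 272) (nat_lit 273) (.st (nat_lit 0) (nat_lit 273) .nil))⟩,
  ⟨r13o_56, r7o_13, r5o_8, (.st (nat_lit 454) (nat_lit 455) (.st (nat_lit 0) (nat_lit 455) .nil))⟩,
  ⟨r13o_56, r7o_16, r5o_0, (.st (nat_lit 363) (nat_lit 728) (.st (nat_lit 364) (nat_lit 728) .nil))⟩,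
  ⟨r13o_56, r7o_16, r5o_2, (.st (nat_lit 1819) (nat_lit 3640) (.st (nat_lit 1820) (nat_lit 3640) .nil))⟩,
  ⟨r13o_56, r7o_16, r5o_4, (.st (nat_lit 363) (nat_lit 728) (.st (nat_lit 364) (nat_lit 728) .nil))⟩,
  ⟨r13o_56, r7o_16, r5o_6, (.st (nat_lit 1091) (nat_lit 2184) (.st (nat_lit 1092) (nat_lit 2184) .nil))⟩,
  ⟨r13o_56, r7o_16, r5o_8, (.st (nat_lit 1819) (nat_lit 3640) (.st (nat_lit 1820) (nat_lit 3640) .nil))⟩,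
  ⟨r13o_56, r7o_17, r5o_0, (.st (nat_lit 727) (nat_lit 728) (.st (nat_lit 0) (nat_lit 728) .nil))⟩,
  ⟨r13o_56, r7o_17, r5o_2, (.st (nat_lit 3639) (nat_lit 3640) (.st (nat_lit 0) (nat_lit 3640) .nil))⟩,
  ⟨r13o_56, r7o_17, r5o_4, (.st (nat_lit 727) (nat_lit 728) (.st (nat_lit 0) (nat_lit 728) .nil))⟩,
  ⟨r13o_56, r7o_17, r5o_6, (.st (nat_lit 2183) (nat_lit 2184) (.st (nat_lit 0) (nat_lit 2184) .nil))⟩,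
  ⟨r13o_56, r7o_17, r5o_8, (.st (nat_lit 3639) (nat_lit 3640) (.st (nat_lit 0) (nat_lit 3640) .nil))⟩,
  ⟨r13o_56, r7o_18, r5o_7, (.st (nat_lit 3) (nat_lit 7) .nil)⟩,
  ⟨r13o_56, r7o_21, r5o_0, (.st (nat_lit 545) (nat_lit 546) (.st (nat_lit 0) (nat_lit 546) .nil))⟩,
  ⟨r13o_56, r7o_21, r5o_2, (.st (nat_lit 2729) (nat_lit 2730) (.st (nat_lit 0) (nat_lit 2730) .nil))⟩,
  ⟨r13o_56, r7o_21, r5o_4, (.st (nat_lit 545) (nat_lit 546) (.st (nat_lit 0) (nat_lit 546) .nil))⟩,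
  ⟨r13o_56, r7o_21, r5o_6, (.st (nat_lit 545) (nat_lit 546) (.st (nat_lit 0) (nat_lit 546) .nil))⟩,
  ⟨r13o_56, r7o_21, r5o_8, (.st (nat_lit 2729) (nat_lit 2730) (.st (nat_lit 0) (nat_lit 2730) .nil))⟩,
  ⟨r13o_56, r7o_23, r5o_1, (.st (nat_lit 272) (nat_lit 546) (.st (nat_lit 273) (nat_lit 546) .nil))⟩,
  ⟨r13o_56, r7o_23, r5o_2, (.st (nat_lit 1364) (nat_lit 2730) (.st (nat_lit 1365) (nat_lit 2730) .nil))⟩,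
  ⟨r13o_56, r7o_23, r5o_4, (.st (nat_lit 272) (nat_lit 546) (.st (nat_lit 273) (nat_lit 546) .nil))⟩,
  ⟨r13o_56, r7o_23, r5o_6, (.st (nat_lit 272) (nat_lit 546) (.st (nat_lit 273) (nat_lit 546) .nil))⟩,
  ⟨r13o_56, r7o_23, r5o_8, (.st (nat_lit 1364) (nat_lit 2730) (.st (nat_lit 1365) (nat_lit 2730) .nil))⟩,
  ⟨r13o_56, r7o_24, r5o_0, (.st (nat_lit 363) (nat_lit 728) (.st (nat_lit 364) (nat_lit 728) .nil))⟩,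
  ⟨r13o_56, r7o_24, r5o_2, (.st (nat_lit 1819) (nat_lit 3640) (.st (nat_lit 1820) (nat_lit 3640) .nil))⟩,
  ⟨r13o_56, r7o_24, r5o_4, (.st (nat_lit 363) (nat_lit 728) (.st (nat_lit 364) (nat_lit 728) .nil))⟩,
  ⟨r13o_56, r7o_24, r5o_6, (.st (nat_lit 1091) (nat_lit 2184) (.st (nat_lit 1092) (nat_lit 2184) .nil))⟩,
  ⟨r13o_56, r7o_24, r5o_8, (.st (nat_lit 1819) (nat_lit 3640) (.st (nat_lit 1820) (nat_lit 3640) .nil))⟩,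
  ⟨r13o_56, r7o_25, r5o_0, (.st (nat_lit 727) (nat_lit 728) (.st (nat_lit 0) (nat_lit 728) .nil))⟩,
  ⟨r13o_56, r7o_25, r5o_2, (.st (nat_lit 3639) (nat_lit 3640) (.st (nat_lit 0) (nat_lit 3640) .nil))⟩,
  ⟨r13o_56, r7o_25, r5o_4, (.st (nat_lit 727) (nat_lit 728) (.st (nat_lit 0) (nat_lit 728) .nil))⟩,
  ⟨r13o_56, r7o_25, r5o_6, (.st (nat_lit 2183) (nat_lit 2184) (.st (nat_lit 0) (nat_lit 2184) .nil))⟩,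
  ⟨r13o_56, r7o_25, r5o_8, (.st (nat_lit 3639) (nat_lit 3640) (.st (nat_lit 0) (nat_lit 3640) .nil))⟩]

/-- entries -/
def EA57 : List E3 := [⟨r13o_57, r7o_1, r5o_0, (.st (nat_lit 13) (nat_lit 26) (.st (nat_lit 12) (nat_lit 26) .nil))⟩,
  ⟨r13o_57, r7o_1, r5o_3, (.st (nat_lit 65) (nat_lit 130) (.st (nat_lit 64) (nat_lit 130) .nil))⟩,
  ⟨r13o_57, r7o_1, r5o_5, (.st (nat_lit 39) (nat_lit 78) (.st (nat_lit 38) (nat_lit 78) .nil))⟩,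
  ⟨r13o_57, r7o_1, r5o_7, (.st (nat_lit 13) (nat_lit 26) (.st (nat_lit 12) (nat_lit 26) .nil))⟩,
  ⟨r13o_57, r7o_1, r5o_9, (.st (nat_lit 65) (nat_lit 130) (.st (nat_lit 64) (nat_lit 130) .nil))⟩,
  ⟨r13o_57, r7o_2, r5o_1, (.st (nat_lit 25) (nat_lit 26) (.st (nat_lit 0) (nat_lit 26) .nil))⟩,
  ⟨r13o_57, r7o_2, r5o_3, (.st (nat_lit 129) (nat_lit 130) (.st (nat_lit 0) (nat_lit 130) .nil))⟩,
  ⟨r13o_57, r7o_2, r5o_5, (.st (nat_lit 77) (nat_lit 78) (.st (nat_lit 0) (nat_lit 78) .nil))⟩,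
  ⟨r13o_57, r7o_2, r5o_7, (.st (nat_lit 25) (nat_lit 26) (.st (nat_lit 0) (nat_lit 26) .nil))⟩,
  ⟨r13o_57, r7o_2, r5o_9, (.st (nat_lit 129) (nat_lit 130) (.st (nat_lit 0) (nat_lit 130) .nil))⟩,
  ⟨r13o_57, r7o_6, r5o_1, (.st (nat_lit 103) (nat_lit 104) (.st (nat_lit 0) (nat_lit 104) .nil))⟩,
  ⟨r13o_57, r7o_6, r5o_3, (.st (nat_lit 519) (nat_lit 520) (.st (nat_lit 0) (nat_lit 520) .nil))⟩,
  ⟨r13o_57, r7o_6, r5o_5, (.st (nat_lit 311) (nat_lit 312) (.st (nat_lit 0) (nat_lit 312) .nil))⟩,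
  ⟨r13o_57, r7o_6, r5o_7, (.st (nat_lit 103) (nat_lit 104) (.st (nat_lit 0) (nat_lit 104) .nil))⟩,
  ⟨r13o_57, r7o_6, r5o_9, (.st (nat_lit 519) (nat_lit 520) (.st (nat_lit 0) (nat_lit 520) .nil))⟩,
  ⟨r13o_57, r7o_7, r5o_1, (.st (nat_lit 52) (nat_lit 104) (.st (nat_lit 51) (nat_lit 104) .nil))⟩,
  ⟨r13o_57, r7o_7, r5o_3, (.st (nat_lit 260) (nat_lit 520) (.st (nat_lit 259) (nat_lit 520) .nil))⟩,
  ⟨r13o_57, r7o_7, r5o_5, (.st (nat_lit 156) (nat_lit 312) (.st (nat_lit 155) (nat_lit 312) .nil))⟩,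
  ⟨r13o_57, r7o_7, r5o_7, (.st (nat_lit 52) (nat_lit 104) (.st (nat_lit 51) (nat_lit 104) .nil))⟩,
  ⟨r13o_57, r7o_7, r5o_9, (.st (nat_lit 260) (nat_lit 520) (.st (nat_lit 259) (nat_lit 520) .nil))⟩,
  ⟨r13o_57, r7o_8, r5o_0, (.st (nat_lit 39) (nat_lit 78) (.st (nat_lit 38) (nat_lit 78) .nil))⟩,
  ⟨r13o_57, r7o_8, r5o_3, (.st (nat_lit 195) (nat_lit 390) (.st (nat_lit 194) (nat_lit 390) .nil))⟩,
  ⟨r13o_57, r7o_8, r5o_5, (.st (nat_lit 39) (nat_lit 78) (.st (nat_lit 38) (nat_lit 78) .nil))⟩,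
  ⟨r13o_57, r7o_8, r5o_7, (.st (nat_lit 39) (nat_lit 78) (.st (nat_lit 38) (nat_lit 78) .nil))⟩,
  ⟨r13o_57, r7o_8, r5o_9, (.st (nat_lit 195) (nat_lit 390) (.st (nat_lit 194) (nat_lit 390) .nil))⟩,
  ⟨r13o_57, r7o_10, r5o_1, (.st (nat_lit 77) (nat_lit 78) (.st (nat_lit 0) (nat_lit 78) .nil))⟩,
  ⟨r13o_57, r7o_10, r5o_3, (.st (nat_lit 389) (nat_lit 390) (.st (nat_lit 0) (nat_lit 390) .nil))⟩,
  ⟨r13o_57, r7o_10, r5o_5, (.st (nat_lit 77) (nat_lit 78) (.st (nat_lit 0) (nat_lit 78) .nil))⟩,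
  ⟨r13o_57, r7o_10, r5o_7, (.st (nat_lit 77) (nat_lit 78) (.st (nat_lit 0) (nat_lit 78) .nil))⟩,
  ⟨r13o_57, r7o_10, r5o_9, (.st (nat_lit 389) (nat_lit 390) (.st (nat_lit 0) (nat_lit 390) .nil))⟩,
  ⟨r13o_57, r7o_13, r5o_2, (.st (nat_lit 2) (nat_lit 5) .nil)⟩,
  ⟨r13o_57, r7o_13, r5o_3, (.st (nat_lit 2) (nat_lit 5) .nil)⟩,
  ⟨r13o_57, r7o_14, r5o_1, (.st (nat_lit 103) (nat_lit 104) (.st (nat_lit 0) (nat_lit 104) .nil))⟩,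
  ⟨r13o_57, r7o_14, r5o_3, (.st (nat_lit 39) (nat_lit 40) (.st (nat_lit 0) (nat_lit 40) .nil))⟩,
  ⟨r13o_57, r7o_14, r5o_5, (.st (nat_lit 311) (nat_lit 312) (.st (nat_lit 0) (nat_lit 312) .nil))⟩,
  ⟨r13o_57, r7o_14, r5o_7, (.st (nat_lit 103) (nat_lit 104) (.st (nat_lit 0) (nat_lit 104) .nil))⟩,
  ⟨r13o_57, r7o_14, r5o_9, (.st (nat_lit 519) (nat_lit 520) (.st (nat_lit 0) (nat_lit 520) .nil))⟩,
  ⟨r13o_57, r7o_15, r5o_1, (.st (nat_lit 52) (nat_lit 104) (.st (nat_lit 51) (nat_lit 104) .nil))⟩,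
  ⟨r13o_57, r7o_15, r5o_3, (.st (nat_lit 20) (nat_lit 40) (.st (nat_lit 19) (nat_lit 40) .nil))⟩,
  ⟨r13o_57, r7o_15, r5o_5, (.st (nat_lit 156) (nat_lit 312) (.st (nat_lit 155) (nat_lit 312) .nil))⟩,
  ⟨r13o_57, r7o_15, r5o_7, (.st (nat_lit 52) (nat_lit 104) (.st (nat_lit 51) (nat_lit 104) .nil))⟩,
  ⟨r13o_57, r7o_15, r5o_9, (.st (nat_lit 260) (nat_lit 520) (.st (nat_lit 259) (nat_lit 520) .nil))⟩,
  ⟨r13o_57, r7o_18, r5o_0, (.st (nat_lit 13) (nat_lit 26) (.st (nat_lit 12) (nat_lit 26) .nil))⟩,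
  ⟨r13o_57, r7o_18, r5o_1, (.st (nat_lit 25) (nat_lit 26) (.st (nat_lit 0) (nat_lit 26) .nil))⟩,
  ⟨r13o_57, r7o_18, r5o_3, (.st (nat_lit 64) (nat_lit 65) (.st (nat_lit 0) (nat_lit 65) .nil))⟩,
  ⟨r13o_57, r7o_18, r5o_5, (.st (nat_lit 38) (nat_lit 39) (.st (nat_lit 0) (nat_lit 39) .nil))⟩,
  ⟨r13o_57, r7o_18, r5o_7, (.st (nat_lit 0) (nat_lit 1) .nil)⟩,
  ⟨r13o_57, r7o_18, r5o_9, (.st (nat_lit 64) (nat_lit 65) (.st (nat_lit 0) (nat_lit 65) .nil))⟩,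
  ⟨r13o_57, r7o_20, r5o_0, (.st (nat_lit 39) (nat_lit 78) (.st (nat_lit 38) (nat_lit 78) .nil))⟩,
  ⟨r13o_57, r7o_20, r5o_3, (.st (nat_lit 195) (nat_lit 390) (.st (nat_lit 194) (nat_lit 390) .nil))⟩,
  ⟨r13o_57, r7o_20, r5o_5, (.st (nat_lit 39) (nat_lit 78) (.st (nat_lit 38) (nat_lit 78) .nil))⟩,
  ⟨r13o_57, r7o_20, r5o_7, (.st (nat_lit 39) (nat_lit 78) (.st (nat_lit 38) (nat_lit 78) .nil))⟩,
  ⟨r13o_57, r7o_20, r5o_9, (.st (nat_lit 195) (nat_lit 390) (.st (nat_lit 194) (nat_lit 390) .nil))⟩,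
  ⟨r13o_57, r7o_22, r5o_1, (.st (nat_lit 77) (nat_lit 78) (.st (nat_lit 0) (nat_lit 78) .nil))⟩,
  ⟨r13o_57, r7o_22, r5o_3, (.st (nat_lit 389) (nat_lit 390) (.st (nat_lit 0) (nat_lit 390) .nil))⟩,
  ⟨r13o_57, r7o_22, r5o_5, (.st (nat_lit 77) (nat_lit 78) (.st (nat_lit 0) (nat_lit 78) .nil))⟩,
  ⟨r13o_57, r7o_22, r5o_7, (.st (nat_lit 77) (nat_lit 78) (.st (nat_lit 0) (nat_lit 78) .nil))⟩,
  ⟨r13o_57, r7o_22, r5o_9, (.st (nat_lit 389) (nat_lit 390) (.st (nat_lit 0) (nat_lit 390) .nil))⟩,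
  ⟨r13o_57, r7o_26, r5o_1, (.st (nat_lit 103) (nat_lit 104) (.st (nat_lit 52) (nat_lit 104) (.st (nat_lit 51) (nat_lit 104) (.st (nat_lit 0) (nat_lit 104) .nil))))⟩,
  ⟨r13o_57, r7o_26, r5o_3, (.st (nat_lit 519) (nat_lit 520) (.st (nat_lit 260) (nat_lit 520) (.st (nat_lit 259) (nat_lit 520) (.st (nat_lit 0) (nat_lit 520) .nil))))⟩,
  ⟨r13o_57, r7o_26, r5o_5, (.st (nat_lit 311) (nat_lit 312) (.st (nat_lit 156) (nat_lit 312) (.st (nat_lit 155) (nat_lit 312) (.st (nat_lit 0) (nat_lit 312) .nil))))⟩,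
  ⟨r13o_57, r7o_26, r5o_7, (.st (nat_lit 103) (nat_lit 104) (.st (nat_lit 52) (nat_lit 104) (.st (nat_lit 51) (nat_lit 104) (.st (nat_lit 0) (nat_lit 104) .nil))))⟩,
  ⟨r13o_57, r7o_26, r5o_9, (.st (nat_lit 519) (nat_lit 520) (.st (nat_lit 260) (nat_lit 520) (.st (nat_lit 259) (nat_lit 520) (.st (nat_lit 0) (nat_lit 520) .nil))))⟩]

/-- entries -/
def EA58 : List E3 := [⟨r13o_58, r7o_13, r5o_2, (.st (nat_lit 17) (nat_lit 35) .nil)⟩,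
  ⟨r13o_58, r7o_13, r5o_3, (.st (nat_lit 17) (nat_lit 35) .nil)⟩,
  ⟨r13o_58, r7o_18, r5o_7, (.st (nat_lit 3) (nat_lit 7) .nil)⟩,
  ⟨r13o_58, r7o_20, r5o_3, (.st (nat_lit 2545) (nat_lit 2730) (.st (nat_lit 184) (nat_lit 2730) .nil))⟩,
  ⟨r13o_58, r7o_22, r5o_3, (.st (nat_lit 1180) (nat_lit 2730) (.st (nat_lit 1549) (nat_lit 2730) .nil))⟩]

/-- entries -/
def EA59 : List E3 := [⟨r13o_59, r7o_13, r5o_2, (.st (nat_lit 17) (nat_lit 35) .nil)⟩,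
  ⟨r13o_59, r7o_13, r5o_3, (.st (nat_lit 17) (nat_lit 35) .nil)⟩,
  ⟨r13o_59, r7o_18, r5o_7, (.st (nat_lit 3) (nat_lit 7) .nil)⟩]

/-- entries -/
def EA60 : List E3 := []

/-- entries -/
def EA61 : List E3 := []

/-- entries -/
def EA62 : List E3 := [⟨r13o_62, r7o_1, r5o_0, (.st (nat_lit 25) (nat_lit 26) (.st (nat_lit 0) (nat_lit 26) .nil))⟩,
  ⟨r13o_62, r7o_1, r5o_2, (.st (nat_lit 129) (nat_lit 130) (.st (nat_lit 0) (nat_lit 130) .nil))⟩,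
  ⟨r13o_62, r7o_1, r5o_4, (.st (nat_lit 25) (nat_lit 26) (.st (nat_lit 0) (nat_lit 26) .nil))⟩,
  ⟨r13o_62, r7o_1, r5o_6, (.st (nat_lit 77) (nat_lit 78) (.st (nat_lit 0) (nat_lit 78) .nil))⟩,
  ⟨r13o_62, r7o_1, r5o_8, (.st (nat_lit 129) (nat_lit 130) (.st (nat_lit 0) (nat_lit 130) .nil))⟩,
  ⟨r13o_62, r7o_2, r5o_1, (.st (nat_lit 12) (nat_lit 26) (.st (nat_lit 13) (nat_lit 26) .nil))⟩,
  ⟨r13o_62, r7o_2, r5o_2, (.st (nat_lit 64) (nat_lit 130) (.st (nat_lit 65) (nat_lit 130) .nil))⟩,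
  ⟨r13o_62, r7o_2, r5o_4, (.st (nat_lit 12) (nat_lit 26) (.st (nat_lit 13) (nat_lit 26) .nil))⟩,
  ⟨r13o_62, r7o_2, r5o_6, (.st (nat_lit 38) (nat_lit 78) (.st (nat_lit 39) (nat_lit 78) .nil))⟩,
  ⟨r13o_62, r7o_2, r5o_8, (.st (nat_lit 64) (nat_lit 130) (.st (nat_lit 65) (nat_lit 130) .nil))⟩,
  ⟨r13o_62, r7o_5, r5o_0, (.st (nat_lit 103) (nat_lit 104) (.st (nat_lit 51) (nat_lit 104) (.st (nat_lit 52) (nat_lit 104) (.st (nat_lit 0) (nat_lit 104) .nil))))⟩,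
  ⟨r13o_62, r7o_5, r5o_2, (.st (nat_lit 519) (nat_lit 520) (.st (nat_lit 259) (nat_lit 520) (.st (nat_lit 260) (nat_lit 520) (.st (nat_lit 0) (nat_lit 520) .nil))))⟩,
  ⟨r13o_62, r7o_5, r5o_4, (.st (nat_lit 103) (nat_lit 104) (.st (nat_lit 51) (nat_lit 104) (.st (nat_lit 52) (nat_lit 104) (.st (nat_lit 0) (nat_lit 104) .nil))))⟩,
  ⟨r13o_62, r7o_5, r5o_6, (.st (nat_lit 311) (nat_lit 312) (.st (nat_lit 155) (nat_lit 312) (.st (nat_lit 156) (nat_lit 312) (.st (nat_lit 0) (nat_lit 312) .nil))))⟩,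
  ⟨r13o_62, r7o_5, r5o_8, (.st (nat_lit 519) (nat_lit 520) (.st (nat_lit 259) (nat_lit 520) (.st (nat_lit 260) (nat_lit 520) (.st (nat_lit 0) (nat_lit 520) .nil))))⟩,
  ⟨r13o_62, r7o_9, r5o_0, (.st (nat_lit 77) (nat_lit 78) (.st (nat_lit 0) (nat_lit 78) .nil))⟩,
  ⟨r13o_62, r7o_9, r5o_2, (.st (nat_lit 389) (nat_lit 390) (.st (nat_lit 0) (nat_lit 390) .nil))⟩,
  ⟨r13o_62, r7o_9, r5o_4, (.st (nat_lit 77) (nat_lit 78) (.st (nat_lit 0) (nat_lit 78) .nil))⟩,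
  ⟨r13o_62, r7o_9, r5o_6, (.st (nat_lit 77) (nat_lit 78) (.st (nat_lit 0) (nat_lit 78) .nil))⟩,
  ⟨r13o_62, r7o_9, r5o_8, (.st (nat_lit 389) (nat_lit 390) (.st (nat_lit 0) (nat_lit 390) .nil))⟩,
  ⟨r13o_62, r7o_11, r5o_1, (.st (nat_lit 38) (nat_lit 78) (.st (nat_lit 39) (nat_lit 78) .nil))⟩,
  ⟨r13o_62, r7o_11, r5o_2, (.st (nat_lit 194) (nat_lit 390) (.st (nat_lit 195) (nat_lit 390) .nil))⟩,
  ⟨r13o_62, r7o_11, r5o_4, (.st (nat_lit 38) (nat_lit 78) (.st (nat_lit 39) (nat_lit 78) .nil))⟩,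
  ⟨r13o_62, r7o_11, r5o_6, (.st (nat_lit 38) (nat_lit 78) (.st (nat_lit 39) (nat_lit 78) .nil))⟩,
  ⟨r13o_62, r7o_11, r5o_8, (.st (nat_lit 194) (nat_lit 390) (.st (nat_lit 195) (nat_lit 390) .nil))⟩,
  ⟨r13o_62, r7o_13, r5o_0, (.st (nat_lit 25) (nat_lit 26) (.st (nat_lit 0) (nat_lit 26) .nil))⟩,
  ⟨r13o_62, r7o_13, r5o_1, (.st (nat_lit 12) (nat_lit 26) (.st (nat_lit 13) (nat_lit 26) .nil))⟩,
  ⟨r13o_62, r7o_13, r5o_2, (.st (nat_lit 64) (nat_lit 65) (.st (nat_lit 0) (nat_lit 65) .nil))⟩,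
  ⟨r13o_62, r7o_13, r5o_4, (.st (nat_lit 12) (nat_lit 13) (.st (nat_lit 0) (nat_lit 13) .nil))⟩,
  ⟨r13o_62, r7o_13, r5o_6, (.st (nat_lit 38) (nat_lit 39) (.st (nat_lit 0) (nat_lit 39) .nil))⟩,
  ⟨r13o_62, r7o_13, r5o_8, (.st (nat_lit 64) (nat_lit 65) (.st (nat_lit 0) (nat_lit 65) .nil))⟩,
  ⟨r13o_62, r7o_16, r5o_0, (.st (nat_lit 51) (nat_lit 104) (.st (nat_lit 52) (nat_lit 104) .nil))⟩,
  ⟨r13o_62, r7o_16, r5o_2, (.st (nat_lit 259) (nat_lit 520) (.st (nat_lit 260) (nat_lit 520) .nil))⟩,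
  ⟨r13o_62, r7o_16, r5o_4, (.st (nat_lit 51) (nat_lit 104) (.st (nat_lit 52) (nat_lit 104) .nil))⟩,
  ⟨r13o_62, r7o_16, r5o_6, (.st (nat_lit 155) (nat_lit 312) (.st (nat_lit 156) (nat_lit 312) .nil))⟩,
  ⟨r13o_62, r7o_16, r5o_8, (.st (nat_lit 259) (nat_lit 520) (.st (nat_lit 260) (nat_lit 520) .nil))⟩,
  ⟨r13o_62, r7o_17, r5o_0, (.st (nat_lit 103) (nat_lit 104) (.st (nat_lit 0) (nat_lit 104) .nil))⟩,
  ⟨r13o_62, r7o_17, r5o_2, (.st (nat_lit 519) (nat_lit 520) (.st (nat_lit 0) (nat_lit 520) .nil))⟩,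
  ⟨r13o_62, r7o_17, r5o_4, (.st (nat_lit 103) (nat_lit 104) (.st (nat_lit 0) (nat_lit 104) .nil))⟩,
  ⟨r13o_62, r7o_17, r5o_6, (.st (nat_lit 311) (nat_lit 312) (.st (nat_lit 0) (nat_lit 312) .nil))⟩,
  ⟨r13o_62, r7o_17, r5o_8, (.st (nat_lit 519) (nat_lit 520) (.st (nat_lit 0) (nat_lit 520) .nil))⟩,
  ⟨r13o_62, r7o_21, r5o_0, (.st (nat_lit 77) (nat_lit 78) (.st (nat_lit 0) (nat_lit 78) .nil))⟩,
  ⟨r13o_62, r7o_21, r5o_2, (.st (nat_lit 389) (nat_lit 390) (.st (nat_lit 0) (nat_lit 390) .nil))⟩,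
  ⟨r13o_62, r7o_21, r5o_4, (.st (nat_lit 77) (nat_lit 78) (.st (nat_lit 0) (nat_lit 78) .nil))⟩,
  ⟨r13o_62, r7o_21, r5o_6, (.st (nat_lit 77) (nat_lit 78) (.st (nat_lit 0) (nat_lit 78) .nil))⟩,
  ⟨r13o_62, r7o_21, r5o_8, (.st (nat_lit 389) (nat_lit 390) (.st (nat_lit 0) (nat_lit 390) .nil))⟩,
  ⟨r13o_62, r7o_23, r5o_1, (.st (nat_lit 38) (nat_lit 78) (.st (nat_lit 39) (nat_lit 78) .nil))⟩,
  ⟨r13o_62, r7o_23, r5o_2, (.st (nat_lit 194) (nat_lit 390) (.st (nat_lit 195) (nat_lit 390) .nil))⟩,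
  ⟨r13o_62, r7o_23, r5o_4, (.st (nat_lit 38) (nat_lit 78) (.st (nat_lit 39) (nat_lit 78) .nil))⟩,
  ⟨r13o_62, r7o_23, r5o_6, (.st (nat_lit 38) (nat_lit 78) (.st (nat_lit 39) (nat_lit 78) .nil))⟩,
  ⟨r13o_62, r7o_23, r5o_8, (.st (nat_lit 194) (nat_lit 390) (.st (nat_lit 195) (nat_lit 390) .nil))⟩,
  ⟨r13o_62, r7o_24, r5o_0, (.st (nat_lit 51) (nat_lit 104) (.st (nat_lit 52) (nat_lit 104) .nil))⟩,
  ⟨r13o_62, r7o_24, r5o_2, (.st (nat_lit 259) (nat_lit 520) (.st (nat_lit 260) (nat_lit 520) .nil))⟩,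
  ⟨r13o_62, r7o_24, r5o_4, (.st (nat_lit 51) (nat_lit 104) (.st (nat_lit 52) (nat_lit 104) .nil))⟩,
  ⟨r13o_62, r7o_24, r5o_6, (.st (nat_lit 155) (nat_lit 312) (.st (nat_lit 156) (nat_lit 312) .nil))⟩,
  ⟨r13o_62, r7o_24, r5o_8, (.st (nat_lit 259) (nat_lit 520) (.st (nat_lit 260) (nat_lit 520) .nil))⟩,
  ⟨r13o_62, r7o_25, r5o_0, (.st (nat_lit 103) (nat_lit 104) (.st (nat_lit 0) (nat_lit 104) .nil))⟩,
  ⟨r13o_62, r7o_25, r5o_2, (.st (nat_lit 519) (nat_lit 520) (.st (nat_lit 0) (nat_lit 520) .nil))⟩,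
  ⟨r13o_62, r7o_25, r5o_4, (.st (nat_lit 103) (nat_lit 104) (.st (nat_lit 0) (nat_lit 104) .nil))⟩,
  ⟨r13o_62, r7o_25, r5o_6, (.st (nat_lit 311) (nat_lit 312) (.st (nat_lit 0) (nat_lit 312) .nil))⟩,
  ⟨r13o_62, r7o_25, r5o_8, (.st (nat_lit 519) (nat_lit 520) (.st (nat_lit 0) (nat_lit 520) .nil))⟩]

/-- entries -/
def EA63 : List E3 := [⟨r13o_63, r7o_1, r5o_0, (.st (nat_lit 12) (nat_lit 26) (.st (nat_lit 13) (nat_lit 26) .nil))⟩,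
  ⟨r13o_63, r7o_1, r5o_3, (.st (nat_lit 64) (nat_lit 130) (.st (nat_lit 65) (nat_lit 130) .nil))⟩,
  ⟨r13o_63, r7o_1, r5o_5, (.st (nat_lit 38) (nat_lit 78) (.st (nat_lit 39) (nat_lit 78) .nil))⟩,
  ⟨r13o_63, r7o_1, r5o_7, (.st (nat_lit 12) (nat_lit 26) (.st (nat_lit 13) (nat_lit 26) .nil))⟩,
  ⟨r13o_63, r7o_1, r5o_9, (.st (nat_lit 64) (nat_lit 130) (.st (nat_lit 65) (nat_lit 130) .nil))⟩,
  ⟨r13o_63, r7o_2, r5o_1, (.st (nat_lit 25) (nat_lit 26) (.st (nat_lit 0) (nat_lit 26) .nil))⟩,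
  ⟨r13o_63, r7o_2, r5o_3, (.st (nat_lit 129) (nat_lit 130) (.st (nat_lit 0) (nat_lit 130) .nil))⟩,
  ⟨r13o_63, r7o_2, r5o_5, (.st (nat_lit 77) (nat_lit 78) (.st (nat_lit 0) (nat_lit 78) .nil))⟩,
  ⟨r13o_63, r7o_2, r5o_7, (.st (nat_lit 25) (nat_lit 26) (.st (nat_lit 0) (nat_lit 26) .nil))⟩,
  ⟨r13o_63, r7o_2, r5o_9, (.st (nat_lit 129) (nat_lit 130) (.st (nat_lit 0) (nat_lit 130) .nil))⟩,
  ⟨r13o_63, r7o_6, r5o_1, (.st (nat_lit 103) (nat_lit 104) (.st (nat_lit 0) (nat_lit 104) .nil))⟩,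
  ⟨r13o_63, r7o_6, r5o_3, (.st (nat_lit 519) (nat_lit 520) (.st (nat_lit 0) (nat_lit 520) .nil))⟩,
  ⟨r13o_63, r7o_6, r5o_5, (.st (nat_lit 311) (nat_lit 312) (.st (nat_lit 0) (nat_lit 312) .nil))⟩,
  ⟨r13o_63, r7o_6, r5o_7, (.st (nat_lit 103) (nat_lit 104) (.st (nat_lit 0) (nat_lit 104) .nil))⟩,
  ⟨r13o_63, r7o_6, r5o_9, (.st (nat_lit 519) (nat_lit 520) (.st (nat_lit 0) (nat_lit 520) .nil))⟩,
  ⟨r13o_63, r7o_7, r5o_1, (.st (nat_lit 51) (nat_lit 104) (.st (nat_lit 52) (nat_lit 104) .nil))⟩,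
  ⟨r13o_63, r7o_7, r5o_3, (.st (nat_lit 259) (nat_lit 520) (.st (nat_lit 260) (nat_lit 520) .nil))⟩,
  ⟨r13o_63, r7o_7, r5o_5, (.st (nat_lit 155) (nat_lit 312) (.st (nat_lit 156) (nat_lit 312) .nil))⟩,
  ⟨r13o_63, r7o_7, r5o_7, (.st (nat_lit 51) (nat_lit 104) (.st (nat_lit 52) (nat_lit 104) .nil))⟩,
  ⟨r13o_63, r7o_7, r5o_9, (.st (nat_lit 259) (nat_lit 520) (.st (nat_lit 260) (nat_lit 520) .nil))⟩,
  ⟨r13o_63, r7o_8, r5o_0, (.st (nat_lit 38) (nat_lit 78) (.st (nat_lit 39) (nat_lit 78) .nil))⟩,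
  ⟨r13o_63, r7o_8, r5o_3, (.st (nat_lit 194) (nat_lit 390) (.st (nat_lit 195) (nat_lit 390) .nil))⟩,
  ⟨r13o_63, r7o_8, r5o_5, (.st (nat_lit 38) (nat_lit 78) (.st (nat_lit 39) (nat_lit 78) .nil))⟩,
  ⟨r13o_63, r7o_8, r5o_7, (.st (nat_lit 38) (nat_lit 78) (.st (nat_lit 39) (nat_lit 78) .nil))⟩,
  ⟨r13o_63, r7o_8, r5o_9, (.st (nat_lit 194) (nat_lit 390) (.st (nat_lit 195) (nat_lit 390) .nil))⟩,
  ⟨r13o_63, r7o_10, r5o_1, (.st (nat_lit 77) (nat_lit 78) (.st (nat_lit 0) (nat_lit 78) .nil))⟩,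
  ⟨r13o_63, r7o_10, r5o_3, (.st (nat_lit 389) (nat_lit 390) (.st (nat_lit 0) (nat_lit 390) .nil))⟩,
  ⟨r13o_63, r7o_10, r5o_5, (.st (nat_lit 77) (nat_lit 78) (.st (nat_lit 0) (nat_lit 78) .nil))⟩,
  ⟨r13o_63, r7o_10, r5o_7, (.st (nat_lit 77) (nat_lit 78) (.st (nat_lit 0) (nat_lit 78) .nil))⟩,
  ⟨r13o_63, r7o_10, r5o_9, (.st (nat_lit 389) (nat_lit 390) (.st (nat_lit 0) (nat_lit 390) .nil))⟩,
  ⟨r13o_63, r7o_14, r5o_1, (.st (nat_lit 103) (nat_lit 104) (.st (nat_lit 0) (nat_lit 104) .nil))⟩,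
  ⟨r13o_63, r7o_14, r5o_3, (.st (nat_lit 519) (nat_lit 520) (.st (nat_lit 0) (nat_lit 520) .nil))⟩,
  ⟨r13o_63, r7o_14, r5o_5, (.st (nat_lit 311) (nat_lit 312) (.st (nat_lit 0) (nat_lit 312) .nil))⟩,
  ⟨r13o_63, r7o_14, r5o_7, (.st (nat_lit 103) (nat_lit 104) (.st (nat_lit 0) (nat_lit 104) .nil))⟩,
  ⟨r13o_63, r7o_14, r5o_9, (.st (nat_lit 519) (nat_lit 520) (.st (nat_lit 0) (nat_lit 520) .nil))⟩,
  ⟨r13o_63, r7o_15, r5o_1, (.st (nat_lit 51) (nat_lit 104) (.st (nat_lit 52) (nat_lit 104) .nil))⟩,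
  ⟨r13o_63, r7o_15, r5o_3, (.st (nat_lit 259) (nat_lit 520) (.st (nat_lit 260) (nat_lit 520) .nil))⟩,
  ⟨r13o_63, r7o_15, r5o_5, (.st (nat_lit 155) (nat_lit 312) (.st (nat_lit 156) (nat_lit 312) .nil))⟩,
  ⟨r13o_63, r7o_15, r5o_7, (.st (nat_lit 51) (nat_lit 104) (.st (nat_lit 52) (nat_lit 104) .nil))⟩,
  ⟨r13o_63, r7o_15, r5o_9, (.st (nat_lit 259) (nat_lit 520) (.st (nat_lit 260) (nat_lit 520) .nil))⟩,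
  ⟨r13o_63, r7o_18, r5o_0, (.st (nat_lit 12) (nat_lit 26) (.st (nat_lit 13) (nat_lit 26) .nil))⟩,
  ⟨r13o_63, r7o_18, r5o_1, (.st (nat_lit 25) (nat_lit 26) (.st (nat_lit 0) (nat_lit 26) .nil))⟩,
  ⟨r13o_63, r7o_18, r5o_3, (.st (nat_lit 64) (nat_lit 65) (.st (nat_lit 0) (nat_lit 65) .nil))⟩,
  ⟨r13o_63, r7o_18, r5o_5, (.st (nat_lit 38) (nat_lit 39) (.st (nat_lit 0) (nat_lit 39) .nil))⟩,
  ⟨r13o_63, r7o_18, r5o_7, (.st (nat_lit 12) (nat_lit 13) (.st (nat_lit 0) (nat_lit 13) .nil))⟩,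
  ⟨r13o_63, r7o_18, r5o_9, (.st (nat_lit 64) (nat_lit 65) (.st (nat_lit 0) (nat_lit 65) .nil))⟩,
  ⟨r13o_63, r7o_20, r5o_0, (.st (nat_lit 38) (nat_lit 78) (.st (nat_lit 39) (nat_lit 78) .nil))⟩,
  ⟨r13o_63, r7o_20, r5o_3, (.st (nat_lit 194) (nat_lit 390) (.st (nat_lit 195) (nat_lit 390) .nil))⟩,
  ⟨r13o_63, r7o_20, r5o_5, (.st (nat_lit 38) (nat_lit 78) (.st (nat_lit 39) (nat_lit 78) .nil))⟩,
  ⟨r13o_63, r7o_20, r5o_7, (.st (nat_lit 38) (nat_lit 78) (.st (nat_lit 39) (nat_lit 78) .nil))⟩,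
  ⟨r13o_63, r7o_20, r5o_9, (.st (nat_lit 194) (nat_lit 390) (.st (nat_lit 195) (nat_lit 390) .nil))⟩,
  ⟨r13o_63, r7o_22, r5o_1, (.st (nat_lit 77) (nat_lit 78) (.st (nat_lit 0) (nat_lit 78) .nil))⟩,
  ⟨r13o_63, r7o_22, r5o_3, (.st (nat_lit 389) (nat_lit 390) (.st (nat_lit 0) (nat_lit 390) .nil))⟩,
  ⟨r13o_63, r7o_22, r5o_5, (.st (nat_lit 77) (nat_lit 78) (.st (nat_lit 0) (nat_lit 78) .nil))⟩,
  ⟨r13o_63, r7o_22, r5o_7, (.st (nat_lit 77) (nat_lit 78) (.st (nat_lit 0) (nat_lit 78) .nil))⟩,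
  ⟨r13o_63, r7o_22, r5o_9, (.st (nat_lit 389) (nat_lit 390) (.st (nat_lit 0) (nat_lit 390) .nil))⟩,
  ⟨r13o_63, r7o_26, r5o_1, (.st (nat_lit 103) (nat_lit 104) (.st (nat_lit 51) (nat_lit 104) (.st (nat_lit 52) (nat_lit 104) (.st (nat_lit 0) (nat_lit 104) .nil))))⟩,
  ⟨r13o_63, r7o_26, r5o_3, (.st (nat_lit 519) (nat_lit 520) (.st (nat_lit 259) (nat_lit 520) (.st (nat_lit 260) (nat_lit 520) (.st (nat_lit 0) (nat_lit 520) .nil))))⟩,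
  ⟨r13o_63, r7o_26, r5o_5, (.st (nat_lit 311) (nat_lit 312) (.st (nat_lit 155) (nat_lit 312) (.st (nat_lit 156) (nat_lit 312) (.st (nat_lit 0) (nat_lit 312) .nil))))⟩,
  ⟨r13o_63, r7o_26, r5o_7, (.st (nat_lit 103) (nat_lit 104) (.st (nat_lit 51) (nat_lit 104) (.st (nat_lit 52) (nat_lit 104) (.st (nat_lit 0) (nat_lit 104) .nil))))⟩,
  ⟨r13o_63, r7o_26, r5o_9, (.st (nat_lit 519) (nat_lit 520) (.st (nat_lit 259) (nat_lit 520) (.st (nat_lit 260) (nat_lit 520) (.st (nat_lit 0) (nat_lit 520) .nil))))⟩]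

/-- entries -/
def EA64 : List E3 := []

/-- entries -/
def EA65 : List E3 := []

/-- entries -/
def EA66 : List E3 := [⟨r13o_66, r7o_18, r5o_2, (.st (nat_lit 17) (nat_lit 35) .nil)⟩,
  ⟨r13o_66, r7o_18, r5o_3, (.st (nat_lit 17) (nat_lit 35) .nil)⟩]

/-- entries -/
def EA67 : List E3 := [⟨r13o_67, r7o_18, r5o_2, (.st (nat_lit 17) (nat_lit 35) .nil)⟩,
  ⟨r13o_67, r7o_18, r5o_3, (.st (nat_lit 17) (nat_lit 35) .nil)⟩,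
  ⟨r13o_67, r7o_18, r5o_4, (.st (nat_lit 3) (nat_lit 7) .nil)⟩,
  ⟨r13o_67, r7o_18, r5o_5, (.st (nat_lit 10) (nat_lit 21) .nil)⟩,
  ⟨r13o_67, r7o_18, r5o_6, (.st (nat_lit 10) (nat_lit 21) .nil)⟩,
  ⟨r13o_67, r7o_18, r5o_7, (.st (nat_lit 3) (nat_lit 7) .nil)⟩,
  ⟨r13o_67, r7o_18, r5o_8, (.st (nat_lit 17) (nat_lit 35) .nil)⟩,
  ⟨r13o_67, r7o_18, r5o_9, (.st (nat_lit 17) (nat_lit 35) .nil)⟩,
  ⟨r13o_67, r7o_20, r5o_7, (.st (nat_lit 40) (nat_lit 42) (.st (nat_lit 1) (nat_lit 42) .nil))⟩,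
  ⟨r13o_67, r7o_22, r5o_7, (.st (nat_lit 19) (nat_lit 42) (.st (nat_lit 22) (nat_lit 42) .nil))⟩]

/-- entries -/
def EA68 : List E3 := [⟨r13o_68, r7o_1, r5o_0, (.st (nat_lit 181) (nat_lit 182) (.st (nat_lit 0) (nat_lit 182) .nil))⟩,
  ⟨r13o_68, r7o_1, r5o_2, (.st (nat_lit 909) (nat_lit 910) (.st (nat_lit 0) (nat_lit 910) .nil))⟩,
  ⟨r13o_68, r7o_1, r5o_4, (.st (nat_lit 181) (nat_lit 182) (.st (nat_lit 0) (nat_lit 182) .nil))⟩,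
  ⟨r13o_68, r7o_1, r5o_6, (.st (nat_lit 545) (nat_lit 546) (.st (nat_lit 0) (nat_lit 546) .nil))⟩,
  ⟨r13o_68, r7o_1, r5o_8, (.st (nat_lit 909) (nat_lit 910) (.st (nat_lit 0) (nat_lit 910) .nil))⟩,
  ⟨r13o_68, r7o_2, r5o_1, (.st (nat_lit 90) (nat_lit 182) (.st (nat_lit 91) (nat_lit 182) .nil))⟩,
  ⟨r13o_68, r7o_2, r5o_2, (.st (nat_lit 454) (nat_lit 910) (.st (nat_lit 455) (nat_lit 910) .nil))⟩,
  ⟨r13o_68, r7o_2, r5o_4, (.st (nat_lit 90) (nat_lit 182) (.st (nat_lit 91) (nat_lit 182) .nil))⟩,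
  ⟨r13o_68, r7o_2, r5o_6, (.st (nat_lit 272) (nat_lit 546) (.st (nat_lit 273) (nat_lit 546) .nil))⟩,
  ⟨r13o_68, r7o_2, r5o_8, (.st (nat_lit 454) (nat_lit 910) (.st (nat_lit 455) (nat_lit 910) .nil))⟩,
  ⟨r13o_68, r7o_5, r5o_0, (.st (nat_lit 727) (nat_lit 728) (.st (nat_lit 363) (nat_lit 728) (.st (nat_lit 364) (nat_lit 728) (.st (nat_lit 0) (nat_lit 728) .nil))))⟩,
  ⟨r13o_68, r7o_5, r5o_2, (.st (nat_lit 3639) (nat_lit 3640) (.st (nat_lit 1819) (nat_lit 3640) (.st (nat_lit 1820) (nat_lit 3640) (.st (nat_lit 0) (nat_lit 3640) .nil))))⟩,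
  ⟨r13o_68, r7o_5, r5o_4, (.st (nat_lit 727) (nat_lit 728) (.st (nat_lit 363) (nat_lit 728) (.st (nat_lit 364) (nat_lit 728) (.st (nat_lit 0) (nat_lit 728) .nil))))⟩,
  ⟨r13o_68, r7o_5, r5o_6, (.st (nat_lit 2183) (nat_lit 2184) (.st (nat_lit 1091) (nat_lit 2184) (.st (nat_lit 1092) (nat_lit 2184) (.st (nat_lit 0) (nat_lit 2184) .nil))))⟩,
  ⟨r13o_68, r7o_5, r5o_8, (.st (nat_lit 3639) (nat_lit 3640) (.st (nat_lit 1819) (nat_lit 3640) (.st (nat_lit 1820) (nat_lit 3640) (.st (nat_lit 0) (nat_lit 3640) .nil))))⟩,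
  ⟨r13o_68, r7o_9, r5o_0, (.st (nat_lit 545) (nat_lit 546) (.st (nat_lit 0) (nat_lit 546) .nil))⟩,
  ⟨r13o_68, r7o_9, r5o_2, (.st (nat_lit 2729) (nat_lit 2730) (.st (nat_lit 0) (nat_lit 2730) .nil))⟩,
  ⟨r13o_68, r7o_9, r5o_4, (.st (nat_lit 545) (nat_lit 546) (.st (nat_lit 0) (nat_lit 546) .nil))⟩,
  ⟨r13o_68, r7o_9, r5o_6, (.st (nat_lit 545) (nat_lit 546) (.st (nat_lit 0) (nat_lit 546) .nil))⟩,
  ⟨r13o_68, r7o_9, r5o_8, (.st (nat_lit 2729) (nat_lit 2730) (.st (nat_lit 0) (nat_lit 2730) .nil))⟩,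
  ⟨r13o_68, r7o_11, r5o_1, (.st (nat_lit 272) (nat_lit 546) (.st (nat_lit 273) (nat_lit 546) .nil))⟩,
  ⟨r13o_68, r7o_11, r5o_2, (.st (nat_lit 1364) (nat_lit 2730) (.st (nat_lit 1365) (nat_lit 2730) .nil))⟩,
  ⟨r13o_68, r7o_11, r5o_4, (.st (nat_lit 272) (nat_lit 546) (.st (nat_lit 273) (nat_lit 546) .nil))⟩,
  ⟨r13o_68, r7o_11, r5o_6, (.st (nat_lit 272) (nat_lit 546) (.st (nat_lit 273) (nat_lit 546) .nil))⟩,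
  ⟨r13o_68, r7o_11, r5o_8, (.st (nat_lit 1364) (nat_lit 2730) (.st (nat_lit 1365) (nat_lit 2730) .nil))⟩,
  ⟨r13o_68, r7o_13, r5o_0, (.st (nat_lit 181) (nat_lit 182) (.st (nat_lit 0) (nat_lit 182) .nil))⟩,
  ⟨r13o_68, r7o_13, r5o_1, (.st (nat_lit 90) (nat_lit 182) (.st (nat_lit 91) (nat_lit 182) .nil))⟩,
  ⟨r13o_68, r7o_13, r5o_2, (.st (nat_lit 454) (nat_lit 455) (.st (nat_lit 0) (nat_lit 455) .nil))⟩,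
  ⟨r13o_68, r7o_13, r5o_4, (.st (nat_lit 90) (nat_lit 91) (.st (nat_lit 0) (nat_lit 91) .nil))⟩,
  ⟨r13o_68, r7o_13, r5o_6, (.st (nat_lit 272) (nat_lit 273) (.st (nat_lit 0) (nat_lit 273) .nil))⟩,
  ⟨r13o_68, r7o_13, r5o_8, (.st (nat_lit 454) (nat_lit 455) (.st (nat_lit 0) (nat_lit 455) .nil))⟩,
  ⟨r13o_68, r7o_16, r5o_0, (.st (nat_lit 363) (nat_lit 728) (.st (nat_lit 364) (nat_lit 728) .nil))⟩,
  ⟨r13o_68, r7o_16, r5o_2, (.st (nat_lit 139) (nat_lit 280) (.st (nat_lit 140) (nat_lit 280) .nil))⟩,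
  ⟨r13o_68, r7o_16, r5o_4, (.st (nat_lit 363) (nat_lit 728) (.st (nat_lit 364) (nat_lit 728) .nil))⟩,
  ⟨r13o_68, r7o_16, r5o_6, (.st (nat_lit 1091) (nat_lit 2184) (.st (nat_lit 1092) (nat_lit 2184) .nil))⟩,
  ⟨r13o_68, r7o_16, r5o_8, (.st (nat_lit 1819) (nat_lit 3640) (.st (nat_lit 1820) (nat_lit 3640) .nil))⟩,
  ⟨r13o_68, r7o_17, r5o_0, (.st (nat_lit 727) (nat_lit 728) (.st (nat_lit 0) (nat_lit 728) .nil))⟩,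
  ⟨r13o_68, r7o_17, r5o_2, (.st (nat_lit 279) (nat_lit 280) (.st (nat_lit 0) (nat_lit 280) .nil))⟩,
  ⟨r13o_68, r7o_17, r5o_4, (.st (nat_lit 727) (nat_lit 728) (.st (nat_lit 0) (nat_lit 728) .nil))⟩,
  ⟨r13o_68, r7o_17, r5o_6, (.st (nat_lit 2183) (nat_lit 2184) (.st (nat_lit 0) (nat_lit 2184) .nil))⟩,
  ⟨r13o_68, r7o_17, r5o_8, (.st (nat_lit 3639) (nat_lit 3640) (.st (nat_lit 0) (nat_lit 3640) .nil))⟩,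
  ⟨r13o_68, r7o_18, r5o_2, (.st (nat_lit 17) (nat_lit 35) .nil)⟩,
  ⟨r13o_68, r7o_18, r5o_3, (.st (nat_lit 17) (nat_lit 35) .nil)⟩,
  ⟨r13o_68, r7o_21, r5o_0, (.st (nat_lit 545) (nat_lit 546) (.st (nat_lit 0) (nat_lit 546) .nil))⟩,
  ⟨r13o_68, r7o_21, r5o_2, (.st (nat_lit 2729) (nat_lit 2730) (.st (nat_lit 0) (nat_lit 2730) .nil))⟩,
  ⟨r13o_68, r7o_21, r5o_4, (.st (nat_lit 545) (nat_lit 546) (.st (nat_lit 0) (nat_lit 546) .nil))⟩,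
  ⟨r13o_68, r7o_21, r5o_6, (.st (nat_lit 545) (nat_lit 546) (.st (nat_lit 0) (nat_lit 546) .nil))⟩,
  ⟨r13o_68, r7o_21, r5o_8, (.st (nat_lit 2729) (nat_lit 2730) (.st (nat_lit 0) (nat_lit 2730) .nil))⟩,
  ⟨r13o_68, r7o_23, r5o_1, (.st (nat_lit 272) (nat_lit 546) (.st (nat_lit 273) (nat_lit 546) .nil))⟩,
  ⟨r13o_68, r7o_23, r5o_2, (.st (nat_lit 1364) (nat_lit 2730) (.st (nat_lit 1365) (nat_lit 2730) .nil))⟩,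
  ⟨r13o_68, r7o_23, r5o_4, (.st (nat_lit 272) (nat_lit 546) (.st (nat_lit 273) (nat_lit 546) .nil))⟩,
  ⟨r13o_68, r7o_23, r5o_6, (.st (nat_lit 272) (nat_lit 546) (.st (nat_lit 273) (nat_lit 546) .nil))⟩,
  ⟨r13o_68, r7o_23, r5o_8, (.st (nat_lit 1364) (nat_lit 2730) (.st (nat_lit 1365) (nat_lit 2730) .nil))⟩,
  ⟨r13o_68, r7o_24, r5o_0, (.st (nat_lit 363) (nat_lit 728) (.st (nat_lit 364) (nat_lit 728) .nil))⟩,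
  ⟨r13o_68, r7o_24, r5o_2, (.st (nat_lit 1819) (nat_lit 3640) (.st (nat_lit 1820) (nat_lit 3640) .nil))⟩,
  ⟨r13o_68, r7o_24, r5o_4, (.st (nat_lit 363) (nat_lit 728) (.st (nat_lit 364) (nat_lit 728) .nil))⟩,
  ⟨r13o_68, r7o_24, r5o_6, (.st (nat_lit 1091) (nat_lit 2184) (.st (nat_lit 1092) (nat_lit 2184) .nil))⟩,
  ⟨r13o_68, r7o_24, r5o_8, (.st (nat_lit 1819) (nat_lit 3640) (.st (nat_lit 1820) (nat_lit 3640) .nil))⟩,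
  ⟨r13o_68, r7o_25, r5o_0, (.st (nat_lit 727) (nat_lit 728) (.st (nat_lit 0) (nat_lit 728) .nil))⟩,
  ⟨r13o_68, r7o_25, r5o_2, (.st (nat_lit 3639) (nat_lit 3640) (.st (nat_lit 0) (nat_lit 3640) .nil))⟩,
  ⟨r13o_68, r7o_25, r5o_4, (.st (nat_lit 727) (nat_lit 728) (.st (nat_lit 0) (nat_lit 728) .nil))⟩,
  ⟨r13o_68, r7o_25, r5o_6, (.st (nat_lit 2183) (nat_lit 2184) (.st (nat_lit 0) (nat_lit 2184) .nil))⟩,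
  ⟨r13o_68, r7o_25, r5o_8, (.st (nat_lit 3639) (nat_lit 3640) (.st (nat_lit 0) (nat_lit 3640) .nil))⟩]

/-- entries -/
def EA69 : List E3 := [⟨r13o_69, r7o_1, r5o_0, (.st (nat_lit 90) (nat_lit 182) (.st (nat_lit 91) (nat_lit 182) .nil))⟩,
  ⟨r13o_69, r7o_1, r5o_3, (.st (nat_lit 454) (nat_lit 910) (.st (nat_lit 455) (nat_lit 910) .nil))⟩,
  ⟨r13o_69, r7o_1, r5o_5, (.st (nat_lit 272) (nat_lit 546) (.st (nat_lit 273) (nat_lit 546) .nil))⟩,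
  ⟨r13o_69, r7o_1, r5o_7, (.st (nat_lit 90) (nat_lit 182) (.st (nat_lit 91) (nat_lit 182) .nil))⟩,
  ⟨r13o_69, r7o_1, r5o_9, (.st (nat_lit 454) (nat_lit 910) (.st (nat_lit 455) (nat_lit 910) .nil))⟩,
  ⟨r13o_69, r7o_2, r5o_1, (.st (nat_lit 181) (nat_lit 182) (.st (nat_lit 0) (nat_lit 182) .nil))⟩,
  ⟨r13o_69, r7o_2, r5o_3, (.st (nat_lit 909) (nat_lit 910) (.st (nat_lit 0) (nat_lit 910) .nil))⟩,
  ⟨r13o_69, r7o_2, r5o_5, (.st (nat_lit 545) (nat_lit 546) (.st (nat_lit 0) (nat_lit 546) .nil))⟩,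
  ⟨r13o_69, r7o_2, r5o_7, (.st (nat_lit 181) (nat_lit 182) (.st (nat_lit 0) (nat_lit 182) .nil))⟩,
  ⟨r13o_69, r7o_2, r5o_9, (.st (nat_lit 909) (nat_lit 910) (.st (nat_lit 0) (nat_lit 910) .nil))⟩,
  ⟨r13o_69, r7o_6, r5o_1, (.st (nat_lit 727) (nat_lit 728) (.st (nat_lit 0) (nat_lit 728) .nil))⟩,
  ⟨r13o_69, r7o_6, r5o_3, (.st (nat_lit 3639) (nat_lit 3640) (.st (nat_lit 0) (nat_lit 3640) .nil))⟩,
  ⟨r13o_69, r7o_6, r5o_5, (.st (nat_lit 2183) (nat_lit 2184) (.st (nat_lit 0) (nat_lit 2184) .nil))⟩,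
  ⟨r13o_69, r7o_6, r5o_7, (.st (nat_lit 727) (nat_lit 728) (.st (nat_lit 0) (nat_lit 728) .nil))⟩,
  ⟨r13o_69, r7o_6, r5o_9, (.st (nat_lit 3639) (nat_lit 3640) (.st (nat_lit 0) (nat_lit 3640) .nil))⟩,
  ⟨r13o_69, r7o_7, r5o_1, (.st (nat_lit 363) (nat_lit 728) (.st (nat_lit 364) (nat_lit 728) .nil))⟩,
  ⟨r13o_69, r7o_7, r5o_3, (.st (nat_lit 1819) (nat_lit 3640) (.st (nat_lit 1820) (nat_lit 3640) .nil))⟩,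
  ⟨r13o_69, r7o_7, r5o_5, (.st (nat_lit 1091) (nat_lit 2184) (.st (nat_lit 1092) (nat_lit 2184) .nil))⟩,
  ⟨r13o_69, r7o_7, r5o_7, (.st (nat_lit 363) (nat_lit 728) (.st (nat_lit 364) (nat_lit 728) .nil))⟩,
  ⟨r13o_69, r7o_7, r5o_9, (.st (nat_lit 1819) (nat_lit 3640) (.st (nat_lit 1820) (nat_lit 3640) .nil))⟩,
  ⟨r13o_69, r7o_8, r5o_0, (.st (nat_lit 272) (nat_lit 546) (.st (nat_lit 273) (nat_lit 546) .nil))⟩,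
  ⟨r13o_69, r7o_8, r5o_3, (.st (nat_lit 1364) (nat_lit 2730) (.st (nat_lit 1365) (nat_lit 2730) .nil))⟩,
  ⟨r13o_69, r7o_8, r5o_5, (.st (nat_lit 272) (nat_lit 546) (.st (nat_lit 89) (nat_lit 546) (.st (nat_lit 456) (nat_lit 546) (.st (nat_lit 273) (nat_lit 546) .nil))))⟩,
  ⟨r13o_69, r7o_8, r5o_7, (.st (nat_lit 272) (nat_lit 546) (.st (nat_lit 273) (nat_lit 546) .nil))⟩,
  ⟨r13o_69, r7o_8, r5o_9, (.st (nat_lit 1364) (nat_lit 2730) (.st (nat_lit 1363) (nat_lit 2730) (.st (nat_lit 1366) (nat_lit 2730) (.st (nat_lit 1365) (nat_lit 2730) .nil))))⟩,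
  ⟨r13o_69, r7o_10, r5o_1, (.st (nat_lit 545) (nat_lit 546) (.st (nat_lit 0) (nat_lit 546) .nil))⟩,
  ⟨r13o_69, r7o_10, r5o_3, (.st (nat_lit 2729) (nat_lit 2730) (.st (nat_lit 0) (nat_lit 2730) .nil))⟩,
  ⟨r13o_69, r7o_10, r5o_5, (.st (nat_lit 545) (nat_lit 546) (.st (nat_lit 362) (nat_lit 546) (.st (nat_lit 183) (nat_lit 546) (.st (nat_lit 0) (nat_lit 546) .nil))))⟩,
  ⟨r13o_69, r7o_10, r5o_7, (.st (nat_lit 545) (nat_lit 546) (.st (nat_lit 0) (nat_lit 546) .nil))⟩,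
  ⟨r13o_69, r7o_10, r5o_9, (.st (nat_lit 2729) (nat_lit 2730) (.st (nat_lit 2728) (nat_lit 2730) (.st (nat_lit 1) (nat_lit 2730) (.st (nat_lit 0) (nat_lit 2730) .nil))))⟩,
  ⟨r13o_69, r7o_14, r5o_1, (.st (nat_lit 727) (nat_lit 728) (.st (nat_lit 0) (nat_lit 728) .nil))⟩,
  ⟨r13o_69, r7o_14, r5o_3, (.st (nat_lit 3639) (nat_lit 3640) (.st (nat_lit 0) (nat_lit 3640) .nil))⟩,
  ⟨r13o_69, r7o_14, r5o_5, (.st (nat_lit 2183) (nat_lit 2184) (.st (nat_lit 0) (nat_lit 2184) .nil))⟩,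
  ⟨r13o_69, r7o_14, r5o_7, (.st (nat_lit 727) (nat_lit 728) (.st (nat_lit 0) (nat_lit 728) .nil))⟩,
  ⟨r13o_69, r7o_14, r5o_9, (.st (nat_lit 3639) (nat_lit 3640) (.st (nat_lit 0) (nat_lit 3640) .nil))⟩,
  ⟨r13o_69, r7o_15, r5o_1, (.st (nat_lit 363) (nat_lit 728) (.st (nat_lit 364) (nat_lit 728) .nil))⟩,
  ⟨r13o_69, r7o_15, r5o_3, (.st (nat_lit 1819) (nat_lit 3640) (.st (nat_lit 1820) (nat_lit 3640) .nil))⟩,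
  ⟨r13o_69, r7o_15, r5o_5, (.st (nat_lit 1091) (nat_lit 2184) (.st (nat_lit 1092) (nat_lit 2184) .nil))⟩,
  ⟨r13o_69, r7o_15, r5o_7, (.st (nat_lit 363) (nat_lit 728) (.st (nat_lit 364) (nat_lit 728) .nil))⟩,
  ⟨r13o_69, r7o_15, r5o_9, (.st (nat_lit 1819) (nat_lit 3640) (.st (nat_lit 1820) (nat_lit 3640) .nil))⟩,
  ⟨r13o_69, r7o_18, r5o_0, (.st (nat_lit 90) (nat_lit 182) (.st (nat_lit 91) (nat_lit 182) .nil))⟩,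
  ⟨r13o_69, r7o_18, r5o_1, (.st (nat_lit 181) (nat_lit 182) (.st (nat_lit 0) (nat_lit 182) .nil))⟩,
  ⟨r13o_69, r7o_18, r5o_2, (.st (nat_lit 17) (nat_lit 35) .nil)⟩,
  ⟨r13o_69, r7o_18, r5o_3, (.st (nat_lit 34) (nat_lit 35) (.st (nat_lit 17) (nat_lit 35) (.st (nat_lit 0) (nat_lit 35) .nil)))⟩,
  ⟨r13o_69, r7o_18, r5o_5, (.st (nat_lit 272) (nat_lit 273) (.st (nat_lit 0) (nat_lit 273) .nil))⟩,
  ⟨r13o_69, r7o_18, r5o_7, (.st (nat_lit 90) (nat_lit 91) (.st (nat_lit 0) (nat_lit 91) .nil))⟩,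
  ⟨r13o_69, r7o_18, r5o_9, (.st (nat_lit 454) (nat_lit 455) (.st (nat_lit 0) (nat_lit 455) .nil))⟩,
  ⟨r13o_69, r7o_20, r5o_0, (.st (nat_lit 272) (nat_lit 546) (.st (nat_lit 273) (nat_lit 546) .nil))⟩,
  ⟨r13o_69, r7o_20, r5o_3, (.st (nat_lit 1364) (nat_lit 2730) (.st (nat_lit 1365) (nat_lit 2730) .nil))⟩,
  ⟨r13o_69, r7o_20, r5o_5, (.st (nat_lit 272) (nat_lit 546) (.st (nat_lit 273) (nat_lit 546) .nil))⟩,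
  ⟨r13o_69, r7o_20, r5o_7, (.st (nat_lit 20) (nat_lit 42) (.st (nat_lit 21) (nat_lit 42) .nil))⟩,
  ⟨r13o_69, r7o_20, r5o_9, (.st (nat_lit 1364) (nat_lit 2730) (.st (nat_lit 1365) (nat_lit 2730) .nil))⟩,
  ⟨r13o_69, r7o_22, r5o_1, (.st (nat_lit 545) (nat_lit 546) (.st (nat_lit 0) (nat_lit 546) .nil))⟩,
  ⟨r13o_69, r7o_22, r5o_3, (.st (nat_lit 2729) (nat_lit 2730) (.st (nat_lit 0) (nat_lit 2730) .nil))⟩,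
  ⟨r13o_69, r7o_22, r5o_5, (.st (nat_lit 545) (nat_lit 546) (.st (nat_lit 0) (nat_lit 546) .nil))⟩,
  ⟨r13o_69, r7o_22, r5o_7, (.st (nat_lit 41) (nat_lit 42) (.st (nat_lit 0) (nat_lit 42) .nil))⟩,
  ⟨r13o_69, r7o_22, r5o_9, (.st (nat_lit 2729) (nat_lit 2730) (.st (nat_lit 0) (nat_lit 2730) .nil))⟩,
  ⟨r13o_69, r7o_26, r5o_1, (.st (nat_lit 55) (nat_lit 56) (.st (nat_lit 27) (nat_lit 56) (.st (nat_lit 28) (nat_lit 56) (.st (nat_lit 0) (nat_lit 56) .nil))))⟩,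
  ⟨r13o_69, r7o_26, r5o_3, (.st (nat_lit 3639) (nat_lit 3640) (.st (nat_lit 1819) (nat_lit 3640) (.st (nat_lit 1820) (nat_lit 3640) (.st (nat_lit 0) (nat_lit 3640) .nil))))⟩,
  ⟨r13o_69, r7o_26, r5o_5, (.st (nat_lit 167) (nat_lit 168) (.st (nat_lit 83) (nat_lit 168) (.st (nat_lit 84) (nat_lit 168) (.st (nat_lit 0) (nat_lit 168) .nil))))⟩,
  ⟨r13o_69, r7o_26, r5o_7, (.st (nat_lit 55) (nat_lit 56) (.st (nat_lit 27) (nat_lit 56) (.st (nat_lit 28) (nat_lit 56) (.st (nat_lit 0) (nat_lit 56) .nil))))⟩,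
  ⟨r13o_69, r7o_26, r5o_9, (.st (nat_lit 3639) (nat_lit 3640) (.st (nat_lit 1819) (nat_lit 3640) (.st (nat_lit 1820) (nat_lit 3640) (.st (nat_lit 0) (nat_lit 3640) .nil))))⟩,
  ⟨r13o_69, r7o_27, r5o_2, (.st (nat_lit 447) (nat_lit 455) (.st (nat_lit 7) (nat_lit 455) .nil))⟩]

/-- entries -/
def EA70 : List E3 := [⟨r13o_70, r7o_18, r5o_2, (.st (nat_lit 2) (nat_lit 5) .nil)⟩,
  ⟨r13o_70, r7o_18, r5o_3, (.st (nat_lit 2) (nat_lit 5) .nil)⟩]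

/-- entries -/
def EA71 : List E3 := [⟨r13o_71, r7o_18, r5o_2, (.st (nat_lit 17) (nat_lit 35) .nil)⟩,
  ⟨r13o_71, r7o_18, r5o_3, (.st (nat_lit 17) (nat_lit 35) .nil)⟩,
  ⟨r13o_71, r7o_21, r5o_6, (.st (nat_lit 271) (nat_lit 546) (.st (nat_lit 274) (nat_lit 546) .nil))⟩,
  ⟨r13o_71, r7o_21, r5o_7, (.st (nat_lit 19) (nat_lit 42) (.st (nat_lit 22) (nat_lit 42) .nil))⟩,
  ⟨r13o_71, r7o_23, r5o_6, (.st (nat_lit 544) (nat_lit 546) (.st (nat_lit 1) (nat_lit 546) .nil))⟩,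
  ⟨r13o_71, r7o_23, r5o_7, (.st (nat_lit 40) (nat_lit 42) (.st (nat_lit 1) (nat_lit 42) .nil))⟩]

/-- entries -/
def EA72 : List E3 := [⟨r13o_72, r7o_27, r5o_8, (.st (nat_lit 17) (nat_lit 35) .nil)⟩,
  ⟨r13o_72, r7o_27, r5o_9, (.st (nat_lit 17) (nat_lit 35) .nil)⟩]

/-- entries -/
def EA73 : List E3 := [⟨r13o_73, r7o_24, r5o_8, (.st (nat_lit 276) (nat_lit 280) (.st (nat_lit 3) (nat_lit 280) .nil))⟩,
  ⟨r13o_73, r7o_24, r5o_9, (.st (nat_lit 277) (nat_lit 280) (.st (nat_lit 2) (nat_lit 280) .nil))⟩,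
  ⟨r13o_73, r7o_25, r5o_8, (.st (nat_lit 143) (nat_lit 280) (.st (nat_lit 136) (nat_lit 280) .nil))⟩,
  ⟨r13o_73, r7o_25, r5o_9, (.st (nat_lit 137) (nat_lit 280) (.st (nat_lit 142) (nat_lit 280) .nil))⟩,
  ⟨r13o_73, r7o_27, r5o_8, (.st (nat_lit 17) (nat_lit 35) .nil)⟩,
  ⟨r13o_73, r7o_27, r5o_9, (.st (nat_lit 17) (nat_lit 35) .nil)⟩]

/-- entries -/
def EA74 : List E3 := [⟨r13o_74, r7o_1, r5o_0, (.st (nat_lit 181) (nat_lit 182) (.st (nat_lit 0) (nat_lit 182) .nil))⟩,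
  ⟨r13o_74, r7o_1, r5o_2, (.st (nat_lit 909) (nat_lit 910) (.st (nat_lit 0) (nat_lit 910) .nil))⟩,
  ⟨r13o_74, r7o_1, r5o_4, (.st (nat_lit 181) (nat_lit 182) (.st (nat_lit 0) (nat_lit 182) .nil))⟩,
  ⟨r13o_74, r7o_1, r5o_6, (.st (nat_lit 545) (nat_lit 546) (.st (nat_lit 0) (nat_lit 546) .nil))⟩,
  ⟨r13o_74, r7o_1, r5o_8, (.st (nat_lit 909) (nat_lit 910) (.st (nat_lit 0) (nat_lit 910) .nil))⟩,
  ⟨r13o_74, r7o_2, r5o_1, (.st (nat_lit 90) (nat_lit 182) (.st (nat_lit 91) (nat_lit 182) .nil))⟩,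
  ⟨r13o_74, r7o_2, r5o_2, (.st (nat_lit 454) (nat_lit 910) (.st (nat_lit 455) (nat_lit 910) .nil))⟩,
  ⟨r13o_74, r7o_2, r5o_4, (.st (nat_lit 90) (nat_lit 182) (.st (nat_lit 91) (nat_lit 182) .nil))⟩,
  ⟨r13o_74, r7o_2, r5o_6, (.st (nat_lit 272) (nat_lit 546) (.st (nat_lit 273) (nat_lit 546) .nil))⟩,
  ⟨r13o_74, r7o_2, r5o_8, (.st (nat_lit 454) (nat_lit 910) (.st (nat_lit 455) (nat_lit 910) .nil))⟩,
  ⟨r13o_74, r7o_5, r5o_0, (.st (nat_lit 55) (nat_lit 56) (.st (nat_lit 27) (nat_lit 56) (.st (nat_lit 28) (nat_lit 56) (.st (nat_lit 0) (nat_lit 56) .nil))))⟩,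
  ⟨r13o_74, r7o_5, r5o_2, (.st (nat_lit 279) (nat_lit 280) (.st (nat_lit 139) (nat_lit 280) (.st (nat_lit 140) (nat_lit 280) (.st (nat_lit 0) (nat_lit 280) .nil))))⟩,
  ⟨r13o_74, r7o_5, r5o_4, (.st (nat_lit 55) (nat_lit 56) (.st (nat_lit 27) (nat_lit 56) (.st (nat_lit 28) (nat_lit 56) (.st (nat_lit 0) (nat_lit 56) .nil))))⟩,
  ⟨r13o_74, r7o_5, r5o_6, (.st (nat_lit 167) (nat_lit 168) (.st (nat_lit 83) (nat_lit 168) (.st (nat_lit 84) (nat_lit 168) (.st (nat_lit 0) (nat_lit 168) .nil))))⟩,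
  ⟨r13o_74, r7o_5, r5o_8, (.st (nat_lit 279) (nat_lit 280) (.st (nat_lit 139) (nat_lit 280) (.st (nat_lit 140) (nat_lit 280) (.st (nat_lit 0) (nat_lit 280) .nil))))⟩,
  ⟨r13o_74, r7o_9, r5o_0, (.st (nat_lit 545) (nat_lit 546) (.st (nat_lit 0) (nat_lit 546) .nil))⟩,
  ⟨r13o_74, r7o_9, r5o_2, (.st (nat_lit 2729) (nat_lit 2730) (.st (nat_lit 0) (nat_lit 2730) .nil))⟩,
  ⟨r13o_74, r7o_9, r5o_4, (.st (nat_lit 545) (nat_lit 546) (.st (nat_lit 0) (nat_lit 546) .nil))⟩,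
  ⟨r13o_74, r7o_9, r5o_6, (.st (nat_lit 545) (nat_lit 546) (.st (nat_lit 0) (nat_lit 546) .nil))⟩,
  ⟨r13o_74, r7o_9, r5o_8, (.st (nat_lit 2729) (nat_lit 2730) (.st (nat_lit 0) (nat_lit 2730) .nil))⟩,
  ⟨r13o_74, r7o_11, r5o_1, (.st (nat_lit 272) (nat_lit 546) (.st (nat_lit 273) (nat_lit 546) .nil))⟩,
  ⟨r13o_74, r7o_11, r5o_2, (.st (nat_lit 1364) (nat_lit 2730) (.st (nat_lit 1365) (nat_lit 2730) .nil))⟩,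
  ⟨r13o_74, r7o_11, r5o_4, (.st (nat_lit 272) (nat_lit 546) (.st (nat_lit 273) (nat_lit 546) .nil))⟩,
  ⟨r13o_74, r7o_11, r5o_6, (.st (nat_lit 272) (nat_lit 546) (.st (nat_lit 273) (nat_lit 546) .nil))⟩,
  ⟨r13o_74, r7o_11, r5o_8, (.st (nat_lit 1364) (nat_lit 2730) (.st (nat_lit 1365) (nat_lit 2730) .nil))⟩,
  ⟨r13o_74, r7o_13, r5o_0, (.st (nat_lit 181) (nat_lit 182) (.st (nat_lit 0) (nat_lit 182) .nil))⟩,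
  ⟨r13o_74, r7o_13, r5o_1, (.st (nat_lit 90) (nat_lit 182) (.st (nat_lit 91) (nat_lit 182) .nil))⟩,
  ⟨r13o_74, r7o_13, r5o_2, (.st (nat_lit 454) (nat_lit 455) (.st (nat_lit 0) (nat_lit 455) .nil))⟩,
  ⟨r13o_74, r7o_13, r5o_4, (.st (nat_lit 90) (nat_lit 91) (.st (nat_lit 0) (nat_lit 91) .nil))⟩,
  ⟨r13o_74, r7o_13, r5o_6, (.st (nat_lit 272) (nat_lit 273) (.st (nat_lit 0) (nat_lit 273) .nil))⟩,
  ⟨r13o_74, r7o_13, r5o_8, (.st (nat_lit 454) (nat_lit 455) (.st (nat_lit 0) (nat_lit 455) .nil))⟩,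
  ⟨r13o_74, r7o_16, r5o_0, (.st (nat_lit 363) (nat_lit 728) (.st (nat_lit 364) (nat_lit 728) .nil))⟩,
  ⟨r13o_74, r7o_16, r5o_2, (.st (nat_lit 1819) (nat_lit 3640) (.st (nat_lit 1820) (nat_lit 3640) .nil))⟩,
  ⟨r13o_74, r7o_16, r5o_4, (.st (nat_lit 363) (nat_lit 728) (.st (nat_lit 364) (nat_lit 728) .nil))⟩,
  ⟨r13o_74, r7o_16, r5o_6, (.st (nat_lit 1091) (nat_lit 2184) (.st (nat_lit 1092) (nat_lit 2184) .nil))⟩,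
  ⟨r13o_74, r7o_16, r5o_8, (.st (nat_lit 1819) (nat_lit 3640) (.st (nat_lit 1820) (nat_lit 3640) .nil))⟩,
  ⟨r13o_74, r7o_17, r5o_0, (.st (nat_lit 727) (nat_lit 728) (.st (nat_lit 0) (nat_lit 728) .nil))⟩,
  ⟨r13o_74, r7o_17, r5o_2, (.st (nat_lit 3639) (nat_lit 3640) (.st (nat_lit 0) (nat_lit 3640) .nil))⟩,
  ⟨r13o_74, r7o_17, r5o_4, (.st (nat_lit 727) (nat_lit 728) (.st (nat_lit 0) (nat_lit 728) .nil))⟩,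
  ⟨r13o_74, r7o_17, r5o_6, (.st (nat_lit 2183) (nat_lit 2184) (.st (nat_lit 0) (nat_lit 2184) .nil))⟩,
  ⟨r13o_74, r7o_17, r5o_8, (.st (nat_lit 3639) (nat_lit 3640) (.st (nat_lit 0) (nat_lit 3640) .nil))⟩,
  ⟨r13o_74, r7o_21, r5o_0, (.st (nat_lit 545) (nat_lit 546) (.st (nat_lit 0) (nat_lit 546) .nil))⟩,
  ⟨r13o_74, r7o_21, r5o_2, (.st (nat_lit 2729) (nat_lit 2730) (.st (nat_lit 0) (nat_lit 2730) .nil))⟩,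
  ⟨r13o_74, r7o_21, r5o_4, (.st (nat_lit 545) (nat_lit 546) (.st (nat_lit 0) (nat_lit 546) .nil))⟩,
  ⟨r13o_74, r7o_21, r5o_6, (.st (nat_lit 545) (nat_lit 546) (.st (nat_lit 0) (nat_lit 546) .nil))⟩,
  ⟨r13o_74, r7o_21, r5o_8, (.st (nat_lit 2729) (nat_lit 2730) (.st (nat_lit 0) (nat_lit 2730) .nil))⟩,
  ⟨r13o_74, r7o_23, r5o_1, (.st (nat_lit 272) (nat_lit 546) (.st (nat_lit 273) (nat_lit 546) .nil))⟩,
  ⟨r13o_74, r7o_23, r5o_2, (.st (nat_lit 1364) (nat_lit 2730) (.st (nat_lit 1365) (nat_lit 2730) .nil))⟩,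
  ⟨r13o_74, r7o_23, r5o_4, (.st (nat_lit 272) (nat_lit 546) (.st (nat_lit 273) (nat_lit 546) .nil))⟩,
  ⟨r13o_74, r7o_23, r5o_6, (.st (nat_lit 272) (nat_lit 546) (.st (nat_lit 273) (nat_lit 546) .nil))⟩,
  ⟨r13o_74, r7o_23, r5o_8, (.st (nat_lit 1364) (nat_lit 2730) (.st (nat_lit 1365) (nat_lit 2730) .nil))⟩,
  ⟨r13o_74, r7o_24, r5o_0, (.st (nat_lit 27) (nat_lit 56) (.st (nat_lit 28) (nat_lit 56) .nil))⟩,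
  ⟨r13o_74, r7o_24, r5o_2, (.st (nat_lit 139) (nat_lit 280) (.st (nat_lit 140) (nat_lit 280) .nil))⟩,
  ⟨r13o_74, r7o_24, r5o_4, (.st (nat_lit 27) (nat_lit 56) (.st (nat_lit 28) (nat_lit 56) .nil))⟩,
  ⟨r13o_74, r7o_24, r5o_6, (.st (nat_lit 83) (nat_lit 168) (.st (nat_lit 84) (nat_lit 168) .nil))⟩,
  ⟨r13o_74, r7o_24, r5o_8, (.st (nat_lit 139) (nat_lit 280) (.st (nat_lit 140) (nat_lit 280) .nil))⟩,
  ⟨r13o_74, r7o_25, r5o_0, (.st (nat_lit 55) (nat_lit 56) (.st (nat_lit 0) (nat_lit 56) .nil))⟩,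
  ⟨r13o_74, r7o_25, r5o_2, (.st (nat_lit 279) (nat_lit 280) (.st (nat_lit 0) (nat_lit 280) .nil))⟩,
  ⟨r13o_74, r7o_25, r5o_4, (.st (nat_lit 55) (nat_lit 56) (.st (nat_lit 0) (nat_lit 56) .nil))⟩,
  ⟨r13o_74, r7o_25, r5o_6, (.st (nat_lit 167) (nat_lit 168) (.st (nat_lit 0) (nat_lit 168) .nil))⟩,
  ⟨r13o_74, r7o_25, r5o_8, (.st (nat_lit 279) (nat_lit 280) (.st (nat_lit 0) (nat_lit 280) .nil))⟩,
  ⟨r13o_74, r7o_27, r5o_2, (.st (nat_lit 17) (nat_lit 35) .nil)⟩,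
  ⟨r13o_74, r7o_27, r5o_3, (.st (nat_lit 17) (nat_lit 35) .nil)⟩,
  ⟨r13o_74, r7o_27, r5o_4, (.st (nat_lit 3) (nat_lit 7) .nil)⟩,
  ⟨r13o_74, r7o_27, r5o_5, (.st (nat_lit 10) (nat_lit 21) .nil)⟩,
  ⟨r13o_74, r7o_27, r5o_6, (.st (nat_lit 10) (nat_lit 21) .nil)⟩,
  ⟨r13o_74, r7o_27, r5o_7, (.st (nat_lit 3) (nat_lit 7) .nil)⟩,
  ⟨r13o_74, r7o_27, r5o_8, (.st (nat_lit 17) (nat_lit 35) .nil)⟩,
  ⟨r13o_74, r7o_27, r5o_9, (.st (nat_lit 17) (nat_lit 35) .nil)⟩]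

/-- entries -/
def EA75 : List E3 := [⟨r13o_75, r7o_1, r5o_0, (.st (nat_lit 90) (nat_lit 182) (.st (nat_lit 91) (nat_lit 182) .nil))⟩,
  ⟨r13o_75, r7o_1, r5o_3, (.st (nat_lit 454) (nat_lit 910) (.st (nat_lit 455) (nat_lit 910) .nil))⟩,
  ⟨r13o_75, r7o_1, r5o_5, (.st (nat_lit 272) (nat_lit 546) (.st (nat_lit 273) (nat_lit 546) .nil))⟩,
  ⟨r13o_75, r7o_1, r5o_7, (.st (nat_lit 90) (nat_lit 182) (.st (nat_lit 91) (nat_lit 182) .nil))⟩,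
  ⟨r13o_75, r7o_1, r5o_9, (.st (nat_lit 454) (nat_lit 910) (.st (nat_lit 455) (nat_lit 910) .nil))⟩,
  ⟨r13o_75, r7o_2, r5o_1, (.st (nat_lit 181) (nat_lit 182) (.st (nat_lit 0) (nat_lit 182) .nil))⟩,
  ⟨r13o_75, r7o_2, r5o_3, (.st (nat_lit 909) (nat_lit 910) (.st (nat_lit 0) (nat_lit 910) .nil))⟩,
  ⟨r13o_75, r7o_2, r5o_5, (.st (nat_lit 545) (nat_lit 546) (.st (nat_lit 0) (nat_lit 546) .nil))⟩,
  ⟨r13o_75, r7o_2, r5o_7, (.st (nat_lit 181) (nat_lit 182) (.st (nat_lit 0) (nat_lit 182) .nil))⟩,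
  ⟨r13o_75, r7o_2, r5o_9, (.st (nat_lit 909) (nat_lit 910) (.st (nat_lit 0) (nat_lit 910) .nil))⟩,
  ⟨r13o_75, r7o_6, r5o_1, (.st (nat_lit 727) (nat_lit 728) (.st (nat_lit 0) (nat_lit 728) .nil))⟩,
  ⟨r13o_75, r7o_6, r5o_3, (.st (nat_lit 3639) (nat_lit 3640) (.st (nat_lit 0) (nat_lit 3640) .nil))⟩,
  ⟨r13o_75, r7o_6, r5o_5, (.st (nat_lit 2183) (nat_lit 2184) (.st (nat_lit 0) (nat_lit 2184) .nil))⟩,
  ⟨r13o_75, r7o_6, r5o_7, (.st (nat_lit 727) (nat_lit 728) (.st (nat_lit 0) (nat_lit 728) .nil))⟩,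
  ⟨r13o_75, r7o_6, r5o_9, (.st (nat_lit 3639) (nat_lit 3640) (.st (nat_lit 0) (nat_lit 3640) .nil))⟩,
  ⟨r13o_75, r7o_7, r5o_1, (.st (nat_lit 363) (nat_lit 728) (.st (nat_lit 364) (nat_lit 728) .nil))⟩,
  ⟨r13o_75, r7o_7, r5o_3, (.st (nat_lit 1819) (nat_lit 3640) (.st (nat_lit 1820) (nat_lit 3640) .nil))⟩,
  ⟨r13o_75, r7o_7, r5o_5, (.st (nat_lit 1091) (nat_lit 2184) (.st (nat_lit 1092) (nat_lit 2184) .nil))⟩,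
  ⟨r13o_75, r7o_7, r5o_7, (.st (nat_lit 363) (nat_lit 728) (.st (nat_lit 364) (nat_lit 728) .nil))⟩,
  ⟨r13o_75, r7o_7, r5o_9, (.st (nat_lit 1819) (nat_lit 3640) (.st (nat_lit 1820) (nat_lit 3640) .nil))⟩,
  ⟨r13o_75, r7o_8, r5o_0, (.st (nat_lit 272) (nat_lit 546) (.st (nat_lit 273) (nat_lit 546) .nil))⟩,
  ⟨r13o_75, r7o_8, r5o_3, (.st (nat_lit 1364) (nat_lit 2730) (.st (nat_lit 1365) (nat_lit 2730) .nil))⟩,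
  ⟨r13o_75, r7o_8, r5o_5, (.st (nat_lit 272) (nat_lit 546) (.st (nat_lit 273) (nat_lit 546) .nil))⟩,
  ⟨r13o_75, r7o_8, r5o_7, (.st (nat_lit 272) (nat_lit 546) (.st (nat_lit 273) (nat_lit 546) .nil))⟩,
  ⟨r13o_75, r7o_8, r5o_9, (.st (nat_lit 1364) (nat_lit 2730) (.st (nat_lit 1365) (nat_lit 2730) .nil))⟩,
  ⟨r13o_75, r7o_10, r5o_1, (.st (nat_lit 545) (nat_lit 546) (.st (nat_lit 0) (nat_lit 546) .nil))⟩,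
  ⟨r13o_75, r7o_10, r5o_3, (.st (nat_lit 2729) (nat_lit 2730) (.st (nat_lit 0) (nat_lit 2730) .nil))⟩,
  ⟨r13o_75, r7o_10, r5o_5, (.st (nat_lit 545) (nat_lit 546) (.st (nat_lit 0) (nat_lit 546) .nil))⟩,
  ⟨r13o_75, r7o_10, r5o_7, (.st (nat_lit 545) (nat_lit 546) (.st (nat_lit 0) (nat_lit 546) .nil))⟩,
  ⟨r13o_75, r7o_10, r5o_9, (.st (nat_lit 2729) (nat_lit 2730) (.st (nat_lit 0) (nat_lit 2730) .nil))⟩,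
  ⟨r13o_75, r7o_14, r5o_1, (.st (nat_lit 727) (nat_lit 728) (.st (nat_lit 0) (nat_lit 728) .nil))⟩,
  ⟨r13o_75, r7o_14, r5o_3, (.st (nat_lit 3639) (nat_lit 3640) (.st (nat_lit 0) (nat_lit 3640) .nil))⟩,
  ⟨r13o_75, r7o_14, r5o_5, (.st (nat_lit 2183) (nat_lit 2184) (.st (nat_lit 0) (nat_lit 2184) .nil))⟩,
  ⟨r13o_75, r7o_14, r5o_7, (.st (nat_lit 727) (nat_lit 728) (.st (nat_lit 0) (nat_lit 728) .nil))⟩,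
  ⟨r13o_75, r7o_14, r5o_9, (.st (nat_lit 3639) (nat_lit 3640) (.st (nat_lit 0) (nat_lit 3640) .nil))⟩,
  ⟨r13o_75, r7o_15, r5o_1, (.st (nat_lit 363) (nat_lit 728) (.st (nat_lit 364) (nat_lit 728) .nil))⟩,
  ⟨r13o_75, r7o_15, r5o_3, (.st (nat_lit 1819) (nat_lit 3640) (.st (nat_lit 1820) (nat_lit 3640) .nil))⟩,
  ⟨r13o_75, r7o_15, r5o_5, (.st (nat_lit 1091) (nat_lit 2184) (.st (nat_lit 1092) (nat_lit 2184) .nil))⟩,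
  ⟨r13o_75, r7o_15, r5o_7, (.st (nat_lit 363) (nat_lit 728) (.st (nat_lit 364) (nat_lit 728) .nil))⟩,
  ⟨r13o_75, r7o_15, r5o_9, (.st (nat_lit 1819) (nat_lit 3640) (.st (nat_lit 1820) (nat_lit 3640) .nil))⟩,
  ⟨r13o_75, r7o_18, r5o_0, (.st (nat_lit 90) (nat_lit 182) (.st (nat_lit 91) (nat_lit 182) .nil))⟩,
  ⟨r13o_75, r7o_18, r5o_1, (.st (nat_lit 181) (nat_lit 182) (.st (nat_lit 0) (nat_lit 182) .nil))⟩,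
  ⟨r13o_75, r7o_18, r5o_3, (.st (nat_lit 454) (nat_lit 455) (.st (nat_lit 0) (nat_lit 455) .nil))⟩,
  ⟨r13o_75, r7o_18, r5o_5, (.st (nat_lit 272) (nat_lit 273) (.st (nat_lit 0) (nat_lit 273) .nil))⟩,
  ⟨r13o_75, r7o_18, r5o_7, (.st (nat_lit 90) (nat_lit 91) (.st (nat_lit 0) (nat_lit 91) .nil))⟩,
  ⟨r13o_75, r7o_18, r5o_9, (.st (nat_lit 454) (nat_lit 455) (.st (nat_lit 0) (nat_lit 455) .nil))⟩,
  ⟨r13o_75, r7o_20, r5o_0, (.st (nat_lit 272) (nat_lit 546) (.st (nat_lit 273) (nat_lit 546) .nil))⟩,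
  ⟨r13o_75, r7o_20, r5o_3, (.st (nat_lit 1364) (nat_lit 2730) (.st (nat_lit 1365) (nat_lit 2730) .nil))⟩,
  ⟨r13o_75, r7o_20, r5o_5, (.st (nat_lit 272) (nat_lit 546) (.st (nat_lit 273) (nat_lit 546) .nil))⟩,
  ⟨r13o_75, r7o_20, r5o_7, (.st (nat_lit 272) (nat_lit 546) (.st (nat_lit 273) (nat_lit 546) .nil))⟩,
  ⟨r13o_75, r7o_20, r5o_9, (.st (nat_lit 1364) (nat_lit 2730) (.st (nat_lit 1365) (nat_lit 2730) .nil))⟩,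
  ⟨r13o_75, r7o_22, r5o_1, (.st (nat_lit 545) (nat_lit 546) (.st (nat_lit 0) (nat_lit 546) .nil))⟩,
  ⟨r13o_75, r7o_22, r5o_3, (.st (nat_lit 2729) (nat_lit 2730) (.st (nat_lit 0) (nat_lit 2730) .nil))⟩,
  ⟨r13o_75, r7o_22, r5o_5, (.st (nat_lit 545) (nat_lit 546) (.st (nat_lit 0) (nat_lit 546) .nil))⟩,
  ⟨r13o_75, r7o_22, r5o_7, (.st (nat_lit 545) (nat_lit 546) (.st (nat_lit 0) (nat_lit 546) .nil))⟩,
  ⟨r13o_75, r7o_22, r5o_9, (.st (nat_lit 2729) (nat_lit 2730) (.st (nat_lit 0) (nat_lit 2730) .nil))⟩,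
  ⟨r13o_75, r7o_26, r5o_1, (.st (nat_lit 727) (nat_lit 728) (.st (nat_lit 363) (nat_lit 728) (.st (nat_lit 364) (nat_lit 728) (.st (nat_lit 0) (nat_lit 728) .nil))))⟩,
  ⟨r13o_75, r7o_26, r5o_3, (.st (nat_lit 3639) (nat_lit 3640) (.st (nat_lit 1819) (nat_lit 3640) (.st (nat_lit 1820) (nat_lit 3640) (.st (nat_lit 0) (nat_lit 3640) .nil))))⟩,
  ⟨r13o_75, r7o_26, r5o_5, (.st (nat_lit 2183) (nat_lit 2184) (.st (nat_lit 1091) (nat_lit 2184) (.st (nat_lit 1092) (nat_lit 2184) (.st (nat_lit 0) (nat_lit 2184) .nil))))⟩,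
  ⟨r13o_75, r7o_26, r5o_7, (.st (nat_lit 727) (nat_lit 728) (.st (nat_lit 363) (nat_lit 728) (.st (nat_lit 364) (nat_lit 728) (.st (nat_lit 0) (nat_lit 728) .nil))))⟩,
  ⟨r13o_75, r7o_26, r5o_9, (.st (nat_lit 279) (nat_lit 280) (.st (nat_lit 139) (nat_lit 280) (.st (nat_lit 140) (nat_lit 280) (.st (nat_lit 0) (nat_lit 280) .nil))))⟩,
  ⟨r13o_75, r7o_27, r5o_8, (.st (nat_lit 17) (nat_lit 35) .nil)⟩,
  ⟨r13o_75, r7o_27, r5o_9, (.st (nat_lit 17) (nat_lit 35) .nil)⟩]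

/-- entries -/
def EA76 : List E3 := [⟨r13o_76, r7o_27, r5o_8, (.st (nat_lit 17) (nat_lit 35) .nil)⟩,
  ⟨r13o_76, r7o_27, r5o_9, (.st (nat_lit 17) (nat_lit 35) .nil)⟩]

/-- entries -/
def EA77 : List E3 := [⟨r13o_77, r7o_27, r5o_8, (.st (nat_lit 2) (nat_lit 5) .nil)⟩,
  ⟨r13o_77, r7o_27, r5o_9, (.st (nat_lit 2) (nat_lit 5) .nil)⟩]

/-- all entries -/
def LA : List (List E3) := [EA0, EA1, EA2, EA3, EA4, EA5, EA6, EA7, EA8, EA9, EA10, EA11, EA12, EA13, EA14, EA15, EA16, EA17, EA18, EA19, EA20, EA21, EA22, EA23, EA24, EA25, EA26, EA27, EA28, EA29, EA30, EA31, EA32, EA33, EA34, EA35, EA36, EA37, EA38, EA39, EA40, EA41, EA42, EA43, EA44, EA45, EA46, EA47, EA48, EA49, EA50, EA51, EA52, EA53, EA54, EA55, EA56, EA57, EA58, EA59, EA60, EA61, EA62, EA63, EA64, EA65, EA66, EA67, EA68, EA69, EA70, EA71, EA72, EA73,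 EA74, EA75, EA76, EA77]

end Pool.Agent.LibH4.CX
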