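import Pool.Agent.Lib_helper4.CX.StA
import Pool.Agent.Lib_helper4.CX.EA

/-!
Constant words, all letters at once: the first stage, odd parity.
-/

set_option maxRecDepth 100000

namespace Pool.Agent.LibH4.CX

theorem cha0 : stA r13o_0 EA0 = true := by decide +kernel

theorem cha1 : stA r13o_1 EA1 = true := by decide +kernel

theorem cha2 : stA r13o_2 EA2 = true := by decide +kernel

theorem cha3 : stA r13o_3 EA3 = true := by decide +kernel

theorem cha4 : stA r13o_4 EA4 = true := by decide +kernel

theorem cha5 : stA r13o_5 EA5 = true := by decide +kernel

theorem cha6 : stA r13o_6 EA6 = true := by decide +kernel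

theorem cha7 : stA r13o_7 EA7 = true := by decide +kernel

theorem cha8 : stA r13o_8 EA8 = true := by decide +kernel

theorem cha9 : stA r13o_9 EA9 = true := by decide +kernel

theorem cha10 : stA r13o_10 EA10 = true := by decide +kernel

theorem cha11 : stA r13o_11 EA11 = true := by decide +kernel

theorem cha12 : stA r13o_12 EA12 = true := by decide +kernel

end Pool.Agent.LibH4.CX
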