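import Pool.Agent.Lib_helper4.CX.StA
import Pool.Agent.Lib_helper4.CX.EA

/-!
Constant words, all letters at once: the first stage, odd parity.
-/

set_option maxRecDepth 100000

namespace Pool.Agent.LibH4.CX

theorem cha13 : stA r13o_13 EA13 = true := by decide +kernel

theorem cha14 : stA r13o_14 EA14 = true := by decide +kernel

theorem cha15 : stA r13o_15 EA15 = true := by decide +kernel

theorem cha16 : stA r13o_16 EA16 = true := by decide +kernel

theorem cha17 : stA r13o_17 EA17 = true := by decide +kernel

theorem cha18 : stA r13o_18 EA18 = true := by decide +kernel

theorem cha19 : stA r13o_19 EA19 = true := by decide +kernel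

theorem cha20 : stA r13o_20 EA20 = true := by decide +kernel

theorem cha21 : stA r13o_21 EA21 = true := by decide +kernel

theorem cha22 : stA r13o_22 EA22 = true := by decide +kernel

theorem cha23 : stA r13o_23 EA23 = true := by decide +kernel

theorem cha24 : stA r13o_24 EA24 = true := by decide +kernel

theorem cha25 : stA r13o_25 EA25 = true := by decide +kernel

end Pool.Agent.LibH4.CX
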