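import Pool.Agent.Lib_helper4.CX.StA
import Pool.Agent.Lib_helper4.CX.EA

/-!
Constant words, all letters at once: the first stage, odd parity.
-/

set_option maxRecDepth 100000

namespace Pool.Agent.LibH4.CX

theorem cha26 : stA r13o_26 EA26 = true := by decide +kernel

theorem cha27 : stA r13o_27 EA27 = true := by decide +kernel

theorem cha28 : stA r13o_28 EA28 = true := by decide +kernel

theorem cha29 : stA r13o_29 EA29 = true := by decide +kernel

theorem cha30 : stA r13o_30 EA30 = true := by decide +kernel

theorem cha31 : stA r13o_31 EA31 = true := by decide +kernel

theorem cha32 : stA r13o_32 EA32 = true := by decide +kernel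

theorem cha33 : stA r13o_33 EA33 = true := by decide +kernel

theorem cha34 : stA r13o_34 EA34 = true := by decide +kernel

theorem cha35 : stA r13o_35 EA35 = true := by decide +kernel

theorem cha36 : stA r13o_36 EA36 = true := by decide +kernel

theorem cha37 : stA r13o_37 EA37 = true := by decide +kernel

theorem cha38 : stA r13o_38 EA38 = true := by decide +kernel

end Pool.Agent.LibH4.CX
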