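import Pool.Agent.Lib_helper4.CX.StA
import Pool.Agent.Lib_helper4.CX.EA

/-!
Constant words, all letters at once: the first stage, odd parity.
-/

set_option maxRecDepth 100000

namespace Pool.Agent.LibH4.CX

theorem cha39 : stA r13o_39 EA39 = true := by decide +kernel

theorem cha40 : stA r13o_40 EA40 = true := by decide +kernel

theorem cha41 : stA r13o_41 EA41 = true := by decide +kernel

theorem cha42 : stA r13o_42 EA42 = true := by decide +kernel

theorem cha43 : stA r13o_43 EA43 = true := by decide +kernel

theorem cha44 : stA r13o_44 EA44 = true := by decide +kernel

theorem cha45 : stA r13o_45 EA45 = true := by decide +kernel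

theorem cha46 : stA r13o_46 EA46 = true := by decide +kernel

theorem cha47 : stA r13o_47 EA47 = true := by decide +kernel

theorem cha48 : stA r13o_48 EA48 = true := by decide +kernel

theorem cha49 : stA r13o_49 EA49 = true := by decide +kernel

theorem cha50 : stA r13o_50 EA50 = true := by decide +kernel

theorem cha51 : stA r13o_51 EA51 = true := by decide +kernel

end Pool.Agent.LibH4.CX
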