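import Pool.Agent.Lib_helper4.CX.StA
import Pool.Agent.Lib_helper4.CX.EA

/-!
Constant words, all letters at once: the first stage, odd parity.
-/

set_option maxRecDepth 100000

namespace Pool.Agent.LibH4.CX

theorem cha52 : stA r13o_52 EA52 = true := by decide +kernel

theorem cha53 : stA r13o_53 EA53 = true := by decide +kernel

theorem cha54 : stA r13o_54 EA54 = true := by decide +kernel

theorem cha55 : stA r13o_55 EA55 = true := by decide +kernel

theorem cha56 : stA r13o_56 EA56 = true := by decide +kernel

theorem cha57 : stA r13o_57 EA57 = true := by decide +kernel

theorem cha58 : stA r13o_58 EA58 = true := by decide +kernel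

theorem cha59 : stA r13o_59 EA59 = true := by decide +kernel

theorem cha60 : stA r13o_60 EA60 = true := by decide +kernel

theorem cha61 : stA r13o_61 EA61 = true := by decide +kernel

theorem cha62 : stA r13o_62 EA62 = true := by decide +kernel

theorem cha63 : stA r13o_63 EA63 = true := by decide +kernel

theorem cha64 : stA r13o_64 EA64 = true := by decide +kernel

end Pool.Agent.LibH4.CX
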