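import Pool.Agent.Lib_helper4.CX.StA
import Pool.Agent.Lib_helper4.CX.EA

/-!
Constant words, all letters at once: the first stage, odd parity.
-/

set_option maxRecDepth 100000

namespace Pool.Agent.LibH4.CX

theorem cha65 : stA r13o_65 EA65 = true := by decide +kernel

theorem cha66 : stA r13o_66 EA66 = true := by decide +kernel

theorem cha67 : stA r13o_67 EA67 = true := by decide +kernel

theorem cha68 : stA r13o_68 EA68 = true := by decide +kernel

theorem cha69 : stA r13o_69 EA69 = true := by decide +kernel

theorem cha70 : stA r13o_70 EA70 = true := by decide +kernel

theorem cha71 : stA r13o_71 EA71 = true := by decide +kernel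

theorem cha72 : stA r13o_72 EA72 = true := by decide +kernel

theorem cha73 : stA r13o_73 EA73 = true := by decide +kernel

theorem cha74 : stA r13o_74 EA74 = true := by decide +kernel

theorem cha75 : stA r13o_75 EA75 = true := by decide +kernel

theorem cha76 : stA r13o_76 EA76 = true := by decide +kernel

theorem cha77 : stA r13o_77 EA77 = true := by decide +kernel

end Pool.Agent.LibH4.CX
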