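import Pool.Agent.Lib_helper4.CX.Bas
import Pool.Agent.Lib_helper4.CX.RecO

/-!
Constant words, all letters at once: results of the second stage, odd parity.
-/

namespace Pool.Agent.LibH4.CX

/-- entries -/
def EB0 : List E7 := []

/-- entries -/
def EB1 : List E7 := []

/-- entries -/
def EB2 : List E7 := []

/-- entries -/
def EB3 : List E7 := []

/-- entries -/
def EB4 : List E7 := []

/-- entries -/
def EB5 : List E7 := []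

/-- entries -/
def EB6 : List E7 := []

/-- entries -/
def EB7 : List E7 := []

/-- entries -/
def EB8 : List E7 := [⟨r17o_8, r13o_6, r7o_4, r5o_2, r8o_4, r4o_2, r11o_19, (.st (nat_lit 3272) (nat_lit 6545) .nil)⟩,
  ⟨r17o_8, r13o_6, r7o_4, r5o_2, r8o_6, r4o_2, r11o_19, (.st (nat_lit 9817) (nat_lit 19635) .nil)⟩,
  ⟨r17o_8, r13o_6, r7o_4, r5o_3, r8o_4, r4o_2, r11o_19, (.st (nat_lit 3272) (nat_lit 6545) .nil)⟩,
  ⟨r17o_8, r13o_6, r7o_4, r5o_3, r8o_6, r4o_2, r11o_19, (.st (nat_lit 9817) (nat_lit 19635) .nil)⟩,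
  ⟨r17o_8, r13o_7, r7o_4, r5o_2, r8o_4, r4o_2, r11o_19, (.st (nat_lit 22907) (nat_lit 45815) .nil)⟩,
  ⟨r17o_8, r13o_7, r7o_4, r5o_2, r8o_6, r4o_2, r11o_19, (.st (nat_lit 68722) (nat_lit 137445) .nil)⟩,
  ⟨r17o_8, r13o_7, r7o_4, r5o_3, r8o_4, r4o_2, r11o_19, (.st (nat_lit 22907) (nat_lit 45815) .nil)⟩,
  ⟨r17o_8, r13o_7, r7o_4, r5o_3, r8o_6, r4o_2, r11o_19, (.st (nat_lit 68722) (nat_lit 137445) .nil)⟩,
  ⟨r17o_8, r13o_8, r7o_4, r5o_2, r8o_4, r4o_2, r11o_19, (.st (nat_lit 22907) (nat_lit 45815) .nil)⟩,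
  ⟨r17o_8, r13o_8, r7o_4, r5o_2, r8o_6, r4o_2, r11o_19, (.st (nat_lit 68722) (nat_lit 137445) .nil)⟩,
  ⟨r17o_8, r13o_8, r7o_4, r5o_3, r8o_4, r4o_2, r11o_19, (.st (nat_lit 22907) (nat_lit 45815) .nil)⟩,
  ⟨r17o_8, r13o_8, r7o_4, r5o_3, r8o_6, r4o_2, r11o_19, (.st (nat_lit 68722) (nat_lit 137445) .nil)⟩,
  ⟨r17o_8, r13o_9, r7o_4, r5o_2, r8o_4, r4o_2, r11o_19, (.st (nat_lit 22907) (nat_lit 45815) .nil)⟩,
  ⟨r17o_8, r13o_9, r7o_4, r5o_2, r8o_6, r4o_2, r11o_19, (.st (nat_lit 68722) (nat_lit 137445) .nil)⟩,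
  ⟨r17o_8, r13o_9, r7o_4, r5o_3, r8o_4, r4o_2, r11o_19, (.st (nat_lit 22907) (nat_lit 45815) .nil)⟩,
  ⟨r17o_8, r13o_9, r7o_4, r5o_3, r8o_6, r4o_2, r11o_19, (.st (nat_lit 68722) (nat_lit 137445) .nil)⟩,
  ⟨r17o_8, r13o_10, r7o_4, r5o_2, r8o_4, r4o_2, r11o_19, (.st (nat_lit 22907) (nat_lit 45815) .nil)⟩,
  ⟨r17o_8, r13o_10, r7o_4, r5o_2, r8o_6, r4o_2, r11o_19, (.st (nat_lit 68722) (nat_lit 137445) .nil)⟩,
  ⟨r17o_8, r13o_10, r7o_4, r5o_3, r8o_4, r4o_2, r11o_19, (.st (nat_lit 22907) (nat_lit 45815) .nil)⟩,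
  ⟨r17o_8, r13o_10, r7o_4, r5o_3, r8o_6, r4o_2, r11o_19, (.st (nat_lit 68722) (nat_lit 137445) .nil)⟩,
  ⟨r17o_8, r13o_11, r7o_4, r5o_2, r8o_4, r4o_2, r11o_19, (.st (nat_lit 22907) (nat_lit 45815) .nil)⟩,
  ⟨r17o_8, r13o_11, r7o_4, r5o_2, r8o_6, r4o_2, r11o_19, (.st (nat_lit 68722) (nat_lit 137445) .nil)⟩,
  ⟨r17o_8, r13o_11, r7o_4, r5o_3, r8o_4, r4o_2, r11o_19, (.st (nat_lit 22907) (nat_lit 45815) .nil)⟩,
  ⟨r17o_8, r13o_11, r7o_4, r5o_3, r8o_6, r4o_2, r11o_19, (.st (nat_lit 68722) (nat_lit 137445) .nil)⟩]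

/-- entries -/
def EB9 : List E7 := []

/-- entries -/
def EB10 : List E7 := [⟨r17o_10, r13o_6, r7o_4, r5o_2, r8o_4, r4o_2, r11o_19, (.st (nat_lit 29452) (nat_lit 58905) .nil)⟩,
  ⟨r17o_10, r13o_6, r7o_4, r5o_3, r8o_4, r4o_2, r11o_19, (.st (nat_lit 29452) (nat_lit 58905) .nil)⟩,
  ⟨r17o_10, r13o_7, r7o_4, r5o_2, r8o_4, r4o_2, r11o_19, (.st (nat_lit 206167) (nat_lit 412335) .nil)⟩,
  ⟨r17o_10, r13o_7, r7o_4, r5o_3, r8o_4, r4o_2, r11o_19, (.st (nat_lit 206167) (nat_lit 412335) .nil)⟩,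
  ⟨r17o_10, r13o_8, r7o_4, r5o_2, r8o_4, r4o_2, r11o_19, (.st (nat_lit 206167) (nat_lit 412335) .nil)⟩,
  ⟨r17o_10, r13o_8, r7o_4, r5o_3, r8o_4, r4o_2, r11o_19, (.st (nat_lit 206167) (nat_lit 412335) .nil)⟩,
  ⟨r17o_10, r13o_9, r7o_4, r5o_2, r8o_4, r4o_2, r11o_19, (.st (nat_lit 206167) (nat_lit 412335) .nil)⟩,
  ⟨r17o_10, r13o_9, r7o_4, r5o_3, r8o_4, r4o_2, r11o_19, (.st (nat_lit 206167) (nat_lit 412335) .nil)⟩,
  ⟨r17o_10, r13o_10, r7o_4, r5o_2, r8o_4, r4o_2, r11o_19, (.st (nat_lit 206167) (nat_lit 412335) .nil)⟩,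
  ⟨r17o_10, r13o_10, r7o_4, r5o_3, r8o_4, r4o_2, r11o_19, (.st (nat_lit 206167) (nat_lit 412335) .nil)⟩,
  ⟨r17o_10, r13o_11, r7o_4, r5o_2, r8o_4, r4o_2, r11o_19, (.st (nat_lit 206167) (nat_lit 412335) .nil)⟩,
  ⟨r17o_10, r13o_11, r7o_4, r5o_3, r8o_4, r4o_2, r11o_19, (.st (nat_lit 206167) (nat_lit 412335) .nil)⟩]

/-- entries -/
def EB11 : List E7 := [⟨r17o_11, r13o_6, r7o_4, r5o_2, r8o_4, r4o_2, r11o_19, (.st (nat_lit 29452) (nat_lit 58905) .nil)⟩,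
  ⟨r17o_11, r13o_6, r7o_4, r5o_3, r8o_4, r4o_2, r11o_19, (.st (nat_lit 29452) (nat_lit 58905) .nil)⟩,
  ⟨r17o_11, r13o_7, r7o_4, r5o_2, r8o_4, r4o_2, r11o_19, (.st (nat_lit 206167) (nat_lit 412335) .nil)⟩,
  ⟨r17o_11, r13o_7, r7o_4, r5o_3, r8o_4, r4o_2, r11o_19, (.st (nat_lit 206167) (nat_lit 412335) .nil)⟩,
  ⟨r17o_11, r13o_8, r7o_4, r5o_2, r8o_4, r4o_2, r11o_19, (.st (nat_lit 206167) (nat_lit 412335) .nil)⟩,
  ⟨r17o_11, r13o_8, r7o_4, r5o_3, r8o_4, r4o_2, r11o_19, (.st (nat_lit 206167) (nat_lit 412335) .nil)⟩,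
  ⟨r17o_11, r13o_9, r7o_4, r5o_2, r8o_4, r4o_2, r11o_19, (.st (nat_lit 206167) (nat_lit 412335) .nil)⟩,
  ⟨r17o_11, r13o_9, r7o_4, r5o_3, r8o_4, r4o_2, r11o_19, (.st (nat_lit 206167) (nat_lit 412335) .nil)⟩,
  ⟨r17o_11, r13o_10, r7o_4, r5o_2, r8o_4, r4o_2, r11o_19, (.st (nat_lit 206167) (nat_lit 412335) .nil)⟩,
  ⟨r17o_11, r13o_10, r7o_4, r5o_3, r8o_4, r4o_2, r11o_19, (.st (nat_lit 206167) (nat_lit 412335) .nil)⟩,
  ⟨r17o_11, r13o_10, r7o_6, r5o_3, r8o_6, r4o_2, r11o_10, (.st (nat_lit 81903) (nat_lit 163800) (.st (nat_lit 81896) (nat_lit 163800) .nil))⟩,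
  ⟨r17o_11, r13o_10, r7o_7, r5o_3, r8o_6, r4o_2, r11o_10, (.st (nat_lit 163796) (nat_lit 163800) (.st (nat_lit 3) (nat_lit 163800) .nil))⟩,
  ⟨r17o_11, r13o_11, r7o_4, r5o_2, r8o_4, r4o_2, r11o_19, (.st (nat_lit 206167) (nat_lit 412335) .nil)⟩,
  ⟨r17o_11, r13o_11, r7o_4, r5o_3, r8o_4, r4o_2, r11o_19, (.st (nat_lit 206167) (nat_lit 412335) .nil)⟩]

/-- entries -/
def EB12 : List E7 := []

/-- entries -/
def EB13 : List E7 := []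

/-- entries -/
def EB14 : List E7 := [⟨r17o_14, r13o_6, r7o_4, r5o_2, r8o_4, r4o_2, r11o_19, (.st (nat_lit 29452) (nat_lit 58905) .nil)⟩,
  ⟨r17o_14, r13o_6, r7o_4, r5o_2, r8o_6, r4o_2, r11o_19, (.st (nat_lit 29452) (nat_lit 58905) .nil)⟩,
  ⟨r17o_14, r13o_6, r7o_4, r5o_3, r8o_4, r4o_2, r11o_19, (.st (nat_lit 29452) (nat_lit 58905) .nil)⟩,
  ⟨r17o_14, r13o_6, r7o_4, r5o_3, r8o_6, r4o_2, r11o_19, (.st (nat_lit 29452) (nat_lit 58905) .nil)⟩,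
  ⟨r17o_14, r13o_7, r7o_4, r5o_2, r8o_4, r4o_2, r11o_19, (.st (nat_lit 206167) (nat_lit 412335) .nil)⟩,
  ⟨r17o_14, r13o_7, r7o_4, r5o_2, r8o_6, r4o_2, r11o_19, (.st (nat_lit 206167) (nat_lit 412335) .nil)⟩,
  ⟨r17o_14, r13o_7, r7o_4, r5o_3, r8o_4, r4o_2, r11o_19, (.st (nat_lit 206167) (nat_lit 412335) .nil)⟩,
  ⟨r17o_14, r13o_7, r7o_4, r5o_3, r8o_6, r4o_2, r11o_19, (.st (nat_lit 206167) (nat_lit 412335) .nil)⟩,
  ⟨r17o_14, r13o_8, r7o_4, r5o_2, r8o_4, r4o_2, r11o_19, (.st (nat_lit 206167) (nat_lit 412335) .nil)⟩,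
  ⟨r17o_14, r13o_8, r7o_4, r5o_2, r8o_6, r4o_2, r11o_19, (.st (nat_lit 206167) (nat_lit 412335) .nil)⟩,
  ⟨r17o_14, r13o_8, r7o_4, r5o_3, r8o_4, r4o_2, r11o_19, (.st (nat_lit 206167) (nat_lit 412335) .nil)⟩,
  ⟨r17o_14, r13o_8, r7o_4, r5o_3, r8o_6, r4o_2, r11o_19, (.st (nat_lit 206167) (nat_lit 412335) .nil)⟩,
  ⟨r17o_14, r13o_9, r7o_4, r5o_2, r8o_4, r4o_2, r11o_19, (.st (nat_lit 206167) (nat_lit 412335) .nil)⟩,
  ⟨r17o_14, r13o_9, r7o_4, r5o_2, r8o_6, r4o_2, r11o_19, (.st (nat_lit 206167) (nat_lit 412335) .nil)⟩,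
  ⟨r17o_14, r13o_9, r7o_4, r5o_3, r8o_4, r4o_2, r11o_19, (.st (nat_lit 206167) (nat_lit 412335) .nil)⟩,
  ⟨r17o_14, r13o_9, r7o_4, r5o_3, r8o_6, r4o_2, r11o_19, (.st (nat_lit 206167) (nat_lit 412335) .nil)⟩,
  ⟨r17o_14, r13o_10, r7o_4, r5o_2, r8o_4, r4o_2, r11o_19, (.st (nat_lit 206167) (nat_lit 412335) .nil)⟩,
  ⟨r17o_14, r13o_10, r7o_4, r5o_2, r8o_6, r4o_2, r11o_19, (.st (nat_lit 206167) (nat_lit 412335) .nil)⟩,
  ⟨r17o_14, r13o_10, r7o_4, r5o_3, r8o_4, r4o_2, r11o_19, (.st (nat_lit 206167) (nat_lit 412335) .nil)⟩,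
  ⟨r17o_14, r13o_10, r7o_4, r5o_3, r8o_6, r4o_2, r11o_19, (.st (nat_lit 206167) (nat_lit 412335) .nil)⟩,
  ⟨r17o_14, r13o_11, r7o_4, r5o_2, r8o_4, r4o_2, r11o_19, (.st (nat_lit 206167) (nat_lit 412335) .nil)⟩,
  ⟨r17o_14, r13o_11, r7o_4, r5o_2, r8o_6, r4o_2, r11o_19, (.st (nat_lit 206167) (nat_lit 412335) .nil)⟩,
  ⟨r17o_14, r13o_11, r7o_4, r5o_3, r8o_4, r4o_2, r11o_19, (.st (nat_lit 206167) (nat_lit 412335) .nil)⟩,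
  ⟨r17o_14, r13o_11, r7o_4, r5o_3, r8o_6, r4o_2, r11o_19, (.st (nat_lit 206167) (nat_lit 412335) .nil)⟩]

/-- entries -/
def EB15 : List E7 := []

/-- entries -/
def EB16 : List E7 := []

/-- entries -/
def EB17 : List E7 := []

/-- entries -/
def EB18 : List E7 := []

/-- entries -/
def EB19 : List E7 := []

/-- entries -/
def EB20 : List E7 := []

/-- entries -/
def EB21 : List E7 := []

/-- entries -/
def EB22 : List E7 := []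

/-- entries -/
def EB23 : List E7 := []

/-- entries -/
def EB24 : List E7 := []

/-- entries -/
def EB25 : List E7 := []

/-- entries -/
def EB26 : List E7 := []

/-- entries -/
def EB27 : List E7 := []

/-- entries -/
def EB28 : List E7 := []

/-- entries -/
def EB29 : List E7 := []

/-- entries -/
def EB30 : List E7 := []

/-- entries -/
def EB31 : List E7 := []

/-- entries -/
def EB32 : List E7 := []

/-- entries -/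
def EB33 : List E7 := []

/-- entries -/
def EB34 : List E7 := []

/-- entries -/
def EB35 : List E7 := []

/-- entries -/
def EB36 : List E7 := []

/-- entries -/
def EB37 : List E7 := []

/-- entries -/
def EB38 : List E7 := []

/-- entries -/
def EB39 : List E7 := []

/-- entries -/
def EB40 : List E7 := []

/-- entries -/
def EB41 : List E7 := []

/-- entries -/
def EB42 : List E7 := []

/-- entries -/
def EB43 : List E7 := []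

/-- entries -/
def EB44 : List E7 := []

/-- entries -/
def EB45 : List E7 := []

/-- entries -/
def EB46 : List E7 := []

/-- entries -/
def EB47 : List E7 := []

/-- entries -/
def EB48 : List E7 := [⟨r17o_48, r13o_12, r7o_13, r5o_8, r8o_22, r4o_2, r11o_12, (.st (nat_lit 1732) (nat_lit 3465) .nil)⟩,
  ⟨r17o_48, r13o_12, r7o_13, r5o_9, r8o_20, r4o_2, r11o_12, (.st (nat_lit 1732) (nat_lit 3465) .nil)⟩,
  ⟨r17o_48, r13o_12, r7o_13, r5o_9, r8o_22, r4o_2, r11o_12, (.st (nat_lit 1732) (nat_lit 3465) .nil)⟩,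
  ⟨r17o_48, r13o_13, r7o_13, r5o_8, r8o_22, r4o_2, r11o_12, (.st (nat_lit 1732) (nat_lit 3465) .nil)⟩,
  ⟨r17o_48, r13o_13, r7o_13, r5o_9, r8o_20, r4o_2, r11o_12, (.st (nat_lit 1732) (nat_lit 3465) .nil)⟩,
  ⟨r17o_48, r13o_13, r7o_13, r5o_9, r8o_22, r4o_2, r11o_12, (.st (nat_lit 1732) (nat_lit 3465) .nil)⟩,
  ⟨r17o_48, r13o_14, r7o_13, r5o_8, r8o_22, r4o_2, r11o_12, (.st (nat_lit 12127) (nat_lit 24255) .nil)⟩,
  ⟨r17o_48, r13o_14, r7o_13, r5o_9, r8o_20, r4o_2, r11o_12, (.st (nat_lit 12127) (nat_lit 24255) .nil)⟩,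
  ⟨r17o_48, r13o_14, r7o_13, r5o_9, r8o_22, r4o_2, r11o_12, (.st (nat_lit 12127) (nat_lit 24255) .nil)⟩,
  ⟨r17o_48, r13o_15, r7o_13, r5o_8, r8o_22, r4o_2, r11o_12, (.st (nat_lit 12127) (nat_lit 24255) .nil)⟩,
  ⟨r17o_48, r13o_15, r7o_13, r5o_9, r8o_20, r4o_2, r11o_12, (.st (nat_lit 12127) (nat_lit 24255) .nil)⟩,
  ⟨r17o_48, r13o_15, r7o_13, r5o_9, r8o_22, r4o_2, r11o_12, (.st (nat_lit 12127) (nat_lit 24255) .nil)⟩,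
  ⟨r17o_48, r13o_16, r7o_13, r5o_8, r8o_22, r4o_2, r11o_12, (.st (nat_lit 12127) (nat_lit 24255) .nil)⟩,
  ⟨r17o_48, r13o_16, r7o_13, r5o_9, r8o_20, r4o_2, r11o_12, (.st (nat_lit 12127) (nat_lit 24255) .nil)⟩,
  ⟨r17o_48, r13o_16, r7o_13, r5o_9, r8o_22, r4o_2, r11o_12, (.st (nat_lit 12127) (nat_lit 24255) .nil)⟩,
  ⟨r17o_48, r13o_17, r7o_13, r5o_8, r8o_22, r4o_2, r11o_12, (.st (nat_lit 12127) (nat_lit 24255) .nil)⟩,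
  ⟨r17o_48, r13o_17, r7o_13, r5o_9, r8o_20, r4o_2, r11o_12, (.st (nat_lit 12127) (nat_lit 24255) .nil)⟩,
  ⟨r17o_48, r13o_17, r7o_13, r5o_9, r8o_22, r4o_2, r11o_12, (.st (nat_lit 12127) (nat_lit 24255) .nil)⟩]

/-- entries -/
def EB49 : List E7 := []

/-- entries -/
def EB50 : List E7 := [⟨r17o_50, r13o_12, r7o_13, r5o_8, r8o_20, r4o_2, r11o_12, (.st (nat_lit 1732) (nat_lit 3465) .nil)⟩,
  ⟨r17o_50, r13o_12, r7o_13, r5o_8, r8o_22, r4o_2, r11o_12, (.st (nat_lit 1732) (nat_lit 3465) .nil)⟩,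
  ⟨r17o_50, r13o_12, r7o_13, r5o_9, r8o_20, r4o_2, r11o_12, (.st (nat_lit 1732) (nat_lit 3465) .nil)⟩,
  ⟨r17o_50, r13o_12, r7o_13, r5o_9, r8o_22, r4o_2, r11o_12, (.st (nat_lit 1732) (nat_lit 3465) .nil)⟩,
  ⟨r17o_50, r13o_13, r7o_13, r5o_8, r8o_20, r4o_2, r11o_12, (.st (nat_lit 1732) (nat_lit 3465) .nil)⟩,
  ⟨r17o_50, r13o_13, r7o_13, r5o_8, r8o_22, r4o_2, r11o_12, (.st (nat_lit 1732) (nat_lit 3465) .nil)⟩,
  ⟨r17o_50, r13o_13, r7o_13, r5o_9, r8o_20, r4o_2, r11o_12, (.st (nat_lit 1732) (nat_lit 3465) .nil)⟩,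
  ⟨r17o_50, r13o_13, r7o_13, r5o_9, r8o_22, r4o_2, r11o_12, (.st (nat_lit 1732) (nat_lit 3465) .nil)⟩,
  ⟨r17o_50, r13o_14, r7o_13, r5o_8, r8o_20, r4o_2, r11o_12, (.st (nat_lit 12127) (nat_lit 24255) .nil)⟩,
  ⟨r17o_50, r13o_14, r7o_13, r5o_8, r8o_22, r4o_2, r11o_12, (.st (nat_lit 12127) (nat_lit 24255) .nil)⟩,
  ⟨r17o_50, r13o_14, r7o_13, r5o_9, r8o_20, r4o_2, r11o_12, (.st (nat_lit 12127) (nat_lit 24255) .nil)⟩,
  ⟨r17o_50, r13o_14, r7o_13, r5o_9, r8o_22, r4o_2, r11o_12, (.st (nat_lit 12127) (nat_lit 24255) .nil)⟩,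
  ⟨r17o_50, r13o_15, r7o_13, r5o_8, r8o_20, r4o_2, r11o_12, (.st (nat_lit 12127) (nat_lit 24255) .nil)⟩,
  ⟨r17o_50, r13o_15, r7o_13, r5o_8, r8o_22, r4o_2, r11o_12, (.st (nat_lit 12127) (nat_lit 24255) .nil)⟩,
  ⟨r17o_50, r13o_15, r7o_13, r5o_9, r8o_20, r4o_2, r11o_12, (.st (nat_lit 12127) (nat_lit 24255) .nil)⟩,
  ⟨r17o_50, r13o_15, r7o_13, r5o_9, r8o_22, r4o_2, r11o_12, (.st (nat_lit 12127) (nat_lit 24255) .nil)⟩,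
  ⟨r17o_50, r13o_16, r7o_13, r5o_8, r8o_20, r4o_2, r11o_12, (.st (nat_lit 12127) (nat_lit 24255) .nil)⟩,
  ⟨r17o_50, r13o_16, r7o_13, r5o_8, r8o_22, r4o_2, r11o_12, (.st (nat_lit 12127) (nat_lit 24255) .nil)⟩,
  ⟨r17o_50, r13o_16, r7o_13, r5o_9, r8o_20, r4o_2, r11o_12, (.st (nat_lit 12127) (nat_lit 24255) .nil)⟩,
  ⟨r17o_50, r13o_16, r7o_13, r5o_9, r8o_22, r4o_2, r11o_12, (.st (nat_lit 12127) (nat_lit 24255) .nil)⟩,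
  ⟨r17o_50, r13o_17, r7o_13, r5o_8, r8o_20, r4o_2, r11o_12, (.st (nat_lit 12127) (nat_lit 24255) .nil)⟩,
  ⟨r17o_50, r13o_17, r7o_13, r5o_8, r8o_22, r4o_2, r11o_12, (.st (nat_lit 12127) (nat_lit 24255) .nil)⟩,
  ⟨r17o_50, r13o_17, r7o_13, r5o_9, r8o_20, r4o_2, r11o_12, (.st (nat_lit 12127) (nat_lit 24255) .nil)⟩,
  ⟨r17o_50, r13o_17, r7o_13, r5o_9, r8o_22, r4o_2, r11o_12, (.st (nat_lit 12127) (nat_lit 24255) .nil)⟩]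

/-- entries -/
def EB51 : List E7 := [⟨r17o_51, r13o_12, r7o_13, r5o_8, r8o_20, r4o_2, r11o_12, (.st (nat_lit 577) (nat_lit 1155) .nil)⟩,
  ⟨r17o_51, r13o_12, r7o_13, r5o_8, r8o_22, r4o_2, r11o_12, (.st (nat_lit 192) (nat_lit 385) .nil)⟩,
  ⟨r17o_51, r13o_12, r7o_13, r5o_9, r8o_20, r4o_2, r11o_12, (.st (nat_lit 577) (nat_lit 1155) .nil)⟩,
  ⟨r17o_51, r13o_12, r7o_13, r5o_9, r8o_22, r4o_2, r11o_12, (.st (nat_lit 192) (nat_lit 385) .nil)⟩,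
  ⟨r17o_51, r13o_13, r7o_13, r5o_8, r8o_20, r4o_2, r11o_12, (.st (nat_lit 577) (nat_lit 1155) .nil)⟩,
  ⟨r17o_51, r13o_13, r7o_13, r5o_8, r8o_22, r4o_2, r11o_12, (.st (nat_lit 192) (nat_lit 385) .nil)⟩,
  ⟨r17o_51, r13o_13, r7o_13, r5o_9, r8o_20, r4o_2, r11o_12, (.st (nat_lit 577) (nat_lit 1155) .nil)⟩,
  ⟨r17o_51, r13o_13, r7o_13, r5o_9, r8o_22, r4o_2, r11o_12, (.st (nat_lit 192) (nat_lit 385) .nil)⟩,
  ⟨r17o_51, r13o_14, r7o_13, r5o_8, r8o_20, r4o_2, r11o_12, (.st (nat_lit 4042) (nat_lit 8085) .nil)⟩,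
  ⟨r17o_51, r13o_14, r7o_13, r5o_8, r8o_22, r4o_2, r11o_12, (.st (nat_lit 1347) (nat_lit 2695) .nil)⟩,
  ⟨r17o_51, r13o_14, r7o_13, r5o_9, r8o_20, r4o_2, r11o_12, (.st (nat_lit 4042) (nat_lit 8085) .nil)⟩,
  ⟨r17o_51, r13o_14, r7o_13, r5o_9, r8o_22, r4o_2, r11o_12, (.st (nat_lit 1347) (nat_lit 2695) .nil)⟩,
  ⟨r17o_51, r13o_15, r7o_13, r5o_8, r8o_20, r4o_2, r11o_12, (.st (nat_lit 4042) (nat_lit 8085) .nil)⟩,
  ⟨r17o_51, r13o_15, r7o_13, r5o_8, r8o_22, r4o_2, r11o_12, (.st (nat_lit 1347) (nat_lit 2695) .nil)⟩,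
  ⟨r17o_51, r13o_15, r7o_13, r5o_9, r8o_20, r4o_2, r11o_12, (.st (nat_lit 4042) (nat_lit 8085) .nil)⟩,
  ⟨r17o_51, r13o_15, r7o_13, r5o_9, r8o_22, r4o_2, r11o_12, (.st (nat_lit 1347) (nat_lit 2695) .nil)⟩,
  ⟨r17o_51, r13o_16, r7o_13, r5o_8, r8o_20, r4o_2, r11o_12, (.st (nat_lit 4042) (nat_lit 8085) .nil)⟩,
  ⟨r17o_51, r13o_16, r7o_13, r5o_8, r8o_22, r4o_2, r11o_12, (.st (nat_lit 1347) (nat_lit 2695) .nil)⟩,
  ⟨r17o_51, r13o_16, r7o_13, r5o_9, r8o_20, r4o_2, r11o_12, (.st (nat_lit 4042) (nat_lit 8085) .nil)⟩,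
  ⟨r17o_51, r13o_16, r7o_13, r5o_9, r8o_22, r4o_2, r11o_12, (.st (nat_lit 1347) (nat_lit 2695) .nil)⟩,
  ⟨r17o_51, r13o_17, r7o_13, r5o_8, r8o_20, r4o_2, r11o_12, (.st (nat_lit 4042) (nat_lit 8085) .nil)⟩,
  ⟨r17o_51, r13o_17, r7o_13, r5o_8, r8o_22, r4o_2, r11o_12, (.st (nat_lit 1347) (nat_lit 2695) .nil)⟩,
  ⟨r17o_51, r13o_17, r7o_13, r5o_9, r8o_20, r4o_2, r11o_12, (.st (nat_lit 4042) (nat_lit 8085) .nil)⟩,
  ⟨r17o_51, r13o_17, r7o_13, r5o_9, r8o_22, r4o_2, r11o_12, (.st (nat_lit 1347) (nat_lit 2695) .nil)⟩]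

/-- entries -/
def EB52 : List E7 := []

/-- entries -/
def EB53 : List E7 := []

/-- entries -/
def EB54 : List E7 := [⟨r17o_54, r13o_12, r7o_13, r5o_8, r8o_22, r4o_2, r11o_12, (.st (nat_lit 1732) (nat_lit 3465) .nil)⟩,
  ⟨r17o_54, r13o_12, r7o_13, r5o_9, r8o_22, r4o_2, r11o_12, (.st (nat_lit 1732) (nat_lit 3465) .nil)⟩,
  ⟨r17o_54, r13o_13, r7o_13, r5o_8, r8o_22, r4o_2, r11o_12, (.st (nat_lit 1732) (nat_lit 3465) .nil)⟩,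
  ⟨r17o_54, r13o_13, r7o_13, r5o_9, r8o_22, r4o_2, r11o_12, (.st (nat_lit 1732) (nat_lit 3465) .nil)⟩,
  ⟨r17o_54, r13o_14, r7o_13, r5o_8, r8o_22, r4o_2, r11o_12, (.st (nat_lit 12127) (nat_lit 24255) .nil)⟩,
  ⟨r17o_54, r13o_14, r7o_13, r5o_9, r8o_22, r4o_2, r11o_12, (.st (nat_lit 12127) (nat_lit 24255) .nil)⟩,
  ⟨r17o_54, r13o_15, r7o_13, r5o_8, r8o_22, r4o_2, r11o_12, (.st (nat_lit 12127) (nat_lit 24255) .nil)⟩,
  ⟨r17o_54, r13o_15, r7o_13, r5o_9, r8o_22, r4o_2, r11o_12, (.st (nat_lit 12127) (nat_lit 24255) .nil)⟩,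
  ⟨r17o_54, r13o_16, r7o_13, r5o_8, r8o_22, r4o_2, r11o_12, (.st (nat_lit 12127) (nat_lit 24255) .nil)⟩,
  ⟨r17o_54, r13o_16, r7o_13, r5o_9, r8o_22, r4o_2, r11o_12, (.st (nat_lit 12127) (nat_lit 24255) .nil)⟩,
  ⟨r17o_54, r13o_17, r7o_13, r5o_8, r8o_22, r4o_2, r11o_12, (.st (nat_lit 12127) (nat_lit 24255) .nil)⟩,
  ⟨r17o_54, r13o_17, r7o_13, r5o_9, r8o_22, r4o_2, r11o_12, (.st (nat_lit 12127) (nat_lit 24255) .nil)⟩]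

/-- entries -/
def EB55 : List E7 := []

/-- entries -/
def EB56 : List E7 := []

/-- entries -/
def EB57 : List E7 := []

/-- entries -/
def EB58 : List E7 := []

/-- entries -/
def EB59 : List E7 := []

/-- entries -/
def EB60 : List E7 := []

/-- entries -/
def EB61 : List E7 := []

/-- entries -/
def EB62 : List E7 := []

/-- entries -/
def EB63 : List E7 := []

/-- entries -/
def EB64 : List E7 := []

/-- entries -/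
def EB65 : List E7 := [⟨r17o_65, r13o_26, r7o_13, r5o_2, r8o_12, r4o_6, r11o_39, (.st (nat_lit 480479) (nat_lit 510510) (.st (nat_lit 30030) (nat_lit 510510) .nil))⟩,
  ⟨r17o_65, r13o_26, r7o_13, r5o_2, r8o_14, r4o_6, r11o_39, (.st (nat_lit 225224) (nat_lit 510510) (.st (nat_lit 285285) (nat_lit 510510) .nil))⟩]

/-- entries -/
def EB66 : List E7 := []

/-- entries -/
def EB67 : List E7 := [⟨r17o_67, r13o_75, r7o_26, r5o_1, r8o_25, r4o_5, r11o_8, (.st (nat_lit 14714699) (nat_lit 23823800) (.st (nat_lit 9109100) (nat_lit 23823800) .nil))⟩,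
  ⟨r17o_67, r13o_75, r7o_26, r5o_1, r8o_27, r4o_5, r11o_8, (.st (nat_lit 2802799) (nat_lit 23823800) (.st (nat_lit 21021000) (nat_lit 23823800) .nil))⟩]

/-- entries -/
def EB68 : List E7 := []

/-- entries -/
def EB69 : List E7 := []

/-- entries -/
def EB70 : List E7 := []

/-- entries -/
def EB71 : List E7 := []

/-- entries -/
def EB72 : List E7 := []

/-- entries -/
def EB73 : List E7 := []

/-- entries -/
def EB74 : List E7 := []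

/-- entries -/
def EB75 : List E7 := []

/-- entries -/
def EB76 : List E7 := [⟨r17o_76, r13o_8, r7o_5, r5o_0, r8o_8, r4o_4, r11o_63, (.st (nat_lit 2802799) (nat_lit 23823800) (.st (nat_lit 21021000) (nat_lit 23823800) .nil))⟩,
  ⟨r17o_76, r13o_8, r7o_5, r5o_0, r8o_10, r4o_4, r11o_63, (.st (nat_lit 14714699) (nat_lit 23823800) (.st (nat_lit 9109100) (nat_lit 23823800) .nil))⟩]

/-- entries -/
def EB77 : List E7 := []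

/-- entries -/
def EB78 : List E7 := [⟨r17o_78, r13o_57, r7o_18, r5o_9, r8o_21, r4o_3, r11o_32, (.st (nat_lit 225224) (nat_lit 510510) (.st (nat_lit 285285) (nat_lit 510510) .nil))⟩,
  ⟨r17o_78, r13o_57, r7o_18, r5o_9, r8o_23, r4o_3, r11o_32, (.st (nat_lit 480479) (nat_lit 510510) (.st (nat_lit 30030) (nat_lit 510510) .nil))⟩]

/-- entries -/
def EB79 : List E7 := []

/-- entries -/
def EB80 : List E7 := []

/-- entries -/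
def EB81 : List E7 := []

/-- entries -/
def EB82 : List E7 := []

/-- entries -/
def EB83 : List E7 := []

/-- entries -/
def EB84 : List E7 := []

/-- entries -/
def EB85 : List E7 := []

/-- entries -/
def EB86 : List E7 := []

/-- entries -/
def EB87 : List E7 := []

/-- entries -/
def EB88 : List E7 := []

/-- entries -/
def EB89 : List E7 := [⟨r17o_89, r13o_66, r7o_18, r5o_2, r8o_13, r4o_7, r11o_59, (.st (nat_lit 12127) (nat_lit 24255) .nil)⟩,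
  ⟨r17o_89, r13o_66, r7o_18, r5o_3, r8o_13, r4o_7, r11o_59, (.st (nat_lit 12127) (nat_lit 24255) .nil)⟩,
  ⟨r17o_89, r13o_67, r7o_18, r5o_2, r8o_13, r4o_7, r11o_59, (.st (nat_lit 12127) (nat_lit 24255) .nil)⟩,
  ⟨r17o_89, r13o_67, r7o_18, r5o_3, r8o_13, r4o_7, r11o_59, (.st (nat_lit 12127) (nat_lit 24255) .nil)⟩,
  ⟨r17o_89, r13o_68, r7o_18, r5o_2, r8o_13, r4o_7, r11o_59, (.st (nat_lit 12127) (nat_lit 24255) .nil)⟩,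
  ⟨r17o_89, r13o_68, r7o_18, r5o_3, r8o_13, r4o_7, r11o_59, (.st (nat_lit 12127) (nat_lit 24255) .nil)⟩,
  ⟨r17o_89, r13o_69, r7o_18, r5o_2, r8o_13, r4o_7, r11o_59, (.st (nat_lit 12127) (nat_lit 24255) .nil)⟩,
  ⟨r17o_89, r13o_69, r7o_18, r5o_3, r8o_13, r4o_7, r11o_59, (.st (nat_lit 12127) (nat_lit 24255) .nil)⟩,
  ⟨r17o_89, r13o_70, r7o_18, r5o_2, r8o_13, r4o_7, r11o_59, (.st (nat_lit 1732) (nat_lit 3465) .nil)⟩,
  ⟨r17o_89, r13o_70, r7o_18, r5o_3, r8o_13, r4o_7, r11o_59, (.st (nat_lit 1732) (nat_lit 3465) .nil)⟩,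
  ⟨r17o_89, r13o_71, r7o_18, r5o_2, r8o_13, r4o_7, r11o_59, (.st (nat_lit 1732) (nat_lit 3465) .nil)⟩,
  ⟨r17o_89, r13o_71, r7o_18, r5o_3, r8o_13, r4o_7, r11o_59, (.st (nat_lit 1732) (nat_lit 3465) .nil)⟩]

/-- entries -/
def EB90 : List E7 := []

/-- entries -/
def EB91 : List E7 := []

/-- entries -/
def EB92 : List E7 := [⟨r17o_92, r13o_66, r7o_18, r5o_2, r8o_13, r4o_7, r11o_59, (.st (nat_lit 1347) (nat_lit 2695) .nil)⟩,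
  ⟨r17o_92, r13o_66, r7o_18, r5o_2, r8o_15, r4o_7, r11o_59, (.st (nat_lit 4042) (nat_lit 8085) .nil)⟩,
  ⟨r17o_92, r13o_66, r7o_18, r5o_3, r8o_13, r4o_7, r11o_59, (.st (nat_lit 1347) (nat_lit 2695) .nil)⟩,
  ⟨r17o_92, r13o_66, r7o_18, r5o_3, r8o_15, r4o_7, r11o_59, (.st (nat_lit 4042) (nat_lit 8085) .nil)⟩,
  ⟨r17o_92, r13o_67, r7o_18, r5o_2, r8o_13, r4o_7, r11o_59, (.st (nat_lit 1347) (nat_lit 2695) .nil)⟩,
  ⟨r17o_92, r13o_67, r7o_18, r5o_2, r8o_15, r4o_7, r11o_59, (.st (nat_lit 4042) (nat_lit 8085) .nil)⟩,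
  ⟨r17o_92, r13o_67, r7o_18, r5o_3, r8o_13, r4o_7, r11o_59, (.st (nat_lit 1347) (nat_lit 2695) .nil)⟩,
  ⟨r17o_92, r13o_67, r7o_18, r5o_3, r8o_15, r4o_7, r11o_59, (.st (nat_lit 4042) (nat_lit 8085) .nil)⟩,
  ⟨r17o_92, r13o_68, r7o_18, r5o_2, r8o_13, r4o_7, r11o_59, (.st (nat_lit 1347) (nat_lit 2695) .nil)⟩,
  ⟨r17o_92, r13o_68, r7o_18, r5o_2, r8o_15, r4o_7, r11o_59, (.st (nat_lit 4042) (nat_lit 8085) .nil)⟩,
  ⟨r17o_92, r13o_68, r7o_18, r5o_3, r8o_13, r4o_7, r11o_59, (.st (nat_lit 1347) (nat_lit 2695) .nil)⟩,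
  ⟨r17o_92, r13o_68, r7o_18, r5o_3, r8o_15, r4o_7, r11o_59, (.st (nat_lit 4042) (nat_lit 8085) .nil)⟩,
  ⟨r17o_92, r13o_69, r7o_18, r5o_2, r8o_13, r4o_7, r11o_59, (.st (nat_lit 1347) (nat_lit 2695) .nil)⟩,
  ⟨r17o_92, r13o_69, r7o_18, r5o_2, r8o_15, r4o_7, r11o_59, (.st (nat_lit 4042) (nat_lit 8085) .nil)⟩,
  ⟨r17o_92, r13o_69, r7o_18, r5o_3, r8o_13, r4o_7, r11o_59, (.st (nat_lit 1347) (nat_lit 2695) .nil)⟩,
  ⟨r17o_92, r13o_69, r7o_18, r5o_3, r8o_15, r4o_7, r11o_59, (.st (nat_lit 4042) (nat_lit 8085) .nil)⟩,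
  ⟨r17o_92, r13o_70, r7o_18, r5o_2, r8o_13, r4o_7, r11o_59, (.st (nat_lit 192) (nat_lit 385) .nil)⟩,
  ⟨r17o_92, r13o_70, r7o_18, r5o_2, r8o_15, r4o_7, r11o_59, (.st (nat_lit 577) (nat_lit 1155) .nil)⟩,
  ⟨r17o_92, r13o_70, r7o_18, r5o_3, r8o_13, r4o_7, r11o_59, (.st (nat_lit 192) (nat_lit 385) .nil)⟩,
  ⟨r17o_92, r13o_70, r7o_18, r5o_3, r8o_15, r4o_7, r11o_59, (.st (nat_lit 577) (nat_lit 1155) .nil)⟩,
  ⟨r17o_92, r13o_71, r7o_18, r5o_2, r8o_13, r4o_7, r11o_59, (.st (nat_lit 192) (nat_lit 385) .nil)⟩,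
  ⟨r17o_92, r13o_71, r7o_18, r5o_2, r8o_15, r4o_7, r11o_59, (.st (nat_lit 577) (nat_lit 1155) .nil)⟩,
  ⟨r17o_92, r13o_71, r7o_18, r5o_3, r8o_13, r4o_7, r11o_59, (.st (nat_lit 192) (nat_lit 385) .nil)⟩,
  ⟨r17o_92, r13o_71, r7o_18, r5o_3, r8o_15, r4o_7, r11o_59, (.st (nat_lit 577) (nat_lit 1155) .nil)⟩]

/-- entries -/
def EB93 : List E7 := [⟨r17o_93, r13o_66, r7o_18, r5o_2, r8o_13, r4o_7, r11o_59, (.st (nat_lit 12127) (nat_lit 24255) .nil)⟩,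
  ⟨r17o_93, r13o_66, r7o_18, r5o_2, r8o_15, r4o_7, r11o_59, (.st (nat_lit 12127) (nat_lit 24255) .nil)⟩,
  ⟨r17o_93, r13o_66, r7o_18, r5o_3, r8o_13, r4o_7, r11o_59, (.st (nat_lit 12127) (nat_lit 24255) .nil)⟩,
  ⟨r17o_93, r13o_66, r7o_18, r5o_3, r8o_15, r4o_7, r11o_59, (.st (nat_lit 12127) (nat_lit 24255) .nil)⟩,
  ⟨r17o_93, r13o_67, r7o_18, r5o_2, r8o_13, r4o_7, r11o_59, (.st (nat_lit 12127) (nat_lit 24255) .nil)⟩,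
  ⟨r17o_93, r13o_67, r7o_18, r5o_2, r8o_15, r4o_7, r11o_59, (.st (nat_lit 12127) (nat_lit 24255) .nil)⟩,
  ⟨r17o_93, r13o_67, r7o_18, r5o_3, r8o_13, r4o_7, r11o_59, (.st (nat_lit 12127) (nat_lit 24255) .nil)⟩,
  ⟨r17o_93, r13o_67, r7o_18, r5o_3, r8o_15, r4o_7, r11o_59, (.st (nat_lit 12127) (nat_lit 24255) .nil)⟩,
  ⟨r17o_93, r13o_68, r7o_18, r5o_2, r8o_13, r4o_7, r11o_59, (.st (nat_lit 12127) (nat_lit 24255) .nil)⟩,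
  ⟨r17o_93, r13o_68, r7o_18, r5o_2, r8o_15, r4o_7, r11o_59, (.st (nat_lit 12127) (nat_lit 24255) .nil)⟩,
  ⟨r17o_93, r13o_68, r7o_18, r5o_3, r8o_13, r4o_7, r11o_59, (.st (nat_lit 12127) (nat_lit 24255) .nil)⟩,
  ⟨r17o_93, r13o_68, r7o_18, r5o_3, r8o_15, r4o_7, r11o_59, (.st (nat_lit 12127) (nat_lit 24255) .nil)⟩,
  ⟨r17o_93, r13o_69, r7o_18, r5o_2, r8o_13, r4o_7, r11o_59, (.st (nat_lit 12127) (nat_lit 24255) .nil)⟩,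
  ⟨r17o_93, r13o_69, r7o_18, r5o_2, r8o_15, r4o_7, r11o_59, (.st (nat_lit 12127) (nat_lit 24255) .nil)⟩,
  ⟨r17o_93, r13o_69, r7o_18, r5o_3, r8o_13, r4o_7, r11o_59, (.st (nat_lit 12127) (nat_lit 24255) .nil)⟩,
  ⟨r17o_93, r13o_69, r7o_18, r5o_3, r8o_15, r4o_7, r11o_59, (.st (nat_lit 12127) (nat_lit 24255) .nil)⟩,
  ⟨r17o_93, r13o_70, r7o_18, r5o_2, r8o_13, r4o_7, r11o_59, (.st (nat_lit 1732) (nat_lit 3465) .nil)⟩,
  ⟨r17o_93, r13o_70, r7o_18, r5o_2, r8o_15, r4o_7, r11o_59, (.st (nat_lit 1732) (nat_lit 3465) .nil)⟩,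
  ⟨r17o_93, r13o_70, r7o_18, r5o_3, r8o_13, r4o_7, r11o_59, (.st (nat_lit 1732) (nat_lit 3465) .nil)⟩,
  ⟨r17o_93, r13o_70, r7o_18, r5o_3, r8o_15, r4o_7, r11o_59, (.st (nat_lit 1732) (nat_lit 3465) .nil)⟩,
  ⟨r17o_93, r13o_71, r7o_18, r5o_2, r8o_13, r4o_7, r11o_59, (.st (nat_lit 1732) (nat_lit 3465) .nil)⟩,
  ⟨r17o_93, r13o_71, r7o_18, r5o_2, r8o_15, r4o_7, r11o_59, (.st (nat_lit 1732) (nat_lit 3465) .nil)⟩,
  ⟨r17o_93, r13o_71, r7o_18, r5o_3, r8o_13, r4o_7, r11o_59, (.st (nat_lit 1732) (nat_lit 3465) .nil)⟩,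
  ⟨r17o_93, r13o_71, r7o_18, r5o_3, r8o_15, r4o_7, r11o_59, (.st (nat_lit 1732) (nat_lit 3465) .nil)⟩]

/-- entries -/
def EB94 : List E7 := []

/-- entries -/
def EB95 : List E7 := [⟨r17o_95, r13o_66, r7o_18, r5o_2, r8o_13, r4o_7, r11o_59, (.st (nat_lit 12127) (nat_lit 24255) .nil)⟩,
  ⟨r17o_95, r13o_66, r7o_18, r5o_2, r8o_15, r4o_7, r11o_59, (.st (nat_lit 12127) (nat_lit 24255) .nil)⟩,
  ⟨r17o_95, r13o_66, r7o_18, r5o_3, r8o_13, r4o_7, r11o_59, (.st (nat_lit 12127) (nat_lit 24255) .nil)⟩,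
  ⟨r17o_95, r13o_67, r7o_18, r5o_2, r8o_13, r4o_7, r11o_59, (.st (nat_lit 12127) (nat_lit 24255) .nil)⟩,
  ⟨r17o_95, r13o_67, r7o_18, r5o_2, r8o_15, r4o_7, r11o_59, (.st (nat_lit 12127) (nat_lit 24255) .nil)⟩,
  ⟨r17o_95, r13o_67, r7o_18, r5o_3, r8o_13, r4o_7, r11o_59, (.st (nat_lit 12127) (nat_lit 24255) .nil)⟩,
  ⟨r17o_95, r13o_68, r7o_18, r5o_2, r8o_13, r4o_7, r11o_59, (.st (nat_lit 12127) (nat_lit 24255) .nil)⟩,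
  ⟨r17o_95, r13o_68, r7o_18, r5o_2, r8o_15, r4o_7, r11o_59, (.st (nat_lit 12127) (nat_lit 24255) .nil)⟩,
  ⟨r17o_95, r13o_68, r7o_18, r5o_3, r8o_13, r4o_7, r11o_59, (.st (nat_lit 12127) (nat_lit 24255) .nil)⟩,
  ⟨r17o_95, r13o_69, r7o_18, r5o_2, r8o_13, r4o_7, r11o_59, (.st (nat_lit 12127) (nat_lit 24255) .nil)⟩,
  ⟨r17o_95, r13o_69, r7o_18, r5o_2, r8o_15, r4o_7, r11o_59, (.st (nat_lit 12127) (nat_lit 24255) .nil)⟩,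
  ⟨r17o_95, r13o_69, r7o_18, r5o_3, r8o_13, r4o_7, r11o_59, (.st (nat_lit 12127) (nat_lit 24255) .nil)⟩,
  ⟨r17o_95, r13o_70, r7o_18, r5o_2, r8o_13, r4o_7, r11o_59, (.st (nat_lit 1732) (nat_lit 3465) .nil)⟩,
  ⟨r17o_95, r13o_70, r7o_18, r5o_2, r8o_15, r4o_7, r11o_59, (.st (nat_lit 1732) (nat_lit 3465) .nil)⟩,
  ⟨r17o_95, r13o_70, r7o_18, r5o_3, r8o_13, r4o_7, r11o_59, (.st (nat_lit 1732) (nat_lit 3465) .nil)⟩,
  ⟨r17o_95, r13o_71, r7o_18, r5o_2, r8o_13, r4o_7, r11o_59, (.st (nat_lit 1732) (nat_lit 3465) .nil)⟩,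
  ⟨r17o_95, r13o_71, r7o_18, r5o_2, r8o_15, r4o_7, r11o_59, (.st (nat_lit 1732) (nat_lit 3465) .nil)⟩,
  ⟨r17o_95, r13o_71, r7o_18, r5o_3, r8o_13, r4o_7, r11o_59, (.st (nat_lit 1732) (nat_lit 3465) .nil)⟩]

/-- entries -/
def EB96 : List E7 := []

/-- entries -/
def EB97 : List E7 := []

/-- entries -/
def EB98 : List E7 := []

/-- entries -/
def EB99 : List E7 := []

/-- entries -/
def EB100 : List E7 := []

/-- entries -/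
def EB101 : List E7 := []

/-- entries -/
def EB102 : List E7 := []

/-- entries -/
def EB103 : List E7 := []

/-- entries -/
def EB104 : List E7 := []

/-- entries -/
def EB105 : List E7 := []

/-- entries -/
def EB106 : List E7 := []

/-- entries -/
def EB107 : List E7 := []

/-- entries -/
def EB108 : List E7 := []

/-- entries -/
def EB109 : List E7 := []

/-- entries -/
def EB110 : List E7 := []

/-- entries -/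
def EB111 : List E7 := []

/-- entries -/
def EB112 : List E7 := []

/-- entries -/
def EB113 : List E7 := []

/-- entries -/
def EB114 : List E7 := []

/-- entries -/
def EB115 : List E7 := []

/-- entries -/
def EB116 : List E7 := []

/-- entries -/
def EB117 : List E7 := []

/-- entries -/
def EB118 : List E7 := []

/-- entries -/
def EB119 : List E7 := []

/-- entries -/
def EB120 : List E7 := []

/-- entries -/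
def EB121 : List E7 := []

/-- entries -/
def EB122 : List E7 := []

/-- entries -/
def EB123 : List E7 := []

/-- entries -/
def EB124 : List E7 := []

/-- entries -/
def EB125 : List E7 := []

/-- entries -/
def EB126 : List E7 := []

/-- entries -/
def EB127 : List E7 := []

/-- entries -/
def EB128 : List E7 := []

/-- entries -/
def EB129 : List E7 := [⟨r17o_129, r13o_72, r7o_27, r5o_8, r8o_29, r4o_7, r11o_52, (.st (nat_lit 206167) (nat_lit 412335) .nil)⟩,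
  ⟨r17o_129, r13o_72, r7o_27, r5o_8, r8o_31, r4o_7, r11o_52, (.st (nat_lit 206167) (nat_lit 412335) .nil)⟩,
  ⟨r17o_129, r13o_72, r7o_27, r5o_9, r8o_29, r4o_7, r11o_52, (.st (nat_lit 206167) (nat_lit 412335) .nil)⟩,
  ⟨r17o_129, r13o_72, r7o_27, r5o_9, r8o_31, r4o_7, r11o_52, (.st (nat_lit 206167) (nat_lit 412335) .nil)⟩,
  ⟨r17o_129, r13o_73, r7o_27, r5o_8, r8o_29, r4o_7, r11o_52, (.st (nat_lit 206167) (nat_lit 412335) .nil)⟩,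
  ⟨r17o_129, r13o_73, r7o_27, r5o_8, r8o_31, r4o_7, r11o_52, (.st (nat_lit 206167) (nat_lit 412335) .nil)⟩,
  ⟨r17o_129, r13o_73, r7o_27, r5o_9, r8o_29, r4o_7, r11o_52, (.st (nat_lit 206167) (nat_lit 412335) .nil)⟩,
  ⟨r17o_129, r13o_73, r7o_27, r5o_9, r8o_31, r4o_7, r11o_52, (.st (nat_lit 206167) (nat_lit 412335) .nil)⟩,
  ⟨r17o_129, r13o_74, r7o_27, r5o_8, r8o_29, r4o_7, r11o_52, (.st (nat_lit 206167) (nat_lit 412335) .nil)⟩,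
  ⟨r17o_129, r13o_74, r7o_27, r5o_8, r8o_31, r4o_7, r11o_52, (.st (nat_lit 206167) (nat_lit 412335) .nil)⟩,
  ⟨r17o_129, r13o_74, r7o_27, r5o_9, r8o_29, r4o_7, r11o_52, (.st (nat_lit 206167) (nat_lit 412335) .nil)⟩,
  ⟨r17o_129, r13o_74, r7o_27, r5o_9, r8o_31, r4o_7, r11o_52, (.st (nat_lit 206167) (nat_lit 412335) .nil)⟩,
  ⟨r17o_129, r13o_75, r7o_27, r5o_8, r8o_29, r4o_7, r11o_52, (.st (nat_lit 206167) (nat_lit 412335) .nil)⟩,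
  ⟨r17o_129, r13o_75, r7o_27, r5o_8, r8o_31, r4o_7, r11o_52, (.st (nat_lit 206167) (nat_lit 412335) .nil)⟩,
  ⟨r17o_129, r13o_75, r7o_27, r5o_9, r8o_29, r4o_7, r11o_52, (.st (nat_lit 206167) (nat_lit 412335) .nil)⟩,
  ⟨r17o_129, r13o_75, r7o_27, r5o_9, r8o_31, r4o_7, r11o_52, (.st (nat_lit 206167) (nat_lit 412335) .nil)⟩,
  ⟨r17o_129, r13o_76, r7o_27, r5o_8, r8o_29, r4o_7, r11o_52, (.st (nat_lit 206167) (nat_lit 412335) .nil)⟩,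
  ⟨r17o_129, r13o_76, r7o_27, r5o_8, r8o_31, r4o_7, r11o_52, (.st (nat_lit 206167) (nat_lit 412335) .nil)⟩,
  ⟨r17o_129, r13o_76, r7o_27, r5o_9, r8o_29, r4o_7, r11o_52, (.st (nat_lit 206167) (nat_lit 412335) .nil)⟩,
  ⟨r17o_129, r13o_76, r7o_27, r5o_9, r8o_31, r4o_7, r11o_52, (.st (nat_lit 206167) (nat_lit 412335) .nil)⟩,
  ⟨r17o_129, r13o_77, r7o_27, r5o_8, r8o_29, r4o_7, r11o_52, (.st (nat_lit 29452) (nat_lit 58905) .nil)⟩,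
  ⟨r17o_129, r13o_77, r7o_27, r5o_8, r8o_31, r4o_7, r11o_52, (.st (nat_lit 29452) (nat_lit 58905) .nil)⟩,
  ⟨r17o_129, r13o_77, r7o_27, r5o_9, r8o_29, r4o_7, r11o_52, (.st (nat_lit 29452) (nat_lit 58905) .nil)⟩,
  ⟨r17o_129, r13o_77, r7o_27, r5o_9, r8o_31, r4o_7, r11o_52, (.st (nat_lit 29452) (nat_lit 58905) .nil)⟩]

/-- entries -/
def EB130 : List E7 := []

/-- entries -/
def EB131 : List E7 := []

/-- entries -/
def EB132 : List E7 := [⟨r17o_132, r13o_72, r7o_27, r5o_8, r8o_31, r4o_7, r11o_52, (.st (nat_lit 206167) (nat_lit 412335) .nil)⟩,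
  ⟨r17o_132, r13o_72, r7o_27, r5o_9, r8o_31, r4o_7, r11o_52, (.st (nat_lit 206167) (nat_lit 412335) .nil)⟩,
  ⟨r17o_132, r13o_73, r7o_24, r5o_8, r8o_29, r4o_7, r11o_61, (.st (nat_lit 163796) (nat_lit 163800) (.st (nat_lit 3) (nat_lit 163800) .nil))⟩,
  ⟨r17o_132, r13o_73, r7o_25, r5o_8, r8o_29, r4o_7, r11o_61, (.st (nat_lit 81903) (nat_lit 163800) (.st (nat_lit 81896) (nat_lit 163800) .nil))⟩,
  ⟨r17o_132, r13o_73, r7o_27, r5o_8, r8o_31, r4o_7, r11o_52, (.st (nat_lit 206167) (nat_lit 412335) .nil)⟩,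
  ⟨r17o_132, r13o_73, r7o_27, r5o_9, r8o_31, r4o_7, r11o_52, (.st (nat_lit 206167) (nat_lit 412335) .nil)⟩,
  ⟨r17o_132, r13o_74, r7o_27, r5o_8, r8o_31, r4o_7, r11o_52, (.st (nat_lit 206167) (nat_lit 412335) .nil)⟩,
  ⟨r17o_132, r13o_74, r7o_27, r5o_9, r8o_31, r4o_7, r11o_52, (.st (nat_lit 206167) (nat_lit 412335) .nil)⟩,
  ⟨r17o_132, r13o_75, r7o_27, r5o_8, r8o_31, r4o_7, r11o_52, (.st (nat_lit 206167) (nat_lit 412335) .nil)⟩,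
  ⟨r17o_132, r13o_75, r7o_27, r5o_9, r8o_31, r4o_7, r11o_52, (.st (nat_lit 206167) (nat_lit 412335) .nil)⟩,
  ⟨r17o_132, r13o_76, r7o_27, r5o_8, r8o_31, r4o_7, r11o_52, (.st (nat_lit 206167) (nat_lit 412335) .nil)⟩,
  ⟨r17o_132, r13o_76, r7o_27, r5o_9, r8o_31, r4o_7, r11o_52, (.st (nat_lit 206167) (nat_lit 412335) .nil)⟩,
  ⟨r17o_132, r13o_77, r7o_27, r5o_8, r8o_31, r4o_7, r11o_52, (.st (nat_lit 29452) (nat_lit 58905) .nil)⟩,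
  ⟨r17o_132, r13o_77, r7o_27, r5o_9, r8o_31, r4o_7, r11o_52, (.st (nat_lit 29452) (nat_lit 58905) .nil)⟩]

/-- entries -/
def EB133 : List E7 := [⟨r17o_133, r13o_72, r7o_27, r5o_8, r8o_31, r4o_7, r11o_52, (.st (nat_lit 206167) (nat_lit 412335) .nil)⟩,
  ⟨r17o_133, r13o_72, r7o_27, r5o_9, r8o_31, r4o_7, r11o_52, (.st (nat_lit 206167) (nat_lit 412335) .nil)⟩,
  ⟨r17o_133, r13o_73, r7o_27, r5o_8, r8o_31, r4o_7, r11o_52, (.st (nat_lit 206167) (nat_lit 412335) .nil)⟩,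
  ⟨r17o_133, r13o_73, r7o_27, r5o_9, r8o_31, r4o_7, r11o_52, (.st (nat_lit 206167) (nat_lit 412335) .nil)⟩,
  ⟨r17o_133, r13o_74, r7o_27, r5o_8, r8o_31, r4o_7, r11o_52, (.st (nat_lit 206167) (nat_lit 412335) .nil)⟩,
  ⟨r17o_133, r13o_74, r7o_27, r5o_9, r8o_31, r4o_7, r11o_52, (.st (nat_lit 206167) (nat_lit 412335) .nil)⟩,
  ⟨r17o_133, r13o_75, r7o_27, r5o_8, r8o_31, r4o_7, r11o_52, (.st (nat_lit 206167) (nat_lit 412335) .nil)⟩,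
  ⟨r17o_133, r13o_75, r7o_27, r5o_9, r8o_31, r4o_7, r11o_52, (.st (nat_lit 206167) (nat_lit 412335) .nil)⟩,
  ⟨r17o_133, r13o_76, r7o_27, r5o_8, r8o_31, r4o_7, r11o_52, (.st (nat_lit 206167) (nat_lit 412335) .nil)⟩,
  ⟨r17o_133, r13o_76, r7o_27, r5o_9, r8o_31, r4o_7, r11o_52, (.st (nat_lit 206167) (nat_lit 412335) .nil)⟩,
  ⟨r17o_133, r13o_77, r7o_27, r5o_8, r8o_31, r4o_7, r11o_52, (.st (nat_lit 29452) (nat_lit 58905) .nil)⟩,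
  ⟨r17o_133, r13o_77, r7o_27, r5o_9, r8o_31, r4o_7, r11o_52, (.st (nat_lit 29452) (nat_lit 58905) .nil)⟩]

/-- entries -/
def EB134 : List E7 := []

/-- entries -/
def EB135 : List E7 := [⟨r17o_135, r13o_72, r7o_27, r5o_8, r8o_29, r4o_7, r11o_52, (.st (nat_lit 68722) (nat_lit 137445) .nil)⟩,
  ⟨r17o_135, r13o_72, r7o_27, r5o_8, r8o_31, r4o_7, r11o_52, (.st (nat_lit 22907) (nat_lit 45815) .nil)⟩,
  ⟨r17o_135, r13o_72, r7o_27, r5o_9, r8o_29, r4o_7, r11o_52, (.st (nat_lit 68722) (nat_lit 137445) .nil)⟩,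
  ⟨r17o_135, r13o_72, r7o_27, r5o_9, r8o_31, r4o_7, r11o_52, (.st (nat_lit 22907) (nat_lit 45815) .nil)⟩,
  ⟨r17o_135, r13o_73, r7o_27, r5o_8, r8o_29, r4o_7, r11o_52, (.st (nat_lit 68722) (nat_lit 137445) .nil)⟩,
  ⟨r17o_135, r13o_73, r7o_27, r5o_8, r8o_31, r4o_7, r11o_52, (.st (nat_lit 22907) (nat_lit 45815) .nil)⟩,
  ⟨r17o_135, r13o_73, r7o_27, r5o_9, r8o_29, r4o_7, r11o_52, (.st (nat_lit 68722) (nat_lit 137445) .nil)⟩,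
  ⟨r17o_135, r13o_73, r7o_27, r5o_9, r8o_31, r4o_7, r11o_52, (.st (nat_lit 22907) (nat_lit 45815) .nil)⟩,
  ⟨r17o_135, r13o_74, r7o_27, r5o_8, r8o_29, r4o_7, r11o_52, (.st (nat_lit 68722) (nat_lit 137445) .nil)⟩,
  ⟨r17o_135, r13o_74, r7o_27, r5o_8, r8o_31, r4o_7, r11o_52, (.st (nat_lit 22907) (nat_lit 45815) .nil)⟩,
  ⟨r17o_135, r13o_74, r7o_27, r5o_9, r8o_29, r4o_7, r11o_52, (.st (nat_lit 68722) (nat_lit 137445) .nil)⟩,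
  ⟨r17o_135, r13o_74, r7o_27, r5o_9, r8o_31, r4o_7, r11o_52, (.st (nat_lit 22907) (nat_lit 45815) .nil)⟩,
  ⟨r17o_135, r13o_75, r7o_27, r5o_8, r8o_29, r4o_7, r11o_52, (.st (nat_lit 68722) (nat_lit 137445) .nil)⟩,
  ⟨r17o_135, r13o_75, r7o_27, r5o_8, r8o_31, r4o_7, r11o_52, (.st (nat_lit 22907) (nat_lit 45815) .nil)⟩,
  ⟨r17o_135, r13o_75, r7o_27, r5o_9, r8o_29, r4o_7, r11o_52, (.st (nat_lit 68722) (nat_lit 137445) .nil)⟩,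
  ⟨r17o_135, r13o_75, r7o_27, r5o_9, r8o_31, r4o_7, r11o_52, (.st (nat_lit 22907) (nat_lit 45815) .nil)⟩,
  ⟨r17o_135, r13o_76, r7o_27, r5o_8, r8o_29, r4o_7, r11o_52, (.st (nat_lit 68722) (nat_lit 137445) .nil)⟩,
  ⟨r17o_135, r13o_76, r7o_27, r5o_8, r8o_31, r4o_7, r11o_52, (.st (nat_lit 22907) (nat_lit 45815) .nil)⟩,
  ⟨r17o_135, r13o_76, r7o_27, r5o_9, r8o_29, r4o_7, r11o_52, (.st (nat_lit 68722) (nat_lit 137445) .nil)⟩,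
  ⟨r17o_135, r13o_76, r7o_27, r5o_9, r8o_31, r4o_7, r11o_52, (.st (nat_lit 22907) (nat_lit 45815) .nil)⟩,
  ⟨r17o_135, r13o_77, r7o_27, r5o_8, r8o_29, r4o_7, r11o_52, (.st (nat_lit 9817) (nat_lit 19635) .nil)⟩,
  ⟨r17o_135, r13o_77, r7o_27, r5o_8, r8o_31, r4o_7, r11o_52, (.st (nat_lit 3272) (nat_lit 6545) .nil)⟩,
  ⟨r17o_135, r13o_77, r7o_27, r5o_9, r8o_29, r4o_7, r11o_52, (.st (nat_lit 9817) (nat_lit 19635) .nil)⟩,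
  ⟨r17o_135, r13o_77, r7o_27, r5o_9, r8o_31, r4o_7, r11o_52, (.st (nat_lit 3272) (nat_lit 6545) .nil)⟩]

/-- all entries -/
def LB : List (List E7) := [EB0, EB1, EB2, EB3, EB4, EB5, EB6, EB7, EB8, EB9, EB10, EB11, EB12, EB13, EB14, EB15, EB16, EB17, EB18, EB19, EB20, EB21, EB22, EB23, EB24, EB25, EB26, EB27, EB28, EB29, EB30, EB31, EB32, EB33, EB34, EB35, EB36, EB37, EB38, EB39, EB40, EB41, EB42, EB43, EB44, EB45, EB46, EB47, EB48, EB49, EB50, EB51, EB52, EB53, EB54, EB55, EB56, EB57, EB58, EB59, EB60, EB61, EB62, EB63, EB64, EB65, EB66, EB67, EB68, EB69, EB70, EB71, EB72, EB73, EB74, EB75, EB76, EB77, EB78, EB79, EB80, EB81, EB82, EB83, EB84, EB85, EB86, EB87, EB88, EB89, EB90, EB91, EB92, EB93, EB94, EB95, EB96, EB97, EB98, EB99, EB100, EB101, EB102, EB103, EB104, EB105, EB106, EB107, EB108, EB109, EB110, EB111, EB112, EB113,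 EB114, EB115, EB116, EB117, EB118, EB119, EB120, EB121, EB122, EB123, EB124, EB125, EB126, EB127, EB128, EB129, EB130, EB131, EB132, EB133, EB134, EB135]

end Pool.Agent.LibH4.CX
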