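import Pool.Agent.Lib_helper4.CX.StA
import Pool.Agent.Lib_helper4.CX.EA
import Pool.Agent.Lib_helper4.CX.EB

/-!
Constant words, all letters at once: the second stage, odd parity.
-/

set_option maxRecDepth 100000

namespace Pool.Agent.LibH4.CX

theorem chb120 : stB r17o_120 LA EB120 = true := by decide +kernel

theorem chb121 : stB r17o_121 LA EB121 = true := by decide +kernel

theorem chb122 : stB r17o_122 LA EB122 = true := by decide +kernel

theorem chb123 : stB r17o_123 LA EB123 = true := by decide +kernel

theorem chb124 : stB r17o_124 LA EB124 = true := by decide +kernel

theorem chb125 : stB r17o_125 LA EB125 = true := by decide +kernel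

theorem chb126 : stB r17o_126 LA EB126 = true := by decide +kernel

theorem chb127 : stB r17o_127 LA EB127 = true := by decide +kernel

theorem chb128 : stB r17o_128 LA EB128 = true := by decide +kernel

theorem chb129 : stB r17o_129 LA EB129 = true := by decide +kernel

theorem chb130 : stB r17o_130 LA EB130 = true := by decide +kernel

theorem chb131 : stB r17o_131 LA EB131 = true := by decide +kernel

end Pool.Agent.LibH4.CX
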