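import Pool.Agent.Lib_helper4.CX.StA
import Pool.Agent.Lib_helper4.CX.EA
import Pool.Agent.Lib_helper4.CX.EB

/-!
Constant words, all letters at once: the second stage, odd parity.
-/

set_option maxRecDepth 100000

namespace Pool.Agent.LibH4.CX

theorem chb132 : stB r17o_132 LA EB132 = true := by decide +kernel

theorem chb133 : stB r17o_133 LA EB133 = true := by decide +kernel

theorem chb134 : stB r17o_134 LA EB134 = true := by decide +kernel

theorem chb135 : stB r17o_135 LA EB135 = true := by decide +kernel

end Pool.Agent.LibH4.CX
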