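import Pool.Agent.Lib_helper4.CX.StA
import Pool.Agent.Lib_helper4.CX.EA
import Pool.Agent.Lib_helper4.CX.EB

/-!
Constant words, all letters at once: the second stage, odd parity.
-/

set_option maxRecDepth 100000

namespace Pool.Agent.LibH4.CX

theorem chb24 : stB r17o_24 LA EB24 = true := by decide +kernel

theorem chb25 : stB r17o_25 LA EB25 = true := by decide +kernel

theorem chb26 : stB r17o_26 LA EB26 = true := by decide +kernel

theorem chb27 : stB r17o_27 LA EB27 = true := by decide +kernel

theorem chb28 : stB r17o_28 LA EB28 = true := by decide +kernel

theorem chb29 : stB r17o_29 LA EB29 = true := by decide +kernel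

theorem chb30 : stB r17o_30 LA EB30 = true := by decide +kernel

theorem chb31 : stB r17o_31 LA EB31 = true := by decide +kernel

theorem chb32 : stB r17o_32 LA EB32 = true := by decide +kernel

theorem chb33 : stB r17o_33 LA EB33 = true := by decide +kernel

theorem chb34 : stB r17o_34 LA EB34 = true := by decide +kernel

theorem chb35 : stB r17o_35 LA EB35 = true := by decide +kernel

end Pool.Agent.LibH4.CX
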