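import Pool.Agent.Lib_helper4.CX.StA
import Pool.Agent.Lib_helper4.CX.EA
import Pool.Agent.Lib_helper4.CX.EB

/-!
Constant words, all letters at once: the second stage, odd parity.
-/

set_option maxRecDepth 100000

namespace Pool.Agent.LibH4.CX

theorem chb72 : stB r17o_72 LA EB72 = true := by decide +kernel

theorem chb73 : stB r17o_73 LA EB73 = true := by decide +kernel

theorem chb74 : stB r17o_74 LA EB74 = true := by decide +kernel

theorem chb75 : stB r17o_75 LA EB75 = true := by decide +kernel

theorem chb76 : stB r17o_76 LA EB76 = true := by decide +kernel

theorem chb77 : stB r17o_77 LA EB77 = true := by decide +kernel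

theorem chb78 : stB r17o_78 LA EB78 = true := by decide +kernel

theorem chb79 : stB r17o_79 LA EB79 = true := by decide +kernel

theorem chb80 : stB r17o_80 LA EB80 = true := by decide +kernel

theorem chb81 : stB r17o_81 LA EB81 = true := by decide +kernel

theorem chb82 : stB r17o_82 LA EB82 = true := by decide +kernel

theorem chb83 : stB r17o_83 LA EB83 = true := by decide +kernel

end Pool.Agent.LibH4.CX
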