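import Pool.Agent.Lib_helper4.CX.StA
import Pool.Agent.Lib_helper4.CX.EA
import Pool.Agent.Lib_helper4.CX.EB

/-!
Constant words, all letters at once: the second stage, odd parity.
-/

set_option maxRecDepth 100000

namespace Pool.Agent.LibH4.CX

theorem chb84 : stB r17o_84 LA EB84 = true := by decide +kernel

theorem chb85 : stB r17o_85 LA EB85 = true := by decide +kernel

theorem chb86 : stB r17o_86 LA EB86 = true := by decide +kernel

theorem chb87 : stB r17o_87 LA EB87 = true := by decide +kernel

theorem chb88 : stB r17o_88 LA EB88 = true := by decide +kernel

theorem chb89 : stB r17o_89 LA EB89 = true := by decide +kernel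

theorem chb90 : stB r17o_90 LA EB90 = true := by decide +kernel

theorem chb91 : stB r17o_91 LA EB91 = true := by decide +kernel

theorem chb92 : stB r17o_92 LA EB92 = true := by decide +kernel

theorem chb93 : stB r17o_93 LA EB93 = true := by decide +kernel

theorem chb94 : stB r17o_94 LA EB94 = true := by decide +kernel

theorem chb95 : stB r17o_95 LA EB95 = true := by decide +kernel

end Pool.Agent.LibH4.CX
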