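import Pool.Agent.Lib_helper4.CX.StA
import Pool.Agent.Lib_helper4.CX.EA
import Pool.Agent.Lib_helper4.CX.EB

/-!
Constant words, all letters at once: the second stage, odd parity.
-/

set_option maxRecDepth 100000

namespace Pool.Agent.LibH4.CX

theorem chb96 : stB r17o_96 LA EB96 = true := by decide +kernel

theorem chb97 : stB r17o_97 LA EB97 = true := by decide +kernel

theorem chb98 : stB r17o_98 LA EB98 = true := by decide +kernel

theorem chb99 : stB r17o_99 LA EB99 = true := by decide +kernel

theorem chb100 : stB r17o_100 LA EB100 = true := by decide +kernel

theorem chb101 : stB r17o_101 LA EB101 = true := by decide +kernel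

theorem chb102 : stB r17o_102 LA EB102 = true := by decide +kernel

theorem chb103 : stB r17o_103 LA EB103 = true := by decide +kernel

theorem chb104 : stB r17o_104 LA EB104 = true := by decide +kernel

theorem chb105 : stB r17o_105 LA EB105 = true := by decide +kernel

theorem chb106 : stB r17o_106 LA EB106 = true := by decide +kernel

theorem chb107 : stB r17o_107 LA EB107 = true := by decide +kernel

end Pool.Agent.LibH4.CX
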