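import Pool.Agent.Lib_helper4.CX.StA
import Pool.Agent.Lib_helper4.CX.EB

/-!
Constant words, all letters at once: the third stage, odd parity.
-/

set_option maxRecDepth 100000

namespace Pool.Agent.LibH4.CX

theorem chc0 : stC r19o_0 LB = true := by decide +kernel

theorem chc1 : stC r19o_1 LB = true := by decide +kernel

theorem chc2 : stC r19o_2 LB = true := by decide +kernel

theorem chc3 : stC r19o_3 LB = true := by decide +kernel

theorem chc4 : stC r19o_4 LB = true := by decide +kernel

theorem chc5 : stC r19o_5 LB = true := by decide +kernel

theorem chc6 : stC r19o_6 LB = true := by decide +kernel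

theorem chc7 : stC r19o_7 LB = true := by decide +kernel

theorem chc8 : stC r19o_8 LB = true := by decide +kernel

theorem chc9 : stC r19o_9 LB = true := by decide +kernel

theorem chc10 : stC r19o_10 LB = true := by decide +kernel

theorem chc11 : stC r19o_11 LB = true := by decide +kernel

theorem chc12 : stC r19o_12 LB = true := by decide +kernel

theorem chc13 : stC r19o_13 LB = true := by decide +kernel

theorem chc14 : stC r19o_14 LB = true := by decide +kernel

theorem chc15 : stC r19o_15 LB = true := by decide +kernel

theorem chc16 : stC r19o_16 LB = true := by decide +kernel

theorem chc17 : stC r19o_17 LB = true := by decide +kernel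

theorem chc18 : stC r19o_18 LB = true := by decide +kernel

theorem chc19 : stC r19o_19 LB = true := by decide +kernel

theorem chc20 : stC r19o_20 LB = true := by decide +kernel

theorem chc21 : stC r19o_21 LB = true := by decide +kernel

theorem chc22 : stC r19o_22 LB = true := by decide +kernel

theorem chc23 : stC r19o_23 LB = true := by decide +kernel

theorem chc24 : stC r19o_24 LB = true := by decide +kernel

theorem chc25 : stC r19o_25 LB = true := by decide +kernel

theorem chc26 : stC r19o_26 LB = true := by decide +kernel

theorem chc27 : stC r19o_27 LB = true := by decide +kernel

theorem chc28 : stC r19o_28 LB = true := by decide +kernel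

theorem chc29 : stC r19o_29 LB = true := by decide +kernel

theorem chc30 : stC r19o_30 LB = true := by decide +kernel

theorem chc31 : stC r19o_31 LB = true := by decide +kernel

end Pool.Agent.LibH4.CX
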