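import Pool.Agent.Lib_helper4.CX.StA
import Pool.Agent.Lib_helper4.CX.EB

/-!
Constant words, all letters at once: the third stage, odd parity.
-/

set_option maxRecDepth 100000

namespace Pool.Agent.LibH4.CX

theorem chc32 : stC r19o_32 LB = true := by decide +kernel

theorem chc33 : stC r19o_33 LB = true := by decide +kernel

theorem chc34 : stC r19o_34 LB = true := by decide +kernel

theorem chc35 : stC r19o_35 LB = true := by decide +kernel

theorem chc36 : stC r19o_36 LB = true := by decide +kernel

theorem chc37 : stC r19o_37 LB = true := by decide +kernel

theorem chc38 : stC r19o_38 LB = true := by decide +kernel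

theorem chc39 : stC r19o_39 LB = true := by decide +kernel

theorem chc40 : stC r19o_40 LB = true := by decide +kernel

theorem chc41 : stC r19o_41 LB = true := by decide +kernel

theorem chc42 : stC r19o_42 LB = true := by decide +kernel

theorem chc43 : stC r19o_43 LB = true := by decide +kernel

theorem chc44 : stC r19o_44 LB = true := by decide +kernel

theorem chc45 : stC r19o_45 LB = true := by decide +kernel

theorem chc46 : stC r19o_46 LB = true := by decide +kernel

theorem chc47 : stC r19o_47 LB = true := by decide +kernel

theorem chc48 : stC r19o_48 LB = true := by decide +kernel

theorem chc49 : stC r19o_49 LB = true := by decide +kernel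

theorem chc50 : stC r19o_50 LB = true := by decide +kernel

theorem chc51 : stC r19o_51 LB = true := by decide +kernel

theorem chc52 : stC r19o_52 LB = true := by decide +kernel

theorem chc53 : stC r19o_53 LB = true := by decide +kernel

theorem chc54 : stC r19o_54 LB = true := by decide +kernel

theorem chc55 : stC r19o_55 LB = true := by decide +kernel

theorem chc56 : stC r19o_56 LB = true := by decide +kernel

theorem chc57 : stC r19o_57 LB = true := by decide +kernel

theorem chc58 : stC r19o_58 LB = true := by decide +kernel

theorem chc59 : stC r19o_59 LB = true := by decide +kernel

theorem chc60 : stC r19o_60 LB = true := by decide +kernel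

theorem chc61 : stC r19o_61 LB = true := by decide +kernel

theorem chc62 : stC r19o_62 LB = true := by decide +kernel

theorem chc63 : stC r19o_63 LB = true := by decide +kernel

end Pool.Agent.LibH4.CX
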