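import Pool.Agent.Lib_helper4.CX.StA
import Pool.Agent.Lib_helper4.CX.EB

/-!
Constant words, all letters at once: the third stage, odd parity.
-/

set_option maxRecDepth 100000

namespace Pool.Agent.LibH4.CX

theorem chc64 : stC r19o_64 LB = true := by decide +kernel

theorem chc65 : stC r19o_65 LB = true := by decide +kernel

theorem chc66 : stC r19o_66 LB = true := by decide +kernel

theorem chc67 : stC r19o_67 LB = true := by decide +kernel

theorem chc68 : stC r19o_68 LB = true := by decide +kernel

theorem chc69 : stC r19o_69 LB = true := by decide +kernel

theorem chc70 : stC r19o_70 LB = true := by decide +kernel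

theorem chc71 : stC r19o_71 LB = true := by decide +kernel

theorem chc72 : stC r19o_72 LB = true := by decide +kernel

theorem chc73 : stC r19o_73 LB = true := by decide +kernel

theorem chc74 : stC r19o_74 LB = true := by decide +kernel

theorem chc75 : stC r19o_75 LB = true := by decide +kernel

theorem chc76 : stC r19o_76 LB = true := by decide +kernel

theorem chc77 : stC r19o_77 LB = true := by decide +kernel

theorem chc78 : stC r19o_78 LB = true := by decide +kernel

theorem chc79 : stC r19o_79 LB = true := by decide +kernel

theorem chc80 : stC r19o_80 LB = true := by decide +kernel

theorem chc81 : stC r19o_81 LB = true := by decide +kernel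

theorem chc82 : stC r19o_82 LB = true := by decide +kernel

theorem chc83 : stC r19o_83 LB = true := by decide +kernel

theorem chc84 : stC r19o_84 LB = true := by decide +kernel

theorem chc85 : stC r19o_85 LB = true := by decide +kernel

theorem chc86 : stC r19o_86 LB = true := by decide +kernel

theorem chc87 : stC r19o_87 LB = true := by decide +kernel

theorem chc88 : stC r19o_88 LB = true := by decide +kernel

theorem chc89 : stC r19o_89 LB = true := by decide +kernel

theorem chc90 : stC r19o_90 LB = true := by decide +kernel

theorem chc91 : stC r19o_91 LB = true := by decide +kernel

theorem chc92 : stC r19o_92 LB = true := by decide +kernel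

theorem chc93 : stC r19o_93 LB = true := by decide +kernel

theorem chc94 : stC r19o_94 LB = true := by decide +kernel

theorem chc95 : stC r19o_95 LB = true := by decide +kernel

end Pool.Agent.LibH4.CX
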