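import Pool.Agent.Lib_helper4.CX.StA
import Pool.Agent.Lib_helper4.CX.EB

/-!
Constant words, all letters at once: the third stage, odd parity.
-/

set_option maxRecDepth 100000

namespace Pool.Agent.LibH4.CX

theorem chc96 : stC r19o_96 LB = true := by decide +kernel

theorem chc97 : stC r19o_97 LB = true := by decide +kernel

theorem chc98 : stC r19o_98 LB = true := by decide +kernel

theorem chc99 : stC r19o_99 LB = true := by decide +kernel

theorem chc100 : stC r19o_100 LB = true := by decide +kernel

theorem chc101 : stC r19o_101 LB = true := by decide +kernel

theorem chc102 : stC r19o_102 LB = true := by decide +kernel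

theorem chc103 : stC r19o_103 LB = true := by decide +kernel

theorem chc104 : stC r19o_104 LB = true := by decide +kernel

theorem chc105 : stC r19o_105 LB = true := by decide +kernel

theorem chc106 : stC r19o_106 LB = true := by decide +kernel

theorem chc107 : stC r19o_107 LB = true := by decide +kernel

theorem chc108 : stC r19o_108 LB = true := by decide +kernel

theorem chc109 : stC r19o_109 LB = true := by decide +kernel

theorem chc110 : stC r19o_110 LB = true := by decide +kernel

theorem chc111 : stC r19o_111 LB = true := by decide +kernel

theorem chc112 : stC r19o_112 LB = true := by decide +kernel

theorem chc113 : stC r19o_113 LB = true := by decide +kernel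

theorem chc114 : stC r19o_114 LB = true := by decide +kernel

theorem chc115 : stC r19o_115 LB = true := by decide +kernel

theorem chc116 : stC r19o_116 LB = true := by decide +kernel

theorem chc117 : stC r19o_117 LB = true := by decide +kernel

theorem chc118 : stC r19o_118 LB = true := by decide +kernel

theorem chc119 : stC r19o_119 LB = true := by decide +kernel

theorem chc120 : stC r19o_120 LB = true := by decide +kernel

theorem chc121 : stC r19o_121 LB = true := by decide +kernel

theorem chc122 : stC r19o_122 LB = true := by decide +kernel

theorem chc123 : stC r19o_123 LB = true := by decide +kernel

theorem chc124 : stC r19o_124 LB = true := by decide +kernel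

theorem chc125 : stC r19o_125 LB = true := by decide +kernel

theorem chc126 : stC r19o_126 LB = true := by decide +kernel

theorem chc127 : stC r19o_127 LB = true := by decide +kernel

end Pool.Agent.LibH4.CX
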