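import Pool.Agent.Lib_helper4.CX.Bas
import Pool.Agent.Lib_helper4.CX.RecE

/-!
Constant words, all letters at once: results of the first stage, even parity.
-/

namespace Pool.Agent.LibH4.CX

/-- entries -/
def ED0 : List E5 := []

/-- entries -/
def ED1 : List E5 := []

/-- entries -/
def ED2 : List E5 := []

/-- entries -/
def ED3 : List E5 := []

/-- entries -/
def ED4 : List E5 := []

/-- entries -/
def ED5 : List E5 := []

/-- entries -/
def ED6 : List E5 := []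

/-- entries -/
def ED7 : List E5 := []

/-- entries -/
def ED8 : List E5 := []

/-- entries -/
def ED9 : List E5 := []

/-- entries -/
def ED10 : List E5 := [⟨r13e_10, r7e_4, r5e_3, r8e_1, r4e_1, (.st (nat_lit 38219) (nat_lit 76440) (.st (nat_lit 38221) (nat_lit 76440) .nil))⟩,
  ⟨r13e_10, r7e_5, r5e_3, r8e_1, r4e_1, (.st (nat_lit 76439) (nat_lit 76440) (.st (nat_lit 1) (nat_lit 76440) .nil))⟩]

/-- entries -/
def ED11 : List E5 := []

/-- entries -/
def ED12 : List E5 := []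

/-- entries -/
def ED13 : List E5 := []

/-- entries -/
def ED14 : List E5 := []

/-- entries -/
def ED15 : List E5 := []

/-- entries -/
def ED16 : List E5 := []

/-- entries -/
def ED17 : List E5 := []

/-- entries -/
def ED18 : List E5 := []

/-- entries -/
def ED19 : List E5 := []

/-- entries -/
def ED20 : List E5 := []

/-- entries -/
def ED21 : List E5 := [⟨r13e_21, r7e_10, r5e_6, r8e_4, r4e_2, (.st (nat_lit 155) (nat_lit 312) (.st (nat_lit 157) (nat_lit 312) .nil))⟩,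
  ⟨r13e_21, r7e_11, r5e_6, r8e_4, r4e_2, (.st (nat_lit 311) (nat_lit 312) (.st (nat_lit 1) (nat_lit 312) .nil))⟩]

/-- entries -/
def ED22 : List E5 := []

/-- entries -/
def ED23 : List E5 := []

/-- entries -/
def ED24 : List E5 := []

/-- entries -/
def ED25 : List E5 := []

/-- entries -/
def ED26 : List E5 := [⟨r13e_26, r7e_9, r5e_2, r8e_4, r4e_2, (.st (nat_lit 2048) (nat_lit 2730) (.st (nat_lit 682) (nat_lit 2730) .nil))⟩,
  ⟨r13e_26, r7e_9, r5e_2, r8e_6, r4e_2, (.st (nat_lit 683) (nat_lit 2730) (.st (nat_lit 2047) (nat_lit 2730) .nil))⟩,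
  ⟨r13e_26, r7e_9, r5e_5, r8e_4, r4e_2, (.st (nat_lit 2048) (nat_lit 2730) (.st (nat_lit 682) (nat_lit 2730) .nil))⟩,
  ⟨r13e_26, r7e_9, r5e_5, r8e_6, r4e_2, (.st (nat_lit 683) (nat_lit 2730) (.st (nat_lit 2047) (nat_lit 2730) .nil))⟩,
  ⟨r13e_26, r7e_9, r5e_5, r8e_12, r4e_2, (.st (nat_lit 2048) (nat_lit 2730) (.st (nat_lit 682) (nat_lit 2730) .nil))⟩,
  ⟨r13e_26, r7e_9, r5e_5, r8e_14, r4e_2, (.st (nat_lit 683) (nat_lit 2730) (.st (nat_lit 2047) (nat_lit 2730) .nil))⟩]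

/-- entries -/
def ED27 : List E5 := []

/-- entries -/
def ED28 : List E5 := []

/-- entries -/
def ED29 : List E5 := []

/-- entries -/
def ED30 : List E5 := []

/-- entries -/
def ED31 : List E5 := [⟨r13e_31, r7e_1, r5e_9, r8e_4, r4e_2, (.st (nat_lit 2729) (nat_lit 2730) (.st (nat_lit 1) (nat_lit 2730) .nil))⟩,
  ⟨r13e_31, r7e_2, r5e_9, r8e_6, r4e_2, (.st (nat_lit 1364) (nat_lit 2730) (.st (nat_lit 1366) (nat_lit 2730) .nil))⟩]

/-- entries -/
def ED32 : List E5 := [⟨r13e_32, r7e_0, r5e_8, r8e_4, r4e_2, (.st (nat_lit 1364) (nat_lit 2730) (.st (nat_lit 1366) (nat_lit 2730) .nil))⟩,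
  ⟨r13e_32, r7e_0, r5e_8, r8e_6, r4e_2, (.st (nat_lit 2729) (nat_lit 2730) (.st (nat_lit 1) (nat_lit 2730) .nil))⟩]

/-- entries -/
def ED33 : List E5 := []

/-- entries -/
def ED34 : List E5 := []

/-- entries -/
def ED35 : List E5 := []

/-- entries -/
def ED36 : List E5 := [⟨r13e_36, r7e_15, r5e_8, r8e_4, r4e_2, (.st (nat_lit 2729) (nat_lit 2730) (.st (nat_lit 1) (nat_lit 2730) .nil))⟩]

/-- entries -/
def ED37 : List E5 := [⟨r13e_37, r7e_17, r5e_8, r8e_6, r4e_2, (.st (nat_lit 1364) (nat_lit 2730) (.st (nat_lit 1366) (nat_lit 2730) .nil))⟩]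

/-- entries -/
def ED38 : List E5 := [⟨r13e_38, r7e_2, r5e_7, r8e_1, r4e_1, (.st (nat_lit 2729) (nat_lit 2730) (.st (nat_lit 1) (nat_lit 2730) .nil))⟩,
  ⟨r13e_38, r7e_7, r5e_5, r8e_12, r4e_2, (.st (nat_lit 1364) (nat_lit 2730) (.st (nat_lit 1366) (nat_lit 2730) .nil))⟩]

/-- entries -/
def ED39 : List E5 := []

/-- entries -/
def ED40 : List E5 := [⟨r13e_40, r7e_1, r5e_7, r8e_3, r4e_1, (.st (nat_lit 1364) (nat_lit 2730) (.st (nat_lit 1366) (nat_lit 2730) .nil))⟩,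
  ⟨r13e_40, r7e_7, r5e_5, r8e_14, r4e_2, (.st (nat_lit 2729) (nat_lit 2730) (.st (nat_lit 1) (nat_lit 2730) .nil))⟩]

/-- entries -/
def ED41 : List E5 := []

/-- entries -/
def ED42 : List E5 := []

/-- entries -/
def ED43 : List E5 := [⟨r13e_43, r7e_16, r5e_6, r8e_1, r4e_1, (.st (nat_lit 2729) (nat_lit 2730) (.st (nat_lit 1) (nat_lit 2730) .nil))⟩,
  ⟨r13e_43, r7e_1, r5e_4, r8e_12, r4e_2, (.st (nat_lit 1364) (nat_lit 2730) (.st (nat_lit 1366) (nat_lit 2730) .nil))⟩]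

/-- entries -/
def ED44 : List E5 := []

/-- entries -/
def ED45 : List E5 := [⟨r13e_45, r7e_16, r5e_6, r8e_3, r4e_1, (.st (nat_lit 1364) (nat_lit 2730) (.st (nat_lit 1366) (nat_lit 2730) .nil))⟩,
  ⟨r13e_45, r7e_2, r5e_4, r8e_14, r4e_2, (.st (nat_lit 2729) (nat_lit 2730) (.st (nat_lit 1) (nat_lit 2730) .nil))⟩]

/-- entries -/
def ED46 : List E5 := [⟨r13e_46, r7e_6, r5e_3, r8e_9, r4e_1, (.st (nat_lit 1364) (nat_lit 2730) (.st (nat_lit 1366) (nat_lit 2730) .nil))⟩]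

/-- entries -/
def ED47 : List E5 := [⟨r13e_47, r7e_8, r5e_3, r8e_11, r4e_1, (.st (nat_lit 2729) (nat_lit 2730) (.st (nat_lit 1) (nat_lit 2730) .nil))⟩]

/-- entries -/
def ED48 : List E5 := []

/-- entries -/
def ED49 : List E5 := []

/-- entries -/
def ED50 : List E5 := []

/-- entries -/
def ED51 : List E5 := [⟨r13e_51, r7e_0, r5e_3, r8e_9, r4e_1, (.st (nat_lit 2729) (nat_lit 2730) (.st (nat_lit 1) (nat_lit 2730) .nil))⟩,
  ⟨r13e_51, r7e_0, r5e_3, r8e_11, r4e_1, (.st (nat_lit 1364) (nat_lit 2730) (.st (nat_lit 1366) (nat_lit 2730) .nil))⟩]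

/-- entries -/
def ED52 : List E5 := [⟨r13e_52, r7e_1, r5e_2, r8e_11, r4e_1, (.st (nat_lit 2729) (nat_lit 2730) (.st (nat_lit 1) (nat_lit 2730) .nil))⟩,
  ⟨r13e_52, r7e_2, r5e_2, r8e_9, r4e_1, (.st (nat_lit 1364) (nat_lit 2730) (.st (nat_lit 1366) (nat_lit 2730) .nil))⟩]

/-- entries -/
def ED53 : List E5 := []

/-- entries -/
def ED54 : List E5 := []

/-- entries -/
def ED55 : List E5 := []

/-- entries -/
def ED56 : List E5 := []

/-- entries -/
def ED57 : List E5 := [⟨r13e_57, r7e_14, r5e_6, r8e_1, r4e_1, (.st (nat_lit 683) (nat_lit 2730) (.st (nat_lit 2047) (nat_lit 2730) .nil))⟩,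
  ⟨r13e_57, r7e_14, r5e_6, r8e_3, r4e_1, (.st (nat_lit 2048) (nat_lit 2730) (.st (nat_lit 682) (nat_lit 2730) .nil))⟩,
  ⟨r13e_57, r7e_14, r5e_6, r8e_9, r4e_1, (.st (nat_lit 683) (nat_lit 2730) (.st (nat_lit 2047) (nat_lit 2730) .nil))⟩,
  ⟨r13e_57, r7e_14, r5e_6, r8e_11, r4e_1, (.st (nat_lit 2048) (nat_lit 2730) (.st (nat_lit 682) (nat_lit 2730) .nil))⟩,
  ⟨r13e_57, r7e_14, r5e_9, r8e_9, r4e_1, (.st (nat_lit 683) (nat_lit 2730) (.st (nat_lit 2047) (nat_lit 2730) .nil))⟩,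
  ⟨r13e_57, r7e_14, r5e_9, r8e_11, r4e_1, (.st (nat_lit 2048) (nat_lit 2730) (.st (nat_lit 682) (nat_lit 2730) .nil))⟩]

/-- entries -/
def ED58 : List E5 := []

/-- entries -/
def ED59 : List E5 := []

/-- entries -/
def ED60 : List E5 := []

/-- entries -/
def ED61 : List E5 := []

/-- entries -/
def ED62 : List E5 := [⟨r13e_62, r7e_12, r5e_5, r8e_11, r4e_1, (.st (nat_lit 311) (nat_lit 312) (.st (nat_lit 1) (nat_lit 312) .nil))⟩,
  ⟨r13e_62, r7e_13, r5e_5, r8e_11, r4e_1, (.st (nat_lit 155) (nat_lit 312) (.st (nat_lit 157) (nat_lit 312) .nil))⟩]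

/-- entries -/
def ED63 : List E5 := []

/-- entries -/
def ED64 : List E5 := []

/-- entries -/
def ED65 : List E5 := []

/-- entries -/
def ED66 : List E5 := []

/-- entries -/
def ED67 : List E5 := []

/-- entries -/
def ED68 : List E5 := []

/-- entries -/
def ED69 : List E5 := []

/-- entries -/
def ED70 : List E5 := []

/-- entries -/
def ED71 : List E5 := []

/-- entries -/
def ED72 : List E5 := []

/-- entries -/
def ED73 : List E5 := [⟨r13e_73, r7e_18, r5e_8, r8e_14, r4e_2, (.st (nat_lit 76439) (nat_lit 76440) (.st (nat_lit 1) (nat_lit 76440) .nil))⟩,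
  ⟨r13e_73, r7e_19, r5e_8, r8e_14, r4e_2, (.st (nat_lit 38219) (nat_lit 76440) (.st (nat_lit 38221) (nat_lit 76440) .nil))⟩]

/-- entries -/
def ED74 : List E5 := []

/-- entries -/
def ED75 : List E5 := []

/-- entries -/
def ED76 : List E5 := []

/-- entries -/
def ED77 : List E5 := []

/-- all entries -/
def LD : List (List E5) := [ED0, ED1, ED2, ED3, ED4, ED5, ED6, ED7, ED8, ED9, ED10, ED11, ED12, ED13, ED14, ED15, ED16, ED17, ED18, ED19, ED20, ED21, ED22, ED23, ED24, ED25, ED26, ED27, ED28, ED29, ED30, ED31, ED32, ED33, ED34, ED35, ED36, ED37, ED38, ED39, ED40, ED41, ED42, ED43, ED44, ED45, ED46, ED47, ED48, ED49, ED50, ED51, ED52, ED53, ED54, ED55, ED56, ED57, ED58, ED59, ED60, ED61, ED62, ED63, ED64, ED65, ED66, ED67, ED68, ED69, ED70, ED71, ED72, ED73, ED74, ED75, ED76, ED77]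

end Pool.Agent.LibH4.CX
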