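import Pool.Agent.Lib_helper4.CX.StA
import Pool.Agent.Lib_helper4.CX.ED

/-!
Constant words, all letters at once: the first stage, even parity.
-/

set_option maxRecDepth 100000

namespace Pool.Agent.LibH4.CX

theorem chd0 : stD r13e_0 ED0 = true := by decide +kernel

theorem chd1 : stD r13e_1 ED1 = true := by decide +kernel

theorem chd2 : stD r13e_2 ED2 = true := by decide +kernel

theorem chd3 : stD r13e_3 ED3 = true := by decide +kernel

theorem chd4 : stD r13e_4 ED4 = true := by decide +kernel

theorem chd5 : stD r13e_5 ED5 = true := by decide +kernel

theorem chd6 : stD r13e_6 ED6 = true := by decide +kernel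

theorem chd7 : stD r13e_7 ED7 = true := by decide +kernel

theorem chd8 : stD r13e_8 ED8 = true := by decide +kernel

theorem chd9 : stD r13e_9 ED9 = true := by decide +kernel

theorem chd10 : stD r13e_10 ED10 = true := by decide +kernel

theorem chd11 : stD r13e_11 ED11 = true := by decide +kernel

theorem chd12 : stD r13e_12 ED12 = true := by decide +kernel

theorem chd13 : stD r13e_13 ED13 = true := by decide +kernel

theorem chd14 : stD r13e_14 ED14 = true := by decide +kernel

theorem chd15 : stD r13e_15 ED15 = true := by decide +kernel

theorem chd16 : stD r13e_16 ED16 = true := by decide +kernel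

theorem chd17 : stD r13e_17 ED17 = true := by decide +kernel

theorem chd18 : stD r13e_18 ED18 = true := by decide +kernel

theorem chd19 : stD r13e_19 ED19 = true := by decide +kernel

theorem chd20 : stD r13e_20 ED20 = true := by decide +kernel

theorem chd21 : stD r13e_21 ED21 = true := by decide +kernel

theorem chd22 : stD r13e_22 ED22 = true := by decide +kernel

theorem chd23 : stD r13e_23 ED23 = true := by decide +kernel

theorem chd24 : stD r13e_24 ED24 = true := by decide +kernel

theorem chd25 : stD r13e_25 ED25 = true := by decide +kernel

end Pool.Agent.LibH4.CX
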