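import Pool.Agent.Lib_helper4.CX.StA
import Pool.Agent.Lib_helper4.CX.ED

/-!
Constant words, all letters at once: the first stage, even parity.
-/

set_option maxRecDepth 100000

namespace Pool.Agent.LibH4.CX

theorem chd26 : stD r13e_26 ED26 = true := by decide +kernel

theorem chd27 : stD r13e_27 ED27 = true := by decide +kernel

theorem chd28 : stD r13e_28 ED28 = true := by decide +kernel

theorem chd29 : stD r13e_29 ED29 = true := by decide +kernel

theorem chd30 : stD r13e_30 ED30 = true := by decide +kernel

theorem chd31 : stD r13e_31 ED31 = true := by decide +kernel

theorem chd32 : stD r13e_32 ED32 = true := by decide +kernel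

theorem chd33 : stD r13e_33 ED33 = true := by decide +kernel

theorem chd34 : stD r13e_34 ED34 = true := by decide +kernel

theorem chd35 : stD r13e_35 ED35 = true := by decide +kernel

theorem chd36 : stD r13e_36 ED36 = true := by decide +kernel

theorem chd37 : stD r13e_37 ED37 = true := by decide +kernel

theorem chd38 : stD r13e_38 ED38 = true := by decide +kernel

theorem chd39 : stD r13e_39 ED39 = true := by decide +kernel

theorem chd40 : stD r13e_40 ED40 = true := by decide +kernel

theorem chd41 : stD r13e_41 ED41 = true := by decide +kernel

theorem chd42 : stD r13e_42 ED42 = true := by decide +kernel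

theorem chd43 : stD r13e_43 ED43 = true := by decide +kernel

theorem chd44 : stD r13e_44 ED44 = true := by decide +kernel

theorem chd45 : stD r13e_45 ED45 = true := by decide +kernel

theorem chd46 : stD r13e_46 ED46 = true := by decide +kernel

theorem chd47 : stD r13e_47 ED47 = true := by decide +kernel

theorem chd48 : stD r13e_48 ED48 = true := by decide +kernel

theorem chd49 : stD r13e_49 ED49 = true := by decide +kernel

theorem chd50 : stD r13e_50 ED50 = true := by decide +kernel

theorem chd51 : stD r13e_51 ED51 = true := by decide +kernel

end Pool.Agent.LibH4.CX
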