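import Pool.Agent.Lib_helper4.CX.StA
import Pool.Agent.Lib_helper4.CX.ED

/-!
Constant words, all letters at once: the first stage, even parity.
-/

set_option maxRecDepth 100000

namespace Pool.Agent.LibH4.CX

theorem chd52 : stD r13e_52 ED52 = true := by decide +kernel

theorem chd53 : stD r13e_53 ED53 = true := by decide +kernel

theorem chd54 : stD r13e_54 ED54 = true := by decide +kernel

theorem chd55 : stD r13e_55 ED55 = true := by decide +kernel

theorem chd56 : stD r13e_56 ED56 = true := by decide +kernel

theorem chd57 : stD r13e_57 ED57 = true := by decide +kernel

theorem chd58 : stD r13e_58 ED58 = true := by decide +kernel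

theorem chd59 : stD r13e_59 ED59 = true := by decide +kernel

theorem chd60 : stD r13e_60 ED60 = true := by decide +kernel

theorem chd61 : stD r13e_61 ED61 = true := by decide +kernel

theorem chd62 : stD r13e_62 ED62 = true := by decide +kernel

theorem chd63 : stD r13e_63 ED63 = true := by decide +kernel

theorem chd64 : stD r13e_64 ED64 = true := by decide +kernel

theorem chd65 : stD r13e_65 ED65 = true := by decide +kernel

theorem chd66 : stD r13e_66 ED66 = true := by decide +kernel

theorem chd67 : stD r13e_67 ED67 = true := by decide +kernel

theorem chd68 : stD r13e_68 ED68 = true := by decide +kernel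

theorem chd69 : stD r13e_69 ED69 = true := by decide +kernel

theorem chd70 : stD r13e_70 ED70 = true := by decide +kernel

theorem chd71 : stD r13e_71 ED71 = true := by decide +kernel

theorem chd72 : stD r13e_72 ED72 = true := by decide +kernel

theorem chd73 : stD r13e_73 ED73 = true := by decide +kernel

theorem chd74 : stD r13e_74 ED74 = true := by decide +kernel

theorem chd75 : stD r13e_75 ED75 = true := by decide +kernel

theorem chd76 : stD r13e_76 ED76 = true := by decide +kernel

theorem chd77 : stD r13e_77 ED77 = true := by decide +kernel

end Pool.Agent.LibH4.CX
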