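import Pool.Agent.Lib_helper4.CX.StA
import Pool.Agent.Lib_helper4.CX.ED

/-!
Constant words, all letters at once: the second stage, even parity.
-/

set_option maxRecDepth 100000

namespace Pool.Agent.LibH4.CX

theorem chf0 : stF r17e_0 LD = true := by decide +kernel

theorem chf1 : stF r17e_1 LD = true := by decide +kernel

theorem chf2 : stF r17e_2 LD = true := by decide +kernel

theorem chf3 : stF r17e_3 LD = true := by decide +kernel

theorem chf4 : stF r17e_4 LD = true := by decide +kernel

theorem chf5 : stF r17e_5 LD = true := by decide +kernel

theorem chf6 : stF r17e_6 LD = true := by decide +kernel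

theorem chf7 : stF r17e_7 LD = true := by decide +kernel

theorem chf8 : stF r17e_8 LD = true := by decide +kernel

theorem chf9 : stF r17e_9 LD = true := by decide +kernel

theorem chf10 : stF r17e_10 LD = true := by decide +kernel

theorem chf11 : stF r17e_11 LD = true := by decide +kernel

theorem chf12 : stF r17e_12 LD = true := by decide +kernel

theorem chf13 : stF r17e_13 LD = true := by decide +kernel

theorem chf14 : stF r17e_14 LD = true := by decide +kernel

theorem chf15 : stF r17e_15 LD = true := by decide +kernel

theorem chf16 : stF r17e_16 LD = true := by decide +kernel

theorem chf17 : stF r17e_17 LD = true := by decide +kernel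

theorem chf18 : stF r17e_18 LD = true := by decide +kernel

theorem chf19 : stF r17e_19 LD = true := by decide +kernel

theorem chf20 : stF r17e_20 LD = true := by decide +kernel

theorem chf21 : stF r17e_21 LD = true := by decide +kernel

theorem chf22 : stF r17e_22 LD = true := by decide +kernel

theorem chf23 : stF r17e_23 LD = true := by decide +kernel

theorem chf24 : stF r17e_24 LD = true := by decide +kernel

theorem chf25 : stF r17e_25 LD = true := by decide +kernel

theorem chf26 : stF r17e_26 LD = true := by decide +kernel

theorem chf27 : stF r17e_27 LD = true := by decide +kernel

theorem chf28 : stF r17e_28 LD = true := by decide +kernel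

theorem chf29 : stF r17e_29 LD = true := by decide +kernel

theorem chf30 : stF r17e_30 LD = true := by decide +kernel

theorem chf31 : stF r17e_31 LD = true := by decide +kernel

theorem chf32 : stF r17e_32 LD = true := by decide +kernel

theorem chf33 : stF r17e_33 LD = true := by decide +kernel

theorem chf34 : stF r17e_34 LD = true := by decide +kernel

theorem chf35 : stF r17e_35 LD = true := by decide +kernel

theorem chf36 : stF r17e_36 LD = true := by decide +kernel

theorem chf37 : stF r17e_37 LD = true := by decide +kernel

theorem chf38 : stF r17e_38 LD = true := by decide +kernel

theorem chf39 : stF r17e_39 LD = true := by decide +kernel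

theorem chf40 : stF r17e_40 LD = true := by decide +kernel

theorem chf41 : stF r17e_41 LD = true := by decide +kernel

theorem chf42 : stF r17e_42 LD = true := by decide +kernel

theorem chf43 : stF r17e_43 LD = true := by decide +kernel

theorem chf44 : stF r17e_44 LD = true := by decide +kernel

theorem chf45 : stF r17e_45 LD = true := by decide +kernel

end Pool.Agent.LibH4.CX
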