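import Pool.Agent.Lib_helper4.CX.StA
import Pool.Agent.Lib_helper4.CX.ED

/-!
Constant words, all letters at once: the second stage, even parity.
-/

set_option maxRecDepth 100000

namespace Pool.Agent.LibH4.CX

theorem chf46 : stF r17e_46 LD = true := by decide +kernel

theorem chf47 : stF r17e_47 LD = true := by decide +kernel

theorem chf48 : stF r17e_48 LD = true := by decide +kernel

theorem chf49 : stF r17e_49 LD = true := by decide +kernel

theorem chf50 : stF r17e_50 LD = true := by decide +kernel

theorem chf51 : stF r17e_51 LD = true := by decide +kernel

theorem chf52 : stF r17e_52 LD = true := by decide +kernel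

theorem chf53 : stF r17e_53 LD = true := by decide +kernel

theorem chf54 : stF r17e_54 LD = true := by decide +kernel

theorem chf55 : stF r17e_55 LD = true := by decide +kernel

theorem chf56 : stF r17e_56 LD = true := by decide +kernel

theorem chf57 : stF r17e_57 LD = true := by decide +kernel

theorem chf58 : stF r17e_58 LD = true := by decide +kernel

theorem chf59 : stF r17e_59 LD = true := by decide +kernel

theorem chf60 : stF r17e_60 LD = true := by decide +kernel

theorem chf61 : stF r17e_61 LD = true := by decide +kernel

theorem chf62 : stF r17e_62 LD = true := by decide +kernel

theorem chf63 : stF r17e_63 LD = true := by decide +kernel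

theorem chf64 : stF r17e_64 LD = true := by decide +kernel

theorem chf65 : stF r17e_65 LD = true := by decide +kernel

theorem chf66 : stF r17e_66 LD = true := by decide +kernel

theorem chf67 : stF r17e_67 LD = true := by decide +kernel

theorem chf68 : stF r17e_68 LD = true := by decide +kernel

theorem chf69 : stF r17e_69 LD = true := by decide +kernel

theorem chf70 : stF r17e_70 LD = true := by decide +kernel

theorem chf71 : stF r17e_71 LD = true := by decide +kernel

theorem chf72 : stF r17e_72 LD = true := by decide +kernel

theorem chf73 : stF r17e_73 LD = true := by decide +kernel

theorem chf74 : stF r17e_74 LD = true := by decide +kernel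

theorem chf75 : stF r17e_75 LD = true := by decide +kernel

theorem chf76 : stF r17e_76 LD = true := by decide +kernel

theorem chf77 : stF r17e_77 LD = true := by decide +kernel

theorem chf78 : stF r17e_78 LD = true := by decide +kernel

theorem chf79 : stF r17e_79 LD = true := by decide +kernel

theorem chf80 : stF r17e_80 LD = true := by decide +kernel

theorem chf81 : stF r17e_81 LD = true := by decide +kernel

theorem chf82 : stF r17e_82 LD = true := by decide +kernel

theorem chf83 : stF r17e_83 LD = true := by decide +kernel

theorem chf84 : stF r17e_84 LD = true := by decide +kernel

theorem chf85 : stF r17e_85 LD = true := by decide +kernel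

theorem chf86 : stF r17e_86 LD = true := by decide +kernel

theorem chf87 : stF r17e_87 LD = true := by decide +kernel

theorem chf88 : stF r17e_88 LD = true := by decide +kernel

theorem chf89 : stF r17e_89 LD = true := by decide +kernel

theorem chf90 : stF r17e_90 LD = true := by decide +kernel

theorem chf91 : stF r17e_91 LD = true := by decide +kernel

end Pool.Agent.LibH4.CX
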