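import Pool.Agent.Lib_helper4.CX.StA
import Pool.Agent.Lib_helper4.CX.ED

/-!
Constant words, all letters at once: the second stage, even parity.
-/

set_option maxRecDepth 100000

namespace Pool.Agent.LibH4.CX

theorem chf92 : stF r17e_92 LD = true := by decide +kernel

theorem chf93 : stF r17e_93 LD = true := by decide +kernel

theorem chf94 : stF r17e_94 LD = true := by decide +kernel

theorem chf95 : stF r17e_95 LD = true := by decide +kernel

theorem chf96 : stF r17e_96 LD = true := by decide +kernel

theorem chf97 : stF r17e_97 LD = true := by decide +kernel

theorem chf98 : stF r17e_98 LD = true := by decide +kernel

theorem chf99 : stF r17e_99 LD = true := by decide +kernel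

theorem chf100 : stF r17e_100 LD = true := by decide +kernel

theorem chf101 : stF r17e_101 LD = true := by decide +kernel

theorem chf102 : stF r17e_102 LD = true := by decide +kernel

theorem chf103 : stF r17e_103 LD = true := by decide +kernel

theorem chf104 : stF r17e_104 LD = true := by decide +kernel

theorem chf105 : stF r17e_105 LD = true := by decide +kernel

theorem chf106 : stF r17e_106 LD = true := by decide +kernel

theorem chf107 : stF r17e_107 LD = true := by decide +kernel

theorem chf108 : stF r17e_108 LD = true := by decide +kernel

theorem chf109 : stF r17e_109 LD = true := by decide +kernel

theorem chf110 : stF r17e_110 LD = true := by decide +kernel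

theorem chf111 : stF r17e_111 LD = true := by decide +kernel

theorem chf112 : stF r17e_112 LD = true := by decide +kernel

theorem chf113 : stF r17e_113 LD = true := by decide +kernel

theorem chf114 : stF r17e_114 LD = true := by decide +kernel

theorem chf115 : stF r17e_115 LD = true := by decide +kernel

theorem chf116 : stF r17e_116 LD = true := by decide +kernel

theorem chf117 : stF r17e_117 LD = true := by decide +kernel

theorem chf118 : stF r17e_118 LD = true := by decide +kernel

theorem chf119 : stF r17e_119 LD = true := by decide +kernel

theorem chf120 : stF r17e_120 LD = true := by decide +kernel

theorem chf121 : stF r17e_121 LD = true := by decide +kernel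

theorem chf122 : stF r17e_122 LD = true := by decide +kernel

theorem chf123 : stF r17e_123 LD = true := by decide +kernel

theorem chf124 : stF r17e_124 LD = true := by decide +kernel

theorem chf125 : stF r17e_125 LD = true := by decide +kernel

theorem chf126 : stF r17e_126 LD = true := by decide +kernel

theorem chf127 : stF r17e_127 LD = true := by decide +kernel

theorem chf128 : stF r17e_128 LD = true := by decide +kernel

theorem chf129 : stF r17e_129 LD = true := by decide +kernel

theorem chf130 : stF r17e_130 LD = true := by decide +kernel

theorem chf131 : stF r17e_131 LD = true := by decide +kernel

theorem chf132 : stF r17e_132 LD = true := by decide +kernel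

theorem chf133 : stF r17e_133 LD = true := by decide +kernel

theorem chf134 : stF r17e_134 LD = true := by decide +kernel

theorem chf135 : stF r17e_135 LD = true := by decide +kernel

end Pool.Agent.LibH4.CX
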