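import Pool.Agent.Lib_helper4.CX.Ker
import Pool.Agent.Lib_helper4.CX.RecO
import Pool.Agent.Lib_helper4.CX.RecE
import Pool.Agent.Lib_helper4.CX.Rel

/-!
Constant words, all letters at once: the stages.
-/

namespace Pool.Agent.LibH4.CX

open Pool.Agent.LibH4.Ker Pool.Agent.Lib_helper5.TB Pool.Agent.LibH4.CW

/-! ### odd parity -/

/-- first stage -/
noncomputable def stA (r13 : Rc) (E : List E3) : Bool :=
  (fun s => allL (fun r7 => (fun s => ne s (allL (fun r5 =>
      (fun s => ne s ((fun s => ne s ((fun s => ne s (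
        (fun s => in3 E r13 r7 r5 (filT c13 s))
      (relX false n455F13d r13 r7 r5 r13 s)))
      (relX false n455F13c r13 r7 r5 r13 s)))
      (relX false n455F13b r13 r7 r5 r13 s)))
      (relX false n455F13a r13 r7 r5 r13 s)) F5o))
    (relX false n91F13 r13 r7 r1o_0 r13 s)) F7o)
    (lft r13.pi (Tr.st (nat_lit 0) (nat_lit 1) Tr.nil))

/-- compatible records -/
def F84o : List (Rc × Rc) := [(r8o_0, r4o_0), (r8o_1, r4o_1), (r8o_2, r4o_0), (r8o_3, r4o_1),
  (r8o_4, r4o_2), (r8o_5, r4o_3), (r8o_6, r4o_2), (r8o_7, r4o_3),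
  (r8o_8, r4o_4), (r8o_9, r4o_5), (r8o_10, r4o_4), (r8o_11, r4o_5),
  (r8o_12, r4o_6), (r8o_13, r4o_7), (r8o_14, r4o_6), (r8o_15, r4o_7),
  (r8o_16, r4o_0), (r8o_17, r4o_1), (r8o_18, r4o_0), (r8o_19, r4o_1),
  (r8o_20, r4o_2), (r8o_21, r4o_3), (r8o_22, r4o_2), (r8o_23, r4o_3),
  (r8o_24, r4o_4), (r8o_25, r4o_5), (r8o_26, r4o_4), (r8o_27, r4o_5),
  (r8o_28, r4o_6), (r8o_29, r4o_7), (r8o_30, r4o_6), (r8o_31, r4o_7)]

/-- second stage, end -/
noncomputable def stB3 (E : List E7) (r17 r13 r7 r5 r8 r4 : Rc) (s : Tr) : Bool :=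
  allL (fun r11 => (fun s => ne s ((fun s => ne s ((fun s => ne s ((fun s => ne s (
    (fun s => ne s ((fun s => ne s ((fun s => ne s (
      in7 E r17 r13 r7 r5 r8 r4 r11 (filT c13 (relX false n572N5 r11 r13 r4 r5 s))))
      (relX false n187F17a r17 r11 r1o_0 r17 s)))
      (relX false n616F11 r11 r7 r8 r11 s)))
      (relX false n88F11 r11 r8 r1o_0 r11 s)))
      (relX false n143N7 r11 r13 r1o_0 r7 s)))
      (relX false n143N5 r11 r13 r1o_0 r5 s)))
      (relX false n308F7 r11 r7 r4 r7 s)))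
      (filT c13 (relX false n616N13 r11 r7 r8 r13 s))) F11o

/-- second stage, middle -/
noncomputable def stB2 (E : List E7) (r17 r13 r7 r5 : Rc) (s : Tr) : Bool :=
  allL (fun p => @Prod.rec Rc Rc (fun _ => Bool) (fun r8 r4 =>
    (fun s => ne s ((fun s => ne s ((fun s => ne s ((fun s => ne s (
    (fun s => ne s ((fun s => ne s ((fun s => ne s ((fun s => ne s (
      stB3 E r17 r13 r7 r5 r8 r4 s))
      (relX false n728N5 r13 r7 r8 r5 s)))
      (relX false n520F5 r13 r5 r8 r5 s)))
      (filT c13 (relX false n680N13 r17 r5 r8 r13 s))))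
      (relX false n728F13 r13 r7 r8 r13 s)))
      (filT c13 (relX false n140N13 r7 r5 r4 r13 s))))
      (relX false n260F13 r13 r5 r4 r13 s)))
      (relX false n364F13b r13 r7 r4 r13 s)))
      (relX false n364F13a r13 r7 r4 r13 s)) p) F84o

/-- second stage -/
noncomputable def stB (r17 : Rc) (G : List (List E3)) (E : List E7) : Bool :=
  allL (fun G => allL (fun e => @E3.rec (fun _ => Bool) (fun r13 r7 r5 s =>
    (fun s => ne s ((fun s => ne s ((fun s => ne s ((fun s => ne s ((fun s => ne s (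
      stB2 E r17 r13 r7 r5 s))
      (filT c13 (relX false n595N13b r17 r7 r5 r13 s))))
      (relX false n595N13a r17 r7 r5 r13 s)))
      (relX false n221N5 r17 r13 r1o_0 r5 s)))
      (relX false n119N5 r17 r7 r1o_0 r5 s)))
      (filT c13 (relX false n119N13 r17 r7 r1o_0 r13 s))) e) G) G

/-- third stage -/
noncomputable def stC (r19 : Rc) (G : List (List E7)) : Bool :=
  allL (fun G => allL (fun e => @E7.rec (fun _ => Bool) (fun r17 r13 r7 r5 r8 _ r11 s =>
    (fun s => ne s ((fun s => ne s ((fun s => ne s ((fun s => ne s ((fun s => ne s (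
    (fun s => ne s (
      nilT (relX false n935N7 r17 r11 r5 r7 s)))
      (relX false n152F19b r19 r8 r1o_0 r19 s)))
      (relX false n152F19a r19 r8 r1o_0 r19 s)))
      (relX false n247F19a r19 r13 r1o_0 r19 s)))
      (relX false n95F19 r19 r5 r1o_0 r19 s)))
      (filT c13 (relX false n95N13 r19 r5 r1o_0 r13 s))))
      (relX false n133N13 r19 r7 r1o_0 r13 s)) e) G) G

/-! ### even parity -/

/-- compatible records -/
def F48e : List (Rc × List Rc) := [(r4e_0, [r8e_0, r8e_2, r8e_8, r8e_10]),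
  (r4e_1, [r8e_1, r8e_3, r8e_9, r8e_11]),
  (r4e_2, [r8e_4, r8e_6, r8e_12, r8e_14]),
  (r4e_3, [r8e_5, r8e_7, r8e_13, r8e_15])]

/-- first stage -/
noncomputable def stD (r13 : Rc) (E : List E5) : Bool :=
  allL (fun p => @Prod.rec Rc (List Rc) (fun _ => Bool) (fun r4 F8 =>
  (fun s => ne s (allL (fun r7 => (fun s => ne s ((fun s => ne s ((fun s => ne s (
    allL (fun r5 =>
      (fun s => ne s ((fun s => ne s ((fun s => ne s ((fun s => ne s ((fun s => ne s (
      allL (fun r8 =>
        (fun s => ne s ((fun s => ne s ((fun s => ne s ((fun s => ne s (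
          in5 E r13 r7 r5 r8 r4 (relX true n520N7 r13 r5 r8 r7 s)))
          (relX true n520F5 r13 r5 r8 r5 s)))
          (relX true n728N5 r13 r7 r8 r5 s)))
          (relX true n728F7 r13 r7 r8 r7 s)))
          (relX true n728F13 r13 r7 r8 r13 s)) F8))
      (relX true n260F13 r13 r5 r4 r13 s)))
      (relX true n140N13 r7 r5 r4 r13 s)))
      (relX true n455F13c r13 r7 r5 r13 s)))
      (relX true n455F13b r13 r7 r5 r13 s)))
      (relX true n455F13a r13 r7 r5 r13 s)) F5e))
    (relX true n364F13b r13 r7 r4 r13 s)))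
    (relX true n364F13a r13 r7 r4 r13 s)))
    (relX true n91F13 r13 r7 r1e_0 r13 s)) F7e))
    (lft r13.pi (filT (fun n _ => c4 r4.orb r4.pi n)
      (lft r4.pi (Tr.st (nat_lit 0) (nat_lit 1) Tr.nil))))) p) F48e

/-- second stage, end -/
noncomputable def stF3 (r17 r13 r7 r5 r8 r4 r11 : Rc) (s : Tr) : Bool :=
  allL (fun r19 =>
    (fun s => ne s ((fun s => ne s ((fun s => ne s ((fun s => ne s ((fun s => ne s (
      nilT (relX true n152F19b r19 r8 r1e_0 r19 s)))
      (relX true n152F19a r19 r8 r1e_0 r19 s)))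
      (relX true n247F19a r19 r13 r1e_0 r19 s)))
      (relX true n95F19 r19 r5 r1e_0 r19 s)))
      (relX true n95N13 r19 r5 r1e_0 r13 s)))
      (relX true n133N13 r19 r7 r1e_0 r13 s)) F19e

/-- second stage, middle -/
noncomputable def stF2 (r17 r13 r7 r5 r8 r4 : Rc) (s : Tr) : Bool :=
  allL (fun r11 => (fun s => ne s ((fun s => ne s ((fun s => ne s ((fun s => ne s (
    (fun s => ne s ((fun s => ne s ((fun s => ne s ((fun s => ne s ((fun s => ne s (
    (fun s => ne s ((fun s => ne s (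
      stF3 r17 r13 r7 r5 r8 r4 r11 s))
      (relX true n935N7 r17 r11 r5 r7 s)))
      (relX true n715N7 r11 r13 r5 r7 s)))
      (relX true n572N5 r11 r13 r4 r5 s)))
      (relX true n187F17b r17 r11 r1e_0 r17 s)))
      (relX true n187F17a r17 r11 r1e_0 r17 s)))
      (relX true n616F11 r11 r7 r8 r11 s)))
      (relX true n88F11 r11 r8 r1e_0 r11 s)))
      (relX true n143N7 r11 r13 r1e_0 r7 s)))
      (relX true n143N5 r11 r13 r1e_0 r5 s)))
      (relX true n308F7 r11 r7 r4 r7 s)))
      (relX true n616N13 r11 r7 r8 r13 s)) F11e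

/-- second stage -/
noncomputable def stF (r17 : Rc) (G : List (List E5)) : Bool :=
  allL (fun G => allL (fun e => @E5.rec (fun _ => Bool) (fun r13 r7 r5 r8 r4 s =>
    (fun s => ne s ((fun s => ne s ((fun s => ne s ((fun s => ne s ((fun s => ne s (
    (fun s => ne s (
      stF2 r17 r13 r7 r5 r8 r4 s))
      (relX true n595N13b r17 r7 r5 r13 s)))
      (relX true n595N13a r17 r7 r5 r13 s)))
      (relX true n680N13 r17 r5 r8 r13 s)))
      (relX true n221N5 r17 r13 r1e_0 r5 s)))
      (relX true n119N5 r17 r7 r1e_0 r5 s)))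
      (relX true n119N13 r17 r7 r1e_0 r13 s)) e) G) G

end Pool.Agent.LibH4.CX
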