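import Pool.Agent.Lib_helper4.CX.Rc
import Pool.Agent.Lib_helper4.CX.StA

/-!
Constant words, all letters at once: checks of the lists of records.
-/

set_option maxRecDepth 100000

namespace Pool.Agent.LibH4.CX

open Finset Pool.Agent.Lib_helper5 Pool.Agent.Lib_helper5.LK Pool.Agent.LibH4.Ker
  Pool.Agent.LibH4.KF Pool.Agent.LibH4.T6 Pool.Agent.Lib_helper5.TB Pool.Agent.LibH4.S7
  Pool.Agent.LibH4.CW

lemma rk1o : recCk false (cof 1) F1o = true := by decide +kernel
lemma rk4o : recCk false (cof 4) F4o = true := by decide +kernel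
lemma rk5o : recCk false (cof 5) F5o = true := by decide +kernel
lemma rk7o : recCk false (cof 7) F7o = true := by decide +kernel
lemma rk8o : recCk false (cof 8) F8o = true := by decide +kernel
lemma rk11o : recCk false (cof 11) F11o = true := by decide +kernel
lemma rk13o : recCk false (cof 13) F13o = true := by decide +kernel
lemma rk17o : recCk false (cof 17) F17o = true := by decide +kernel
lemma rk19o : recCk false (cof 19) F19o = true := by decide +kernel
lemma rk1e : recCk true (cof 1) F1e = true := by decide +kernel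
lemma rk4e : recCk true (cof 4) F4e = true := by decide +kernel
lemma rk5e : recCk true (cof 5) F5e = true := by decide +kernel
lemma rk7e : recCk true (cof 7) F7e = true := by decide +kernel
lemma rk8e : recCk true (cof 8) F8e = true := by decide +kernel
lemma rk11e : recCk true (cof 11) F11e = true := by decide +kernel
lemma rk13e : recCk true (cof 13) F13e = true := by decide +kernel
lemma rk17e : recCk true (cof 17) F17e = true := by decide +kernel
lemma rk19e : recCk true (cof 19) F19e = true := by decide +kernel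

lemma lk_o : lkO F8o F4o F84o = true := by decide +kernel
lemma lk_e : lkE F8e F4e F48e = true := by decide +kernel

variable {a N : ℕ} {e : ℕ → ℤ × ℤ × ℤ}

lemma ex1o (W : World false a e N) : ∃ r ∈ F1o, RT false a e 1 r :=
  rec_spec (n := 1) W ok1 rfl rk1o
lemma ex4o (W : World false a e N) : ∃ r ∈ F4o, RT false a e 4 r :=
  rec_spec (n := 4) W ok4 rfl rk4o
lemma ex5o (W : World false a e N) : ∃ r ∈ F5o, RT false a e 5 r :=
  rec_spec (n := 5) W ok5 rfl rk5o
lemma ex7o (W : World false a e N) : ∃ r ∈ F7o, RT false a e 7 r :=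
  rec_spec (n := 7) W ok7 rfl rk7o
lemma ex8o (W : World false a e N) : ∃ r ∈ F8o, RT false a e 8 r :=
  rec_spec (n := 8) W ok8 rfl rk8o
lemma ex11o (W : World false a e N) : ∃ r ∈ F11o, RT false a e 11 r :=
  rec_spec (n := 11) W ok11 rfl rk11o
lemma ex13o (W : World false a e N) : ∃ r ∈ F13o, RT false a e 13 r :=
  rec_spec (n := 13) W ok13 rfl rk13o
lemma ex17o (W : World false a e N) : ∃ r ∈ F17o, RT false a e 17 r :=
  rec_spec (n := 17) W ok17 rfl rk17o
lemma ex19o (W : World false a e N) : ∃ r ∈ F19o, RT false a e 19 r :=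
  rec_spec (n := 19) W ok19 rfl rk19o
lemma ex1e (W : World true a e N) : ∃ r ∈ F1e, RT true a e 1 r :=
  rec_spec (n := 1) W ok1 rfl rk1e
lemma ex4e (W : World true a e N) : ∃ r ∈ F4e, RT true a e 4 r :=
  rec_spec (n := 4) W ok4 rfl rk4e
lemma ex5e (W : World true a e N) : ∃ r ∈ F5e, RT true a e 5 r :=
  rec_spec (n := 5) W ok5 rfl rk5e
lemma ex7e (W : World true a e N) : ∃ r ∈ F7e, RT true a e 7 r :=
  rec_spec (n := 7) W ok7 rfl rk7e
lemma ex8e (W : World true a e N) : ∃ r ∈ F8e, RT true a e 8 r :=
  rec_spec (n := 8) W ok8 rfl rk8e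
lemma ex11e (W : World true a e N) : ∃ r ∈ F11e, RT true a e 11 r :=
  rec_spec (n := 11) W ok11 rfl rk11e
lemma ex13e (W : World true a e N) : ∃ r ∈ F13e, RT true a e 13 r :=
  rec_spec (n := 13) W ok13 rfl rk13e
lemma ex17e (W : World true a e N) : ∃ r ∈ F17e, RT true a e 17 r :=
  rec_spec (n := 17) W ok17 rfl rk17e
lemma ex19e (W : World true a e N) : ∃ r ∈ F19e, RT true a e 19 r :=
  rec_spec (n := 19) W ok19 rfl rk19e

end Pool.Agent.LibH4.CX
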