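import Pool.Agent.Lib_helper4.CX.Qs
import Pool.Agent.Lib_helper4.CX.Rk

/-! generated: soundness of the stages -/

namespace Pool.Agent.LibH4.CX

open Pool.Agent.LibH4.Ker Pool.Agent.Lib_helper5.TB Pool.Agent.LibH4.CW

variable {a N : ℕ} {e : ℕ → ℤ × ℤ × ℤ}

lemma in_start (N : ℕ) : In N (Tr.st (nat_lit 0) (nat_lit 1) Tr.nil) :=
  Or.inl ⟨one_pos, N, by change N = 0 + 1 * N; omega⟩

theorem stA_spec (W : World false a e N) (h13 : (2 * N + 1) % 13 ≠ 0) {r13 r7 r5 : Rc}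
    (T1 : RT false a e 1 r1o_0) (T13 : RT false a e 13 r13) (T7 : RT false a e 7 r7) (m7 : r7 ∈ F7o) (T5 : RT false a e 5 r5) (m5 : r5 ∈ F5o)
    {E : List E3} (h : stA r13 E = true) :
    ∃ x ∈ E, x.r13 = r13 ∧ x.r7 = r7 ∧ x.r5 = r5 ∧ In N x.s := by
  unfold stA at h
  have i0 := lft_spec T13.pi (in_start N)
  generalize lft r13.pi (Tr.st (nat_lit 0) (nat_lit 1) Tr.nil) = s0 at h i0
  have h := allL_mem h r7 m7
  have i1 := q_91F13 W T13 T7 T1 T13 i0
  have h := ne_spec h i1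
  generalize relX false n91F13 r13 r7 r1o_0 r13 s0 = s1 at h i1
  have h := allL_mem h r5 m5
  have i2 := q_455F13a W T13 T7 T5 T13 i1
  have h := ne_spec h i2
  generalize relX false n455F13a r13 r7 r5 r13 s1 = s2 at h i2
  have i3 := q_455F13b W T13 T7 T5 T13 i2
  have h := ne_spec h i3
  generalize relX false n455F13b r13 r7 r5 r13 s2 = s3 at h i3
  have i4 := q_455F13c W T13 T7 T5 T13 i3
  have h := ne_spec h i4
  generalize relX false n455F13c r13 r7 r5 r13 s3 = s4 at h i4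
  exact in3_spec h (filT_spec (c13_spec h13) (q_455F13d W T13 T7 T5 T13 i4))

theorem stB3_spec (W : World false a e N) (h13 : (2 * N + 1) % 13 ≠ 0)
    {r17 r13 r7 r5 r8 r4 r11 : Rc}
    (T1 : RT false a e 1 r1o_0) (T17 : RT false a e 17 r17) (T13 : RT false a e 13 r13) (T7 : RT false a e 7 r7) (T5 : RT false a e 5 r5) (T8 : RT false a e 8 r8) (T4 : RT false a e 4 r4) (T11 : RT false a e 11 r11) (m11 : r11 ∈ F11o)
    {E : List E7} {s0 : Tr} (i0 : In N s0) (h : stB3 E r17 r13 r7 r5 r8 r4 s0 = true) :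
    ∃ x ∈ E, x.r17 = r17 ∧ x.r13 = r13 ∧ x.r7 = r7 ∧ x.r5 = r5 ∧ x.r8 = r8 ∧ x.r4 = r4 ∧
      x.r11 = r11 ∧ In N x.s := by
  have h := allL_mem h r11 m11
  have i1 := filT_spec (c13_spec h13) (q_616N13 W T11 T7 T8 T13 i0)
  have h := ne_spec h i1
  generalize filT c13 (relX false n616N13 r11 r7 r8 r13 s0) = s1 at h i1
  have i2 := q_308F7 W T11 T7 T4 T7 i1
  have h := ne_spec h i2
  generalize relX false n308F7 r11 r7 r4 r7 s1 = s2 at h i2
  have i3 := q_143N5 W T11 T13 T1 T5 i2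
  have h := ne_spec h i3
  generalize relX false n143N5 r11 r13 r1o_0 r5 s2 = s3 at h i3
  have i4 := q_143N7 W T11 T13 T1 T7 i3
  have h := ne_spec h i4
  generalize relX false n143N7 r11 r13 r1o_0 r7 s3 = s4 at h i4
  have i5 := q_88F11 W T11 T8 T1 T11 i4
  have h := ne_spec h i5
  generalize relX false n88F11 r11 r8 r1o_0 r11 s4 = s5 at h i5
  have i6 := q_616F11 W T11 T7 T8 T11 i5
  have h := ne_spec h i6
  generalize relX false n616F11 r11 r7 r8 r11 s5 = s6 at h i6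
  have i7 := q_187F17a W T17 T11 T1 T17 i6
  have h := ne_spec h i7
  generalize relX false n187F17a r17 r11 r1o_0 r17 s6 = s7 at h i7
  exact in7_spec h (filT_spec (c13_spec h13) (q_572N5 W T11 T13 T4 T5 i7))

theorem stB2_spec (W : World false a e N) (h13 : (2 * N + 1) % 13 ≠ 0)
    {r17 r13 r7 r5 r8 r4 r11 : Rc}
    (T1 : RT false a e 1 r1o_0) (T17 : RT false a e 17 r17) (T13 : RT false a e 13 r13) (T7 : RT false a e 7 r7) (T5 : RT false a e 5 r5) (T8 : RT false a e 8 r8) (T4 : RT false a e 4 r4) (T11 : RT false a e 11 r11) (m11 : r11 ∈ F11o)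
    (m : (r8, r4) ∈ F84o)
    {E : List E7} {s0 : Tr} (i0 : In N s0) (h : stB2 E r17 r13 r7 r5 s0 = true) :
    ∃ x ∈ E, x.r17 = r17 ∧ x.r13 = r13 ∧ x.r7 = r7 ∧ x.r5 = r5 ∧ x.r8 = r8 ∧ x.r4 = r4 ∧
      x.r11 = r11 ∧ In N x.s := by
  have h := allL_mem h (r8, r4) m
  have i1 := q_364F13a W T13 T7 T4 T13 i0
  have h := ne_spec h i1
  generalize relX false n364F13a r13 r7 r4 r13 s0 = s1 at h i1
  have i2 := q_364F13b W T13 T7 T4 T13 i1
  have h := ne_spec h i2
  generalize relX false n364F13b r13 r7 r4 r13 s1 = s2 at h i2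
  have i3 := q_260F13 W T13 T5 T4 T13 i2
  have h := ne_spec h i3
  generalize relX false n260F13 r13 r5 r4 r13 s2 = s3 at h i3
  have i4 := filT_spec (c13_spec h13) (q_140N13 W T7 T5 T4 T13 i3)
  have h := ne_spec h i4
  generalize filT c13 (relX false n140N13 r7 r5 r4 r13 s3) = s4 at h i4
  have i5 := q_728F13 W T13 T7 T8 T13 i4
  have h := ne_spec h i5
  generalize relX false n728F13 r13 r7 r8 r13 s4 = s5 at h i5
  have i6 := filT_spec (c13_spec h13) (q_680N13 W T17 T5 T8 T13 i5)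
  have h := ne_spec h i6
  generalize filT c13 (relX false n680N13 r17 r5 r8 r13 s5) = s6 at h i6
  have i7 := q_520F5 W T13 T5 T8 T5 i6
  have h := ne_spec h i7
  generalize relX false n520F5 r13 r5 r8 r5 s6 = s7 at h i7
  have i8 := q_728N5 W T13 T7 T8 T5 i7
  have h := ne_spec h i8
  generalize relX false n728N5 r13 r7 r8 r5 s7 = s8 at h i8
  exact stB3_spec W h13 T1 T17 T13 T7 T5 T8 T4 T11 m11 i8 h

theorem stB_spec (W : World false a e N) (h13 : (2 * N + 1) % 13 ≠ 0)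
    {r17 r13 r7 r5 r8 r4 r11 : Rc} {s0 : Tr} (i0 : In N s0)
    (T1 : RT false a e 1 r1o_0) (T17 : RT false a e 17 r17) (T13 : RT false a e 13 r13) (T7 : RT false a e 7 r7) (T5 : RT false a e 5 r5) (T8 : RT false a e 8 r8) (T4 : RT false a e 4 r4) (T11 : RT false a e 11 r11) (m11 : r11 ∈ F11o)
    (m : (r8, r4) ∈ F84o) {G : List (List E3)} {G0 : List E3} (m1 : G0 ∈ G)
    (m2 : E3.mk r13 r7 r5 s0 ∈ G0)
    {E : List E7} (h : stB r17 G E = true) :
    ∃ x ∈ E, x.r17 = r17 ∧ x.r13 = r13 ∧ x.r7 = r7 ∧ x.r5 = r5 ∧ x.r8 = r8 ∧ x.r4 = r4 ∧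
      x.r11 = r11 ∧ In N x.s := by
  have h := allL_mem (allL_mem h G0 m1) _ m2
  have i1 := filT_spec (c13_spec h13) (q_119N13 W T17 T7 T1 T13 i0)
  have h := ne_spec h i1
  generalize filT c13 (relX false n119N13 r17 r7 r1o_0 r13 s0) = s1 at h i1
  have i2 := q_119N5 W T17 T7 T1 T5 i1
  have h := ne_spec h i2
  generalize relX false n119N5 r17 r7 r1o_0 r5 s1 = s2 at h i2
  have i3 := q_221N5 W T17 T13 T1 T5 i2
  have h := ne_spec h i3
  generalize relX false n221N5 r17 r13 r1o_0 r5 s2 = s3 at h i3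
  have i4 := q_595N13a W T17 T7 T5 T13 i3
  have h := ne_spec h i4
  generalize relX false n595N13a r17 r7 r5 r13 s3 = s4 at h i4
  have i5 := filT_spec (c13_spec h13) (q_595N13b W T17 T7 T5 T13 i4)
  have h := ne_spec h i5
  generalize filT c13 (relX false n595N13b r17 r7 r5 r13 s4) = s5 at h i5
  exact stB2_spec W h13 T1 T17 T13 T7 T5 T8 T4 T11 m11 m i5 h

theorem stC_spec (W : World false a e N) (h13 : (2 * N + 1) % 13 ≠ 0)
    {r19 r17 r13 r7 r5 r8 r4 r11 : Rc} {s0 : Tr} (i0 : In N s0)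
    (T1 : RT false a e 1 r1o_0) (T17 : RT false a e 17 r17) (T13 : RT false a e 13 r13) (T7 : RT false a e 7 r7) (T5 : RT false a e 5 r5) (T8 : RT false a e 8 r8) (T11 : RT false a e 11 r11) (T19 : RT false a e 19 r19)
    {G : List (List E7)} {G0 : List E7} (m1 : G0 ∈ G)
    (m2 : E7.mk r17 r13 r7 r5 r8 r4 r11 s0 ∈ G0)
    (h : stC r19 G = true) : False := by
  have h := allL_mem (allL_mem h G0 m1) _ m2
  have i1 := q_133N13 W T19 T7 T1 T13 i0
  have h := ne_spec h i1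
  generalize relX false n133N13 r19 r7 r1o_0 r13 s0 = s1 at h i1
  have i2 := filT_spec (c13_spec h13) (q_95N13 W T19 T5 T1 T13 i1)
  have h := ne_spec h i2
  generalize filT c13 (relX false n95N13 r19 r5 r1o_0 r13 s1) = s2 at h i2
  have i3 := q_95F19 W T19 T5 T1 T19 i2
  have h := ne_spec h i3
  generalize relX false n95F19 r19 r5 r1o_0 r19 s2 = s3 at h i3
  have i4 := q_247F19a W T19 T13 T1 T19 i3
  have h := ne_spec h i4
  generalize relX false n247F19a r19 r13 r1o_0 r19 s3 = s4 at h i4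
  have i5 := q_152F19a W T19 T8 T1 T19 i4
  have h := ne_spec h i5
  generalize relX false n152F19a r19 r8 r1o_0 r19 s4 = s5 at h i5
  have i6 := q_152F19b W T19 T8 T1 T19 i5
  have h := ne_spec h i6
  generalize relX false n152F19b r19 r8 r1o_0 r19 s5 = s6 at h i6
  exact nilT_spec h (q_935N7 W T17 T11 T5 T7 i6)

lemma filT_specK {N : ℕ} {p : ℕ → ℕ → Bool} {m : ℕ}
    (hp : ∀ n K s, 0 < K → m ∣ K → N = n + K * s → p n K = true) {K0 : ℕ} {n0 : ℕ} (hm : 0 < m) {s : ℕ}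
    (hK0 : 0 < K0) (hN : N = n0 + K0 * s) :
    In N (filT p (lft m (Tr.st n0 K0 Tr.nil))) := by
  have key : ∀ q, ∀ m' < q, (∃ s', N = n0 + K0 * m' + Nat.lcm K0 m * s') →
      In N (filT p (lf1 K0 (Nat.lcm K0 m) n0 q Tr.nil)) := by
    intro q
    induction q with
    | zero => intro m' h; omega
    | succ q ih =>
      intro m' hm' hs
      rw [lf1_succ]
      change In N (@Bool.rec (fun _ => Tr) (filT p (lf1 K0 (Nat.lcm K0 m) n0 q Tr.nil))
        (Tr.st (n0 + K0 * q) (Nat.lcm K0 m) (filT p (lf1 K0 (Nat.lcm K0 m) n0 q Tr.nil)))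
        (p (n0 + K0 * q) (Nat.lcm K0 m)))
      by_cases hq : m' = q
      · subst hq
        obtain ⟨s', hs'⟩ := hs
        rw [hp _ _ s' (Nat.lcm_pos hK0 hm) (Nat.dvd_lcm_right _ _) hs']
        exact Or.inl ⟨Nat.lcm_pos hK0 hm, s', hs'⟩
      · have h1 := ih m' (by omega) hs
        cases p (n0 + K0 * q) (Nat.lcm K0 m) with
        | true => exact Or.inr h1
        | false => exact h1
  obtain ⟨m', hm', s', hs'⟩ := lift_of hK0 (Nat.dvd_lcm_left K0 m) (Nat.lcm_pos hK0 hm) hN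
  have h2 := key _ m' hm' ⟨s', hs'⟩
  change In N (filT p (lf1 K0 (lcmS K0 m) n0 (lcmS K0 m / K0) Tr.nil))
  rw [lcmS_eq]
  exact h2

lemma c4_spec (W : World true a e N) {r4 : Rc} (T4 : RT true a e 4 r4) (n K s : ℕ) (_ : 0 < K)
    (hd : r4.pi ∣ K) (hN : N = n + K * s) : c4 r4.orb r4.pi n = true := by
  have h1 : n % r4.pi = N % r4.pi := by
    obtain ⟨k, rfl⟩ := hd
    rw [hN, mul_assoc, Nat.add_mul_mod_self_left]
  change Nat.beq (by3 (d32 r4.orb (n % r4.pi))) 3 = true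
  rw [h1, T4.e3]
  have hl := (T4.ts.last W T4.ok).2
  rw [T4.cn] at hl
  have hg := W.gen rfl
  set v := (4 - r4.x2) % 4 * iv 4 (cof 4).ex (hs 4 a (r4.x1, r4.x2) N).2.2 % 4 with hv
  have hv4 : v < 4 := Nat.mod_lt _ (by norm_num)
  have h5 : ((v : ℤ) : ZMod 4) = (((e 0).2.2 : ℤ) : ZMod 4) := by
    rw [← hl]; push_cast; rfl
  have h6 := (ZMod.intCast_eq_intCast_iff' _ _ 4).1 h5
  push_cast at h6
  have : v = 3 := by omega
  rw [this]
  rfl

theorem stD_spec (W : World true a e N) {r13 r7 r5 r8 r4 : Rc} {F8 : List Rc}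
    (T1 : RT true a e 1 r1e_0) (T13 : RT true a e 13 r13) (T7 : RT true a e 7 r7) (m7 : r7 ∈ F7e) (T5 : RT true a e 5 r5) (m5 : r5 ∈ F5e) (T8 : RT true a e 8 r8) (T4 : RT true a e 4 r4)
    (m : (r4, F8) ∈ F48e) (m8 : r8 ∈ F8) {E : List E5} (h : stD r13 E = true) :
    ∃ x ∈ E, x.r13 = r13 ∧ x.r7 = r7 ∧ x.r5 = r5 ∧ x.r8 = r8 ∧ x.r4 = r4 ∧ In N x.s := by
  have h := allL_mem h (r4, F8) m
  have i0 := lft_spec T13.pi (filT_specK (p := fun n _ => c4 r4.orb r4.pi n) (m := r4.pi) (c4_spec W T4) (n0 := 0) (K0 := 1)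
    (s := N) T4.pi one_pos (by omega))
  have h := ne_spec h i0
  have h := allL_mem h r7 m7
  generalize lft r13.pi (filT (fun n _ => c4 r4.orb r4.pi n)
      (lft r4.pi (Tr.st (nat_lit 0) (nat_lit 1) Tr.nil))) = s0 at h i0
  have i1 := q_91F13 W T13 T7 T1 T13 i0
  have h := ne_spec h i1
  generalize relX true n91F13 r13 r7 r1e_0 r13 s0 = s1 at h i1
  have i2 := q_364F13a W T13 T7 T4 T13 i1
  have h := ne_spec h i2
  generalize relX true n364F13a r13 r7 r4 r13 s1 = s2 at h i2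
  have i3 := q_364F13b W T13 T7 T4 T13 i2
  have h := ne_spec h i3
  generalize relX true n364F13b r13 r7 r4 r13 s2 = s3 at h i3
  have h := allL_mem h r5 m5
  have i4 := q_455F13a W T13 T7 T5 T13 i3
  have h := ne_spec h i4
  generalize relX true n455F13a r13 r7 r5 r13 s3 = s4 at h i4
  have i5 := q_455F13b W T13 T7 T5 T13 i4
  have h := ne_spec h i5
  generalize relX true n455F13b r13 r7 r5 r13 s4 = s5 at h i5
  have i6 := q_455F13c W T13 T7 T5 T13 i5
  have h := ne_spec h i6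
  generalize relX true n455F13c r13 r7 r5 r13 s5 = s6 at h i6
  have i7 := q_140N13 W T7 T5 T4 T13 i6
  have h := ne_spec h i7
  generalize relX true n140N13 r7 r5 r4 r13 s6 = s7 at h i7
  have i8 := q_260F13 W T13 T5 T4 T13 i7
  have h := ne_spec h i8
  generalize relX true n260F13 r13 r5 r4 r13 s7 = s8 at h i8
  have h := allL_mem h r8 m8
  have i9 := q_728F13 W T13 T7 T8 T13 i8
  have h := ne_spec h i9
  generalize relX true n728F13 r13 r7 r8 r13 s8 = s9 at h i9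
  have i10 := q_728F7 W T13 T7 T8 T7 i9
  have h := ne_spec h i10
  generalize relX true n728F7 r13 r7 r8 r7 s9 = s10 at h i10
  have i11 := q_728N5 W T13 T7 T8 T5 i10
  have h := ne_spec h i11
  generalize relX true n728N5 r13 r7 r8 r5 s10 = s11 at h i11
  have i12 := q_520F5 W T13 T5 T8 T5 i11
  have h := ne_spec h i12
  generalize relX true n520F5 r13 r5 r8 r5 s11 = s12 at h i12
  exact in5_spec h (q_520N7 W T13 T5 T8 T7 i12)

theorem stF3_spec (W : World true a e N) {r17 r13 r7 r5 r8 r4 r11 r19 : Rc}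
    (T1 : RT true a e 1 r1e_0) (T13 : RT true a e 13 r13) (T7 : RT true a e 7 r7) (T5 : RT true a e 5 r5) (T8 : RT true a e 8 r8) (T19 : RT true a e 19 r19) (m19 : r19 ∈ F19e)
    {s0 : Tr} (i0 : In N s0) (h : stF3 r17 r13 r7 r5 r8 r4 r11 s0 = true) : False := by
  have h := allL_mem h r19 m19
  have i1 := q_133N13 W T19 T7 T1 T13 i0
  have h := ne_spec h i1
  generalize relX true n133N13 r19 r7 r1e_0 r13 s0 = s1 at h i1
  have i2 := q_95N13 W T19 T5 T1 T13 i1
  have h := ne_spec h i2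
  generalize relX true n95N13 r19 r5 r1e_0 r13 s1 = s2 at h i2
  have i3 := q_95F19 W T19 T5 T1 T19 i2
  have h := ne_spec h i3
  generalize relX true n95F19 r19 r5 r1e_0 r19 s2 = s3 at h i3
  have i4 := q_247F19a W T19 T13 T1 T19 i3
  have h := ne_spec h i4
  generalize relX true n247F19a r19 r13 r1e_0 r19 s3 = s4 at h i4
  have i5 := q_152F19a W T19 T8 T1 T19 i4
  have h := ne_spec h i5
  generalize relX true n152F19a r19 r8 r1e_0 r19 s4 = s5 at h i5
  exact nilT_spec h (q_152F19b W T19 T8 T1 T19 i5)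

theorem stF2_spec (W : World true a e N) {r17 r13 r7 r5 r8 r4 r11 r19 : Rc}
    (T1 : RT true a e 1 r1e_0) (T17 : RT true a e 17 r17) (T13 : RT true a e 13 r13) (T7 : RT true a e 7 r7) (T5 : RT true a e 5 r5) (T8 : RT true a e 8 r8) (T4 : RT true a e 4 r4) (T11 : RT true a e 11 r11) (m11 : r11 ∈ F11e) (T19 : RT true a e 19 r19) (m19 : r19 ∈ F19e)
    {s0 : Tr} (i0 : In N s0) (h : stF2 r17 r13 r7 r5 r8 r4 s0 = true) : False := by
  have h := allL_mem h r11 m11
  have i1 := q_616N13 W T11 T7 T8 T13 i0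
  have h := ne_spec h i1
  generalize relX true n616N13 r11 r7 r8 r13 s0 = s1 at h i1
  have i2 := q_308F7 W T11 T7 T4 T7 i1
  have h := ne_spec h i2
  generalize relX true n308F7 r11 r7 r4 r7 s1 = s2 at h i2
  have i3 := q_143N5 W T11 T13 T1 T5 i2
  have h := ne_spec h i3
  generalize relX true n143N5 r11 r13 r1e_0 r5 s2 = s3 at h i3
  have i4 := q_143N7 W T11 T13 T1 T7 i3
  have h := ne_spec h i4
  generalize relX true n143N7 r11 r13 r1e_0 r7 s3 = s4 at h i4
  have i5 := q_88F11 W T11 T8 T1 T11 i4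
  have h := ne_spec h i5
  generalize relX true n88F11 r11 r8 r1e_0 r11 s4 = s5 at h i5
  have i6 := q_616F11 W T11 T7 T8 T11 i5
  have h := ne_spec h i6
  generalize relX true n616F11 r11 r7 r8 r11 s5 = s6 at h i6
  have i7 := q_187F17a W T17 T11 T1 T17 i6
  have h := ne_spec h i7
  generalize relX true n187F17a r17 r11 r1e_0 r17 s6 = s7 at h i7
  have i8 := q_187F17b W T17 T11 T1 T17 i7
  have h := ne_spec h i8
  generalize relX true n187F17b r17 r11 r1e_0 r17 s7 = s8 at h i8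
  have i9 := q_572N5 W T11 T13 T4 T5 i8
  have h := ne_spec h i9
  generalize relX true n572N5 r11 r13 r4 r5 s8 = s9 at h i9
  have i10 := q_715N7 W T11 T13 T5 T7 i9
  have h := ne_spec h i10
  generalize relX true n715N7 r11 r13 r5 r7 s9 = s10 at h i10
  have i11 := q_935N7 W T17 T11 T5 T7 i10
  have h := ne_spec h i11
  generalize relX true n935N7 r17 r11 r5 r7 s10 = s11 at h i11
  exact stF3_spec W T1 T13 T7 T5 T8 T19 m19 i11 h

theorem stF_spec (W : World true a e N)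
    {r17 r13 r7 r5 r8 r4 r11 r19 : Rc} {s0 : Tr} (i0 : In N s0)
    (T1 : RT true a e 1 r1e_0) (T17 : RT true a e 17 r17) (T13 : RT true a e 13 r13) (T7 : RT true a e 7 r7) (T5 : RT true a e 5 r5) (T8 : RT true a e 8 r8) (T4 : RT true a e 4 r4) (T11 : RT true a e 11 r11) (m11 : r11 ∈ F11e) (T19 : RT true a e 19 r19) (m19 : r19 ∈ F19e)
    {G : List (List E5)} {G0 : List E5} (m1 : G0 ∈ G)
    (m2 : E5.mk r13 r7 r5 r8 r4 s0 ∈ G0)
    (h : stF r17 G = true) : False := by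
  have h := allL_mem (allL_mem h G0 m1) _ m2
  have i1 := q_119N13 W T17 T7 T1 T13 i0
  have h := ne_spec h i1
  generalize relX true n119N13 r17 r7 r1e_0 r13 s0 = s1 at h i1
  have i2 := q_119N5 W T17 T7 T1 T5 i1
  have h := ne_spec h i2
  generalize relX true n119N5 r17 r7 r1e_0 r5 s1 = s2 at h i2
  have i3 := q_221N5 W T17 T13 T1 T5 i2
  have h := ne_spec h i3
  generalize relX true n221N5 r17 r13 r1e_0 r5 s2 = s3 at h i3
  have i4 := q_680N13 W T17 T5 T8 T13 i3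
  have h := ne_spec h i4
  generalize relX true n680N13 r17 r5 r8 r13 s3 = s4 at h i4
  have i5 := q_595N13a W T17 T7 T5 T13 i4
  have h := ne_spec h i5
  generalize relX true n595N13a r17 r7 r5 r13 s4 = s5 at h i5
  have i6 := q_595N13b W T17 T7 T5 T13 i5
  have h := ne_spec h i6
  generalize relX true n595N13b r17 r7 r5 r13 s5 = s6 at h i6
  exact stF2_spec W T1 T17 T13 T7 T5 T8 T4 T11 m11 T19 m19 i6 h

end Pool.Agent.LibH4.CX
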