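import Pool.Agent.Lib_helper4.CX.StA
import Pool.Agent.Lib_helper4.CX.Stg
import Pool.Agent.Lib_helper4.CX.ChA0
import Pool.Agent.Lib_helper4.CX.ChA1
import Pool.Agent.Lib_helper4.CX.ChA2
import Pool.Agent.Lib_helper4.CX.ChA3
import Pool.Agent.Lib_helper4.CX.ChA4
import Pool.Agent.Lib_helper4.CX.ChA5
import Pool.Agent.Lib_helper4.CX.ChB0
import Pool.Agent.Lib_helper4.CX.ChB1
import Pool.Agent.Lib_helper4.CX.ChB2
import Pool.Agent.Lib_helper4.CX.ChB3
import Pool.Agent.Lib_helper4.CX.ChB4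
import Pool.Agent.Lib_helper4.CX.ChB5
import Pool.Agent.Lib_helper4.CX.ChB6
import Pool.Agent.Lib_helper4.CX.ChB7
import Pool.Agent.Lib_helper4.CX.ChB8
import Pool.Agent.Lib_helper4.CX.ChB9
import Pool.Agent.Lib_helper4.CX.ChB10
import Pool.Agent.Lib_helper4.CX.ChB11
import Pool.Agent.Lib_helper4.CX.ChC0
import Pool.Agent.Lib_helper4.CX.ChC1
import Pool.Agent.Lib_helper4.CX.ChC2
import Pool.Agent.Lib_helper4.CX.ChC3
import Pool.Agent.Lib_helper4.CX.ChC4
import Pool.Agent.Lib_helper4.CX.ChC5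
import Pool.Agent.Lib_helper4.CX.ChD0
import Pool.Agent.Lib_helper4.CX.ChD1
import Pool.Agent.Lib_helper4.CX.ChD2
import Pool.Agent.Lib_helper4.CX.ChF0
import Pool.Agent.Lib_helper4.CX.ChF1
import Pool.Agent.Lib_helper4.CX.ChF2

/-! generated: all checks of the stages -/

set_option maxRecDepth 100000

namespace Pool.Agent.LibH4.CX

open Pool.Agent.LibH4.CW

lemma f2_mem {α β : Type} {R : α → β → Prop} {L : List α} {M : List β}
    (h : List.Forall₂ R L M) : ∀ r ∈ L, ∃ E ∈ M, R r E := by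
  induction h with
  | nil => intro r hr; exact absurd hr (List.not_mem_nil)
  | cons h1 _ ih =>
    intro r hr
    rcases List.mem_cons.1 hr with rfl | hr
    · exact ⟨_, List.mem_cons_self, h1⟩
    · obtain ⟨E, hE, h2⟩ := ih r hr
      exact ⟨E, List.mem_cons_of_mem _ hE, h2⟩

lemma allA : List.Forall₂ (fun r E => stA r E = true) F13o LA := by
  unfold F13o LA
  refine List.Forall₂.cons cha0 ?_
  refine List.Forall₂.cons cha1 ?_
  refine List.Forall₂.cons cha2 ?_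
  refine List.Forall₂.cons cha3 ?_
  refine List.Forall₂.cons cha4 ?_
  refine List.Forall₂.cons cha5 ?_
  refine List.Forall₂.cons cha6 ?_
  refine List.Forall₂.cons cha7 ?_
  refine List.Forall₂.cons cha8 ?_
  refine List.Forall₂.cons cha9 ?_
  refine List.Forall₂.cons cha10 ?_
  refine List.Forall₂.cons cha11 ?_
  refine List.Forall₂.cons cha12 ?_
  refine List.Forall₂.cons cha13 ?_
  refine List.Forall₂.cons cha14 ?_
  refine List.Forall₂.cons cha15 ?_
  refine List.Forall₂.cons cha16 ?_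
  refine List.Forall₂.cons cha17 ?_
  refine List.Forall₂.cons cha18 ?_
  refine List.Forall₂.cons cha19 ?_
  refine List.Forall₂.cons cha20 ?_
  refine List.Forall₂.cons cha21 ?_
  refine List.Forall₂.cons cha22 ?_
  refine List.Forall₂.cons cha23 ?_
  refine List.Forall₂.cons cha24 ?_
  refine List.Forall₂.cons cha25 ?_
  refine List.Forall₂.cons cha26 ?_
  refine List.Forall₂.cons cha27 ?_
  refine List.Forall₂.cons cha28 ?_
  refine List.Forall₂.cons cha29 ?_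
  refine List.Forall₂.cons cha30 ?_
  refine List.Forall₂.cons cha31 ?_
  refine List.Forall₂.cons cha32 ?_
  refine List.Forall₂.cons cha33 ?_
  refine List.Forall₂.cons cha34 ?_
  refine List.Forall₂.cons cha35 ?_
  refine List.Forall₂.cons cha36 ?_
  refine List.Forall₂.cons cha37 ?_
  refine List.Forall₂.cons cha38 ?_
  refine List.Forall₂.cons cha39 ?_
  refine List.Forall₂.cons cha40 ?_
  refine List.Forall₂.cons cha41 ?_
  refine List.Forall₂.cons cha42 ?_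
  refine List.Forall₂.cons cha43 ?_
  refine List.Forall₂.cons cha44 ?_
  refine List.Forall₂.cons cha45 ?_
  refine List.Forall₂.cons cha46 ?_
  refine List.Forall₂.cons cha47 ?_
  refine List.Forall₂.cons cha48 ?_
  refine List.Forall₂.cons cha49 ?_
  refine List.Forall₂.cons cha50 ?_
  refine List.Forall₂.cons cha51 ?_
  refine List.Forall₂.cons cha52 ?_
  refine List.Forall₂.cons cha53 ?_
  refine List.Forall₂.cons cha54 ?_
  refine List.Forall₂.cons cha55 ?_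
  refine List.Forall₂.cons cha56 ?_
  refine List.Forall₂.cons cha57 ?_
  refine List.Forall₂.cons cha58 ?_
  refine List.Forall₂.cons cha59 ?_
  refine List.Forall₂.cons cha60 ?_
  refine List.Forall₂.cons cha61 ?_
  refine List.Forall₂.cons cha62 ?_
  refine List.Forall₂.cons cha63 ?_
  refine List.Forall₂.cons cha64 ?_
  refine List.Forall₂.cons cha65 ?_
  refine List.Forall₂.cons cha66 ?_
  refine List.Forall₂.cons cha67 ?_
  refine List.Forall₂.cons cha68 ?_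
  refine List.Forall₂.cons cha69 ?_
  refine List.Forall₂.cons cha70 ?_
  refine List.Forall₂.cons cha71 ?_
  refine List.Forall₂.cons cha72 ?_
  refine List.Forall₂.cons cha73 ?_
  refine List.Forall₂.cons cha74 ?_
  refine List.Forall₂.cons cha75 ?_
  refine List.Forall₂.cons cha76 ?_
  refine List.Forall₂.cons cha77 ?_
  exact List.Forall₂.nil

lemma allB : List.Forall₂ (fun r E => stB r LA E = true) F17o LB := by
  unfold F17o LB
  refine List.Forall₂.cons chb0 ?_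
  refine List.Forall₂.cons chb1 ?_
  refine List.Forall₂.cons chb2 ?_
  refine List.Forall₂.cons chb3 ?_
  refine List.Forall₂.cons chb4 ?_
  refine List.Forall₂.cons chb5 ?_
  refine List.Forall₂.cons chb6 ?_
  refine List.Forall₂.cons chb7 ?_
  refine List.Forall₂.cons chb8 ?_
  refine List.Forall₂.cons chb9 ?_
  refine List.Forall₂.cons chb10 ?_
  refine List.Forall₂.cons chb11 ?_
  refine List.Forall₂.cons chb12 ?_
  refine List.Forall₂.cons chb13 ?_
  refine List.Forall₂.cons chb14 ?_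
  refine List.Forall₂.cons chb15 ?_
  refine List.Forall₂.cons chb16 ?_
  refine List.Forall₂.cons chb17 ?_
  refine List.Forall₂.cons chb18 ?_
  refine List.Forall₂.cons chb19 ?_
  refine List.Forall₂.cons chb20 ?_
  refine List.Forall₂.cons chb21 ?_
  refine List.Forall₂.cons chb22 ?_
  refine List.Forall₂.cons chb23 ?_
  refine List.Forall₂.cons chb24 ?_
  refine List.Forall₂.cons chb25 ?_
  refine List.Forall₂.cons chb26 ?_
  refine List.Forall₂.cons chb27 ?_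
  refine List.Forall₂.cons chb28 ?_
  refine List.Forall₂.cons chb29 ?_
  refine List.Forall₂.cons chb30 ?_
  refine List.Forall₂.cons chb31 ?_
  refine List.Forall₂.cons chb32 ?_
  refine List.Forall₂.cons chb33 ?_
  refine List.Forall₂.cons chb34 ?_
  refine List.Forall₂.cons chb35 ?_
  refine List.Forall₂.cons chb36 ?_
  refine List.Forall₂.cons chb37 ?_
  refine List.Forall₂.cons chb38 ?_
  refine List.Forall₂.cons chb39 ?_
  refine List.Forall₂.cons chb40 ?_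
  refine List.Forall₂.cons chb41 ?_
  refine List.Forall₂.cons chb42 ?_
  refine List.Forall₂.cons chb43 ?_
  refine List.Forall₂.cons chb44 ?_
  refine List.Forall₂.cons chb45 ?_
  refine List.Forall₂.cons chb46 ?_
  refine List.Forall₂.cons chb47 ?_
  refine List.Forall₂.cons chb48 ?_
  refine List.Forall₂.cons chb49 ?_
  refine List.Forall₂.cons chb50 ?_
  refine List.Forall₂.cons chb51 ?_
  refine List.Forall₂.cons chb52 ?_
  refine List.Forall₂.cons chb53 ?_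
  refine List.Forall₂.cons chb54 ?_
  refine List.Forall₂.cons chb55 ?_
  refine List.Forall₂.cons chb56 ?_
  refine List.Forall₂.cons chb57 ?_
  refine List.Forall₂.cons chb58 ?_
  refine List.Forall₂.cons chb59 ?_
  refine List.Forall₂.cons chb60 ?_
  refine List.Forall₂.cons chb61 ?_
  refine List.Forall₂.cons chb62 ?_
  refine List.Forall₂.cons chb63 ?_
  refine List.Forall₂.cons chb64 ?_
  refine List.Forall₂.cons chb65 ?_
  refine List.Forall₂.cons chb66 ?_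
  refine List.Forall₂.cons chb67 ?_
  refine List.Forall₂.cons chb68 ?_
  refine List.Forall₂.cons chb69 ?_
  refine List.Forall₂.cons chb70 ?_
  refine List.Forall₂.cons chb71 ?_
  refine List.Forall₂.cons chb72 ?_
  refine List.Forall₂.cons chb73 ?_
  refine List.Forall₂.cons chb74 ?_
  refine List.Forall₂.cons chb75 ?_
  refine List.Forall₂.cons chb76 ?_
  refine List.Forall₂.cons chb77 ?_
  refine List.Forall₂.cons chb78 ?_
  refine List.Forall₂.cons chb79 ?_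
  refine List.Forall₂.cons chb80 ?_
  refine List.Forall₂.cons chb81 ?_
  refine List.Forall₂.cons chb82 ?_
  refine List.Forall₂.cons chb83 ?_
  refine List.Forall₂.cons chb84 ?_
  refine List.Forall₂.cons chb85 ?_
  refine List.Forall₂.cons chb86 ?_
  refine List.Forall₂.cons chb87 ?_
  refine List.Forall₂.cons chb88 ?_
  refine List.Forall₂.cons chb89 ?_
  refine List.Forall₂.cons chb90 ?_
  refine List.Forall₂.cons chb91 ?_
  refine List.Forall₂.cons chb92 ?_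
  refine List.Forall₂.cons chb93 ?_
  refine List.Forall₂.cons chb94 ?_
  refine List.Forall₂.cons chb95 ?_
  refine List.Forall₂.cons chb96 ?_
  refine List.Forall₂.cons chb97 ?_
  refine List.Forall₂.cons chb98 ?_
  refine List.Forall₂.cons chb99 ?_
  refine List.Forall₂.cons chb100 ?_
  refine List.Forall₂.cons chb101 ?_
  refine List.Forall₂.cons chb102 ?_
  refine List.Forall₂.cons chb103 ?_
  refine List.Forall₂.cons chb104 ?_
  refine List.Forall₂.cons chb105 ?_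
  refine List.Forall₂.cons chb106 ?_
  refine List.Forall₂.cons chb107 ?_
  refine List.Forall₂.cons chb108 ?_
  refine List.Forall₂.cons chb109 ?_
  refine List.Forall₂.cons chb110 ?_
  refine List.Forall₂.cons chb111 ?_
  refine List.Forall₂.cons chb112 ?_
  refine List.Forall₂.cons chb113 ?_
  refine List.Forall₂.cons chb114 ?_
  refine List.Forall₂.cons chb115 ?_
  refine List.Forall₂.cons chb116 ?_
  refine List.Forall₂.cons chb117 ?_
  refine List.Forall₂.cons chb118 ?_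
  refine List.Forall₂.cons chb119 ?_
  refine List.Forall₂.cons chb120 ?_
  refine List.Forall₂.cons chb121 ?_
  refine List.Forall₂.cons chb122 ?_
  refine List.Forall₂.cons chb123 ?_
  refine List.Forall₂.cons chb124 ?_
  refine List.Forall₂.cons chb125 ?_
  refine List.Forall₂.cons chb126 ?_
  refine List.Forall₂.cons chb127 ?_
  refine List.Forall₂.cons chb128 ?_
  refine List.Forall₂.cons chb129 ?_
  refine List.Forall₂.cons chb130 ?_
  refine List.Forall₂.cons chb131 ?_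
  refine List.Forall₂.cons chb132 ?_
  refine List.Forall₂.cons chb133 ?_
  refine List.Forall₂.cons chb134 ?_
  refine List.Forall₂.cons chb135 ?_
  exact List.Forall₂.nil

lemma allC : ∀ r ∈ F19o, stC r LB = true := by
  unfold F19o
  refine List.forall_mem_cons.2 ⟨chc0, ?_⟩
  refine List.forall_mem_cons.2 ⟨chc1, ?_⟩
  refine List.forall_mem_cons.2 ⟨chc2, ?_⟩
  refine List.forall_mem_cons.2 ⟨chc3, ?_⟩
  refine List.forall_mem_cons.2 ⟨chc4, ?_⟩
  refine List.forall_mem_cons.2 ⟨chc5, ?_⟩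
  refine List.forall_mem_cons.2 ⟨chc6, ?_⟩
  refine List.forall_mem_cons.2 ⟨chc7, ?_⟩
  refine List.forall_mem_cons.2 ⟨chc8, ?_⟩
  refine List.forall_mem_cons.2 ⟨chc9, ?_⟩
  refine List.forall_mem_cons.2 ⟨chc10, ?_⟩
  refine List.forall_mem_cons.2 ⟨chc11, ?_⟩
  refine List.forall_mem_cons.2 ⟨chc12, ?_⟩
  refine List.forall_mem_cons.2 ⟨chc13, ?_⟩
  refine List.forall_mem_cons.2 ⟨chc14, ?_⟩
  refine List.forall_mem_cons.2 ⟨chc15, ?_⟩
  refine List.forall_mem_cons.2 ⟨chc16, ?_⟩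
  refine List.forall_mem_cons.2 ⟨chc17, ?_⟩
  refine List.forall_mem_cons.2 ⟨chc18, ?_⟩
  refine List.forall_mem_cons.2 ⟨chc19, ?_⟩
  refine List.forall_mem_cons.2 ⟨chc20, ?_⟩
  refine List.forall_mem_cons.2 ⟨chc21, ?_⟩
  refine List.forall_mem_cons.2 ⟨chc22, ?_⟩
  refine List.forall_mem_cons.2 ⟨chc23, ?_⟩
  refine List.forall_mem_cons.2 ⟨chc24, ?_⟩
  refine List.forall_mem_cons.2 ⟨chc25, ?_⟩
  refine List.forall_mem_cons.2 ⟨chc26, ?_⟩
  refine List.forall_mem_cons.2 ⟨chc27, ?_⟩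
  refine List.forall_mem_cons.2 ⟨chc28, ?_⟩
  refine List.forall_mem_cons.2 ⟨chc29, ?_⟩
  refine List.forall_mem_cons.2 ⟨chc30, ?_⟩
  refine List.forall_mem_cons.2 ⟨chc31, ?_⟩
  refine List.forall_mem_cons.2 ⟨chc32, ?_⟩
  refine List.forall_mem_cons.2 ⟨chc33, ?_⟩
  refine List.forall_mem_cons.2 ⟨chc34, ?_⟩
  refine List.forall_mem_cons.2 ⟨chc35, ?_⟩
  refine List.forall_mem_cons.2 ⟨chc36, ?_⟩
  refine List.forall_mem_cons.2 ⟨chc37, ?_⟩
  refine List.forall_mem_cons.2 ⟨chc38, ?_⟩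
  refine List.forall_mem_cons.2 ⟨chc39, ?_⟩
  refine List.forall_mem_cons.2 ⟨chc40, ?_⟩
  refine List.forall_mem_cons.2 ⟨chc41, ?_⟩
  refine List.forall_mem_cons.2 ⟨chc42, ?_⟩
  refine List.forall_mem_cons.2 ⟨chc43, ?_⟩
  refine List.forall_mem_cons.2 ⟨chc44, ?_⟩
  refine List.forall_mem_cons.2 ⟨chc45, ?_⟩
  refine List.forall_mem_cons.2 ⟨chc46, ?_⟩
  refine List.forall_mem_cons.2 ⟨chc47, ?_⟩
  refine List.forall_mem_cons.2 ⟨chc48, ?_⟩
  refine List.forall_mem_cons.2 ⟨chc49, ?_⟩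
  refine List.forall_mem_cons.2 ⟨chc50, ?_⟩
  refine List.forall_mem_cons.2 ⟨chc51, ?_⟩
  refine List.forall_mem_cons.2 ⟨chc52, ?_⟩
  refine List.forall_mem_cons.2 ⟨chc53, ?_⟩
  refine List.forall_mem_cons.2 ⟨chc54, ?_⟩
  refine List.forall_mem_cons.2 ⟨chc55, ?_⟩
  refine List.forall_mem_cons.2 ⟨chc56, ?_⟩
  refine List.forall_mem_cons.2 ⟨chc57, ?_⟩
  refine List.forall_mem_cons.2 ⟨chc58, ?_⟩
  refine List.forall_mem_cons.2 ⟨chc59, ?_⟩
  refine List.forall_mem_cons.2 ⟨chc60, ?_⟩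
  refine List.forall_mem_cons.2 ⟨chc61, ?_⟩
  refine List.forall_mem_cons.2 ⟨chc62, ?_⟩
  refine List.forall_mem_cons.2 ⟨chc63, ?_⟩
  refine List.forall_mem_cons.2 ⟨chc64, ?_⟩
  refine List.forall_mem_cons.2 ⟨chc65, ?_⟩
  refine List.forall_mem_cons.2 ⟨chc66, ?_⟩
  refine List.forall_mem_cons.2 ⟨chc67, ?_⟩
  refine List.forall_mem_cons.2 ⟨chc68, ?_⟩
  refine List.forall_mem_cons.2 ⟨chc69, ?_⟩
  refine List.forall_mem_cons.2 ⟨chc70, ?_⟩
  refine List.forall_mem_cons.2 ⟨chc71, ?_⟩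
  refine List.forall_mem_cons.2 ⟨chc72, ?_⟩
  refine List.forall_mem_cons.2 ⟨chc73, ?_⟩
  refine List.forall_mem_cons.2 ⟨chc74, ?_⟩
  refine List.forall_mem_cons.2 ⟨chc75, ?_⟩
  refine List.forall_mem_cons.2 ⟨chc76, ?_⟩
  refine List.forall_mem_cons.2 ⟨chc77, ?_⟩
  refine List.forall_mem_cons.2 ⟨chc78, ?_⟩
  refine List.forall_mem_cons.2 ⟨chc79, ?_⟩
  refine List.forall_mem_cons.2 ⟨chc80, ?_⟩
  refine List.forall_mem_cons.2 ⟨chc81, ?_⟩
  refine List.forall_mem_cons.2 ⟨chc82, ?_⟩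
  refine List.forall_mem_cons.2 ⟨chc83, ?_⟩
  refine List.forall_mem_cons.2 ⟨chc84, ?_⟩
  refine List.forall_mem_cons.2 ⟨chc85, ?_⟩
  refine List.forall_mem_cons.2 ⟨chc86, ?_⟩
  refine List.forall_mem_cons.2 ⟨chc87, ?_⟩
  refine List.forall_mem_cons.2 ⟨chc88, ?_⟩
  refine List.forall_mem_cons.2 ⟨chc89, ?_⟩
  refine List.forall_mem_cons.2 ⟨chc90, ?_⟩
  refine List.forall_mem_cons.2 ⟨chc91, ?_⟩
  refine List.forall_mem_cons.2 ⟨chc92, ?_⟩
  refine List.forall_mem_cons.2 ⟨chc93, ?_⟩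
  refine List.forall_mem_cons.2 ⟨chc94, ?_⟩
  refine List.forall_mem_cons.2 ⟨chc95, ?_⟩
  refine List.forall_mem_cons.2 ⟨chc96, ?_⟩
  refine List.forall_mem_cons.2 ⟨chc97, ?_⟩
  refine List.forall_mem_cons.2 ⟨chc98, ?_⟩
  refine List.forall_mem_cons.2 ⟨chc99, ?_⟩
  refine List.forall_mem_cons.2 ⟨chc100, ?_⟩
  refine List.forall_mem_cons.2 ⟨chc101, ?_⟩
  refine List.forall_mem_cons.2 ⟨chc102, ?_⟩
  refine List.forall_mem_cons.2 ⟨chc103, ?_⟩
  refine List.forall_mem_cons.2 ⟨chc104, ?_⟩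
  refine List.forall_mem_cons.2 ⟨chc105, ?_⟩
  refine List.forall_mem_cons.2 ⟨chc106, ?_⟩
  refine List.forall_mem_cons.2 ⟨chc107, ?_⟩
  refine List.forall_mem_cons.2 ⟨chc108, ?_⟩
  refine List.forall_mem_cons.2 ⟨chc109, ?_⟩
  refine List.forall_mem_cons.2 ⟨chc110, ?_⟩
  refine List.forall_mem_cons.2 ⟨chc111, ?_⟩
  refine List.forall_mem_cons.2 ⟨chc112, ?_⟩
  refine List.forall_mem_cons.2 ⟨chc113, ?_⟩
  refine List.forall_mem_cons.2 ⟨chc114, ?_⟩
  refine List.forall_mem_cons.2 ⟨chc115, ?_⟩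
  refine List.forall_mem_cons.2 ⟨chc116, ?_⟩
  refine List.forall_mem_cons.2 ⟨chc117, ?_⟩
  refine List.forall_mem_cons.2 ⟨chc118, ?_⟩
  refine List.forall_mem_cons.2 ⟨chc119, ?_⟩
  refine List.forall_mem_cons.2 ⟨chc120, ?_⟩
  refine List.forall_mem_cons.2 ⟨chc121, ?_⟩
  refine List.forall_mem_cons.2 ⟨chc122, ?_⟩
  refine List.forall_mem_cons.2 ⟨chc123, ?_⟩
  refine List.forall_mem_cons.2 ⟨chc124, ?_⟩
  refine List.forall_mem_cons.2 ⟨chc125, ?_⟩
  refine List.forall_mem_cons.2 ⟨chc126, ?_⟩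
  refine List.forall_mem_cons.2 ⟨chc127, ?_⟩
  refine List.forall_mem_cons.2 ⟨chc128, ?_⟩
  refine List.forall_mem_cons.2 ⟨chc129, ?_⟩
  refine List.forall_mem_cons.2 ⟨chc130, ?_⟩
  refine List.forall_mem_cons.2 ⟨chc131, ?_⟩
  refine List.forall_mem_cons.2 ⟨chc132, ?_⟩
  refine List.forall_mem_cons.2 ⟨chc133, ?_⟩
  refine List.forall_mem_cons.2 ⟨chc134, ?_⟩
  refine List.forall_mem_cons.2 ⟨chc135, ?_⟩
  refine List.forall_mem_cons.2 ⟨chc136, ?_⟩
  refine List.forall_mem_cons.2 ⟨chc137, ?_⟩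
  refine List.forall_mem_cons.2 ⟨chc138, ?_⟩
  refine List.forall_mem_cons.2 ⟨chc139, ?_⟩
  refine List.forall_mem_cons.2 ⟨chc140, ?_⟩
  refine List.forall_mem_cons.2 ⟨chc141, ?_⟩
  refine List.forall_mem_cons.2 ⟨chc142, ?_⟩
  refine List.forall_mem_cons.2 ⟨chc143, ?_⟩
  refine List.forall_mem_cons.2 ⟨chc144, ?_⟩
  refine List.forall_mem_cons.2 ⟨chc145, ?_⟩
  refine List.forall_mem_cons.2 ⟨chc146, ?_⟩
  refine List.forall_mem_cons.2 ⟨chc147, ?_⟩
  refine List.forall_mem_cons.2 ⟨chc148, ?_⟩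
  refine List.forall_mem_cons.2 ⟨chc149, ?_⟩
  refine List.forall_mem_cons.2 ⟨chc150, ?_⟩
  refine List.forall_mem_cons.2 ⟨chc151, ?_⟩
  refine List.forall_mem_cons.2 ⟨chc152, ?_⟩
  refine List.forall_mem_cons.2 ⟨chc153, ?_⟩
  refine List.forall_mem_cons.2 ⟨chc154, ?_⟩
  refine List.forall_mem_cons.2 ⟨chc155, ?_⟩
  refine List.forall_mem_cons.2 ⟨chc156, ?_⟩
  refine List.forall_mem_cons.2 ⟨chc157, ?_⟩
  refine List.forall_mem_cons.2 ⟨chc158, ?_⟩
  refine List.forall_mem_cons.2 ⟨chc159, ?_⟩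
  refine List.forall_mem_cons.2 ⟨chc160, ?_⟩
  refine List.forall_mem_cons.2 ⟨chc161, ?_⟩
  refine List.forall_mem_cons.2 ⟨chc162, ?_⟩
  refine List.forall_mem_cons.2 ⟨chc163, ?_⟩
  refine List.forall_mem_cons.2 ⟨chc164, ?_⟩
  refine List.forall_mem_cons.2 ⟨chc165, ?_⟩
  refine List.forall_mem_cons.2 ⟨chc166, ?_⟩
  refine List.forall_mem_cons.2 ⟨chc167, ?_⟩
  refine List.forall_mem_cons.2 ⟨chc168, ?_⟩
  refine List.forall_mem_cons.2 ⟨chc169, ?_⟩
  refine List.forall_mem_cons.2 ⟨chc170, ?_⟩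
  refine List.forall_mem_cons.2 ⟨chc171, ?_⟩
  refine List.forall_mem_cons.2 ⟨chc172, ?_⟩
  refine List.forall_mem_cons.2 ⟨chc173, ?_⟩
  refine List.forall_mem_cons.2 ⟨chc174, ?_⟩
  refine List.forall_mem_cons.2 ⟨chc175, ?_⟩
  refine List.forall_mem_cons.2 ⟨chc176, ?_⟩
  refine List.forall_mem_cons.2 ⟨chc177, ?_⟩
  refine List.forall_mem_cons.2 ⟨chc178, ?_⟩
  refine List.forall_mem_cons.2 ⟨chc179, ?_⟩
  refine List.forall_mem_cons.2 ⟨chc180, ?_⟩
  refine List.forall_mem_cons.2 ⟨chc181, ?_⟩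
  refine List.forall_mem_cons.2 ⟨chc182, ?_⟩
  refine List.forall_mem_cons.2 ⟨chc183, ?_⟩
  refine List.forall_mem_cons.2 ⟨chc184, ?_⟩
  refine List.forall_mem_cons.2 ⟨chc185, ?_⟩
  refine List.forall_mem_cons.2 ⟨chc186, ?_⟩
  refine List.forall_mem_cons.2 ⟨chc187, ?_⟩
  refine List.forall_mem_cons.2 ⟨chc188, ?_⟩
  refine List.forall_mem_cons.2 ⟨chc189, ?_⟩
  intro r hr
  exact absurd hr (List.not_mem_nil)

lemma allD : List.Forall₂ (fun r E => stD r E = true) F13e LD := by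
  unfold F13e LD
  refine List.Forall₂.cons chd0 ?_
  refine List.Forall₂.cons chd1 ?_
  refine List.Forall₂.cons chd2 ?_
  refine List.Forall₂.cons chd3 ?_
  refine List.Forall₂.cons chd4 ?_
  refine List.Forall₂.cons chd5 ?_
  refine List.Forall₂.cons chd6 ?_
  refine List.Forall₂.cons chd7 ?_
  refine List.Forall₂.cons chd8 ?_
  refine List.Forall₂.cons chd9 ?_
  refine List.Forall₂.cons chd10 ?_
  refine List.Forall₂.cons chd11 ?_
  refine List.Forall₂.cons chd12 ?_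
  refine List.Forall₂.cons chd13 ?_
  refine List.Forall₂.cons chd14 ?_
  refine List.Forall₂.cons chd15 ?_
  refine List.Forall₂.cons chd16 ?_
  refine List.Forall₂.cons chd17 ?_
  refine List.Forall₂.cons chd18 ?_
  refine List.Forall₂.cons chd19 ?_
  refine List.Forall₂.cons chd20 ?_
  refine List.Forall₂.cons chd21 ?_
  refine List.Forall₂.cons chd22 ?_
  refine List.Forall₂.cons chd23 ?_
  refine List.Forall₂.cons chd24 ?_
  refine List.Forall₂.cons chd25 ?_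
  refine List.Forall₂.cons chd26 ?_
  refine List.Forall₂.cons chd27 ?_
  refine List.Forall₂.cons chd28 ?_
  refine List.Forall₂.cons chd29 ?_
  refine List.Forall₂.cons chd30 ?_
  refine List.Forall₂.cons chd31 ?_
  refine List.Forall₂.cons chd32 ?_
  refine List.Forall₂.cons chd33 ?_
  refine List.Forall₂.cons chd34 ?_
  refine List.Forall₂.cons chd35 ?_
  refine List.Forall₂.cons chd36 ?_
  refine List.Forall₂.cons chd37 ?_
  refine List.Forall₂.cons chd38 ?_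
  refine List.Forall₂.cons chd39 ?_
  refine List.Forall₂.cons chd40 ?_
  refine List.Forall₂.cons chd41 ?_
  refine List.Forall₂.cons chd42 ?_
  refine List.Forall₂.cons chd43 ?_
  refine List.Forall₂.cons chd44 ?_
  refine List.Forall₂.cons chd45 ?_
  refine List.Forall₂.cons chd46 ?_
  refine List.Forall₂.cons chd47 ?_
  refine List.Forall₂.cons chd48 ?_
  refine List.Forall₂.cons chd49 ?_
  refine List.Forall₂.cons chd50 ?_
  refine List.Forall₂.cons chd51 ?_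
  refine List.Forall₂.cons chd52 ?_
  refine List.Forall₂.cons chd53 ?_
  refine List.Forall₂.cons chd54 ?_
  refine List.Forall₂.cons chd55 ?_
  refine List.Forall₂.cons chd56 ?_
  refine List.Forall₂.cons chd57 ?_
  refine List.Forall₂.cons chd58 ?_
  refine List.Forall₂.cons chd59 ?_
  refine List.Forall₂.cons chd60 ?_
  refine List.Forall₂.cons chd61 ?_
  refine List.Forall₂.cons chd62 ?_
  refine List.Forall₂.cons chd63 ?_
  refine List.Forall₂.cons chd64 ?_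
  refine List.Forall₂.cons chd65 ?_
  refine List.Forall₂.cons chd66 ?_
  refine List.Forall₂.cons chd67 ?_
  refine List.Forall₂.cons chd68 ?_
  refine List.Forall₂.cons chd69 ?_
  refine List.Forall₂.cons chd70 ?_
  refine List.Forall₂.cons chd71 ?_
  refine List.Forall₂.cons chd72 ?_
  refine List.Forall₂.cons chd73 ?_
  refine List.Forall₂.cons chd74 ?_
  refine List.Forall₂.cons chd75 ?_
  refine List.Forall₂.cons chd76 ?_
  refine List.Forall₂.cons chd77 ?_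
  exact List.Forall₂.nil

lemma allF : ∀ r ∈ F17e, stF r LD = true := by
  unfold F17e
  refine List.forall_mem_cons.2 ⟨chf0, ?_⟩
  refine List.forall_mem_cons.2 ⟨chf1, ?_⟩
  refine List.forall_mem_cons.2 ⟨chf2, ?_⟩
  refine List.forall_mem_cons.2 ⟨chf3, ?_⟩
  refine List.forall_mem_cons.2 ⟨chf4, ?_⟩
  refine List.forall_mem_cons.2 ⟨chf5, ?_⟩
  refine List.forall_mem_cons.2 ⟨chf6, ?_⟩
  refine List.forall_mem_cons.2 ⟨chf7, ?_⟩
  refine List.forall_mem_cons.2 ⟨chf8, ?_⟩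
  refine List.forall_mem_cons.2 ⟨chf9, ?_⟩
  refine List.forall_mem_cons.2 ⟨chf10, ?_⟩
  refine List.forall_mem_cons.2 ⟨chf11, ?_⟩
  refine List.forall_mem_cons.2 ⟨chf12, ?_⟩
  refine List.forall_mem_cons.2 ⟨chf13, ?_⟩
  refine List.forall_mem_cons.2 ⟨chf14, ?_⟩
  refine List.forall_mem_cons.2 ⟨chf15, ?_⟩
  refine List.forall_mem_cons.2 ⟨chf16, ?_⟩
  refine List.forall_mem_cons.2 ⟨chf17, ?_⟩
  refine List.forall_mem_cons.2 ⟨chf18, ?_⟩
  refine List.forall_mem_cons.2 ⟨chf19, ?_⟩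
  refine List.forall_mem_cons.2 ⟨chf20, ?_⟩
  refine List.forall_mem_cons.2 ⟨chf21, ?_⟩
  refine List.forall_mem_cons.2 ⟨chf22, ?_⟩
  refine List.forall_mem_cons.2 ⟨chf23, ?_⟩
  refine List.forall_mem_cons.2 ⟨chf24, ?_⟩
  refine List.forall_mem_cons.2 ⟨chf25, ?_⟩
  refine List.forall_mem_cons.2 ⟨chf26, ?_⟩
  refine List.forall_mem_cons.2 ⟨chf27, ?_⟩
  refine List.forall_mem_cons.2 ⟨chf28, ?_⟩
  refine List.forall_mem_cons.2 ⟨chf29, ?_⟩
  refine List.forall_mem_cons.2 ⟨chf30, ?_⟩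
  refine List.forall_mem_cons.2 ⟨chf31, ?_⟩
  refine List.forall_mem_cons.2 ⟨chf32, ?_⟩
  refine List.forall_mem_cons.2 ⟨chf33, ?_⟩
  refine List.forall_mem_cons.2 ⟨chf34, ?_⟩
  refine List.forall_mem_cons.2 ⟨chf35, ?_⟩
  refine List.forall_mem_cons.2 ⟨chf36, ?_⟩
  refine List.forall_mem_cons.2 ⟨chf37, ?_⟩
  refine List.forall_mem_cons.2 ⟨chf38, ?_⟩
  refine List.forall_mem_cons.2 ⟨chf39, ?_⟩
  refine List.forall_mem_cons.2 ⟨chf40, ?_⟩
  refine List.forall_mem_cons.2 ⟨chf41, ?_⟩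
  refine List.forall_mem_cons.2 ⟨chf42, ?_⟩
  refine List.forall_mem_cons.2 ⟨chf43, ?_⟩
  refine List.forall_mem_cons.2 ⟨chf44, ?_⟩
  refine List.forall_mem_cons.2 ⟨chf45, ?_⟩
  refine List.forall_mem_cons.2 ⟨chf46, ?_⟩
  refine List.forall_mem_cons.2 ⟨chf47, ?_⟩
  refine List.forall_mem_cons.2 ⟨chf48, ?_⟩
  refine List.forall_mem_cons.2 ⟨chf49, ?_⟩
  refine List.forall_mem_cons.2 ⟨chf50, ?_⟩
  refine List.forall_mem_cons.2 ⟨chf51, ?_⟩
  refine List.forall_mem_cons.2 ⟨chf52, ?_⟩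
  refine List.forall_mem_cons.2 ⟨chf53, ?_⟩
  refine List.forall_mem_cons.2 ⟨chf54, ?_⟩
  refine List.forall_mem_cons.2 ⟨chf55, ?_⟩
  refine List.forall_mem_cons.2 ⟨chf56, ?_⟩
  refine List.forall_mem_cons.2 ⟨chf57, ?_⟩
  refine List.forall_mem_cons.2 ⟨chf58, ?_⟩
  refine List.forall_mem_cons.2 ⟨chf59, ?_⟩
  refine List.forall_mem_cons.2 ⟨chf60, ?_⟩
  refine List.forall_mem_cons.2 ⟨chf61, ?_⟩
  refine List.forall_mem_cons.2 ⟨chf62, ?_⟩
  refine List.forall_mem_cons.2 ⟨chf63, ?_⟩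
  refine List.forall_mem_cons.2 ⟨chf64, ?_⟩
  refine List.forall_mem_cons.2 ⟨chf65, ?_⟩
  refine List.forall_mem_cons.2 ⟨chf66, ?_⟩
  refine List.forall_mem_cons.2 ⟨chf67, ?_⟩
  refine List.forall_mem_cons.2 ⟨chf68, ?_⟩
  refine List.forall_mem_cons.2 ⟨chf69, ?_⟩
  refine List.forall_mem_cons.2 ⟨chf70, ?_⟩
  refine List.forall_mem_cons.2 ⟨chf71, ?_⟩
  refine List.forall_mem_cons.2 ⟨chf72, ?_⟩
  refine List.forall_mem_cons.2 ⟨chf73, ?_⟩
  refine List.forall_mem_cons.2 ⟨chf74, ?_⟩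
  refine List.forall_mem_cons.2 ⟨chf75, ?_⟩
  refine List.forall_mem_cons.2 ⟨chf76, ?_⟩
  refine List.forall_mem_cons.2 ⟨chf77, ?_⟩
  refine List.forall_mem_cons.2 ⟨chf78, ?_⟩
  refine List.forall_mem_cons.2 ⟨chf79, ?_⟩
  refine List.forall_mem_cons.2 ⟨chf80, ?_⟩
  refine List.forall_mem_cons.2 ⟨chf81, ?_⟩
  refine List.forall_mem_cons.2 ⟨chf82, ?_⟩
  refine List.forall_mem_cons.2 ⟨chf83, ?_⟩
  refine List.forall_mem_cons.2 ⟨chf84, ?_⟩
  refine List.forall_mem_cons.2 ⟨chf85, ?_⟩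
  refine List.forall_mem_cons.2 ⟨chf86, ?_⟩
  refine List.forall_mem_cons.2 ⟨chf87, ?_⟩
  refine List.forall_mem_cons.2 ⟨chf88, ?_⟩
  refine List.forall_mem_cons.2 ⟨chf89, ?_⟩
  refine List.forall_mem_cons.2 ⟨chf90, ?_⟩
  refine List.forall_mem_cons.2 ⟨chf91, ?_⟩
  refine List.forall_mem_cons.2 ⟨chf92, ?_⟩
  refine List.forall_mem_cons.2 ⟨chf93, ?_⟩
  refine List.forall_mem_cons.2 ⟨chf94, ?_⟩
  refine List.forall_mem_cons.2 ⟨chf95, ?_⟩
  refine List.forall_mem_cons.2 ⟨chf96, ?_⟩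
  refine List.forall_mem_cons.2 ⟨chf97, ?_⟩
  refine List.forall_mem_cons.2 ⟨chf98, ?_⟩
  refine List.forall_mem_cons.2 ⟨chf99, ?_⟩
  refine List.forall_mem_cons.2 ⟨chf100, ?_⟩
  refine List.forall_mem_cons.2 ⟨chf101, ?_⟩
  refine List.forall_mem_cons.2 ⟨chf102, ?_⟩
  refine List.forall_mem_cons.2 ⟨chf103, ?_⟩
  refine List.forall_mem_cons.2 ⟨chf104, ?_⟩
  refine List.forall_mem_cons.2 ⟨chf105, ?_⟩
  refine List.forall_mem_cons.2 ⟨chf106, ?_⟩
  refine List.forall_mem_cons.2 ⟨chf107, ?_⟩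
  refine List.forall_mem_cons.2 ⟨chf108, ?_⟩
  refine List.forall_mem_cons.2 ⟨chf109, ?_⟩
  refine List.forall_mem_cons.2 ⟨chf110, ?_⟩
  refine List.forall_mem_cons.2 ⟨chf111, ?_⟩
  refine List.forall_mem_cons.2 ⟨chf112, ?_⟩
  refine List.forall_mem_cons.2 ⟨chf113, ?_⟩
  refine List.forall_mem_cons.2 ⟨chf114, ?_⟩
  refine List.forall_mem_cons.2 ⟨chf115, ?_⟩
  refine List.forall_mem_cons.2 ⟨chf116, ?_⟩
  refine List.forall_mem_cons.2 ⟨chf117, ?_⟩
  refine List.forall_mem_cons.2 ⟨chf118, ?_⟩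
  refine List.forall_mem_cons.2 ⟨chf119, ?_⟩
  refine List.forall_mem_cons.2 ⟨chf120, ?_⟩
  refine List.forall_mem_cons.2 ⟨chf121, ?_⟩
  refine List.forall_mem_cons.2 ⟨chf122, ?_⟩
  refine List.forall_mem_cons.2 ⟨chf123, ?_⟩
  refine List.forall_mem_cons.2 ⟨chf124, ?_⟩
  refine List.forall_mem_cons.2 ⟨chf125, ?_⟩
  refine List.forall_mem_cons.2 ⟨chf126, ?_⟩
  refine List.forall_mem_cons.2 ⟨chf127, ?_⟩
  refine List.forall_mem_cons.2 ⟨chf128, ?_⟩
  refine List.forall_mem_cons.2 ⟨chf129, ?_⟩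
  refine List.forall_mem_cons.2 ⟨chf130, ?_⟩
  refine List.forall_mem_cons.2 ⟨chf131, ?_⟩
  refine List.forall_mem_cons.2 ⟨chf132, ?_⟩
  refine List.forall_mem_cons.2 ⟨chf133, ?_⟩
  refine List.forall_mem_cons.2 ⟨chf134, ?_⟩
  refine List.forall_mem_cons.2 ⟨chf135, ?_⟩
  intro r hr
  exact absurd hr (List.not_mem_nil)

end Pool.Agent.LibH4.CX
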