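import Pool.Agent.Lib_helper4.CX.Ker
import Pool.Agent.Lib_helper4.CW.Lst

/-!
Constant words, all letters at once: numbers with given digits.
-/

namespace Pool.Agent.LibH4.CX

open Finset Pool.Agent.LibH4.Ker Pool.Agent.Lib_helper5.TB Pool.Agent.LibH4.CW

/-- the number with the digits `d 0, …, d (L - 1)` in base `2 ^ w` -/
def ofD (w : ℕ) (d : ℕ → ℕ) (L : ℕ) : ℕ := ∑ i ∈ range L, d i * 2 ^ (w * i)

lemma ofD_succ (w : ℕ) (d : ℕ → ℕ) (L : ℕ) : ofD w d (L + 1) = ofD w d L + 2 ^ (w * L) * d L := by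
  unfold ofD; rw [Finset.sum_range_succ, mul_comm (d L)]

lemma ofD_congr {w L : ℕ} {d d' : ℕ → ℕ} (h : ∀ i < L, d i = d' i) : ofD w d L = ofD w d' L := by
  unfold ofD
  apply Finset.sum_congr rfl
  intro i hi
  rw [h i (Finset.mem_range.1 hi)]

lemma ofD_add (w : ℕ) (d : ℕ → ℕ) (m n : ℕ) :
    ofD w d (m + n) = ofD w d m + 2 ^ (w * m) * ofD w (fun i => d (m + i)) n := by
  unfold ofD
  rw [Finset.sum_range_add, Finset.mul_sum]
  congr 1
  apply Finset.sum_congr rfl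
  intro i _
  rw [mul_add, pow_add]
  ring

lemma ofD_cons (w : ℕ) (d : ℕ → ℕ) (n : ℕ) :
    ofD w d (n + 1) = d 0 + 2 ^ w * ofD w (fun i => d (i + 1)) n := by
  rw [add_comm n 1, ofD_add]
  have h1 : ofD w d 1 = d 0 := by simp [ofD]
  rw [h1, mul_one]
  congr 3
  funext i
  rw [add_comm]

lemma ofD_lt {w L : ℕ} {d : ℕ → ℕ} (h : ∀ i < L, d i < 2 ^ w) : ofD w d L < 2 ^ (w * L) := by
  induction L with
  | zero => simp [ofD]
  | succ L ih =>
    have h1 := ih fun i hi => h i (by omega)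
    have h2 := h L (by omega)
    rw [ofD_succ, mul_add, mul_one, pow_add]
    have h3 : 2 ^ (w * L) * d L + 2 ^ (w * L) ≤ 2 ^ (w * L) * 2 ^ w := by
      calc 2 ^ (w * L) * d L + 2 ^ (w * L) = 2 ^ (w * L) * (d L + 1) := by ring
        _ ≤ 2 ^ (w * L) * 2 ^ w := Nat.mul_le_mul_left _ h2
    omega

lemma ofD_shr {w m n : ℕ} {d : ℕ → ℕ} (h : ∀ i < m, d i < 2 ^ w) :
    ofD w d (m + n) >>> (w * m) = ofD w (fun i => d (m + i)) n := by
  rw [ofD_add, add_shr _ _ _ (ofD_lt h)]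

lemma ofD_dig {w L i : ℕ} {d : ℕ → ℕ} (h : ∀ i < L, d i < 2 ^ w) (hi : i < L) :
    (ofD w d L >>> (w * i)) % 2 ^ w = d i := by
  obtain ⟨n, rfl⟩ : ∃ n, L = i + (n + 1) := ⟨L - i - 1, by omega⟩
  rw [ofD_shr fun j hj => h j (by omega), ofD_cons, add_mod _ _ _ (h _ (by omega))]
  rfl

lemma shr_mod_testBit (X s w j : ℕ) (hj : j < w) :
    Nat.testBit ((X >>> s) % 2 ^ w) j = Nat.testBit X (s + j) := by
  rw [Nat.testBit_mod_two_pow, Nat.testBit_shiftRight]
  simp [hj]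

lemma testBit_ofD {w L : ℕ} (hw : 0 < w) {d : ℕ → ℕ} (h : ∀ i < L, d i < 2 ^ w) (k : ℕ) :
    Nat.testBit (ofD w d L) k = (decide (k / w < L) && Nat.testBit (d (k / w)) (k % w)) := by
  by_cases hk : k / w < L
  · rw [← ofD_dig h hk, shr_mod_testBit _ _ _ _ (Nat.mod_lt _ hw), Nat.div_add_mod]
    simp [hk]
  · have h1 : ofD w d L < 2 ^ k := lt_of_lt_of_le (ofD_lt h) (Nat.pow_le_pow_right (by norm_num)
      ((Nat.mul_comm w L).le.trans ((Nat.le_div_iff_mul_le hw).1 (not_lt.1 hk))))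
    rw [Nat.testBit_lt_two_pow h1]
    simp [hk]

/-- part of the digits -/
lemma land_shr {w L s : ℕ} (hw : 0 < w) {d m : ℕ → ℕ} (hd : ∀ i < L, d i < 2 ^ w)
    (hm : ∀ i < L, m i < 2 ^ w) (hs : ∀ i < L, ∀ j, Nat.testBit (m i) j = true → s + j < w) :
    (ofD w d L >>> s) &&& ofD w m L = ofD w (fun i => (d i >>> s) &&& m i) L := by
  apply Nat.eq_of_testBit_eq
  intro k
  have hb : ∀ i < L, (d i >>> s) &&& m i < 2 ^ w := fun i hi =>
    lt_of_le_of_lt Nat.and_le_right (hm i hi)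
  rw [Nat.testBit_and, Nat.testBit_shiftRight, testBit_ofD hw hm, testBit_ofD hw hb]
  by_cases hk : k / w < L
  · simp only [hk, decide_true, Bool.true_and, Nat.testBit_and, Nat.testBit_shiftRight]
    by_cases hj : Nat.testBit (m (k / w)) (k % w) = true
    · have h1 := hs _ hk _ hj
      have e1 : s + k = w * (k / w) + (s + k % w) := by
        have := Nat.div_add_mod k w
        omega
      have e2 : (s + k) / w = k / w := by
        rw [e1, Nat.mul_add_div hw, Nat.div_eq_of_lt h1, add_zero]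
      have e3 : (s + k) % w = s + k % w := by
        rw [e1, Nat.mul_add_mod, Nat.mod_eq_of_lt h1]
      rw [testBit_ofD hw hd, e2, e3]
      simp [hk]
    · simp only [Bool.not_eq_true] at hj
      rw [hj]
      simp
  · simp [hk]

lemma rep_eq {w : ℕ} (hw : 0 < w) (q : ℕ) : rep w q = ofD w (fun _ => 1) q := by
  have h := Nat.geomSum_eq (m := 2 ^ w) (Nat.one_lt_two_pow hw.ne') q
  have e : rep w q = (2 ^ (w * q) - 1) / (2 ^ w - 1) := rfl
  rw [e, pow_mul, ← h]
  unfold ofD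
  apply Finset.sum_congr rfl
  intro i _
  rw [pow_mul, one_mul]

/-- repetition of digits -/
lemma ofD_rep {w P : ℕ} (hw : 0 < w) (hP : 0 < P) (d : ℕ → ℕ) (q : ℕ) :
    ofD w d P * rep (w * P) q = ofD w (fun i => d (i % P)) (P * q) := by
  rw [rep_eq (Nat.mul_pos hw hP)]
  induction q with
  | zero => simp [ofD]
  | succ q ih =>
    rw [ofD_succ, mul_add, ih, mul_add P q 1, mul_one, ofD_add, mul_one]
    congr 1
    rw [mul_comm, ← mul_assoc w P q]
    congr 1
    apply ofD_congr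
    intro i hi
    rw [Nat.mul_add_mod, Nat.mod_eq_of_lt hi]

lemma rep_add {w : ℕ} (hw : 0 < w) (m n : ℕ) : rep w (m + n) = rep w m + 2 ^ (w * m) * rep w n := by
  rw [rep_eq hw, rep_eq hw, rep_eq hw, ofD_add]

lemma rep_succ {w : ℕ} (hw : 0 < w) (n : ℕ) : rep w (n + 1) = rep w n + 2 ^ (w * n) := by
  rw [rep_eq hw, rep_eq hw, ofD_succ, mul_one]

/-- product with a repunit -/
lemma mul_rep {w : ℕ} (hw : 0 < w) (d : ℕ → ℕ) (L n : ℕ) :
    ofD w d n * rep w L + ∑ i ∈ range n, d i * rep w i =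
      (∑ i ∈ range n, d i) * rep w L + 2 ^ (w * L) * ∑ i ∈ range n, d i * rep w i := by
  induction n with
  | zero => simp [ofD]
  | succ n ih =>
    have h1 := rep_add hw n L
    have h2 := rep_add hw L n
    rw [add_comm n L] at h1
    rw [h2] at h1
    rw [ofD_succ, Finset.sum_range_succ, Finset.sum_range_succ]
    linear_combination ih - (d n) * h1

lemma pre_rep {w : ℕ} (hw : 0 < w) (d : ℕ → ℕ) (L : ℕ) :
    ofD w (fun m => ∑ i ∈ range (m + 1), d i) L + ∑ i ∈ range L, d i * rep w i =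
      (∑ i ∈ range L, d i) * rep w L := by
  induction L with
  | zero => simp [ofD]
  | succ L ih =>
    rw [ofD_succ, Finset.sum_range_succ (fun i => d i * rep w i), rep_succ hw, mul_add,
      Finset.sum_range_succ d]
    linear_combination ih

/-- partial sums of digits -/
lemma prS_aux {w L : ℕ} (hw : 0 < w) {d : ℕ → ℕ} (h : ∀ m < L, ∑ i ∈ range (m + 1), d i < 2 ^ w) :
    ofD w d L * rep w L % 2 ^ (w * L) = ofD w (fun m => ∑ i ∈ range (m + 1), d i) L := by
  have h1 := mul_rep hw d L L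
  have h2 := pre_rep hw d L
  have h3 : ofD w d L * rep w L = ofD w (fun m => ∑ i ∈ range (m + 1), d i) L +
      2 ^ (w * L) * ∑ i ∈ range L, d i * rep w i := by
    omega
  rw [h3, Nat.add_mul_mod_self_left, Nat.mod_eq_of_lt (ofD_lt h)]

end Pool.Agent.LibH4.CX
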