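import Pool.Agent.Lib_helper4.CX.Nw
import Pool.Agent.Lib_helper4.CW.Final

/-!
Constant words, all letters at once: the complete list.
-/

namespace Pool.Agent.LibH4.CX

open scoped NumberField
open Function Pool.Agent.Lib_helper5 Pool.Agent.LibH4 Pool.Agent.LibH4.CFO Pool.Agent.LibH4.LO
  Pool.Agent.LibH4.CW

variable {m B : ℤ} {s : ℝ} {x : ℕ → ℝ} {c : ℕ → ℕ}

/-- the condition on the letter and the period length -/
def Adm (a L : ℕ) : Prop := a ≤ 100 ∨ (3 ≤ L ∧ (L % 2 = 0 ∨ L % 13 ≠ 0))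

/-- **no unique factorisation with inert small primes** -/
theorem no_ufd (h : Data m B s x c) (hm : 0 < m) {L a d : ℕ}
    (hL : minimalPeriod gsh (x 1) = L) (hL2 : 2 ≤ L) (ha : 1 ≤ a) (had : Adm a L)
    (hc : ∀ i, 1 ≤ i → i < L → c i = a)
    [IsDomain (QuadraticAlgebra ℤ m B)] [UniqueFactorizationMonoid (QuadraticAlgebra ℤ m B)]
    (hd : (d : ℤ) = B ^ 2 + 4 * m) (hsq : Squarefree d)
    (hin : ∀ p : ℕ, p.Prime → p ≤ 19 → ∀ X : ℤ, ¬ (p : ℤ) ∣ X ^ 2 + B * X - m) : False := by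
  rcases had with ha2 | ⟨hL3, h13⟩
  · exact CW.no_ufd h hm hL hL2 ha ha2 hc hd hsq hin
  · rcases Nat.even_or_odd' L with ⟨k, hk | hk⟩
    · obtain ⟨n, rfl⟩ : ∃ n, k = n + 1 := ⟨k - 1, by omega⟩
      have W := world_even h hm (n := n) (a := a) (by rw [hL, hk]) hd hsq hin
        (fun i h1 h2 => hc i h1 (by omega))
      exact no_even W
    · obtain ⟨n, rfl⟩ : ∃ n, k = n + 1 := ⟨k - 1, by omega⟩
      have W := world_odd h hm (n := n) (a := a) (by rw [hL, hk]) hd hin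
        (fun i h1 h2 => hc i h1 (by omega))
      exact no_odd W (by omega)

/-- small letters -/
lemma small_a (h : Data m B s x c) (hm : 0 < m) {L a : ℕ}
    (hL : minimalPeriod gsh (x 1) = L) (hL3 : 3 ≤ L) (ha : 1 ≤ a)
    (hc : ∀ i, 1 ≤ i → i < L → c i = a)
    (hD : B ^ 2 + 4 * m < 1444 * ((a : ℤ) + 1) ^ 2) : a ≤ 100 := by
  obtain ⟨t, ht, hBt, hmt⟩ := params h hL (by omega) ha hc hm
  rw [Fz_eq] at hBt hmt
  have hv : a * a + 1 ≤ (Fn a L).2 := by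
    obtain ⟨k, rfl⟩ : ∃ k, L = 3 + k := ⟨L - 3, by omega⟩
    clear hL hL3 hc hBt hmt
    induction k with
    | zero =>
      have e : (Fn a 3).2 = 1 + a * a := by simp [Fn]
      rw [add_zero, e]
      omega
    | succ k ih => exact ih.trans (Fn_mono ha _)
  have h1 : B ^ 2 < (38 * ((a : ℤ) + 1)) ^ 2 := by nlinarith
  have h2 : B < 38 * ((a : ℤ) + 1) := lt_of_pow_lt_pow_left₀ 2 (by positivity) h1
  by_contra hcon
  have h3 : (101 : ℤ) ≤ a := by exact_mod_cast (by omega : 101 ≤ a)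
  have h4 : ((a : ℤ) * a + 1) ≤ ((Fn a L).2 : ℤ) := by exact_mod_cast hv
  have h5 : 1 * ((Fn a L).2 : ℤ) ≤ t * ((Fn a L).2 : ℤ) := by
    apply mul_le_mul_of_nonneg_right ht
    positivity
  simp only at hBt
  nlinarith

/-- **the complete list** -/
theorem fwd (d : ℕ) (h1 : 1 < d) (hsq : Squarefree d) {a L : ℕ} (had : Adm a L)
    (hL : minimalPeriod gsh (gsh (omg d)) = L) (hL2 : 2 ≤ L)
    (hw : ∀ i, 1 ≤ i → i < L → ⌊gsh^[i] (omg d)⌋ = (a : ℤ))
    (hU : UniqueFactorizationMonoid (𝓞 (KQ d))) : d ∈ dL := by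
  obtain ⟨m, B, s, x, c, h, hx1, hm, hB, hd⟩ := exists_data d h1 hsq
  rw [← hx1] at hL
  have hc : ∀ i, 1 ≤ i → i < L → c i = a := by
    intro i hi1 hi2
    obtain ⟨j, rfl⟩ : ∃ j, i = j + 1 := ⟨i - 1, by omega⟩
    have h2 := hw (j + 1) hi1 hi2
    rw [← x_eq_iter h hx1, ← h.fl] at h2
    exact_mod_cast h2
  have ha : 1 ≤ a := by
    rw [← hc 1 le_rfl (by omega)]
    exact (inv_of h 1).cpos
  obtain ⟨e⟩ : Nonempty (QuadraticAlgebra ℤ m B ≃+* 𝓞 (KQ d)) := by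
    rcases hd with ⟨h4, hd, hB2⟩ | ⟨h4, hd, hB2⟩
    · obtain ⟨e⟩ := exists_equiv_QI hd hB2
      exact ⟨e.symm.trans (eqvO hsq h1)⟩
    · obtain ⟨e⟩ := exists_equiv_QI_even hd h4 hB2
      exact ⟨e.symm.trans (eqvO hsq h1)⟩
  have i1 : IsDomain (QuadraticAlgebra ℤ m B) := e.toMulEquiv.isDomain
  have i2 : UniqueFactorizationMonoid (QuadraticAlgebra ℤ m B) :=
    e.symm.toMulEquiv.uniqueFactorizationMonoid hU
  by_cases hin : ∀ p : ℕ, p.Prime → p ≤ 19 → ∀ X : ℤ, ¬ (p : ℤ) ∣ X ^ 2 + B * X - m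
  · exfalso
    rcases hd with ⟨h4, hd, hB2⟩ | ⟨h4, hd, hB2⟩
    · exact no_ufd h hm hL hL2 ha had hc hd hsq hin
    · have r0 := hin 2 Nat.prime_two (by norm_num) 0
      have r1 := hin 2 Nat.prime_two (by norm_num) 1
      push_cast at r0 r1
      omega
  · push Not at hin
    obtain ⟨p, hp, hp19, X, hX⟩ := hin
    have hD := small_D h hm hB (by omega) hL ha hc hp hp19 hX
    have ha2 : a ≤ 100 := by
      rcases had with ha2 | ⟨hL3, -⟩
      · exact ha2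
      · exact small_a h hm hL hL3 ha hc hD
    obtain ⟨D, hD1, hD2⟩ := fin_small h hm hB hL hL2 ha ha2 hc hD
    apply dL_of hD1
    rcases hd with ⟨h4, hd, -⟩ | ⟨h4, hd, -⟩
    · left
      refine ⟨h4, ?_⟩
      rw [← hd] at hD2
      exact_mod_cast hD2
    · right
      refine ⟨h4, ?_⟩
      rw [← hd] at hD2
      exact_mod_cast hD2

end Pool.Agent.LibH4.CX
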