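import Pool.Agent.Lib_helper4.CX.Bas

/-!
Constant words, all letters at once: kernel functions of the elimination.
-/

namespace Pool.Agent.LibH4.CX

open Pool.Agent.LibH4.Ker Pool.Agent.Lib_helper5.TB Pool.Agent.LibH4.CW

/-- repetition of a digit -/
def rep (w q : ℕ) : ℕ :=
  Nat.div (Nat.sub (Nat.pow (nat_lit 2) (Nat.mul w q)) (nat_lit 1))
    (Nat.sub (Nat.pow (nat_lit 2) w) (nat_lit 1))

/-! ### strings of the first two components -/

/-- row -/
def gX (RX w V e : ℕ) : ℕ :=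
  Nat.mod (Nat.shiftRight RX (Nat.mul w (Nat.mod e (nat_lit 256)))) V

/-- rows along an orbit -/
def lazG (RX RY w V t1 T1 : ℕ) (R : List ℕ) : List ((ℕ × ℕ) × ℕ) :=
  mapL (fun i => ((gX RX w V (d32 T1 i), gX RY w V (d32 T1 i)), dig t1 (by1 (d32 T1 i)))) R

/-- record of the second component -/
def e2 (len3 t2 T2 i : ℕ) : ℕ :=
  Nat.add (Nat.mul (Nat.mul (nat_lit 8) len3) (Nat.mod (d32 T2 i) (nat_lit 256)))
    (Nat.mul (nat_lit 65536) (dig t2 (by1 (d32 T2 i))))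

/-- digit -/
def pd (BF mW : ℕ) (x : ℕ × ℕ) (w o : ℕ) : ℕ :=
  Nat.add (Nat.mul w (Nat.land (Nat.shiftRight x.1 o) mW))
    (Nat.mul BF (Nat.mul w (Nat.land (Nat.shiftRight x.2 o) mW)))

/-- digits along the orbit of the first component -/
def mL (l BF B2 mW : ℕ) (fin : ℕ → ℕ) (G : List ((ℕ × ℕ) × ℕ)) : ℕ → ℕ :=
  @List.rec _ (fun _ => ℕ → ℕ) fin (fun x _ ih E =>
    Nat.add (pd BF mW x.1
      (Nat.mod (Nat.mul x.2 (Nat.mod (Nat.shiftRight E (nat_lit 16)) (nat_lit 256))) l)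
      (Nat.mod E (nat_lit 65536)))
    (Nat.mul B2 (ih (Nat.shiftRight E (nat_lit 24))))) G

/-- digits along the joint orbit -/
def mQ (l BF B2 mW : ℕ) (G : List ((ℕ × ℕ) × ℕ)) (q : ℕ) : ℕ → ℕ :=
  @Nat.rec (fun _ => ℕ → ℕ) (fun _ => nat_lit 0) (fun _ ih => mL l BF B2 mW ih G) q

/-- rows along the orbit of a record -/
def gL (s : RN) (r : Rc) : List ((ℕ × ℕ) × ℕ) := lazG s.RX s.RY s.w s.V s.t1 r.orb (rng r.pi)

/-- string of the first two components -/
def strA (s : RN) (r1 r2 : Rc) : ℕ :=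
  (fun P => mQ s.l (Nat.pow (nat_lit 2) s.F) (Nat.pow (nat_lit 2) (Nat.mul (nat_lit 2) s.F))
    (Nat.sub (Nat.pow (nat_lit 2) (Nat.mul (nat_lit 8) s.len3)) (nat_lit 1)) (gL s r1)
    (Nat.div P r1.pi)
    (Nat.mul (cat (nat_lit 16777216) (e2 s.len3 s.t2 r2.orb) (rng r2.pi))
      (rep (Nat.mul (nat_lit 24) r2.pi) (Nat.div P r2.pi)))) (lcmS r1.pi r2.pi)

/-! ### strings of three components -/

/-- sum over the residues -/
def sJ (t3 orb A B2 : ℕ) (R : List ℕ) : ℕ → ℕ :=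
  @List.rec ℕ (fun _ => ℕ → ℕ) (fun _ => nat_lit 0) (fun j _ ih m =>
    Nat.add (Nat.mul (dig t3 (by1 (d32 orb j)))
      (Nat.land (Nat.shiftRight A (Nat.mul (nat_lit 8) (Nat.mod (d32 orb j) (nat_lit 256)))) m))
      (ih (Nat.mul m B2))) R

/-- string of three components -/
def strS (s : RN) (r1 r2 r3 : Rc) (L : ℕ) : ℕ :=
  (fun P => sJ s.t3 r3.orb (Nat.mul (strA s r1 r2) (rep (Nat.mul (Nat.mul (nat_lit 2) s.F) P)
      (Nat.div L P)))
    (Nat.pow (nat_lit 2) (Nat.mul (nat_lit 2) s.F)) (rng r3.pi)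
    (Nat.mul s.ms (rep (Nat.mul (Nat.mul (nat_lit 2) s.F) r3.pi) (Nat.div L r3.pi))))
    (lcmS r1.pi r2.pi)

/-- partial sums -/
def prS (F L S : ℕ) : ℕ :=
  Nat.mod (Nat.mul S (rep (Nat.mul (nat_lit 2) F) L))
    (Nat.pow (nat_lit 2) (Nat.mul (Nat.mul (nat_lit 2) F) L))

/-! ### states -/

/-- value at a number -/
def valN (V L w2 mF c l n : ℕ) : ℕ :=
  Nat.mod (Nat.add (Nat.land (Nat.shiftRight V (Nat.mul w2 (Nat.mod n L))) mF)
    (Nat.mul (Nat.div n L) c)) l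

/-- the lifts of a constant value -/
def ft0 (V L w2 mF c l K K1 n : ℕ) (acc : Tr) (q : ℕ) : Tr :=
  @Nat.rec (fun _ => Tr) acc (fun m ih => @Bool.rec (fun _ => Tr) ih
    (strict (Nat.add n (Nat.mul K m)) fun n' => strict K1 fun K1 => Tr.st n' K1 ih)
    (Nat.beq (valN V L w2 mF c l (Nat.add n (Nat.mul K m))) (nat_lit 0))) q

/-- the lifts of a changing value -/
def ft1 (V L w2 mF c l K K1 ic n : ℕ) (acc : Tr) (q : ℕ) : Tr :=
  @Nat.rec (fun _ => Tr) acc (fun m ih =>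
    strict (Nat.add (Nat.add n (Nat.mul K m)) (Nat.mul K1
      (Nat.mod (Nat.mul (Nat.sub l (valN V L w2 mF c l (Nat.add n (Nat.mul K m)))) ic) l)))
      fun n' => strict (Nat.mul K1 l) fun K2 => Tr.st n' K2 ih) q

/-- a relation, the states -/
noncomputable def rel0 (l c L w2 F mF Q S a2 orb pl : ℕ) (st : Tr) : Tr :=
  @Tr.rec (fun _ => Tr) Tr.nil (fun n K _ ih =>
    @Bool.rec (fun _ => Tr) (Tr.st n K ih)
      ((fun K1 V => (fun c1 => @Bool.rec (fun _ => Tr)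
        (ft1 V L w2 mF c l K K1 (Nat.mod (Nat.pow c1 (Nat.sub l (nat_lit 2))) l) n ih
          (Nat.div K1 K))
        (ft0 V L w2 mF c l K K1 n ih (Nat.div K1 K))
        (Nat.beq c1 (nat_lit 0))) (Nat.mod (Nat.mul (Nat.div K1 L) c) l))
      (lcmS K L) (Nat.shiftRight (Nat.add Q (Nat.mul S (Nat.sub a2
      (by2 (d32 orb (Nat.mod n pl)))))) F))
      (Nat.beq (Nat.mod K pl) (nat_lit 0)))
    st

/-- a relation -/
noncomputable def rel5 (l L w2 F mF k0 k1 S ra orb pl R : ℕ) (st : Tr) : Tr :=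
  strict (Nat.mod (Nat.land (Nat.shiftRight R (Nat.add F (Nat.mul w2 (Nat.sub L (nat_lit 1)))))
    mF) l) fun c =>
  rel0 l c L w2 F mF (Nat.add R (Nat.mul (Nat.mod (Nat.add (Nat.mul k0 (Nat.land S mF))
    (Nat.mul k1 (Nat.land (Nat.shiftRight S F) mF))) l)
    (Nat.mul (Nat.succ mF) (rep w2 L)))) S (Nat.add (Nat.mul (nat_lit 2) ra) l) orb pl st

/-- a relation -/
noncomputable def relQ (par : Bool) (l F w2 mF L S ra orb pl : ℕ) (st : Tr) : Tr :=
  rel5 l L w2 F mF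
    (neg l (@Bool.rec (fun _ => ℕ) (nat_lit 3) (nat_lit 6) par))
    (@Bool.rec (fun _ => ℕ) (nat_lit 0) ra par) S ra orb pl
    (Nat.mul (prS F L S) (Nat.add (neg l (Nat.mul (nat_lit 2) ra))
      (Nat.mul (nat_lit 6) (Nat.succ mF)))) st

/-- a relation of three components -/
noncomputable def relX (par : Bool) (s : RN) (r1 r2 r3 r : Rc) (st : Tr) : Tr :=
  strict (lcmS (lcmS r1.pi r2.pi) r3.pi) fun L =>
    @Bool.rec (fun _ => Tr) st
      (relQ par s.l s.F s.w2 s.mF L (strS s r1 r2 r3 L) r.a r.orb r.pi st)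
      (Nat.ble L (nat_lit 1000))

/-- all lifts -/
def lf1 (K K1 n q : ℕ) (acc : Tr) : Tr :=
  @Nat.rec (fun _ => Tr) acc (fun m ih => strict (Nat.add n (Nat.mul K m)) fun n' =>
    strict K1 fun K1 => Tr.st n' K1 ih) q

/-- all lifts -/
noncomputable def lft (m : ℕ) (st : Tr) : Tr :=
  @Tr.rec (fun _ => Tr) Tr.nil (fun n K _ ih => lf1 K (lcmS K m) n (Nat.div (lcmS K m) K) ih)
    st

/-- continuation for a non empty list of states -/
noncomputable def ne (t : Tr) (r : Bool) : Bool :=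
  @Tr.rec (fun _ => Bool) true (fun _ _ _ _ => r) t

/-- the list is empty -/
noncomputable def nilT (t : Tr) : Bool := @Tr.rec (fun _ => Bool) true (fun _ _ _ _ => false) t

/-- equality of states -/
noncomputable def eqT (t : Tr) : Tr → Bool :=
  @Tr.rec (fun _ => Tr → Bool)
    (fun u => @Tr.rec (fun _ => Bool) true (fun _ _ _ _ => false) u)
    (fun n K _ ih u => @Tr.rec (fun _ => Bool) false
      (fun n' K' u' _ => andB (Nat.beq n n') (andB (Nat.beq K K') (ih u'))) u) t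

/-- equality of records -/
def eqR (r s : Rc) : Bool :=
  andB (Nat.beq r.orb s.orb) (andB (Nat.beq r.a s.a) (andB (Nat.beq r.x1 s.x1)
    (andB (Nat.beq r.x2 s.x2) (andB (Nat.beq r.n s.n) (Nat.beq r.pi s.pi)))))

/-- disjunction over a list -/
def anyL {α : Type} (p : α → Bool) (L : List α) : Bool :=
  @List.rec α (fun _ => Bool) false (fun x _ ih => @Bool.rec (fun _ => Bool) ih true (p x)) L

/-- the states are in the list -/
noncomputable def in3 (E : List E3) (r13 r7 r5 : Rc) (s : Tr) : Bool :=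
  ne s (anyL (fun e => andB (eqR r5 e.r5) (andB (eqR r7 e.r7) (andB (eqR r13 e.r13)
    (eqT s e.s)))) E)

/-- the states are in the list -/
noncomputable def in5 (E : List E5) (r13 r7 r5 r8 r4 : Rc) (s : Tr) : Bool :=
  ne s (anyL (fun e => andB (eqR r8 e.r8) (andB (eqR r5 e.r5) (andB (eqR r7 e.r7)
    (andB (eqR r13 e.r13) (andB (eqR r4 e.r4) (eqT s e.s)))))) E)

/-- the states are in the list -/
noncomputable def in7 (E : List E7) (r17 r13 r7 r5 r8 r4 r11 : Rc) (s : Tr) : Bool :=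
  ne s (anyL (fun e => andB (eqR r11 e.r11) (andB (eqR r8 e.r8) (andB (eqR r5 e.r5)
    (andB (eqR r7 e.r7) (andB (eqR r13 e.r13) (andB (eqR r4 e.r4) (andB (eqR r17 e.r17)
      (eqT s e.s)))))))) E)

/-- filter of the states -/
noncomputable def filT (p : ℕ → ℕ → Bool) (st : Tr) : Tr :=
  @Tr.rec (fun _ => Tr) Tr.nil (fun n K _ ih => @Bool.rec (fun _ => Tr) ih (Tr.st n K ih) (p n K))
    st

/-- the condition at `13` -/
def c13 (n K : ℕ) : Bool :=
  @Bool.rec (fun _ => Bool) true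
    (@Bool.rec (fun _ => Bool) true false
      (Nat.beq (Nat.mod (Nat.add (Nat.mul (nat_lit 2) n) (nat_lit 1)) (nat_lit 13)) (nat_lit 0)))
    (Nat.beq (Nat.mod K (nat_lit 13)) (nat_lit 0))

/-- the genus condition -/
def c4 (orb pl n : ℕ) : Bool := Nat.beq (by3 (d32 orb (Nat.mod n pl))) (nat_lit 3)

end Pool.Agent.LibH4.CX
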