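import Pool.Agent.Lib_helper4.CX.ChAll

/-!
Constant words, all letters at once: there is no world.
-/

namespace Pool.Agent.LibH4.CX

open Pool.Agent.LibH4.CW

variable {a N : ℕ} {e : ℕ → ℤ × ℤ × ℤ}

/-- **odd parity** -/
theorem no_odd (W : World false a e N) (h13 : (2 * N + 1) % 13 ≠ 0) : False := by
  obtain ⟨r1, m1, T1⟩ := ex1o W
  obtain ⟨r13, m13, T13⟩ := ex13o W
  obtain ⟨r7, m7, T7⟩ := ex7o W
  obtain ⟨r5, m5, T5⟩ := ex5o W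
  obtain ⟨r17, m17, T17⟩ := ex17o W
  obtain ⟨r8, m8, T8⟩ := ex8o W
  obtain ⟨r4, m4, T4⟩ := ex4o W
  obtain ⟨r11, m11, T11⟩ := ex11o W
  obtain ⟨r19, m19, T19⟩ := ex19o W
  have e1 : r1 = r1o_0 := by
    unfold F1o at m1
    simpa using m1
  subst e1
  obtain ⟨E, hE, cA⟩ := f2_mem allA r13 m13
  obtain ⟨⟨x13, x7, x5, xs⟩, hx, a1, a2, a3, i1⟩ := stA_spec W h13 T1 T13 T7 m7 T5 m5 cA
  simp only at a1 a2 a3 i1
  subst a1 a2 a3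
  obtain ⟨E', hE', cB⟩ := f2_mem allB r17 m17
  obtain ⟨⟨y17, y13, y7, y5, y8, y4, y11, ys⟩, hy, b1, b2, b3, b4, b5, b6, b7, i2⟩ :=
    stB_spec W h13 i1 T1 T17 T13 T7 T5 T8 T4 T11 m11 (lkO_spec W T8 T4 lk_o m8 m4) hE hx cB
  simp only at b1 b2 b3 b4 b5 b6 b7 i2
  subst b1 b2 b3 b4 b5 b6 b7
  exact stC_spec W h13 i2 T1 T17 T13 T7 T5 T8 T11 T19 hE' hy (allC r19 m19)

/-- **even parity** -/
theorem no_even (W : World true a e N) : False := by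
  obtain ⟨r1, m1, T1⟩ := ex1e W
  obtain ⟨r13, m13, T13⟩ := ex13e W
  obtain ⟨r7, m7, T7⟩ := ex7e W
  obtain ⟨r5, m5, T5⟩ := ex5e W
  obtain ⟨r17, m17, T17⟩ := ex17e W
  obtain ⟨r8, m8, T8⟩ := ex8e W
  obtain ⟨r4, m4, T4⟩ := ex4e W
  obtain ⟨r11, m11, T11⟩ := ex11e W
  obtain ⟨r19, m19, T19⟩ := ex19e W
  have e1 : r1 = r1e_0 := by
    unfold F1e at m1
    simpa using m1
  subst e1
  obtain ⟨⟨p4, F8⟩, hp, g1, g2⟩ := lkE_spec W T8 T4 lk_e m8 m4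
  simp only at g1 g2
  subst g1
  obtain ⟨E, hE, cD⟩ := f2_mem allD r13 m13
  obtain ⟨⟨x13, x7, x5, x8, x4, xs⟩, hx, a1, a2, a3, a4, a5, i1⟩ :=
    stD_spec W T1 T13 T7 m7 T5 m5 T8 T4 hp g2 cD
  simp only at a1 a2 a3 a4 a5 i1
  subst a1 a2 a3 a4 a5
  exact stF_spec W i1 T1 T17 T13 T7 T5 T8 T4 T11 m11 T19 m19 hE hx (allF r17 m17)

end Pool.Agent.LibH4.CX
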