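import Pool.Agent.Lib_helper4.CX.Sd
import Pool.Agent.Lib_helper4.CX.Rel

/-! generated: static data of the relations -/

namespace Pool.Agent.LibH4.CX

open Pool.Agent.LibH4.CW

lemma sd_91F13 : SD n91F13 r_91F13 :=
  ⟨k_91F13, rfl, rfl, rfl, rfl, rfl, by decide +kernel, by decide +kernel, rfl, rfl,
    by decide +kernel, by decide +kernel, by decide +kernel, by decide +kernel, by decide +kernel⟩

lemma sm_91F13 : SM n91F13 r_91F13 31 :=
  sm32 sd_91F13 (by decide +kernel) (by decide +kernel) (by decide +kernel) (by decide +kernel)
    (by decide +kernel) (by decide +kernel) (by decide +kernel)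

lemma sd_455F13a : SD n455F13a r_455F13a :=
  ⟨k_455F13a, rfl, rfl, rfl, rfl, rfl, by decide +kernel, by decide +kernel, rfl, rfl,
    by decide +kernel, by decide +kernel, by decide +kernel, by decide +kernel, by decide +kernel⟩

lemma sm_455F13a : SM n455F13a r_455F13a 31 :=
  sm8 sd_455F13a (by decide +kernel) (by decide +kernel) (by decide +kernel)
    (by decide +kernel) (by decide +kernel) (by decide +kernel)

lemma sd_455F13b : SD n455F13b r_455F13b :=
  ⟨k_455F13b, rfl, rfl, rfl, rfl, rfl, by decide +kernel, by decide +kernel, rfl, rfl,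
    by decide +kernel, by decide +kernel, by decide +kernel, by decide +kernel, by decide +kernel⟩

lemma sm_455F13b : SM n455F13b r_455F13b 31 :=
  sm8 sd_455F13b (by decide +kernel) (by decide +kernel) (by decide +kernel)
    (by decide +kernel) (by decide +kernel) (by decide +kernel)

lemma sd_455F13c : SD n455F13c r_455F13c :=
  ⟨k_455F13c, rfl, rfl, rfl, rfl, rfl, by decide +kernel, by decide +kernel, rfl, rfl,
    by decide +kernel, by decide +kernel, by decide +kernel, by decide +kernel, by decide +kernel⟩

lemma sm_455F13c : SM n455F13c r_455F13c 31 :=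
  sm8 sd_455F13c (by decide +kernel) (by decide +kernel) (by decide +kernel)
    (by decide +kernel) (by decide +kernel) (by decide +kernel)

lemma sd_455F13d : SD n455F13d r_455F13d :=
  ⟨k_455F13d, rfl, rfl, rfl, rfl, rfl, by decide +kernel, by decide +kernel, rfl, rfl,
    by decide +kernel, by decide +kernel, by decide +kernel, by decide +kernel, by decide +kernel⟩

lemma sm_455F13d : SM n455F13d r_455F13d 31 :=
  sm8 sd_455F13d (by decide +kernel) (by decide +kernel) (by decide +kernel)
    (by decide +kernel) (by decide +kernel) (by decide +kernel)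

lemma sd_119N13 : SD n119N13 r_119N13 :=
  ⟨k_119N13, rfl, rfl, rfl, rfl, rfl, by decide +kernel, by decide +kernel, rfl, rfl,
    by decide +kernel, by decide +kernel, by decide +kernel, by decide +kernel, by decide +kernel⟩

lemma sm_119N13 : SM n119N13 r_119N13 31 :=
  sm32 sd_119N13 (by decide +kernel) (by decide +kernel) (by decide +kernel) (by decide +kernel)
    (by decide +kernel) (by decide +kernel) (by decide +kernel)

lemma sd_119N5 : SD n119N5 r_119N5 :=
  ⟨k_119N5, rfl, rfl, rfl, rfl, rfl, by decide +kernel, by decide +kernel, rfl, rfl,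
    by decide +kernel, by decide +kernel, by decide +kernel, by decide +kernel, by decide +kernel⟩

lemma sm_119N5 : SM n119N5 r_119N5 31 :=
  sm32 sd_119N5 (by decide +kernel) (by decide +kernel) (by decide +kernel) (by decide +kernel)
    (by decide +kernel) (by decide +kernel) (by decide +kernel)

lemma sd_221N5 : SD n221N5 r_221N5 :=
  ⟨k_221N5, rfl, rfl, rfl, rfl, rfl, by decide +kernel, by decide +kernel, rfl, rfl,
    by decide +kernel, by decide +kernel, by decide +kernel, by decide +kernel, by decide +kernel⟩

lemma sm_221N5 : SM n221N5 r_221N5 31 :=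
  sm32 sd_221N5 (by decide +kernel) (by decide +kernel) (by decide +kernel) (by decide +kernel)
    (by decide +kernel) (by decide +kernel) (by decide +kernel)

lemma sd_595N13a : SD n595N13a r_595N13a :=
  ⟨k_595N13a, rfl, rfl, rfl, rfl, rfl, by decide +kernel, by decide +kernel, rfl, rfl,
    by decide +kernel, by decide +kernel, by decide +kernel, by decide +kernel, by decide +kernel⟩

lemma sm_595N13a : SM n595N13a r_595N13a 31 :=
  sm8 sd_595N13a (by decide +kernel) (by decide +kernel) (by decide +kernel)
    (by decide +kernel) (by decide +kernel) (by decide +kernel)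

lemma sd_595N13b : SD n595N13b r_595N13b :=
  ⟨k_595N13b, rfl, rfl, rfl, rfl, rfl, by decide +kernel, by decide +kernel, rfl, rfl,
    by decide +kernel, by decide +kernel, by decide +kernel, by decide +kernel, by decide +kernel⟩

lemma sm_595N13b : SM n595N13b r_595N13b 31 :=
  sm8 sd_595N13b (by decide +kernel) (by decide +kernel) (by decide +kernel)
    (by decide +kernel) (by decide +kernel) (by decide +kernel)

lemma sd_364F13a : SD n364F13a r_364F13a :=
  ⟨k_364F13a, rfl, rfl, rfl, rfl, rfl, by decide +kernel, by decide +kernel, rfl, rfl,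
    by decide +kernel, by decide +kernel, by decide +kernel, by decide +kernel, by decide +kernel⟩

lemma sm_364F13a : SM n364F13a r_364F13a 31 :=
  sm8 sd_364F13a (by decide +kernel) (by decide +kernel) (by decide +kernel)
    (by decide +kernel) (by decide +kernel) (by decide +kernel)

lemma sd_364F13b : SD n364F13b r_364F13b :=
  ⟨k_364F13b, rfl, rfl, rfl, rfl, rfl, by decide +kernel, by decide +kernel, rfl, rfl,
    by decide +kernel, by decide +kernel, by decide +kernel, by decide +kernel, by decide +kernel⟩

lemma sm_364F13b : SM n364F13b r_364F13b 31 :=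
  sm8 sd_364F13b (by decide +kernel) (by decide +kernel) (by decide +kernel)
    (by decide +kernel) (by decide +kernel) (by decide +kernel)

lemma sd_260F13 : SD n260F13 r_260F13 :=
  ⟨k_260F13, rfl, rfl, rfl, rfl, rfl, by decide +kernel, by decide +kernel, rfl, rfl,
    by decide +kernel, by decide +kernel, by decide +kernel, by decide +kernel, by decide +kernel⟩

lemma sm_260F13 : SM n260F13 r_260F13 31 :=
  sm8 sd_260F13 (by decide +kernel) (by decide +kernel) (by decide +kernel)
    (by decide +kernel) (by decide +kernel) (by decide +kernel)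

lemma sd_140N13 : SD n140N13 r_140N13 :=
  ⟨k_140N13, rfl, rfl, rfl, rfl, rfl, by decide +kernel, by decide +kernel, rfl, rfl,
    by decide +kernel, by decide +kernel, by decide +kernel, by decide +kernel, by decide +kernel⟩

lemma sm_140N13 : SM n140N13 r_140N13 31 :=
  sm8 sd_140N13 (by decide +kernel) (by decide +kernel) (by decide +kernel)
    (by decide +kernel) (by decide +kernel) (by decide +kernel)

lemma sd_728F13 : SD n728F13 r_728F13 :=
  ⟨k_728F13, rfl, rfl, rfl, rfl, rfl, by decide +kernel, by decide +kernel, rfl, rfl,
    by decide +kernel, by decide +kernel, by decide +kernel, by decide +kernel, by decide +kernel⟩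

lemma sm_728F13 : SM n728F13 r_728F13 31 :=
  sm8 sd_728F13 (by decide +kernel) (by decide +kernel) (by decide +kernel)
    (by decide +kernel) (by decide +kernel) (by decide +kernel)

lemma sd_680N13 : SD n680N13 r_680N13 :=
  ⟨k_680N13, rfl, rfl, rfl, rfl, rfl, by decide +kernel, by decide +kernel, rfl, rfl,
    by decide +kernel, by decide +kernel, by decide +kernel, by decide +kernel, by decide +kernel⟩

lemma sm_680N13 : SM n680N13 r_680N13 31 :=
  sm8 sd_680N13 (by decide +kernel) (by decide +kernel) (by decide +kernel)
    (by decide +kernel) (by decide +kernel) (by decide +kernel)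

lemma sd_520F5 : SD n520F5 r_520F5 :=
  ⟨k_520F5, rfl, rfl, rfl, rfl, rfl, by decide +kernel, by decide +kernel, rfl, rfl,
    by decide +kernel, by decide +kernel, by decide +kernel, by decide +kernel, by decide +kernel⟩

lemma sm_520F5 : SM n520F5 r_520F5 31 :=
  sm8 sd_520F5 (by decide +kernel) (by decide +kernel) (by decide +kernel)
    (by decide +kernel) (by decide +kernel) (by decide +kernel)

lemma sd_728N5 : SD n728N5 r_728N5 :=
  ⟨k_728N5, rfl, rfl, rfl, rfl, rfl, by decide +kernel, by decide +kernel, rfl, rfl,
    by decide +kernel, by decide +kernel, by decide +kernel, by decide +kernel, by decide +kernel⟩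

lemma sm_728N5 : SM n728N5 r_728N5 31 :=
  sm8 sd_728N5 (by decide +kernel) (by decide +kernel) (by decide +kernel)
    (by decide +kernel) (by decide +kernel) (by decide +kernel)

lemma sd_616N13 : SD n616N13 r_616N13 :=
  ⟨k_616N13, rfl, rfl, rfl, rfl, rfl, by decide +kernel, by decide +kernel, rfl, rfl,
    by decide +kernel, by decide +kernel, by decide +kernel, by decide +kernel, by decide +kernel⟩

lemma sm_616N13 : SM n616N13 r_616N13 31 :=
  sm8 sd_616N13 (by decide +kernel) (by decide +kernel) (by decide +kernel)
    (by decide +kernel) (by decide +kernel) (by decide +kernel)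

end Pool.Agent.LibH4.CX
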