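import Pool.Agent.Lib_helper4.CX.Sd
import Pool.Agent.Lib_helper4.CX.Rel

/-! generated: static data of the relations -/

namespace Pool.Agent.LibH4.CX

open Pool.Agent.LibH4.CW

lemma sd_308F7 : SD n308F7 r_308F7 :=
  ⟨k_308F7, rfl, rfl, rfl, rfl, rfl, by decide +kernel, by decide +kernel, rfl, rfl,
    by decide +kernel, by decide +kernel, by decide +kernel, by decide +kernel, by decide +kernel⟩

lemma sm_308F7 : SM n308F7 r_308F7 31 :=
  sm8 sd_308F7 (by decide +kernel) (by decide +kernel) (by decide +kernel)
    (by decide +kernel) (by decide +kernel) (by decide +kernel)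

lemma sd_143N5 : SD n143N5 r_143N5 :=
  ⟨k_143N5, rfl, rfl, rfl, rfl, rfl, by decide +kernel, by decide +kernel, rfl, rfl,
    by decide +kernel, by decide +kernel, by decide +kernel, by decide +kernel, by decide +kernel⟩

lemma sm_143N5 : SM n143N5 r_143N5 31 :=
  sm32 sd_143N5 (by decide +kernel) (by decide +kernel) (by decide +kernel) (by decide +kernel)
    (by decide +kernel) (by decide +kernel) (by decide +kernel)

lemma sd_143N7 : SD n143N7 r_143N7 :=
  ⟨k_143N7, rfl, rfl, rfl, rfl, rfl, by decide +kernel, by decide +kernel, rfl, rfl,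
    by decide +kernel, by decide +kernel, by decide +kernel, by decide +kernel, by decide +kernel⟩

lemma sm_143N7 : SM n143N7 r_143N7 31 :=
  sm32 sd_143N7 (by decide +kernel) (by decide +kernel) (by decide +kernel) (by decide +kernel)
    (by decide +kernel) (by decide +kernel) (by decide +kernel)

lemma sd_88F11 : SD n88F11 r_88F11 :=
  ⟨k_88F11, rfl, rfl, rfl, rfl, rfl, by decide +kernel, by decide +kernel, rfl, rfl,
    by decide +kernel, by decide +kernel, by decide +kernel, by decide +kernel, by decide +kernel⟩

lemma sm_88F11 : SM n88F11 r_88F11 31 :=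
  sm32 sd_88F11 (by decide +kernel) (by decide +kernel) (by decide +kernel) (by decide +kernel)
    (by decide +kernel) (by decide +kernel) (by decide +kernel)

lemma sd_616F11 : SD n616F11 r_616F11 :=
  ⟨k_616F11, rfl, rfl, rfl, rfl, rfl, by decide +kernel, by decide +kernel, rfl, rfl,
    by decide +kernel, by decide +kernel, by decide +kernel, by decide +kernel, by decide +kernel⟩

lemma sm_616F11 : SM n616F11 r_616F11 31 :=
  sm8 sd_616F11 (by decide +kernel) (by decide +kernel) (by decide +kernel)
    (by decide +kernel) (by decide +kernel) (by decide +kernel)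

lemma sd_187F17a : SD n187F17a r_187F17a :=
  ⟨k_187F17a, rfl, rfl, rfl, rfl, rfl, by decide +kernel, by decide +kernel, rfl, rfl,
    by decide +kernel, by decide +kernel, by decide +kernel, by decide +kernel, by decide +kernel⟩

lemma sm_187F17a : SM n187F17a r_187F17a 31 :=
  sm32 sd_187F17a (by decide +kernel) (by decide +kernel) (by decide +kernel) (by decide +kernel)
    (by decide +kernel) (by decide +kernel) (by decide +kernel)

lemma sd_572N5 : SD n572N5 r_572N5 :=
  ⟨k_572N5, rfl, rfl, rfl, rfl, rfl, by decide +kernel, by decide +kernel, rfl, rfl,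
    by decide +kernel, by decide +kernel, by decide +kernel, by decide +kernel, by decide +kernel⟩

lemma sm_572N5 : SM n572N5 r_572N5 31 :=
  sm8 sd_572N5 (by decide +kernel) (by decide +kernel) (by decide +kernel)
    (by decide +kernel) (by decide +kernel) (by decide +kernel)

lemma sd_133N13 : SD n133N13 r_133N13 :=
  ⟨k_133N13, rfl, rfl, rfl, rfl, rfl, by decide +kernel, by decide +kernel, rfl, rfl,
    by decide +kernel, by decide +kernel, by decide +kernel, by decide +kernel, by decide +kernel⟩

lemma sm_133N13 : SM n133N13 r_133N13 31 :=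
  sm32 sd_133N13 (by decide +kernel) (by decide +kernel) (by decide +kernel) (by decide +kernel)
    (by decide +kernel) (by decide +kernel) (by decide +kernel)

lemma sd_95N13 : SD n95N13 r_95N13 :=
  ⟨k_95N13, rfl, rfl, rfl, rfl, rfl, by decide +kernel, by decide +kernel, rfl, rfl,
    by decide +kernel, by decide +kernel, by decide +kernel, by decide +kernel, by decide +kernel⟩

lemma sm_95N13 : SM n95N13 r_95N13 31 :=
  sm32 sd_95N13 (by decide +kernel) (by decide +kernel) (by decide +kernel) (by decide +kernel)
    (by decide +kernel) (by decide +kernel) (by decide +kernel)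

lemma sd_95F19 : SD n95F19 r_95F19 :=
  ⟨k_95F19, rfl, rfl, rfl, rfl, rfl, by decide +kernel, by decide +kernel, rfl, rfl,
    by decide +kernel, by decide +kernel, by decide +kernel, by decide +kernel, by decide +kernel⟩

lemma sm_95F19 : SM n95F19 r_95F19 31 :=
  sm32 sd_95F19 (by decide +kernel) (by decide +kernel) (by decide +kernel) (by decide +kernel)
    (by decide +kernel) (by decide +kernel) (by decide +kernel)

lemma sd_247F19a : SD n247F19a r_247F19a :=
  ⟨k_247F19a, rfl, rfl, rfl, rfl, rfl, by decide +kernel, by decide +kernel, rfl, rfl,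
    by decide +kernel, by decide +kernel, by decide +kernel, by decide +kernel, by decide +kernel⟩

lemma sm_247F19a : SM n247F19a r_247F19a 31 :=
  sm32 sd_247F19a (by decide +kernel) (by decide +kernel) (by decide +kernel) (by decide +kernel)
    (by decide +kernel) (by decide +kernel) (by decide +kernel)

lemma sd_152F19a : SD n152F19a r_152F19a :=
  ⟨k_152F19a, rfl, rfl, rfl, rfl, rfl, by decide +kernel, by decide +kernel, rfl, rfl,
    by decide +kernel, by decide +kernel, by decide +kernel, by decide +kernel, by decide +kernel⟩

lemma sm_152F19a : SM n152F19a r_152F19a 31 :=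
  sm32 sd_152F19a (by decide +kernel) (by decide +kernel) (by decide +kernel) (by decide +kernel)
    (by decide +kernel) (by decide +kernel) (by decide +kernel)

lemma sd_152F19b : SD n152F19b r_152F19b :=
  ⟨k_152F19b, rfl, rfl, rfl, rfl, rfl, by decide +kernel, by decide +kernel, rfl, rfl,
    by decide +kernel, by decide +kernel, by decide +kernel, by decide +kernel, by decide +kernel⟩

lemma sm_152F19b : SM n152F19b r_152F19b 31 :=
  sm32 sd_152F19b (by decide +kernel) (by decide +kernel) (by decide +kernel) (by decide +kernel)
    (by decide +kernel) (by decide +kernel) (by decide +kernel)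

lemma sd_935N7 : SD n935N7 r_935N7 :=
  ⟨k_935N7, rfl, rfl, rfl, rfl, rfl, by decide +kernel, by decide +kernel, rfl, rfl,
    by decide +kernel, by decide +kernel, by decide +kernel, by decide +kernel, by decide +kernel⟩

lemma sm_935N7 : SM n935N7 r_935N7 31 :=
  sm8 sd_935N7 (by decide +kernel) (by decide +kernel) (by decide +kernel)
    (by decide +kernel) (by decide +kernel) (by decide +kernel)

lemma sd_728F7 : SD n728F7 r_728F7 :=
  ⟨k_728F7, rfl, rfl, rfl, rfl, rfl, by decide +kernel, by decide +kernel, rfl, rfl,
    by decide +kernel, by decide +kernel, by decide +kernel, by decide +kernel, by decide +kernel⟩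

lemma sm_728F7 : SM n728F7 r_728F7 31 :=
  sm8 sd_728F7 (by decide +kernel) (by decide +kernel) (by decide +kernel)
    (by decide +kernel) (by decide +kernel) (by decide +kernel)

lemma sd_520N7 : SD n520N7 r_520N7 :=
  ⟨k_520N7, rfl, rfl, rfl, rfl, rfl, by decide +kernel, by decide +kernel, rfl, rfl,
    by decide +kernel, by decide +kernel, by decide +kernel, by decide +kernel, by decide +kernel⟩

lemma sm_520N7 : SM n520N7 r_520N7 31 :=
  sm8 sd_520N7 (by decide +kernel) (by decide +kernel) (by decide +kernel)
    (by decide +kernel) (by decide +kernel) (by decide +kernel)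

lemma sd_187F17b : SD n187F17b r_187F17b :=
  ⟨k_187F17b, rfl, rfl, rfl, rfl, rfl, by decide +kernel, by decide +kernel, rfl, rfl,
    by decide +kernel, by decide +kernel, by decide +kernel, by decide +kernel, by decide +kernel⟩

lemma sm_187F17b : SM n187F17b r_187F17b 31 :=
  sm32 sd_187F17b (by decide +kernel) (by decide +kernel) (by decide +kernel) (by decide +kernel)
    (by decide +kernel) (by decide +kernel) (by decide +kernel)

lemma sd_715N7 : SD n715N7 r_715N7 :=
  ⟨k_715N7, rfl, rfl, rfl, rfl, rfl, by decide +kernel, by decide +kernel, rfl, rfl,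
    by decide +kernel, by decide +kernel, by decide +kernel, by decide +kernel, by decide +kernel⟩

lemma sm_715N7 : SM n715N7 r_715N7 31 :=
  sm8 sd_715N7 (by decide +kernel) (by decide +kernel) (by decide +kernel)
    (by decide +kernel) (by decide +kernel) (by decide +kernel)

end Pool.Agent.LibH4.CX
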