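import Pool.Agent.Lib_helper4.CX.Rl
import Pool.Agent.Lib_helper4.CX.SdG0
import Pool.Agent.Lib_helper4.CX.SdG1

/-! generated: soundness of the relations -/

namespace Pool.Agent.LibH4.CX

open Pool.Agent.LibH4.CW

variable {par : Bool} {a N : ℕ} {e : ℕ → ℤ × ℤ × ℤ} {r1 r2 r3 r : Rc} {X : Tr}

lemma q_91F13 (W : World par a e N) (T1 : RT par a e 13 r1) (T2 : RT par a e 7 r2)
    (T3 : RT par a e 1 r3) (T : RT par a e 13 r) (h : In N X) :
    In N (relX par n91F13 r1 r2 r3 r X) :=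
  relX_spec W sd_91F13 sm_91F13 le_rfl (show Nat.Prime 13 by norm_num) T1 T2 T3 T h

lemma q_455F13a (W : World par a e N) (T1 : RT par a e 13 r1) (T2 : RT par a e 7 r2)
    (T3 : RT par a e 5 r3) (T : RT par a e 13 r) (h : In N X) :
    In N (relX par n455F13a r1 r2 r3 r X) :=
  relX_spec W sd_455F13a sm_455F13a le_rfl (show Nat.Prime 13 by norm_num) T1 T2 T3 T h

lemma q_455F13b (W : World par a e N) (T1 : RT par a e 13 r1) (T2 : RT par a e 7 r2)
    (T3 : RT par a e 5 r3) (T : RT par a e 13 r) (h : In N X) :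
    In N (relX par n455F13b r1 r2 r3 r X) :=
  relX_spec W sd_455F13b sm_455F13b le_rfl (show Nat.Prime 13 by norm_num) T1 T2 T3 T h

lemma q_455F13c (W : World par a e N) (T1 : RT par a e 13 r1) (T2 : RT par a e 7 r2)
    (T3 : RT par a e 5 r3) (T : RT par a e 13 r) (h : In N X) :
    In N (relX par n455F13c r1 r2 r3 r X) :=
  relX_spec W sd_455F13c sm_455F13c le_rfl (show Nat.Prime 13 by norm_num) T1 T2 T3 T h

lemma q_455F13d (W : World par a e N) (T1 : RT par a e 13 r1) (T2 : RT par a e 7 r2)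
    (T3 : RT par a e 5 r3) (T : RT par a e 13 r) (h : In N X) :
    In N (relX par n455F13d r1 r2 r3 r X) :=
  relX_spec W sd_455F13d sm_455F13d le_rfl (show Nat.Prime 13 by norm_num) T1 T2 T3 T h

lemma q_119N13 (W : World par a e N) (T1 : RT par a e 17 r1) (T2 : RT par a e 7 r2)
    (T3 : RT par a e 1 r3) (T : RT par a e 13 r) (h : In N X) :
    In N (relX par n119N13 r1 r2 r3 r X) :=
  relX_spec W sd_119N13 sm_119N13 le_rfl (show Nat.Prime 13 by norm_num) T1 T2 T3 T h

lemma q_119N5 (W : World par a e N) (T1 : RT par a e 17 r1) (T2 : RT par a e 7 r2)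
    (T3 : RT par a e 1 r3) (T : RT par a e 5 r) (h : In N X) :
    In N (relX par n119N5 r1 r2 r3 r X) :=
  relX_spec W sd_119N5 sm_119N5 le_rfl (show Nat.Prime 5 by norm_num) T1 T2 T3 T h

lemma q_221N5 (W : World par a e N) (T1 : RT par a e 17 r1) (T2 : RT par a e 13 r2)
    (T3 : RT par a e 1 r3) (T : RT par a e 5 r) (h : In N X) :
    In N (relX par n221N5 r1 r2 r3 r X) :=
  relX_spec W sd_221N5 sm_221N5 le_rfl (show Nat.Prime 5 by norm_num) T1 T2 T3 T h

lemma q_595N13a (W : World par a e N) (T1 : RT par a e 17 r1) (T2 : RT par a e 7 r2)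
    (T3 : RT par a e 5 r3) (T : RT par a e 13 r) (h : In N X) :
    In N (relX par n595N13a r1 r2 r3 r X) :=
  relX_spec W sd_595N13a sm_595N13a le_rfl (show Nat.Prime 13 by norm_num) T1 T2 T3 T h

lemma q_595N13b (W : World par a e N) (T1 : RT par a e 17 r1) (T2 : RT par a e 7 r2)
    (T3 : RT par a e 5 r3) (T : RT par a e 13 r) (h : In N X) :
    In N (relX par n595N13b r1 r2 r3 r X) :=
  relX_spec W sd_595N13b sm_595N13b le_rfl (show Nat.Prime 13 by norm_num) T1 T2 T3 T h

lemma q_364F13a (W : World par a e N) (T1 : RT par a e 13 r1) (T2 : RT par a e 7 r2)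
    (T3 : RT par a e 4 r3) (T : RT par a e 13 r) (h : In N X) :
    In N (relX par n364F13a r1 r2 r3 r X) :=
  relX_spec W sd_364F13a sm_364F13a le_rfl (show Nat.Prime 13 by norm_num) T1 T2 T3 T h

lemma q_364F13b (W : World par a e N) (T1 : RT par a e 13 r1) (T2 : RT par a e 7 r2)
    (T3 : RT par a e 4 r3) (T : RT par a e 13 r) (h : In N X) :
    In N (relX par n364F13b r1 r2 r3 r X) :=
  relX_spec W sd_364F13b sm_364F13b le_rfl (show Nat.Prime 13 by norm_num) T1 T2 T3 T h

lemma q_260F13 (W : World par a e N) (T1 : RT par a e 13 r1) (T2 : RT par a e 5 r2)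
    (T3 : RT par a e 4 r3) (T : RT par a e 13 r) (h : In N X) :
    In N (relX par n260F13 r1 r2 r3 r X) :=
  relX_spec W sd_260F13 sm_260F13 le_rfl (show Nat.Prime 13 by norm_num) T1 T2 T3 T h

lemma q_140N13 (W : World par a e N) (T1 : RT par a e 7 r1) (T2 : RT par a e 5 r2)
    (T3 : RT par a e 4 r3) (T : RT par a e 13 r) (h : In N X) :
    In N (relX par n140N13 r1 r2 r3 r X) :=
  relX_spec W sd_140N13 sm_140N13 le_rfl (show Nat.Prime 13 by norm_num) T1 T2 T3 T h

lemma q_728F13 (W : World par a e N) (T1 : RT par a e 13 r1) (T2 : RT par a e 7 r2)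
    (T3 : RT par a e 8 r3) (T : RT par a e 13 r) (h : In N X) :
    In N (relX par n728F13 r1 r2 r3 r X) :=
  relX_spec W sd_728F13 sm_728F13 le_rfl (show Nat.Prime 13 by norm_num) T1 T2 T3 T h

lemma q_680N13 (W : World par a e N) (T1 : RT par a e 17 r1) (T2 : RT par a e 5 r2)
    (T3 : RT par a e 8 r3) (T : RT par a e 13 r) (h : In N X) :
    In N (relX par n680N13 r1 r2 r3 r X) :=
  relX_spec W sd_680N13 sm_680N13 le_rfl (show Nat.Prime 13 by norm_num) T1 T2 T3 T h

lemma q_520F5 (W : World par a e N) (T1 : RT par a e 13 r1) (T2 : RT par a e 5 r2)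
    (T3 : RT par a e 8 r3) (T : RT par a e 5 r) (h : In N X) :
    In N (relX par n520F5 r1 r2 r3 r X) :=
  relX_spec W sd_520F5 sm_520F5 le_rfl (show Nat.Prime 5 by norm_num) T1 T2 T3 T h

lemma q_728N5 (W : World par a e N) (T1 : RT par a e 13 r1) (T2 : RT par a e 7 r2)
    (T3 : RT par a e 8 r3) (T : RT par a e 5 r) (h : In N X) :
    In N (relX par n728N5 r1 r2 r3 r X) :=
  relX_spec W sd_728N5 sm_728N5 le_rfl (show Nat.Prime 5 by norm_num) T1 T2 T3 T h

lemma q_616N13 (W : World par a e N) (T1 : RT par a e 11 r1) (T2 : RT par a e 7 r2)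
    (T3 : RT par a e 8 r3) (T : RT par a e 13 r) (h : In N X) :
    In N (relX par n616N13 r1 r2 r3 r X) :=
  relX_spec W sd_616N13 sm_616N13 le_rfl (show Nat.Prime 13 by norm_num) T1 T2 T3 T h

lemma q_308F7 (W : World par a e N) (T1 : RT par a e 11 r1) (T2 : RT par a e 7 r2)
    (T3 : RT par a e 4 r3) (T : RT par a e 7 r) (h : In N X) :
    In N (relX par n308F7 r1 r2 r3 r X) :=
  relX_spec W sd_308F7 sm_308F7 le_rfl (show Nat.Prime 7 by norm_num) T1 T2 T3 T h

lemma q_143N5 (W : World par a e N) (T1 : RT par a e 11 r1) (T2 : RT par a e 13 r2)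
    (T3 : RT par a e 1 r3) (T : RT par a e 5 r) (h : In N X) :
    In N (relX par n143N5 r1 r2 r3 r X) :=
  relX_spec W sd_143N5 sm_143N5 le_rfl (show Nat.Prime 5 by norm_num) T1 T2 T3 T h

lemma q_143N7 (W : World par a e N) (T1 : RT par a e 11 r1) (T2 : RT par a e 13 r2)
    (T3 : RT par a e 1 r3) (T : RT par a e 7 r) (h : In N X) :
    In N (relX par n143N7 r1 r2 r3 r X) :=
  relX_spec W sd_143N7 sm_143N7 le_rfl (show Nat.Prime 7 by norm_num) T1 T2 T3 T h

lemma q_88F11 (W : World par a e N) (T1 : RT par a e 11 r1) (T2 : RT par a e 8 r2)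
    (T3 : RT par a e 1 r3) (T : RT par a e 11 r) (h : In N X) :
    In N (relX par n88F11 r1 r2 r3 r X) :=
  relX_spec W sd_88F11 sm_88F11 le_rfl (show Nat.Prime 11 by norm_num) T1 T2 T3 T h

lemma q_616F11 (W : World par a e N) (T1 : RT par a e 11 r1) (T2 : RT par a e 7 r2)
    (T3 : RT par a e 8 r3) (T : RT par a e 11 r) (h : In N X) :
    In N (relX par n616F11 r1 r2 r3 r X) :=
  relX_spec W sd_616F11 sm_616F11 le_rfl (show Nat.Prime 11 by norm_num) T1 T2 T3 T h

lemma q_187F17a (W : World par a e N) (T1 : RT par a e 17 r1) (T2 : RT par a e 11 r2)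
    (T3 : RT par a e 1 r3) (T : RT par a e 17 r) (h : In N X) :
    In N (relX par n187F17a r1 r2 r3 r X) :=
  relX_spec W sd_187F17a sm_187F17a le_rfl (show Nat.Prime 17 by norm_num) T1 T2 T3 T h

lemma q_572N5 (W : World par a e N) (T1 : RT par a e 11 r1) (T2 : RT par a e 13 r2)
    (T3 : RT par a e 4 r3) (T : RT par a e 5 r) (h : In N X) :
    In N (relX par n572N5 r1 r2 r3 r X) :=
  relX_spec W sd_572N5 sm_572N5 le_rfl (show Nat.Prime 5 by norm_num) T1 T2 T3 T h

lemma q_133N13 (W : World par a e N) (T1 : RT par a e 19 r1) (T2 : RT par a e 7 r2)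
    (T3 : RT par a e 1 r3) (T : RT par a e 13 r) (h : In N X) :
    In N (relX par n133N13 r1 r2 r3 r X) :=
  relX_spec W sd_133N13 sm_133N13 le_rfl (show Nat.Prime 13 by norm_num) T1 T2 T3 T h

lemma q_95N13 (W : World par a e N) (T1 : RT par a e 19 r1) (T2 : RT par a e 5 r2)
    (T3 : RT par a e 1 r3) (T : RT par a e 13 r) (h : In N X) :
    In N (relX par n95N13 r1 r2 r3 r X) :=
  relX_spec W sd_95N13 sm_95N13 le_rfl (show Nat.Prime 13 by norm_num) T1 T2 T3 T h

lemma q_95F19 (W : World par a e N) (T1 : RT par a e 19 r1) (T2 : RT par a e 5 r2)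
    (T3 : RT par a e 1 r3) (T : RT par a e 19 r) (h : In N X) :
    In N (relX par n95F19 r1 r2 r3 r X) :=
  relX_spec W sd_95F19 sm_95F19 le_rfl (show Nat.Prime 19 by norm_num) T1 T2 T3 T h

lemma q_247F19a (W : World par a e N) (T1 : RT par a e 19 r1) (T2 : RT par a e 13 r2)
    (T3 : RT par a e 1 r3) (T : RT par a e 19 r) (h : In N X) :
    In N (relX par n247F19a r1 r2 r3 r X) :=
  relX_spec W sd_247F19a sm_247F19a le_rfl (show Nat.Prime 19 by norm_num) T1 T2 T3 T h

lemma q_152F19a (W : World par a e N) (T1 : RT par a e 19 r1) (T2 : RT par a e 8 r2)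
    (T3 : RT par a e 1 r3) (T : RT par a e 19 r) (h : In N X) :
    In N (relX par n152F19a r1 r2 r3 r X) :=
  relX_spec W sd_152F19a sm_152F19a le_rfl (show Nat.Prime 19 by norm_num) T1 T2 T3 T h

lemma q_152F19b (W : World par a e N) (T1 : RT par a e 19 r1) (T2 : RT par a e 8 r2)
    (T3 : RT par a e 1 r3) (T : RT par a e 19 r) (h : In N X) :
    In N (relX par n152F19b r1 r2 r3 r X) :=
  relX_spec W sd_152F19b sm_152F19b le_rfl (show Nat.Prime 19 by norm_num) T1 T2 T3 T h

lemma q_935N7 (W : World par a e N) (T1 : RT par a e 17 r1) (T2 : RT par a e 11 r2)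
    (T3 : RT par a e 5 r3) (T : RT par a e 7 r) (h : In N X) :
    In N (relX par n935N7 r1 r2 r3 r X) :=
  relX_spec W sd_935N7 sm_935N7 le_rfl (show Nat.Prime 7 by norm_num) T1 T2 T3 T h

lemma q_728F7 (W : World par a e N) (T1 : RT par a e 13 r1) (T2 : RT par a e 7 r2)
    (T3 : RT par a e 8 r3) (T : RT par a e 7 r) (h : In N X) :
    In N (relX par n728F7 r1 r2 r3 r X) :=
  relX_spec W sd_728F7 sm_728F7 le_rfl (show Nat.Prime 7 by norm_num) T1 T2 T3 T h

lemma q_520N7 (W : World par a e N) (T1 : RT par a e 13 r1) (T2 : RT par a e 5 r2)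
    (T3 : RT par a e 8 r3) (T : RT par a e 7 r) (h : In N X) :
    In N (relX par n520N7 r1 r2 r3 r X) :=
  relX_spec W sd_520N7 sm_520N7 le_rfl (show Nat.Prime 7 by norm_num) T1 T2 T3 T h

lemma q_187F17b (W : World par a e N) (T1 : RT par a e 17 r1) (T2 : RT par a e 11 r2)
    (T3 : RT par a e 1 r3) (T : RT par a e 17 r) (h : In N X) :
    In N (relX par n187F17b r1 r2 r3 r X) :=
  relX_spec W sd_187F17b sm_187F17b le_rfl (show Nat.Prime 17 by norm_num) T1 T2 T3 T h

lemma q_715N7 (W : World par a e N) (T1 : RT par a e 11 r1) (T2 : RT par a e 13 r2)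
    (T3 : RT par a e 5 r3) (T : RT par a e 7 r) (h : In N X) :
    In N (relX par n715N7 r1 r2 r3 r X) :=
  relX_spec W sd_715N7 sm_715N7 le_rfl (show Nat.Prime 7 by norm_num) T1 T2 T3 T h

end Pool.Agent.LibH4.CX
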