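import Pool.Agent.Lib_helper4.CX.Vl

/-!
Constant words, all letters at once: states.
-/

namespace Pool.Agent.LibH4.CX

open Finset Pool.Agent.LibH4.Ker Pool.Agent.Lib_helper5.TB Pool.Agent.LibH4.CW

/-- the number belongs to one of the states -/
def In (N : ℕ) : Tr → Prop
  | Tr.nil => False
  | Tr.st n K t => (0 < K ∧ ∃ s, N = n + K * s) ∨ In N t

/-! ### lifts of a state -/

section

variable {N V L w2 mF c l K K1 ic n : ℕ} {acc : Tr}

lemma ft0_acc (h : In N acc) (q : ℕ) : In N (ft0 V L w2 mF c l K K1 n acc q) := by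
  induction q with
  | zero => exact h
  | succ m ih =>
    change In N (@Bool.rec (fun _ => Tr) (ft0 V L w2 mF c l K K1 n acc m)
      (strict (n + K * m) fun n' => strict K1 fun K2 => Tr.st n' K2
        (ft0 V L w2 mF c l K K1 n acc m)) (Nat.beq (valN V L w2 mF c l (n + K * m)) 0))
    cases Nat.beq (valN V L w2 mF c l (n + K * m)) 0 with
    | false => exact ih
    | true =>
      change In N (strict (n + K * m) fun n' => strict K1 fun K2 => Tr.st n' K2
        (ft0 V L w2 mF c l K K1 n acc m))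
      rw [strict_eq, strict_eq]
      exact Or.inr ih

lemma ft0_mem {q m s : ℕ} (hm : m < q) (hK : 0 < K1) (hv : valN V L w2 mF c l (n + K * m) = 0)
    (hN : N = n + K * m + K1 * s) : In N (ft0 V L w2 mF c l K K1 n acc q) := by
  induction q with
  | zero => omega
  | succ q ih =>
    change In N (@Bool.rec (fun _ => Tr) (ft0 V L w2 mF c l K K1 n acc q)
      (strict (n + K * q) fun n' => strict K1 fun K2 => Tr.st n' K2
        (ft0 V L w2 mF c l K K1 n acc q)) (Nat.beq (valN V L w2 mF c l (n + K * q)) 0))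
    by_cases hq : m = q
    · subst hq
      rw [hv]
      change In N (strict (n + K * m) fun n' => strict K1 fun K2 => Tr.st n' K2
        (ft0 V L w2 mF c l K K1 n acc m))
      rw [strict_eq, strict_eq]
      exact Or.inl ⟨hK, s, hN⟩
    · have h1 := ih (by omega)
      cases Nat.beq (valN V L w2 mF c l (n + K * q)) 0 with
      | false => exact h1
      | true =>
        change In N (strict (n + K * q) fun n' => strict K1 fun K2 => Tr.st n' K2
          (ft0 V L w2 mF c l K K1 n acc q))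
        rw [strict_eq, strict_eq]
        exact Or.inr h1

lemma ft1_succ (q : ℕ) : ft1 V L w2 mF c l K K1 ic n acc (q + 1) =
    Tr.st (n + K * q + K1 * ((l - valN V L w2 mF c l (n + K * q)) * ic % l)) (K1 * l)
      (ft1 V L w2 mF c l K K1 ic n acc q) := by
  change (strict (n + K * q + K1 * ((l - valN V L w2 mF c l (n + K * q)) * ic % l)) fun n' =>
    strict (K1 * l) fun K2 => Tr.st n' K2 (ft1 V L w2 mF c l K K1 ic n acc q)) = _
  rw [strict_eq, strict_eq]

lemma ft1_acc (h : In N acc) (q : ℕ) : In N (ft1 V L w2 mF c l K K1 ic n acc q) := by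
  induction q with
  | zero => exact h
  | succ m ih => rw [ft1_succ]; exact Or.inr ih

lemma ft1_mem {q m s : ℕ} (hm : m < q) (hK : 0 < K1) (hl : 0 < l)
    (hN : N = n + K * m + K1 * ((l - valN V L w2 mF c l (n + K * m)) * ic % l) + K1 * l * s) :
    In N (ft1 V L w2 mF c l K K1 ic n acc q) := by
  induction q with
  | zero => omega
  | succ q ih =>
    rw [ft1_succ]
    by_cases hq : m = q
    · subst hq
      exact Or.inl ⟨Nat.mul_pos hK hl, s, hN⟩
    · exact Or.inr (ih (by omega))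

lemma lf1_succ (q : ℕ) : lf1 K K1 n (q + 1) acc = Tr.st (n + K * q) K1 (lf1 K K1 n q acc) := by
  change (strict (n + K * q) fun n' => strict K1 fun K2 => Tr.st n' K2 (lf1 K K1 n q acc)) = _
  rw [strict_eq, strict_eq]

lemma lf1_acc (h : In N acc) (q : ℕ) : In N (lf1 K K1 n q acc) := by
  induction q with
  | zero => exact h
  | succ m ih => rw [lf1_succ]; exact Or.inr ih

lemma lf1_mem {q m s : ℕ} (hm : m < q) (hK : 0 < K1) (hN : N = n + K * m + K1 * s) :
    In N (lf1 K K1 n q acc) := by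
  induction q with
  | zero => omega
  | succ q ih =>
    rw [lf1_succ]
    by_cases hq : m = q
    · subst hq
      exact Or.inl ⟨hK, s, hN⟩
    · exact Or.inr (ih (by omega))

end

lemma lift_of {N n K K1 s : ℕ} (hK : 0 < K) (hd : K ∣ K1) (hK1 : 0 < K1) (hN : N = n + K * s) :
    ∃ m < K1 / K, ∃ s', N = n + K * m + K1 * s' := by
  obtain ⟨q, rfl⟩ := hd
  have hq : 0 < q := Nat.pos_of_mul_pos_left hK1
  rw [Nat.mul_div_cancel_left q hK]
  refine ⟨s % q, Nat.mod_lt _ hq, s / q, ?_⟩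
  rw [hN, add_assoc, mul_assoc, ← mul_add, Nat.mod_add_div]

lemma valN_eq (V L w2 mF c l n : ℕ) :
    valN V L w2 mF c l n = (((V >>> (w2 * (n % L))) &&& mF) + n / L * c) % l := rfl

lemma valN_add {V L w2 mF c l K1 n s : ℕ} (hL : 0 < L) (hd : L ∣ K1) :
    valN V L w2 mF c l (n + K1 * s) =
      (valN V L w2 mF c l n + s * ((K1 / L * c) % l)) % l := by
  obtain ⟨q, rfl⟩ := hd
  rw [valN_eq, valN_eq, Nat.mul_div_cancel_left q hL, mul_assoc, Nat.add_mul_mod_self_left,
    Nat.add_mul_div_left _ _ hL]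
  conv_rhs => rw [Nat.add_mod, Nat.mod_mod, Nat.mul_mod, Nat.mod_mod, ← Nat.mul_mod, ← Nat.add_mod]
  congr 1
  ring

lemma solve_of {l v c1 s : ℕ} (hl : l.Prime) (hc : c1 % l ≠ 0) (hvl : v ≤ l)
    (h : (v + s * c1) % l = 0) : s % l = (l - v) * (c1 ^ (l - 2) % l) % l := by
  have := Fact.mk hl
  have h1 : ((v + s * c1 : ℕ) : ZMod l) = 0 :=
    (ZMod.natCast_eq_zero_iff _ _).2 (Nat.dvd_of_mod_eq_zero h)
  have hc0 : ((c1 : ℕ) : ZMod l) ≠ 0 := by
    intro h0
    exact hc (Nat.mod_eq_zero_of_dvd ((ZMod.natCast_eq_zero_iff _ _).1 h0))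
  have hf : ((c1 : ℕ) : ZMod l) * (c1 : ZMod l) ^ (l - 2) = 1 := by
    rw [← pow_succ', show l - 2 + 1 = l - 1 by have := hl.two_le; omega]
    exact ZMod.pow_card_sub_one_eq_one hc0
  apply (ZMod.natCast_eq_natCast_iff' _ _ l).1 ?_ |>.trans ?_
  · exact (l - v) * (c1 ^ (l - 2) % l)
  · rw [Nat.cast_mul, Nat.cast_sub hvl, ZMod.natCast_self, ZMod.natCast_mod, Nat.cast_pow]
    push_cast at h1
    linear_combination (c1 : ZMod l) ^ (l - 2) * h1 - (s : ZMod l) * hf
  · rfl

/-- **soundness of a relation** -/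
theorem rel0_spec {l c L w2 F mF Q S a2 orb pl N : ℕ} (hl : l.Prime) (hL : 0 < L)
    (hv : valN ((Q + S * (a2 - by2 (d32 orb (N % pl)))) >>> F) L w2 mF c l N = 0)
    {st : Tr} (h : In N st) : In N (rel0 l c L w2 F mF Q S a2 orb pl st) := by
  induction st with
  | nil => exact h
  | st n K t ih =>
    have e : rel0 l c L w2 F mF Q S a2 orb pl (Tr.st n K t) =
      @Bool.rec (fun _ => Tr) (Tr.st n K (rel0 l c L w2 F mF Q S a2 orb pl t))
      (@Bool.rec (fun _ => Tr)
        (ft1 ((Q + S * (a2 - by2 (d32 orb (n % pl)))) >>> F) L w2 mF c l K (lcmS K L)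
          (((lcmS K L / L * c) % l) ^ (l - 2) % l) n
          (rel0 l c L w2 F mF Q S a2 orb pl t) (lcmS K L / K))
        (ft0 ((Q + S * (a2 - by2 (d32 orb (n % pl)))) >>> F) L w2 mF c l K (lcmS K L) n
          (rel0 l c L w2 F mF Q S a2 orb pl t) (lcmS K L / K))
        (Nat.beq ((lcmS K L / L * c) % l) 0))
      (Nat.beq (K % pl) 0) := rfl
    rw [e, lcmS_eq]
    clear e
    cases hb : Nat.beq (K % pl) 0 with
    | false =>
      change In N (Tr.st n K (rel0 l c L w2 F mF Q S a2 orb pl t))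
      rcases h with h | h
      · exact Or.inl h
      · exact Or.inr (ih h)
    | true =>
      have hpK : pl ∣ K := Nat.dvd_of_mod_eq_zero (Nat.eq_of_beq_eq_true hb)
      rcases h with ⟨hK, s, hN⟩ | h
      · have hK1 : 0 < Nat.lcm K L := Nat.lcm_pos hK hL
        have hd : K ∣ Nat.lcm K L := Nat.dvd_lcm_left _ _
        have hdL : L ∣ Nat.lcm K L := Nat.dvd_lcm_right _ _
        have hnpl : n % pl = N % pl := by
          obtain ⟨k, rfl⟩ := hpK
          rw [hN, mul_assoc, Nat.add_mul_mod_self_left]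
        rw [hnpl]
        set V := (Q + S * (a2 - by2 (d32 orb (N % pl)))) >>> F with hV
        obtain ⟨m, hm, s', hs'⟩ := lift_of hK hd hK1 hN
        have h1 := valN_add (V := V) (w2 := w2) (mF := mF) (c := c) (l := l) (n := n + K * m)
          (s := s') hL hdL
        rw [← hs', hv] at h1
        have hvl : valN V L w2 mF c l (n + K * m) < l := Nat.mod_lt _ hl.pos
        cases hb1 : Nat.beq ((Nat.lcm K L / L * c) % l) 0 with
        | true =>
          have h0 := Nat.eq_of_beq_eq_true hb1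
          rw [h0, mul_zero, add_zero, Nat.mod_eq_of_lt hvl] at h1
          exact ft0_mem hm hK1 h1.symm hs'
        | false =>
          have h0 : (Nat.lcm K L / L * c) % l ≠ 0 := by
            intro h0
            rw [h0] at hb1
            exact absurd hb1 (by decide)
          have h2 := solve_of hl (by rwa [Nat.mod_mod]) hvl.le h1.symm
          apply ft1_mem hm hK1 hl.pos (s := s' / l)
          rw [← h2, hs', mul_assoc (Nat.lcm K L) l, add_assoc (n + K * m), ← mul_add,
            Nat.mod_add_div]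
      · have h1 := ih h
        cases Nat.beq ((Nat.lcm K L / L * c) % l) 0 with
        | true => exact ft0_acc h1 _
        | false => exact ft1_acc h1 _

/-! ### other functions -/

theorem lft_spec {N m : ℕ} (hm : 0 < m) {st : Tr} (h : In N st) : In N (lft m st) := by
  induction st with
  | nil => exact h
  | st n K t ih =>
    change In N (lf1 K (lcmS K m) n (lcmS K m / K) (lft m t))
    rw [lcmS_eq]
    rcases h with ⟨hK, s, hN⟩ | h
    · obtain ⟨m', hm', s', hs'⟩ := lift_of hK (Nat.dvd_lcm_left K m) (Nat.lcm_pos hK hm) hN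
      exact lf1_mem hm' (Nat.lcm_pos hK hm) hs'
    · exact lf1_acc (ih h) _

/-- filters -/
theorem filT_spec {N : ℕ} {p : ℕ → ℕ → Bool} (hp : ∀ n K s, 0 < K → N = n + K * s → p n K = true)
    {st : Tr} (h : In N st) : In N (filT p st) := by
  induction st with
  | nil => exact h
  | st n K t ih =>
    change In N (@Bool.rec (fun _ => Tr) (filT p t) (Tr.st n K (filT p t)) (p n K))
    rcases h with ⟨hK, s, hN⟩ | h
    · rw [hp n K s hK hN]
      exact Or.inl ⟨hK, s, hN⟩
    · cases p n K with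
      | true => exact Or.inr (ih h)
      | false => exact ih h

theorem c13_spec {N : ℕ} (h13 : (2 * N + 1) % 13 ≠ 0) (n K s : ℕ) (_ : 0 < K)
    (hN : N = n + K * s) : c13 n K = true := by
  change @Bool.rec (fun _ => Bool) true (@Bool.rec (fun _ => Bool) true false
      (Nat.beq ((2 * n + 1) % 13) 0)) (Nat.beq (K % 13) 0) = true
  cases hb : Nat.beq (K % 13) 0 with
  | false => rfl
  | true =>
    have h1 := Nat.eq_of_beq_eq_true hb
    cases hb2 : Nat.beq ((2 * n + 1) % 13) 0 with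
    | false => rfl
    | true =>
      exfalso
      have h2 := Nat.eq_of_beq_eq_true hb2
      obtain ⟨k, rfl⟩ := Nat.dvd_of_mod_eq_zero h1
      apply h13
      rw [hN, show 2 * (n + 13 * k * s) + 1 = (2 * n + 1) + 13 * (2 * k * s) by ring,
        Nat.add_mul_mod_self_left, h2]

lemma ne_spec {N : ℕ} {t : Tr} {r : Bool} (h : ne t r = true) (hN : In N t) : r = true := by
  cases t with
  | nil => exact absurd hN id
  | st n K t => exact h

lemma nilT_spec {N : ℕ} {t : Tr} (h : nilT t = true) : ¬ In N t := by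
  cases t with
  | nil => exact id
  | st n K t => exact absurd h (by simp [nilT])

lemma eqT_spec {t u : Tr} (h : eqT t u = true) : t = u := by
  induction t generalizing u with
  | nil =>
    cases u with
    | nil => rfl
    | st n K u => exact absurd h (by simp [eqT])
  | st n K t ih =>
    cases u with
    | nil => exact absurd h (by simp [eqT])
    | st n' K' u =>
      have h' : andB (Nat.beq n n') (andB (Nat.beq K K') (eqT t u)) = true := h
      obtain ⟨h1, h2⟩ := andB_spec h'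
      obtain ⟨h2, h3⟩ := andB_spec h2
      rw [Nat.eq_of_beq_eq_true h1, Nat.eq_of_beq_eq_true h2, ih h3]

lemma eqR_spec {r s : Rc} (h : eqR r s = true) : r = s := by
  obtain ⟨h1, h⟩ := andB_spec h
  obtain ⟨h2, h⟩ := andB_spec h
  obtain ⟨h3, h⟩ := andB_spec h
  obtain ⟨h4, h⟩ := andB_spec h
  obtain ⟨h5, h6⟩ := andB_spec h
  cases r
  cases s
  simp only [Rc.mk.injEq]
  exact ⟨Nat.eq_of_beq_eq_true h5, Nat.eq_of_beq_eq_true h2, Nat.eq_of_beq_eq_true h3,
    Nat.eq_of_beq_eq_true h4, Nat.eq_of_beq_eq_true h6, Nat.eq_of_beq_eq_true h1⟩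

lemma anyL_spec {α : Type} {p : α → Bool} {L : List α} (h : anyL p L = true) :
    ∃ x ∈ L, p x = true := by
  induction L with
  | nil => exact absurd h (by simp [anyL])
  | cons x L ih =>
    change @Bool.rec (fun _ => Bool) (anyL p L) true (p x) = true at h
    cases hp : p x with
    | true => exact ⟨x, by simp, hp⟩
    | false =>
      rw [hp] at h
      obtain ⟨y, h1, h2⟩ := ih h
      exact ⟨y, by simp [h1], h2⟩

lemma in3_spec {N : ℕ} {E : List E3} {r13 r7 r5 : Rc} {s : Tr} (h : in3 E r13 r7 r5 s = true)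
    (hN : In N s) : ∃ e ∈ E, e.r13 = r13 ∧ e.r7 = r7 ∧ e.r5 = r5 ∧ In N e.s := by
  obtain ⟨e, he, h1⟩ := anyL_spec (ne_spec h hN)
  obtain ⟨h2, h1⟩ := andB_spec h1
  obtain ⟨h3, h1⟩ := andB_spec h1
  obtain ⟨h4, h5⟩ := andB_spec h1
  exact ⟨e, he, (eqR_spec h4).symm, (eqR_spec h3).symm, (eqR_spec h2).symm, eqT_spec h5 ▸ hN⟩

lemma in5_spec {N : ℕ} {E : List E5} {r13 r7 r5 r8 r4 : Rc} {s : Tr}
    (h : in5 E r13 r7 r5 r8 r4 s = true) (hN : In N s) :
    ∃ e ∈ E, e.r13 = r13 ∧ e.r7 = r7 ∧ e.r5 = r5 ∧ e.r8 = r8 ∧ e.r4 = r4 ∧ In N e.s := by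
  obtain ⟨e, he, h1⟩ := anyL_spec (ne_spec h hN)
  obtain ⟨h2, h1⟩ := andB_spec h1
  obtain ⟨h3, h1⟩ := andB_spec h1
  obtain ⟨h4, h1⟩ := andB_spec h1
  obtain ⟨h5, h1⟩ := andB_spec h1
  obtain ⟨h6, h7⟩ := andB_spec h1
  exact ⟨e, he, (eqR_spec h5).symm, (eqR_spec h4).symm, (eqR_spec h3).symm, (eqR_spec h2).symm,
    (eqR_spec h6).symm, eqT_spec h7 ▸ hN⟩

lemma in7_spec {N : ℕ} {E : List E7} {r17 r13 r7 r5 r8 r4 r11 : Rc} {s : Tr}
    (h : in7 E r17 r13 r7 r5 r8 r4 r11 s = true) (hN : In N s) :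
    ∃ e ∈ E, e.r17 = r17 ∧ e.r13 = r13 ∧ e.r7 = r7 ∧ e.r5 = r5 ∧ e.r8 = r8 ∧ e.r4 = r4 ∧
      e.r11 = r11 ∧ In N e.s := by
  obtain ⟨e, he, h1⟩ := anyL_spec (ne_spec h hN)
  obtain ⟨h2, h1⟩ := andB_spec h1
  obtain ⟨h3, h1⟩ := andB_spec h1
  obtain ⟨h4, h1⟩ := andB_spec h1
  obtain ⟨h5, h1⟩ := andB_spec h1
  obtain ⟨h6, h1⟩ := andB_spec h1
  obtain ⟨h7, h1⟩ := andB_spec h1
  obtain ⟨h8, h9⟩ := andB_spec h1
  exact ⟨e, he, (eqR_spec h8).symm, (eqR_spec h6).symm, (eqR_spec h5).symm, (eqR_spec h4).symm,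
    (eqR_spec h3).symm, (eqR_spec h7).symm, (eqR_spec h2).symm, eqT_spec h9 ▸ hN⟩

end Pool.Agent.LibH4.CX
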