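import Pool.Agent.Lib_helper4.CX.Sx
import Pool.Agent.Lib_helper4.CX.St

/-!
Constant words, all letters at once: the lists of records are complete.
-/

namespace Pool.Agent.LibH4.CX

open Finset Pool.Agent.Lib_helper5 Pool.Agent.Lib_helper5.LK Pool.Agent.LibH4.Ker
  Pool.Agent.LibH4.KF Pool.Agent.LibH4.T6 Pool.Agent.Lib_helper5.TB Pool.Agent.LibH4.S7
  Pool.Agent.LibH4.CW

/-- a record of a first state -/
def mtc (c : Cmp) (a : ℕ) (x : ℕ × ℕ) (r : Rc) : Bool :=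
  CW.andB (Nat.beq r.a a) (CW.andB (Nat.beq r.x1 x.1) (CW.andB (Nat.beq r.x2 x.2)
    (CW.andB (Nat.ble (nat_lit 1) r.pi) (CW.andB (retX c.n a r.pi x)
      (Nat.beq r.orb (orbX c.n c.ex c.PT a r.pi x))))))

/-- the list of records is complete -/
def recCk (par : Bool) (c : Cmp) (F : List Rc) : Bool :=
  allR (fun a => allL (fun x => @Bool.rec (fun _ => Bool) true (anyL (mtc c a x) F)
    (stc par c.n a x)) c.F) c.n

lemma nx_mod (n a : ℕ) (f : ℕ × ℕ × ℕ) : nx n (a % n) f = nx n a f := by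
  have e1 : nxR n (a % n) f.2.1 f.2.2 = nxR n a f.2.1 f.2.2 := by
    change (2 * (a % n) * f.2.2 + (n - f.2.1)) % n = (2 * a * f.2.2 + (n - f.2.1)) % n
    apply (ZMod.natCast_eq_natCast_iff' _ _ n).1
    push_cast
    rw [ZMod.natCast_mod]
  have e2 : nxS n (a % n) f.1 f.2.1 f.2.2 = nxS n a f.1 f.2.1 f.2.2 := by
    change (f.1 + f.2.1 * (a % n) + (n - f.2.2) * (a % n * (a % n))) % n =
      (f.1 + f.2.1 * a + (n - f.2.2) * (a * a)) % n
    apply (ZMod.natCast_eq_natCast_iff' _ _ n).1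
    push_cast
    rw [ZMod.natCast_mod]
  unfold nx
  rw [e1, e2]

lemma hs_modn (n a : ℕ) (x : ℕ × ℕ) (i : ℕ) : hs n (a % n) x i = hs n a x i := by
  unfold hs
  rw [show nx n (a % n) = nx n a from funext (nx_mod n a)]

lemma stc_mod (par : Bool) (n a : ℕ) (x : ℕ × ℕ) : stc par n (a % n) x = stc par n a x := by
  cases par with
  | false => rfl
  | true =>
    change Nat.beq x.1 (a % n * (n - x.2) % n) = Nat.beq x.1 (a * (n - x.2) % n)
    rw [Nat.mod_mul_mod]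

section

variable {par : Bool} {a N n : ℕ} {e : ℕ → ℤ × ℤ × ℤ}

/-- **the lists of records are complete** -/
theorem rec_spec (W : World par a e N) (hok : CmpOK (cof n)) (hn : (cof n).n = n) {F : List Rc}
    (h : recCk par (cof n) F = true) : ∃ r ∈ F, RT par a e n r := by
  obtain ⟨x, T⟩ := W.exists_ts hok
  have hpos : 0 < n := by have := hok.pos; rwa [hn] at this
  have hle : n ≤ 256 := by have := hok.le; rw [hn] at this; omega
  have hmem := List.mem_filter.1 T.mem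
  have hx := (hok.F x hmem.1).1
  rw [hn] at hx
  unfold recCk at h
  rw [hn] at h
  have h1 := allR_spec h (a % n) (Nat.mod_lt _ hpos)
  have h2 := allL_mem h1 x hmem.1
  have h3 : stc par n (a % n) x = true := by rw [stc_mod, ← hmem.2, hn]
  rw [h3] at h2
  obtain ⟨r, hr, h4⟩ := anyL_spec h2
  obtain ⟨g1, h4⟩ := CW.andB_spec h4
  obtain ⟨g2, h4⟩ := CW.andB_spec h4
  obtain ⟨g3, h4⟩ := CW.andB_spec h4
  obtain ⟨g4, h4⟩ := CW.andB_spec h4
  obtain ⟨g5, g6⟩ := CW.andB_spec h4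
  have e1 := Nat.eq_of_beq_eq_true g1
  have e2 := Nat.eq_of_beq_eq_true g2
  have e3 := Nat.eq_of_beq_eq_true g3
  have e4 : 1 ≤ r.pi := Nat.le_of_ble_eq_true g4
  have e6 := Nat.eq_of_beq_eq_true g6
  rw [hn] at g5 e6
  have ex : (r.x1, r.x2) = x := by rw [e2, e3]
  refine ⟨r, hr, hok, hn, e1, ?_, e4, ?_, ?_⟩
  · rw [ex]; exact T
  · intro i
    rw [ex]
    have := retX_spec g5 i
    rwa [hs_modn, hs_modn] at this
  · intro i hi
    rw [ex, e6, d32_eq, orbX_spec hpos hle r.pi hx i hi]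
    unfold hE
    rw [hs_modn]

/-- compatibility of the records modulo `8` and `4` -/
theorem link_spec (W : World par a e N) {r8 r4 : Rc} (T8 : RT par a e 8 r8)
    (T4 : RT par a e 4 r4) : r8.a % 4 = r4.a ∧ r8.x1 % 4 = r4.x1 ∧ r8.x2 % 4 = r4.x2 := by
  have b8 := (T8.ok.F _ (List.mem_filter.1 T8.ts.mem).1)
  have b4 := (T4.ok.F _ (List.mem_filter.1 T4.ts.mem).1)
  rw [T8.cn] at b8
  rw [T4.cn] at b4
  have : NeZero (cof 4).n := ⟨T4.ok.pos.ne'⟩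
  have v := (T4.ok.cp _ W.dok _ _ _ (W.disc 0)).1
  have hu := isUnit_of v
  rw [T4.cn] at hu
  have t8 := T8.ts.h2 0
  have t4 := T4.ts.h2 0
  have u8 := T8.ts.h3 0
  have u4 := T4.ts.h3 0
  rw [T8.cn] at t8 u8
  rw [T4.cn] at t4 u4
  have c8 : (hs 8 a (r8.x1, r8.x2) 0).2.1 = r8.x1 := rfl
  have c4 : (hs 4 a (r4.x1, r4.x2) 0).2.1 = r4.x1 := rfl
  have d8 : (hs 8 a (r8.x1, r8.x2) 0).2.2 = (8 - r8.x2) % 8 := rfl
  have d4 : (hs 4 a (r4.x1, r4.x2) 0).2.2 = (4 - r4.x2) % 4 := rfl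
  rw [c8] at t8
  rw [c4] at t4
  rw [d8] at u8
  rw [d4] at u4
  have f : (ZMod.castHom (show 4 ∣ 8 by norm_num) (ZMod 4)) (((e 0).2.1 : ℤ) : ZMod 8) =
      (((e 0).2.1 : ℤ) : ZMod 4) := map_intCast _ _
  have f1 : (ZMod.castHom (show 4 ∣ 8 by norm_num) (ZMod 4)) (((e 0).1 : ℤ) : ZMod 8) =
      (((e 0).1 : ℤ) : ZMod 4) := map_intCast _ _
  have f3 : (ZMod.castHom (show 4 ∣ 8 by norm_num) (ZMod 4)) (((e 0).2.2 : ℤ) : ZMod 8) =
      (((e 0).2.2 : ℤ) : ZMod 4) := map_intCast _ _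
  rw [t8, map_mul, f1, map_natCast] at f
  rw [u8, map_mul, f1, map_natCast] at f3
  refine ⟨?_, ?_, ?_⟩
  · rw [T8.la, T4.la]
    omega
  · have h1 : ((r8.x1 : ℕ) : ZMod 4) = ((r4.x1 : ℕ) : ZMod 4) := by
      rw [t4] at f
      have h3 := congrArg (fun z => ((iv (cof 4).n (cof 4).ex (rs (cof 4).n (e 0).1) : ℕ) : ZMod 4) * z) f
      rw [T4.cn] at h3
      linear_combination h3 - (((r8.x1 : ℕ) : ZMod 4) - ((r4.x1 : ℕ) : ZMod 4)) * hu
    have h2 := (ZMod.natCast_eq_natCast_iff' _ _ 4).1 h1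
    rwa [Nat.mod_eq_of_lt b4.1] at h2
  · have h1 : (((8 - r8.x2) % 8 : ℕ) : ZMod 4) = (((4 - r4.x2) % 4 : ℕ) : ZMod 4) := by
      rw [u4] at f3
      have h3 := congrArg (fun z => ((iv (cof 4).n (cof 4).ex (rs (cof 4).n (e 0).1) : ℕ) : ZMod 4) * z) f3
      rw [T4.cn] at h3
      linear_combination h3 - ((((8 - r8.x2) % 8 : ℕ) : ZMod 4) -
        (((4 - r4.x2) % 4 : ℕ) : ZMod 4)) * hu
    have h2 := (ZMod.natCast_eq_natCast_iff' _ _ 4).1 h1
    have l8 := b8.2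
    have l4 := b4.2
    simp only at l8 l4
    omega

end

/-- check of the compatible records -/
def cmp84 (r8 r4 : Rc) : Bool :=
  CW.andB (Nat.beq (Nat.mod r8.a (nat_lit 4)) r4.a) (CW.andB (Nat.beq (Nat.mod r8.x1 (nat_lit 4)) r4.x1)
    (Nat.beq (Nat.mod r8.x2 (nat_lit 4)) r4.x2))

/-- check of the compatible records -/
def lkO (F8 F4 : List Rc) (P : List (Rc × Rc)) : Bool :=
  allL (fun r8 => allL (fun r4 => @Bool.rec (fun _ => Bool) true
    (anyL (fun p => CW.andB (eqR p.1 r8) (eqR p.2 r4)) P) (cmp84 r8 r4)) F4) F8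

/-- check of the compatible records -/
def lkE (F8 F4 : List Rc) (P : List (Rc × List Rc)) : Bool :=
  allL (fun r8 => allL (fun r4 => @Bool.rec (fun _ => Bool) true
    (anyL (fun p => CW.andB (eqR p.1 r4) (anyL (eqR r8) p.2)) P) (cmp84 r8 r4)) F4) F8

section

variable {par : Bool} {a N : ℕ} {e : ℕ → ℤ × ℤ × ℤ} {r8 r4 : Rc}

lemma cmp84_spec (W : World par a e N) (T8 : RT par a e 8 r8) (T4 : RT par a e 4 r4) :
    cmp84 r8 r4 = true := by
  obtain ⟨h1, h2, h3⟩ := link_spec W T8 T4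
  change CW.andB (Nat.beq (r8.a % 4) r4.a) (CW.andB (Nat.beq (r8.x1 % 4) r4.x1)
    (Nat.beq (r8.x2 % 4) r4.x2)) = true
  rw [h1, h2, h3, Nat.beq_refl, Nat.beq_refl, Nat.beq_refl]
  rfl

theorem lkO_spec (W : World par a e N) (T8 : RT par a e 8 r8) (T4 : RT par a e 4 r4)
    {F8 F4 : List Rc} {P : List (Rc × Rc)} (h : lkO F8 F4 P = true) (h8 : r8 ∈ F8)
    (h4 : r4 ∈ F4) : (r8, r4) ∈ P := by
  have h1 := allL_mem (allL_mem h r8 h8) r4 h4
  rw [cmp84_spec W T8 T4] at h1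
  obtain ⟨p, hp, h2⟩ := anyL_spec h1
  obtain ⟨h3, h4⟩ := CW.andB_spec h2
  rw [← eqR_spec h3, ← eqR_spec h4]
  exact hp

theorem lkE_spec (W : World par a e N) (T8 : RT par a e 8 r8) (T4 : RT par a e 4 r4)
    {F8 F4 : List Rc} {P : List (Rc × List Rc)} (h : lkE F8 F4 P = true) (h8 : r8 ∈ F8)
    (h4 : r4 ∈ F4) : ∃ p ∈ P, p.1 = r4 ∧ r8 ∈ p.2 := by
  have h1 := allL_mem (allL_mem h r8 h8) r4 h4
  rw [cmp84_spec W T8 T4] at h1
  obtain ⟨p, hp, h2⟩ := anyL_spec h1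
  obtain ⟨h3, h4⟩ := CW.andB_spec h2
  obtain ⟨q, hq, h5⟩ := anyL_spec h4
  exact ⟨p, hp, eqR_spec h3, by rw [eqR_spec h5]; exact hq⟩

end

end Pool.Agent.LibH4.CX
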