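import Pool.Agent.Lib_helper4.CX.Sy

/-!
Constant words, all letters at once: static data of the relations.
-/

namespace Pool.Agent.LibH4.CX

open Finset Pool.Agent.Lib_helper5 Pool.Agent.Lib_helper5.LK Pool.Agent.LibH4.Ker
  Pool.Agent.LibH4.KF Pool.Agent.LibH4.T6 Pool.Agent.Lib_helper5.TB Pool.Agent.LibH4.S7
  Pool.Agent.LibH4.CW

lemma byte_le {R M N B : ℕ} (hM : M < 256) (h : Nat.land R (M * rep 8 N) = 0)
    (hB : ∀ x < 256, x &&& M = 0 → x ≤ B) {j : ℕ} (hj : j < N) : (R >>> (8 * j)) % 256 ≤ B := by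
  apply hB _ (Nat.mod_lt _ (by norm_num))
  apply Nat.eq_of_testBit_eq
  intro i
  rw [Nat.zero_testBit, Nat.testBit_and]
  by_cases hi : i < 8
  · have h1 : Nat.testBit (R &&& (M * rep 8 N)) (8 * j + i) = false := by
      change Nat.testBit (Nat.land R (M * rep 8 N)) (8 * j + i) = false
      rw [h, Nat.zero_testBit]
    have h2 : M * rep 8 N = ofD 8 (fun _ => M) N := by
      rw [rep_eq (by norm_num)]
      unfold ofD
      rw [Finset.mul_sum]
      apply Finset.sum_congr rfl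
      intro i _
      ring
    have e1 : (8 * j + i) / 8 = j := by omega
    have e2 : (8 * j + i) % 8 = i := by omega
    rw [Nat.testBit_and, h2, testBit_ofD (by norm_num) (fun _ _ => by norm_num; exact hM), e1, e2]
      at h1
    simp only [hj, decide_true, Bool.true_and] at h1
    rw [show (256 : ℕ) = 2 ^ 8 by norm_num, shr_mod_testBit _ _ _ _ hi]
    exact h1
  · have : Nat.testBit M i = false := Nat.testBit_lt_two_pow (lt_of_lt_of_le hM
      (by
        calc (256 : ℕ) = 2 ^ 8 := by norm_num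
          _ ≤ 2 ^ i := Nat.pow_le_pow_right (by norm_num) (by omega)))
    rw [this, Bool.and_false]

lemma b240 : ∀ x < 256, x &&& 240 = 0 → x ≤ 15 := by decide +kernel
lemma b224 : ∀ x < 256, x &&& 224 = 0 → x ≤ 31 := by decide +kernel

lemma dig_le {t B n : ℕ} (h1 : t < 2 ^ (8 * n)) (h : ∀ j < n, (t >>> (8 * j)) % 256 ≤ B) (x : ℕ) :
    dig t x ≤ B := by
  by_cases hx : x < n
  · exact h x hx
  · change (t >>> (8 * x)) % 256 ≤ B
    have : t < 2 ^ (8 * x) := lt_of_lt_of_le h1 (Nat.pow_le_pow_right (by norm_num) (by omega))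
    rw [Nat.shiftRight_eq_div_pow, Nat.div_eq_of_lt this]
    simp

lemma bytes (n : ℕ) : ∀ x : ℕ, x < 2 ^ (8 * n) → x = ofD 8 (fun i => (x >>> (8 * i)) % 256) n := by
  induction n with
  | zero => intro x hx; simp at hx; rw [hx]; simp [ofD]
  | succ n ih =>
    intro x hx
    rw [ofD_cons]
    have h1 : x >>> 8 < 2 ^ (8 * n) := by
      rw [Nat.shiftRight_eq_div_pow, Nat.div_lt_iff_lt_mul (by norm_num), ← pow_add]
      rwa [show 8 * n + 8 = 8 * (n + 1) by ring]
    have h2 := ih _ h1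
    have h3 : ∀ i, (x >>> 8) >>> (8 * i) = x >>> (8 * (i + 1)) := by
      intro i
      rw [← Nat.shiftRight_add]
      congr 1
      ring
    simp only [h3] at h2
    rw [← h2, mul_zero, Nat.shiftRight_zero, Nat.shiftRight_eq_div_pow]
    have := Nat.mod_add_div x 256
    omega

section

variable {s : RN} {rd : RD}

lemma slot_le (hs : SD s rd) {R B M : ℕ} (hM : M < 256)
    (h : Nat.land R (M * rep 8 (rd.len2 * rd.len3 * rd.rows.length)) = 0)
    (hB : ∀ x < 256, x &&& M = 0 → x ≤ B) {p1 p2 k : ℕ} (h1 : p1 < rd.rows.length)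
    (h2 : p2 < rd.len2) (h3 : k < rd.len3) :
    (slc R s.w rd.len3 p1 p2 >>> (8 * k)) % 256 ≤ B := by
  have e : (slc R s.w rd.len3 p1 p2 >>> (8 * k)) % 256 =
      (R >>> (8 * (rd.len2 * rd.len3 * p1 + (p2 * rd.len3 + k)))) % 256 := by
    unfold slc
    have hk : p2 * rd.len3 + k + 1 ≤ rd.len2 * rd.len3 := by
      calc p2 * rd.len3 + k + 1 ≤ p2 * rd.len3 + rd.len3 := by omega
        _ = (p2 + 1) * rd.len3 := by ring
        _ ≤ rd.len2 * rd.len3 := Nat.mul_le_mul_right _ h2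
    rw [show (256 : ℕ) = 2 ^ 8 by norm_num, shr_mod _ _ _ _ (by omega), ← Nat.shiftRight_add,
      show 8 * rd.len3 * p2 + 8 * k = 8 * (p2 * rd.len3 + k) by ring,
      shr_mod _ _ _ _ (by rw [hs.w]; omega), ← Nat.shiftRight_add, hs.w]
    congr 2
    ring
  rw [e]
  apply byte_le hM h hB
  have hk : p2 * rd.len3 + k + 1 ≤ rd.len2 * rd.len3 := by
    calc p2 * rd.len3 + k + 1 ≤ p2 * rd.len3 + rd.len3 := by omega
      _ = (p2 + 1) * rd.len3 := by ring
      _ ≤ rd.len2 * rd.len3 := Nat.mul_le_mul_right _ h2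
  calc rd.len2 * rd.len3 * p1 + (p2 * rd.len3 + k) < rd.len2 * rd.len3 * p1 + rd.len2 * rd.len3 := by
        omega
    _ = rd.len2 * rd.len3 * (p1 + 1) := by ring
    _ ≤ rd.len2 * rd.len3 * rd.rows.length := Nat.mul_le_mul_left _ h1

/-- check of the third character -/
lemma t3_of (h1 : Nat.ble (Nat.succ rd.t3) (2 ^ (8 * 20)) = true)
    (h2 : Nat.land rd.t3 (224 * rep 8 20) = 0) (x : ℕ) : dig rd.t3 x ≤ 31 :=
  dig_le (Nat.le_of_ble_eq_true h1) (fun _ hj => byte_le (by norm_num) h2 b224 hj) x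

theorem sm32 (hs : SD s rd) (hF : s.F = 32) (h3 : rd.len3 = 1)
    (hms : s.ms = (2 ^ 32 - 1) * (1 + 2 ^ 32))
    (hX : Nat.land s.RX (224 * rep 8 (rd.len2 * rd.len3 * rd.rows.length)) = 0)
    (hY : Nat.land s.RY (224 * rep 8 (rd.len2 * rd.len3 * rd.rows.length)) = 0)
    (h1 : Nat.ble (Nat.succ rd.t3) (2 ^ (8 * 20)) = true)
    (h2 : Nat.land rd.t3 (224 * rep 8 20) = 0) : SM s rd 31 where
  t3 := t3_of h1 h2
  ex := by
    refine ⟨32, by omega, by rw [hms, hF], ?_, ?_⟩
    · intro k hk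
      rw [h3] at hk
      omega
    · intro R hR w hw p1 hp1 p2 hp2 k hk
      have hk0 : k = 0 := by rw [h3] at hk; omega
      have hle : (slc R s.w rd.len3 p1 p2 >>> (8 * k)) % 256 ≤ 31 := by
        rcases hR with rfl | rfl
        · exact slot_le hs (by norm_num) hX b224 hp1 hp2 hk
        · exact slot_le hs (by norm_num) hY b224 hp1 hp2 hk
      have hlt : slc R s.w rd.len3 p1 p2 < 256 := by
        unfold slc
        rw [h3]
        exact Nat.mod_lt _ (by norm_num)
      subst hk0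
      rw [mul_zero, Nat.shiftRight_zero, Nat.shiftRight_zero, Nat.mod_eq_of_lt hlt]
      rw [mul_zero, Nat.shiftRight_zero, Nat.mod_eq_of_lt hlt] at hle
      have hw19 := hs.l19
      have hprod : w * slc R s.w rd.len3 p1 p2 ≤ 18 * 31 := Nat.mul_le_mul (by omega) hle
      have e32 : (2 : ℕ) ^ 32 = 4294967296 := by norm_num
      refine ⟨?_, ?_, hle⟩
      · apply Nat.mod_eq_of_lt
        omega
      · rw [hF]
        omega

theorem sm8 (hs : SD s rd) (hl : rd.l ≤ 13)
    (hms : s.ms = (2 ^ 8 - 1) * (1 + 2 ^ s.F))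
    (hX : Nat.land s.RX (240 * rep 8 (rd.len2 * rd.len3 * rd.rows.length)) = 0)
    (hY : Nat.land s.RY (240 * rep 8 (rd.len2 * rd.len3 * rd.rows.length)) = 0)
    (h1 : Nat.ble (Nat.succ rd.t3) (2 ^ (8 * 20)) = true)
    (h2 : Nat.land rd.t3 (224 * rep 8 20) = 0) : SM s rd 31 where
  t3 := t3_of h1 h2
  ex := by
    have hF := hs.F
    have hF3 := hs.F3
    refine ⟨8, by omega, hms, ?_, ?_⟩
    · intro k hk
      omega
    · intro R hR w hw p1 hp1 p2 hp2 k hk
      have hle : ∀ k < rd.len3, (slc R s.w rd.len3 p1 p2 >>> (8 * k)) % 256 ≤ 15 := by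
        intro k hk
        rcases hR with rfl | rfl
        · exact slot_le hs (by norm_num) hX b240 hp1 hp2 hk
        · exact slot_le hs (by norm_num) hY b240 hp1 hp2 hk
      have hlt : slc R s.w rd.len3 p1 p2 < 2 ^ (8 * rd.len3) := Nat.mod_lt _ (by positivity)
      have hd := bytes rd.len3 _ hlt
      have hmul : w * slc R s.w rd.len3 p1 p2 = ofD 8 (fun i => w *
          ((slc R s.w rd.len3 p1 p2 >>> (8 * i)) % 256)) rd.len3 := by
        conv_lhs => rw [hd]
        unfold ofD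
        rw [Finset.mul_sum]
        apply Finset.sum_congr rfl
        intro i _
        ring
      have hb : ∀ i < rd.len3, w * ((slc R s.w rd.len3 p1 p2 >>> (8 * i)) % 256) < 2 ^ 8 := by
        intro i hi
        have hprod : w * ((slc R s.w rd.len3 p1 p2 >>> (8 * i)) % 256) ≤ 12 * 15 :=
          Nat.mul_le_mul (by omega) (hle i hi)
        have : (2 : ℕ) ^ 8 = 256 := by norm_num
        omega
      refine ⟨?_, ?_, (hle k hk).trans (by norm_num)⟩
      · rw [hmul]
        exact ofD_dig hb hk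
      · rw [hmul]
        exact lt_of_lt_of_le (ofD_lt hb) (Nat.pow_le_pow_right (by norm_num) hF3)

end

end Pool.Agent.LibH4.CX
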