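import Pool.Agent.Lib_helper4.CX.Dg
import Pool.Agent.Lib_helper4.CW.Pass

/-!
Constant words, all letters at once: strings of a relation.
-/

namespace Pool.Agent.LibH4.CX

open Finset Pool.Agent.Lib_helper5 Pool.Agent.Lib_helper5.LK Pool.Agent.LibH4.Ker
  Pool.Agent.LibH4.KF Pool.Agent.LibH4.T6 Pool.Agent.Lib_helper5.TB Pool.Agent.LibH4.S7
  Pool.Agent.LibH4.CW

/-! ### true records -/

/-- a true record -/
structure RT (par : Bool) (a : ℕ) (e : ℕ → ℤ × ℤ × ℤ) (n : ℕ) (r : Rc) : Prop where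
  ok : CmpOK (cof n)
  cn : (cof n).n = n
  la : r.a = a % n
  ts : TS par a e (cof n) (r.x1, r.x2)
  pi : 0 < r.pi
  per : ∀ i, hs n a (r.x1, r.x2) (i + r.pi) = hs n a (r.x1, r.x2) i
  tab : ∀ i < r.pi, d32 r.orb i = hE n (cof n).ex (cof n).PT a (r.x1, r.x2) i

section

variable {par : Bool} {a N n : ℕ} {e : ℕ → ℤ × ℤ × ℤ} {r : Rc}

lemma RT.pos (h : RT par a e n r) : 0 < n := by have := h.ok.pos; rwa [h.cn] at this

lemma RT.le (h : RT par a e n r) : n ≤ 256 := by have := h.ok.le; rw [h.cn] at this; omega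

lemma RT.bd (h : RT par a e n r) (i : ℕ) : Bd n (hs n a (r.x1, r.x2) i) := by
  have hx := (h.ok.F _ (List.mem_filter.1 h.ts.mem).1).1
  rw [h.cn] at hx
  exact Bd_hs h.pos hx i

lemma RT.d32 (h : RT par a e n r) (i : ℕ) :
    CW.d32 r.orb (i % r.pi) = hE n (cof n).ex (cof n).PT a (r.x1, r.x2) i := by
  rw [h.tab _ (Nat.mod_lt _ h.pi), hE_mod h.per]

lemma RT.e0 (h : RT par a e n r) (i : ℕ) :
    CW.d32 r.orb (i % r.pi) % 256 = pp (cof n) a (r.x1, r.x2) i := by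
  rw [h.d32]
  unfold hE pp
  rw [ent_pos h.pos h.le (h.bd i).1, h.cn]

lemma RT.e1 (h : RT par a e n r) (i : ℕ) :
    by1 (CW.d32 r.orb (i % r.pi)) = (hs n a (r.x1, r.x2) i).1 := by
  rw [h.d32]
  unfold hE
  rw [ent_by1 h.pos h.le (h.bd i).1]

lemma RT.e2 (h : RT par a e n r) (i : ℕ) :
    by2 (CW.d32 r.orb (i % r.pi)) =
      (hs n a (r.x1, r.x2) i).2.1 * iv n (cof n).ex (hs n a (r.x1, r.x2) i).2.2 % n := by
  rw [h.d32]
  unfold hE
  rw [ent_by2 h.pos h.le (h.bd i).1]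

lemma RT.e3 (h : RT par a e n r) (i : ℕ) :
    by3 (CW.d32 r.orb (i % r.pi)) =
      ((n - r.x2) % n) * iv n (cof n).ex (hs n a (r.x1, r.x2) i).2.2 % n := by
  rw [h.d32]
  unfold hE
  rw [ent_by3 h.pos h.le (h.bd i).1]

end

/-! ### the first two components -/

/-- digit of a step -/
def dA (l BF mW : ℕ) (x : (ℕ × ℕ) × ℕ) (E : ℕ) : ℕ :=
  pd BF mW x.1 (x.2 * ((E >>> 16) % 256) % l) (E % 65536)

lemma mL_spec (l BF W mW : ℕ) (fin : ℕ → ℕ) (g : ℕ → (ℕ × ℕ) × ℕ) (m E : ℕ) :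
    mL l BF (2 ^ W) mW fin ((List.range m).map g) E =
      ofD W (fun i => dA l BF mW (g i) (E >>> (24 * i))) m + 2 ^ (W * m) * fin (E >>> (24 * m)) := by
  induction m generalizing g E with
  | zero =>
    change fin E = _
    simp [ofD]
  | succ m ih =>
    have e : (List.range (m + 1)).map g = g 0 :: (List.range m).map fun k => g (k + 1) := by
      rw [List.range_succ_eq_map, List.map_cons, List.map_map]
      rfl
    have e2 : mL l BF (2 ^ W) mW fin (g 0 :: (List.range m).map fun k => g (k + 1)) E =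
      dA l BF mW (g 0) E + 2 ^ W * mL l BF (2 ^ W) mW fin ((List.range m).map fun k => g (k + 1))
        (E >>> 24) := rfl
    rw [e, e2, ih, ofD_cons, mul_add W m 1, mul_one, pow_add]
    have e3 : ∀ i, E >>> 24 >>> (24 * i) = E >>> (24 * (i + 1)) := by
      intro i
      rw [← Nat.shiftRight_add]
      congr 1
      ring
    simp only [e3, mul_zero, Nat.shiftRight_zero]
    ring

lemma mQ_spec (l BF W mW : ℕ) (g : ℕ → (ℕ × ℕ) × ℕ) (p : ℕ) (hg : ∀ i, g (i % p) = g i)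
    (q E : ℕ) : mQ l BF (2 ^ W) mW ((List.range p).map g) q E =
      ofD W (fun i => dA l BF mW (g i) (E >>> (24 * i))) (p * q) := by
  induction q generalizing E with
  | zero => simp [ofD, mQ]
  | succ q ih =>
    have e : mQ l BF (2 ^ W) mW ((List.range p).map g) (q + 1) E =
      mL l BF (2 ^ W) mW (mQ l BF (2 ^ W) mW ((List.range p).map g) q) ((List.range p).map g) E :=
        rfl
    rw [e, mL_spec, ih, mul_add p q 1, mul_one, add_comm (p * q) p, ofD_add]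
    congr 2
    apply ofD_congr
    intro i _
    rw [← Nat.shiftRight_add, ← mul_add, ← hg (p + i), Nat.add_mod_left, hg]

lemma cat_map {α β : Type} (V : ℕ) (f : β → ℕ) (g : α → β) (L : List α) :
    cat V f (L.map g) = cat V (fun x => f (g x)) L := by
  induction L with
  | nil => rfl
  | cons x L ih =>
    change f (g x) % V + V * cat V f (L.map g) = f (g x) % V + V * cat V (fun x => f (g x)) L
    rw [ih]

lemma cat_ofD (w : ℕ) (f : ℕ → ℕ) (n : ℕ) :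
    cat (2 ^ w) f (List.range n) = ofD w (fun i => f i % 2 ^ w) n := by
  induction n generalizing f with
  | zero => rfl
  | succ n ih =>
    rw [List.range_succ_eq_map]
    change f 0 % 2 ^ w + 2 ^ w * cat (2 ^ w) f ((List.range n).map Nat.succ) = _
    rw [cat_map, ih, ofD_cons]

/-- part of a row -/
def slc (R w len3 p1 p2 : ℕ) : ℕ :=
  (((R >>> (w * p1)) % 2 ^ w) >>> (8 * len3 * p2)) % 2 ^ (8 * len3)

/-- weight of the first two components -/
def wA (l t1 t2 n1 n2 a : ℕ) (x1 x2 : ℕ × ℕ) (i : ℕ) : ℕ :=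
  dig t1 (hs n1 a x1 i).1 * dig t2 (hs n2 a x2 i).1 % l

/-- static data of a relation -/
structure SD (s : RN) (rd : RD) : Prop where
  ok : RDOK rd
  l : s.l = rd.l
  t1 : s.t1 = rd.t1
  t2 : s.t2 = rd.t2
  t3 : s.t3 = rd.t3
  len3 : s.len3 = rd.len3
  w : s.w = 8 * (rd.len2 * rd.len3)
  V : s.V = 2 ^ s.w
  RX : s.RX = cat s.V (fun x => x.1) rd.rows
  RY : s.RY = cat s.V (fun x => x.2) rd.rows
  l19 : rd.l ≤ 19
  w2 : s.w2 = 2 * s.F
  mF : s.mF = 2 ^ s.F - 1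
  F : 32 ≤ s.F
  F3 : 8 * rd.len3 ≤ s.F

section

variable {par : Bool} {a N : ℕ} {e : ℕ → ℤ × ℤ × ℤ} {s : RN} {rd : RD} {r1 r2 r3 r : Rc}

lemma land_eq' (x F : ℕ) : Nat.land x (2 ^ F - 1) = x % 2 ^ F := Nat.and_two_pow_sub_one_eq_mod x F

lemma dig_lt (t x : ℕ) : dig t x < 256 := Nat.mod_lt _ (by norm_num)

/-- **string of the first two components** -/
theorem strA_spec (W : World par a e N) (hs' : SD s rd) (T1 : RT par a e rd.n1 r1)
    (T2 : RT par a e rd.n2 r2) :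
    strA s r1 r2 = ofD (2 * s.F) (fun i =>
      wA rd.l rd.t1 rd.t2 rd.n1 rd.n2 a (r1.x1, r1.x2) (r2.x1, r2.x2) i *
        slc s.RX s.w rd.len3 (pp (cof rd.n1) a (r1.x1, r1.x2) i) (pp (cof rd.n2) a (r2.x1, r2.x2) i) +
      2 ^ s.F * (wA rd.l rd.t1 rd.t2 rd.n1 rd.n2 a (r1.x1, r1.x2) (r2.x1, r2.x2) i *
        slc s.RY s.w rd.len3 (pp (cof rd.n1) a (r1.x1, r1.x2) i)
          (pp (cof rd.n2) a (r2.x1, r2.x2) i))) (Nat.lcm r1.pi r2.pi) := by
  set P := Nat.lcm r1.pi r2.pi with hP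
  set g : ℕ → (ℕ × ℕ) × ℕ := fun i => ((gX s.RX s.w s.V (d32 r1.orb (i % r1.pi)),
    gX s.RY s.w s.V (d32 r1.orb (i % r1.pi))), dig s.t1 (by1 (d32 r1.orb (i % r1.pi)))) with hg
  have eg : gL s r1 = (List.range r1.pi).map g := by
    unfold gL lazG
    rw [mapL_eq, rng_eq]
    apply List.map_congr_left
    intro i hi
    have := List.mem_range.1 hi
    simp only [hg, Nat.mod_eq_of_lt this]
  set E := cat (nat_lit 16777216) (CX.e2 s.len3 s.t2 r2.orb) (rng r2.pi) *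
    rep (24 * r2.pi) (P / r2.pi) with hE0
  have es : strA s r1 r2 = mQ s.l (2 ^ s.F) (2 ^ (2 * s.F)) (2 ^ (8 * s.len3) - 1) (gL s r1)
      (P / r1.pi) E := by
    unfold strA
    rw [lcmS_eq]
    rfl
  have hp1 : r1.pi * (P / r1.pi) = P := Nat.mul_div_cancel' (Nat.dvd_lcm_left _ _)
  have hp2 : r2.pi * (P / r2.pi) = P := Nat.mul_div_cancel' (Nat.dvd_lcm_right _ _)
  have hq := T1.ts.props W T1.ok
  have hq2 := T2.ts.props W T2.ok
  rw [es, eg, mQ_spec _ _ _ _ _ _ (fun i => by simp only [hg, Nat.mod_mod]), hp1]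
  apply ofD_congr
  intro i hi
  -- the digits of `E`
  have hlen := hs'.ok.len
  have p2lt : pp (cof rd.n2) a (r2.x1, r2.x2) i < rd.len2 := by rw [hs'.ok.l2]; exact (hq2 i).1
  have hoff : 8 * rd.len3 * pp (cof rd.n2) a (r2.x1, r2.x2) i + 8 * rd.len3 ≤
      8 * (rd.len2 * rd.len3) := by
    calc 8 * rd.len3 * pp (cof rd.n2) a (r2.x1, r2.x2) i + 8 * rd.len3 =
        8 * ((pp (cof rd.n2) a (r2.x1, r2.x2) i + 1) * rd.len3) := by ring
      _ ≤ 8 * (rd.len2 * rd.len3) := Nat.mul_le_mul_left _ (Nat.mul_le_mul_right _ p2lt)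
  have l3pos : 0 < rd.len3 := by
    rw [hs'.ok.l3]
    obtain ⟨x, T⟩ := W.exists_ts hs'.ok.k3
    exact List.length_pos_iff_exists_mem.2 ⟨x, (List.mem_filter.1 T.mem).1⟩
  have ho : 8 * rd.len3 * pp (cof rd.n2) a (r2.x1, r2.x2) i < 65536 := by omega
  have hd2 := dig_lt rd.t2 (hs rd.n2 a (r2.x1, r2.x2) i).1
  have eE : (E >>> (24 * i)) % 2 ^ 24 = 8 * rd.len3 * pp (cof rd.n2) a (r2.x1, r2.x2) i +
      65536 * dig rd.t2 (hs rd.n2 a (r2.x1, r2.x2) i).1 := by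
    have h24 : E = ofD 24 (fun j => CX.e2 s.len3 s.t2 r2.orb (j % r2.pi) % 2 ^ 24) P := by
      have h1 : cat (nat_lit 16777216) (CX.e2 s.len3 s.t2 r2.orb) (rng r2.pi) =
          ofD 24 (fun j => CX.e2 s.len3 s.t2 r2.orb j % 2 ^ 24) r2.pi := by
        rw [rng_eq]; exact cat_ofD 24 _ _
      rw [hE0, h1, ofD_rep (by norm_num) T2.pi, hp2]
    rw [h24, ofD_dig (fun j _ => Nat.mod_lt _ (by norm_num)) hi]
    have e1 : CX.e2 s.len3 s.t2 r2.orb (i % r2.pi) =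
        8 * s.len3 * (d32 r2.orb (i % r2.pi) % 256) + 65536 * dig s.t2 (by1 (d32 r2.orb (i % r2.pi))) :=
      rfl
    rw [e1, T2.e0, T2.e1, hs'.len3, hs'.t2]
    exact (split24 ho hd2).1
  have k1 : (E >>> (24 * i)) % 65536 = 8 * rd.len3 * pp (cof rd.n2) a (r2.x1, r2.x2) i := by
    rw [← Nat.mod_mod_of_dvd (E >>> (24 * i)) (show 65536 ∣ 2 ^ 24 by norm_num), eE]
    exact (split24 ho hd2).2.1
  have k2 : ((E >>> (24 * i)) >>> 16) % 256 = dig rd.t2 (hs rd.n2 a (r2.x1, r2.x2) i).1 := by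
    rw [show (256 : ℕ) = 2 ^ 8 by norm_num, ← shr_mod (E >>> (24 * i)) 24 16 8 (by norm_num), eE,
      (split24 ho hd2).2.2]
    exact Nat.mod_eq_of_lt hd2
  have gX' : ∀ R, gX R s.w s.V (d32 r1.orb (i % r1.pi)) =
      (R >>> (s.w * pp (cof rd.n1) a (r1.x1, r1.x2) i)) % 2 ^ s.w := by
    intro R
    change (R >>> (s.w * (d32 r1.orb (i % r1.pi) % 256))) % s.V = _
    rw [T1.e0, hs'.V]
  have ew : (g i).2 * (((E >>> (24 * i)) >>> 16) % 256) % s.l =
      wA rd.l rd.t1 rd.t2 rd.n1 rd.n2 a (r1.x1, r1.x2) (r2.x1, r2.x2) i := by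
    rw [k2]
    simp only [hg]
    rw [T1.e1, hs'.t1, hs'.l]
    rfl
  unfold dA
  rw [ew, k1]
  have epd : ∀ BF mW x w o, pd BF mW x w o = w * Nat.land (x.1 >>> o) mW +
      BF * (w * Nat.land (x.2 >>> o) mW) := fun _ _ _ _ _ => rfl
  rw [epd, hs'.len3, land_eq', land_eq']
  simp only [hg]
  rw [gX', gX']
  rfl

end

end Pool.Agent.LibH4.CX
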