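import Pool.Agent.Lib_helper4.CX.Dg
import Pool.Agent.Lib_helper4.CW.Str

/-!
Constant words, all letters at once: values of a relation.
-/

namespace Pool.Agent.LibH4.CX

open Finset Pool.Agent.LibH4.Ker Pool.Agent.Lib_helper5.TB Pool.Agent.LibH4.CW

lemma land_eq (x F : ℕ) : Nat.land x (2 ^ F - 1) = x % 2 ^ F := Nat.and_two_pow_sub_one_eq_mod x F

/-- the string of a relation -/
structure SOK (F L S : ℕ) (X Y : ℕ → ℕ) (B : ℕ) : Prop where
  eq : S = ofD (2 * F) (fun i => X i + 2 ^ F * Y i) L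
  bX : ∀ i < L, X i ≤ B
  bY : ∀ i < L, Y i ≤ B

/-- partial sum -/
def ES (X : ℕ → ℕ) (m : ℕ) : ℕ := ∑ i ∈ range m, X i

lemma ES_succ (X : ℕ → ℕ) (m : ℕ) : ES X (m + 1) = ES X m + X m := Finset.sum_range_succ _ _

lemma ES_le {X : ℕ → ℕ} {L B m : ℕ} (h : ∀ i < L, X i ≤ B) (hm : m ≤ L) : ES X m ≤ L * B := by
  have : ES X m ≤ m * B := by
    unfold ES
    calc ∑ i ∈ range m, X i ≤ ∑ _i ∈ range m, B :=
        Finset.sum_le_sum fun i hi => h i (by have := Finset.mem_range.1 hi; omega)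
      _ = m * B := by simp
  exact this.trans (Nat.mul_le_mul_right _ hm)

lemma two_field {F u v : ℕ} (hu : u < 2 ^ F) (hv : v < 2 ^ F) :
    u + 2 ^ F * v < 2 ^ (2 * F) := by
  rw [two_mul, pow_add]
  calc u + 2 ^ F * v < 2 ^ F + 2 ^ F * v := by omega
    _ = 2 ^ F * (v + 1) := by ring
    _ ≤ 2 ^ F * 2 ^ F := Nat.mul_le_mul_left _ hv

/-- second field of a digit -/
lemma field1 {F L n c : ℕ} {u v : ℕ → ℕ} (hu : ∀ i < L, u i < 2 ^ F) (hv : ∀ i < L, v i < 2 ^ F)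
    (hn : n < L) : ((ofD (2 * F) (fun i => u i + 2 ^ F * v i) L + 2 ^ (2 * F * L) * c) >>>
      (F + 2 * F * n)) % 2 ^ F = v n := by
  set W := ofD (2 * F) (fun i => u i + 2 ^ F * v i) L + 2 ^ (2 * F * L) * c with hW
  have hb : ∀ i < L, u i + 2 ^ F * v i < 2 ^ (2 * F) := fun i hi => two_field (hu i hi) (hv i hi)
  have h1 : W % 2 ^ (2 * F * L) = ofD (2 * F) (fun i => u i + 2 ^ F * v i) L :=
    CW.add_mod _ _ _ (ofD_lt hb)
  have h2 : (W >>> (2 * F * n)) % 2 ^ (2 * F) = u n + 2 ^ F * v n := by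
    rw [← shr_mod W (2 * F * L) (2 * F * n) (2 * F) (by nlinarith), h1]
    exact ofD_dig hb hn
  rw [add_comm F, Nat.shiftRight_add, ← shr_mod _ (2 * F) F F (by omega), h2,
    add_shr _ _ _ (hu n hn), Nat.mod_eq_of_lt (hv n hn)]

section

variable {F L S B : ℕ} {X Y : ℕ → ℕ}

lemma pair_add {W : ℕ} (F : ℕ) (u v u' v' : ℕ → ℕ) (L : ℕ) :
    ofD W (fun i => u i + 2 ^ F * v i) L + ofD W (fun i => u' i + 2 ^ F * v' i) L =
      ofD W (fun i => (u i + u' i) + 2 ^ F * (v i + v' i)) L := by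
  unfold ofD
  rw [← Finset.sum_add_distrib]
  apply Finset.sum_congr rfl
  intro i _
  ring

lemma pair_mul {W : ℕ} (F : ℕ) (u v : ℕ → ℕ) (L b : ℕ) :
    ofD W (fun i => u i + 2 ^ F * v i) L * b = ofD W (fun i => b * u i + 2 ^ F * (b * v i)) L := by
  unfold ofD
  rw [Finset.sum_mul]
  apply Finset.sum_congr rfl
  intro i _
  ring

lemma R_eq (F : ℕ) (X Y : ℕ → ℕ) (al L : ℕ) :
    ofD (2 * F) (fun m => ES X (m + 1) + 2 ^ F * ES Y (m + 1)) L * (al + 6 * 2 ^ F) =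
      ofD (2 * F) (fun m => (al * ES X (m + 1) + 6 * ES Y m) +
        2 ^ F * (al * ES Y (m + 1) + 6 * ES X (m + 1))) L + 2 ^ (2 * F * L) * (6 * ES Y L) := by
  induction L with
  | zero => simp [ofD, ES]
  | succ L ih =>
    rw [ofD_succ, ofD_succ, add_mul, ih, mul_add (2 * F) L 1, mul_one, pow_add, two_mul F, pow_add]
    ring

lemma prS_eq (hF : 0 < F) (h : SOK F L S X Y B) (hb : L * B < 2 ^ F) :
    prS F L S = ofD (2 * F) (fun m => ES X (m + 1) + 2 ^ F * ES Y (m + 1)) L := by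
  have e : prS F L S = S * rep (2 * F) L % 2 ^ (2 * F * L) := rfl
  have hsum : ∀ m, ∑ i ∈ range (m + 1), (X i + 2 ^ F * Y i) = ES X (m + 1) + 2 ^ F * ES Y (m + 1) := by
    intro m
    unfold ES
    rw [Finset.sum_add_distrib, Finset.mul_sum]
  rw [e, h.eq, prS_aux (by omega)]
  · apply ofD_congr
    intro m _
    exact hsum m
  · intro m hm
    rw [hsum]
    exact two_field (lt_of_le_of_lt (ES_le h.bX (by omega)) hb)
      (lt_of_le_of_lt (ES_le h.bY (by omega)) hb)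

/-- the value of a relation -/
lemma val_eq (hF : 0 < F) (h : SOK F L S X Y B) {al be ka : ℕ}
    (hb : (al + 6) * (L * B) + be * B + ka < 2 ^ F) {n : ℕ} (hn : n < L) :
    ((prS F L S * (al + 6 * 2 ^ F) + ka * (2 ^ F * rep (2 * F) L) + S * be) >>>
      (F + 2 * F * n)) % 2 ^ F = (6 * ES X (n + 1) + al * ES Y (n + 1)) + ka + be * Y n := by
  have hb1 : L * B < 2 ^ F := by
    have := Nat.le_mul_of_pos_left (L * B) (show 0 < al + 6 by omega)
    omega
  have e1 : ka * (2 ^ F * rep (2 * F) L) = ofD (2 * F) (fun _ => 0 + 2 ^ F * ka) L := by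
    rw [rep_eq (by omega)]
    unfold ofD
    rw [Finset.mul_sum, Finset.mul_sum]
    apply Finset.sum_congr rfl
    intro i _
    ring
  rw [prS_eq hF h hb1, R_eq, e1, h.eq, pair_mul]
  have e2 : ∀ A c B' C' : ℕ, A + c + B' + C' = A + B' + C' + c := by intro A c B' C'; ring
  rw [e2, pair_add, pair_add]
  have hES : ∀ m, m ≤ L → ES X m ≤ L * B := fun m hm => ES_le h.bX hm
  have hES' : ∀ m, m ≤ L → ES Y m ≤ L * B := fun m hm => ES_le h.bY hm
  rw [field1 _ _ hn]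
  · ring
  · intro i hi
    have h1 := hES (i + 1) (by omega)
    have h2 := hES' i (by omega)
    have h3 := h.bX i hi
    have h4 : al * ES X (i + 1) ≤ al * (L * B) := Nat.mul_le_mul_left _ h1
    have h5 : be * X i ≤ be * B := Nat.mul_le_mul_left _ h3
    have h6 : (al + 6) * (L * B) = al * (L * B) + 6 * (L * B) := by ring
    omega
  · intro i hi
    have h1 := hES (i + 1) (by omega)
    have h2 := hES' (i + 1) (by omega)
    have h3 := h.bY i hi
    have h4 : al * ES Y (i + 1) ≤ al * (L * B) := Nat.mul_le_mul_left _ h2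
    have h5 : be * Y i ≤ be * B := Nat.mul_le_mul_left _ h3
    have h6 : (al + 6) * (L * B) = al * (L * B) + 6 * (L * B) := by ring
    omega

/-- first fields -/
lemma fst_eq (h : SOK F L S X Y B) (hB : B < 2 ^ F) (hL : 0 < L) :
    S % 2 ^ F = X 0 ∧ (S >>> F) % 2 ^ F = Y 0 := by
  obtain ⟨M, rfl⟩ : ∃ M, L = M + 1 := ⟨L - 1, by omega⟩
  have hx := lt_of_le_of_lt (h.bX 0 hL) hB
  have hy := lt_of_le_of_lt (h.bY 0 hL) hB
  have e : S = X 0 + 2 ^ F * (Y 0 + 2 ^ F * ofD (2 * F) (fun i => X (i + 1) + 2 ^ F * Y (i + 1)) M) := by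
    rw [h.eq, ofD_cons, two_mul F, pow_add]
    ring
  constructor
  · rw [e, CW.add_mod _ _ _ hx]
  · rw [e, add_shr _ _ _ hx, CW.add_mod _ _ _ hy]

end

/-- value of a relation at a number -/
def VF (l al be ka c L : ℕ) (X Y : ℕ → ℕ) (n : ℕ) : ℕ :=
  ((6 * ES X (n % L + 1) + al * ES Y (n % L + 1)) + ka + be * Y (n % L) + n / L * c) % l

end Pool.Agent.LibH4.CX
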