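import Pool.Agent.Lib_helper4.CX.Sx
import Pool.Agent.Lib_helper4.CX.Vl

/-!
Constant words, all letters at once: strings of three components.
-/

namespace Pool.Agent.LibH4.CX

open Finset Pool.Agent.Lib_helper5 Pool.Agent.Lib_helper5.LK Pool.Agent.LibH4.Ker
  Pool.Agent.LibH4.KF Pool.Agent.LibH4.T6 Pool.Agent.Lib_helper5.TB Pool.Agent.LibH4.S7
  Pool.Agent.LibH4.CW

/-! ### fields -/

lemma nest (F : ℕ) (x y : ℕ → ℕ) (L : ℕ) : ofD (2 * F) (fun i => x i + 2 ^ F * y i) L =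
    ofD F (fun m => if m % 2 = 0 then x (m / 2) else y (m / 2)) (2 * L) := by
  induction L with
  | zero => rfl
  | succ L ih =>
    rw [ofD_succ, ih, mul_add 2 L 1, mul_one, ofD_succ, ofD_succ]
    have h1 : (2 * L) % 2 = 0 := by omega
    have h2 : (2 * L + 1) % 2 ≠ 0 := by omega
    have h3 : (2 * L) / 2 = L := by omega
    have h4 : (2 * L + 1) / 2 = L := by omega
    simp only [h1, h2, h3, h4, if_true, if_false]
    rw [show F * (2 * L + 1) = 2 * F * L + F by ring, pow_add,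
      show F * (2 * L) = 2 * F * L by ring]
    ring

lemma land_shr2 {F L s : ℕ} (hF : 0 < F) {x y m : ℕ → ℕ} (hx : ∀ i < L, x i < 2 ^ F)
    (hy : ∀ i < L, y i < 2 ^ F) (hm : ∀ i < L, m i < 2 ^ F)
    (hs : ∀ i < L, ∀ j, Nat.testBit (m i) j = true → s + j < F) :
    (ofD (2 * F) (fun i => x i + 2 ^ F * y i) L >>> s) &&&
      ofD (2 * F) (fun i => m i + 2 ^ F * m i) L =
      ofD (2 * F) (fun i => ((x i >>> s) &&& m i) + 2 ^ F * ((y i >>> s) &&& m i)) L := by
  rw [nest, nest, nest, land_shr hF]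
  · apply ofD_congr
    intro i _
    split_ifs <;> rfl
  · intro i hi
    have : i / 2 < L := by omega
    split_ifs
    · exact hx _ this
    · exact hy _ this
  · intro i hi
    have : i / 2 < L := by omega
    split_ifs
    · exact hm _ this
    · exact hm _ this
  · intro i hi j hj
    have h2 : i / 2 < L := by omega
    split_ifs at hj
    · exact hs _ h2 j hj
    · exact hs _ h2 j hj

lemma mask_eq {F p q j ms : ℕ} (hF : 0 < F) (hj : j < p) :
    ms * rep (2 * F * p) q * 2 ^ (2 * F * j) =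
      ofD (2 * F) (fun i => if i % p = j then ms else 0) (p * q) := by
  have h1 : ofD (2 * F) (fun i => if i = j then ms else 0) p = ms * 2 ^ (2 * F * j) := by
    unfold ofD
    rw [Finset.sum_eq_single j]
    · simp
    · intro b _ hb
      simp [hb]
    · intro h
      exact absurd (Finset.mem_range.2 hj) h
  rw [← ofD_rep (by omega) (by omega) (fun i => if i = j then ms else 0), h1]
  ring

lemma sJ_spec (t3 orb A B2 : ℕ) (n k m : ℕ) :
    sJ t3 orb A B2 ((List.range n).map (k + ·)) m = ∑ j ∈ range n,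
      dig t3 (by1 (d32 orb (k + j))) * ((A >>> (8 * (d32 orb (k + j) % 256))) &&& (m * B2 ^ j)) := by
  induction n generalizing k m with
  | zero => rfl
  | succ n ih =>
    have e : (List.range (n + 1)).map (k + ·) = (k + 0) :: (List.range n).map ((k + 1) + ·) := by
      rw [List.range_succ_eq_map, List.map_cons, List.map_map]
      congr 1
      apply List.map_congr_left
      intro i _
      simp only [Function.comp_apply]
      omega
    have e2 : sJ t3 orb A B2 ((k + 0) :: (List.range n).map ((k + 1) + ·)) m =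
        dig t3 (by1 (d32 orb (k + 0))) * ((A >>> (8 * (d32 orb (k + 0) % 256))) &&& m) +
        sJ t3 orb A B2 ((List.range n).map ((k + 1) + ·)) (m * B2) := rfl
    rw [e, e2, ih, Finset.sum_range_succ', add_comm]
    congr 1
    · apply Finset.sum_congr rfl
      intro j _
      rw [show k + 1 + j = k + (j + 1) by ring, pow_succ' B2 j, mul_assoc]
    · rw [pow_zero, mul_one]

lemma ofD_sum {w L : ℕ} (p : ℕ) (c : ℕ → ℕ) (f : ℕ → ℕ → ℕ) :
    ∑ j ∈ range p, c j * ofD w (f j) L = ofD w (fun i => ∑ j ∈ range p, c j * f j i) L := by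
  unfold ofD
  simp only [Finset.mul_sum, Finset.sum_mul]
  rw [Finset.sum_comm]
  apply Finset.sum_congr rfl
  intro i _
  apply Finset.sum_congr rfl
  intro j _
  ring

/-- the mask of a relation -/
structure SM (s : RN) (rd : RD) (Bs : ℕ) : Prop where
  ex : ∃ b, b ≤ s.F ∧ s.ms = (2 ^ b - 1) * (1 + 2 ^ s.F) ∧ (∀ k < rd.len3, 8 * k + b ≤ s.F) ∧
    ∀ R, (R = s.RX ∨ R = s.RY) → ∀ w < rd.l, ∀ p1 < rd.rows.length, ∀ p2 < rd.len2,
      ∀ k < rd.len3, ((w * slc R s.w rd.len3 p1 p2) >>> (8 * k)) % 2 ^ b =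
        w * ((slc R s.w rd.len3 p1 p2 >>> (8 * k)) % 256) ∧
      w * slc R s.w rd.len3 p1 p2 < 2 ^ s.F ∧ (slc R s.w rd.len3 p1 p2 >>> (8 * k)) % 256 ≤ Bs
  t3 : ∀ x, dig rd.t3 x ≤ 31

section

variable {par : Bool} {a N : ℕ} {e : ℕ → ℤ × ℤ × ℤ} {s : RN} {rd : RD} {r1 r2 r3 r : Rc}

/-- value along the orbit -/
def XS (s : RN) (rd : RD) (R a : ℕ) (x1 x2 x3 : ℕ × ℕ) (i : ℕ) : ℕ :=
  dig rd.t3 (hs rd.n3 a x3 i).1 * (wA rd.l rd.t1 rd.t2 rd.n1 rd.n2 a x1 x2 i *
    ((slc R s.w rd.len3 (pp (cof rd.n1) a x1 i) (pp (cof rd.n2) a x2 i) >>>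
      (8 * pp (cof rd.n3) a x3 i)) % 256))

lemma ms_eq (b F : ℕ) : (2 ^ b - 1) * (1 + 2 ^ F) = (2 ^ b - 1) + 2 ^ F * (2 ^ b - 1) := by ring

/-- **string of three components** -/
theorem strS_spec (W : World par a e N) (hs' : SD s rd) {Bs : ℕ} (hm : SM s rd Bs)
    (T1 : RT par a e rd.n1 r1) (T2 : RT par a e rd.n2 r2) (T3 : RT par a e rd.n3 r3) {L : ℕ}
    (hL1 : r1.pi ∣ L) (hL2 : r2.pi ∣ L) (hL3 : r3.pi ∣ L) :
    SOK s.F L (strS s r1 r2 r3 L)
      (XS s rd s.RX a (r1.x1, r1.x2) (r2.x1, r2.x2) (r3.x1, r3.x2))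
      (XS s rd s.RY a (r1.x1, r1.x2) (r2.x1, r2.x2) (r3.x1, r3.x2)) (31 * (18 * Bs)) := by
  have hF : 0 < s.F := by have := hs'.F; omega
  have hl0 := hs'.ok.l0
  obtain ⟨⟨b, hbF, hms, hk, hw⟩, ht3⟩ := hm
  set P := Nat.lcm r1.pi r2.pi with hP
  have hPpos : 0 < P := Nat.lcm_pos T1.pi T2.pi
  have hPL : P ∣ L := Nat.lcm_dvd hL1 hL2
  have hq1 := T1.ts.props W T1.ok
  have hq2 := T2.ts.props W T2.ok
  have hq3 := T3.ts.props W T3.ok
  set x1 : ℕ × ℕ := (r1.x1, r1.x2) with hx1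
  set x2 : ℕ × ℕ := (r2.x1, r2.x2) with hx2
  set x3 : ℕ × ℕ := (r3.x1, r3.x2) with hx3
  set wi : ℕ → ℕ := wA rd.l rd.t1 rd.t2 rd.n1 rd.n2 a x1 x2 with hwi
  set sl : ℕ → ℕ → ℕ := fun R i => slc R s.w rd.len3 (pp (cof rd.n1) a x1 i)
    (pp (cof rd.n2) a x2 i) with hsl
  have hwl : ∀ i, wi i < rd.l := fun i => Nat.mod_lt _ hl0
  have hp1 : ∀ i, pp (cof rd.n1) a x1 i < rd.rows.length := fun i => by
    rw [hs'.ok.lr]; exact (hq1 i).1
  have hp2 : ∀ i, pp (cof rd.n2) a x2 i < rd.len2 := fun i => by rw [hs'.ok.l2]; exact (hq2 i).1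
  have hp3 : ∀ i, pp (cof rd.n3) a x3 i < rd.len3 := fun i => by rw [hs'.ok.l3]; exact (hq3 i).1
  have hRw : ∀ R, (R = s.RX ∨ R = s.RY) → ∀ i k, k < rd.len3 →
      ((wi i * sl R i) >>> (8 * k)) % 2 ^ b = wi i * ((sl R i >>> (8 * k)) % 256) ∧
      wi i * sl R i < 2 ^ s.F ∧ (sl R i >>> (8 * k)) % 256 ≤ Bs := fun R hR i k hk' =>
    hw R hR (wi i) (hwl i) _ (hp1 i) _ (hp2 i) k hk'
  have h30 : 0 < rd.len3 := lt_of_le_of_lt (Nat.zero_le _) (hp3 0)
  have per1 : ∀ i, hs rd.n1 a x1 (i % P) = hs rd.n1 a x1 i := per_dvd T1.per (Nat.dvd_lcm_left _ _)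
  have per2 : ∀ i, hs rd.n2 a x2 (i % P) = hs rd.n2 a x2 i := per_dvd T2.per (Nat.dvd_lcm_right _ _)
  have per3 : ∀ i, hs rd.n3 a x3 (i % r3.pi) = hs rd.n3 a x3 i := per_dvd T3.per (dvd_refl _)
  have pp1 : ∀ i, pp (cof rd.n1) a x1 (i % P) = pp (cof rd.n1) a x1 i := fun i => by
    unfold pp; rw [T1.cn, per1]
  have pp2 : ∀ i, pp (cof rd.n2) a x2 (i % P) = pp (cof rd.n2) a x2 i := fun i => by
    unfold pp; rw [T2.cn, per2]
  have wiP : ∀ i, wi (i % P) = wi i := fun i => by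
    simp only [hwi, wA, per1, per2]
  have slP : ∀ R i, sl R (i % P) = sl R i := fun R i => by
    simp only [hsl, pp1, pp2]
  -- the string of the first two components, repeated
  have hA : strA s r1 r2 * rep (2 * s.F * P) (L / P) =
      ofD (2 * s.F) (fun i => wi i * sl s.RX i + 2 ^ s.F * (wi i * sl s.RY i)) L := by
    rw [strA_spec W hs' T1 T2, ofD_rep (by omega) hPpos, Nat.mul_div_cancel' hPL]
    apply ofD_congr
    intro i _
    change wi (i % P) * sl s.RX (i % P) + 2 ^ s.F * (wi (i % P) * sl s.RY (i % P)) = _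
    rw [wiP, slP, slP]
  have e0 : strS s r1 r2 r3 L = sJ s.t3 r3.orb (strA s r1 r2 * rep (2 * s.F * P) (L / P))
      (2 ^ (2 * s.F)) (rng r3.pi) (s.ms * rep (2 * s.F * r3.pi) (L / r3.pi)) := by
    unfold strS
    rw [lcmS_eq]
    rfl
  have hrng : rng r3.pi = (List.range r3.pi).map (0 + ·) := by
    rw [rng_eq]; simp
  have hL3' : r3.pi * (L / r3.pi) = L := Nat.mul_div_cancel' hL3
  set mk : ℕ → ℕ → ℕ := fun j i => if i % r3.pi = j then 2 ^ b - 1 else 0 with hmk
  have hmask : ∀ j < r3.pi, s.ms * rep (2 * s.F * r3.pi) (L / r3.pi) * (2 ^ (2 * s.F)) ^ j =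
      ofD (2 * s.F) (fun i => mk j i + 2 ^ s.F * mk j i) L := by
    intro j hj
    rw [← pow_mul, mask_eq hF hj, hL3']
    apply ofD_congr
    intro i _
    simp only [hmk]
    split_ifs
    · rw [hms, ms_eq]
    · rfl
  have hpow : 2 ^ b - 1 < 2 ^ s.F := by
    have h1 : 2 ^ b ≤ 2 ^ s.F := Nat.pow_le_pow_right (by norm_num) hbF
    have h2 : 0 < 2 ^ b := by positivity
    omega
  refine ⟨?_, ?_, ?_⟩
  · rw [e0, hrng, sJ_spec, hA]
    have hterm : ∀ j ∈ range r3.pi, dig s.t3 (by1 (d32 r3.orb (0 + j))) *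
        ((ofD (2 * s.F) (fun i => wi i * sl s.RX i + 2 ^ s.F * (wi i * sl s.RY i)) L >>>
          (8 * (d32 r3.orb (0 + j) % 256))) &&&
          (s.ms * rep (2 * s.F * r3.pi) (L / r3.pi) * (2 ^ (2 * s.F)) ^ j)) =
        dig rd.t3 (hs rd.n3 a x3 j).1 * ofD (2 * s.F) (fun i =>
          if i % r3.pi = j then wi i * ((sl s.RX i >>> (8 * pp (cof rd.n3) a x3 i)) % 256) +
            2 ^ s.F * (wi i * ((sl s.RY i >>> (8 * pp (cof rd.n3) a x3 i)) % 256)) else 0) L := by
      intro j hj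
      have hj' := Finset.mem_range.1 hj
      rw [zero_add, hmask j hj']
      have t1 := T3.e1 j
      have t0 := T3.e0 j
      rw [Nat.mod_eq_of_lt hj'] at t1 t0
      rw [t1, t0, hs'.t3]
      congr 1
      rw [land_shr2 hF]
      · apply ofD_congr
        intro i _
        by_cases hi : i % r3.pi = j
        · have hpp : pp (cof rd.n3) a (r3.x1, r3.x2) j = pp (cof rd.n3) a x3 i := by
            unfold pp
            rw [T3.cn, ← hi]
            change pos _ _ _ (hs rd.n3 a x3 (i % r3.pi)).1 _ _ = _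
            rw [← per3 i]
          have h1 := hRw s.RX (Or.inl rfl) i _ (hp3 i)
          have h2 := hRw s.RY (Or.inr rfl) i _ (hp3 i)
          simp only [hmk, hi, if_true]
          rw [hpp, Nat.and_two_pow_sub_one_eq_mod, Nat.and_two_pow_sub_one_eq_mod, h1.1, h2.1]
        · simp only [hmk, hi, if_false, Nat.and_zero, mul_zero, add_zero]
      · intro i _
        exact (hRw s.RX (Or.inl rfl) i 0 h30).2.1
      · intro i _
        exact (hRw s.RY (Or.inr rfl) i 0 h30).2.1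
      · intro i _
        simp only [hmk]
        split_ifs
        · exact hpow
        · positivity
      · intro i _ k hk'
        simp only [hmk] at hk'
        split_ifs at hk' with h
        · rw [Nat.testBit_two_pow_sub_one] at hk'
          have h1 := of_decide_eq_true hk'
          have h2 := hk _ (hp3 j)
          change 8 * pp (cof rd.n3) a x3 j + k < s.F
          omega
        · simp at hk'
    rw [Finset.sum_congr rfl hterm, ofD_sum]
    apply ofD_congr
    intro i _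
    rw [Finset.sum_eq_single (i % r3.pi)]
    · rw [if_pos rfl, per3]
      change _ = dig rd.t3 (hs rd.n3 a x3 i).1 * (wi i * ((sl s.RX i >>>
        (8 * pp (cof rd.n3) a x3 i)) % 256)) + 2 ^ s.F * (dig rd.t3 (hs rd.n3 a x3 i).1 *
          (wi i * ((sl s.RY i >>> (8 * pp (cof rd.n3) a x3 i)) % 256)))
      ring
    · intro j _ hj
      rw [if_neg (fun h => hj h.symm), mul_zero]
    · intro h
      exact absurd (Finset.mem_range.2 (Nat.mod_lt _ T3.pi)) h
  · intro i _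
    have h1 := (hRw s.RX (Or.inl rfl) i _ (hp3 i)).2.2
    have h2 := ht3 (hs rd.n3 a x3 i).1
    have h3 : wi i ≤ 18 := by have := hwl i; have := hs'.l19; omega
    change dig rd.t3 (hs rd.n3 a x3 i).1 * (wi i * ((sl s.RX i >>>
        (8 * pp (cof rd.n3) a x3 i)) % 256)) ≤ _
    exact Nat.mul_le_mul h2 (Nat.mul_le_mul h3 h1)
  · intro i _
    have h1 := (hRw s.RY (Or.inr rfl) i _ (hp3 i)).2.2
    have h2 := ht3 (hs rd.n3 a x3 i).1
    have h3 : wi i ≤ 18 := by have := hwl i; have := hs'.l19; omega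
    change dig rd.t3 (hs rd.n3 a x3 i).1 * (wi i * ((sl s.RY i >>>
        (8 * pp (cof rd.n3) a x3 i)) % 256)) ≤ _
    exact Nat.mul_le_mul h2 (Nat.mul_le_mul h3 h1)

end

end Pool.Agent.LibH4.CX
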